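import Pool.Agent.Helper84.AA.Fin

/-!
# AA-24: the size of `Delta`, and few prime divisors

PROOFS.  `delta_bound`: let `h` be a trace polynomial of degree `g ≥ 1`, `H = h - h(0)`.  `|h.coeff i| ≤ B₀ := (8 q)^g`
(`h.coeff i = ± e_{g-i}` of real roots of absolute value `≤ 2√q`: `≤ C(g,i) (2√q)^(g-i) ≤ 2^g (2√q)^g ≤ (8q)^g` for `q ≥ 1`;
`Polynomial.coeff_le_of_roots_le` / `coeff_bdd_of_roots_le`).  `|evE|, |odO| ≤ (g+1)(8q)^g (4q)^g`.  All the coefficients of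
`G = (H-E)^2 - 4qO^2` have absolute value at most `(g+1)(B₀ + |E|)^2 + 4 q |O|^2 ≤ B₁ := (100 q)^(12 g)`, those of `H'` at most
`g B₀ ≤ B₁`.  The Sylvester matrix has size `2g + (g-1) ≤ 3g`, entries at most `B₁`, so (`Matrix.det_le`)
`|Res| ≤ (3g)! B₁^(3g) ≤ (3g)^(3g) (100q)^(36 g^2)`.  Everything is `≤ exp(C g^2)` with `C = C(q)`.
(For `g = 1` the derivative is `1`; `H = X`; fine.  Any `C` will do, be generous.)
`small_sum`: `∏_{l ∈ P} l ∣ Δ` (distinct primes), so `z^|P| ≤ |Δ|`, `|P| ≤ |P| log z ≤ log |Δ|` as `z ≥ 3`, each `1/l ≤ 1/z`.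
-/

open Polynomial

namespace Pool.Agent.Helper84.AA

theorem coeff_bd {q g : ℕ} (hq : 1 ≤ q) {h : ℤ[X]} (hh : IsTrace q g h) (i : ℕ) :
    |h.coeff i| ≤ (4 * q : ℤ) ^ g := by
  obtain ⟨hs, hm, hd, hc, hr⟩ := trace_real hh
  have h1 : (1 : ℝ) ≤ q := by exact_mod_cast hq
  have key := coeff_bdd_of_roots_le (B := 2 * q) (d := g) (Int.castRingHom ℝ) hh.1 hs hh.2.1.le
    (fun x hx => by
      rw [Real.norm_eq_abs]
      apply abs_le_of_sq_le_sq _ (by positivity)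
      have := hr x hx
      nlinarith) i
  rw [coeff_map, Real.norm_eq_abs, max_eq_left (by linarith)] at key
  have h2 : ((g.choose (g / 2) : ℕ) : ℝ) ≤ 2 ^ g := by exact_mod_cast Nat.choose_le_two_pow g _
  have h3 : |((h.coeff i : ℤ) : ℝ)| ≤ (4 * (q : ℝ)) ^ g := by
    calc |((h.coeff i : ℤ) : ℝ)| ≤ (2 * (q : ℝ)) ^ g * ((g.choose (g / 2) : ℕ) : ℝ) := by
          simpa using key
      _ ≤ (2 * (q : ℝ)) ^ g * 2 ^ g := by gcongr
      _ = (4 * (q : ℝ)) ^ g := by rw [← mul_pow]; ring_nf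
  exact_mod_cast h3

theorem sub_coeff_bd {q g : ℕ} (hq : 1 ≤ q) {h : ℤ[X]} (hh : IsTrace q g h) (i : ℕ) :
    |(h - C (h.coeff 0)).coeff i| ≤ (4 * q : ℤ) ^ g := by
  rcases Nat.eq_zero_or_pos i with rfl | hi
  · simp only [coeff_sub, coeff_C_zero, sub_self, abs_zero]
    positivity
  · rw [coeff_sub, coeff_C_of_ne_zero hi.ne', sub_zero]
    exact coeff_bd hq hh i

theorem natDegree_le {q g : ℕ} {h : ℤ[X]} (hh : IsTrace q g h) :
    (h - C (h.coeff 0)).natDegree ≤ g := by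
  rw [natDegree_sub_C, hh.2.1]

/-- The general sum bound. -/
theorem sum_bd {q g : ℕ} (hq : 1 ≤ q) {H : ℤ[X]} (hd : H.natDegree ≤ g)
    (hc : ∀ i, |H.coeff i| ≤ (4 * q : ℤ) ^ g) (P : ℕ → Prop) [DecidablePred P] :
    |∑ j ∈ Finset.range (H.natDegree + 1),
      if P j then H.coeff j * (4 * (q : ℤ)) ^ (j / 2) else 0| ≤ (32 * q ^ 2 : ℤ) ^ g := by
  have hq' : (1 : ℤ) ≤ q := by exact_mod_cast hq
  calc |∑ j ∈ Finset.range (H.natDegree + 1),
      if P j then H.coeff j * (4 * (q : ℤ)) ^ (j / 2) else 0|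
      ≤ ∑ j ∈ Finset.range (H.natDegree + 1),
        |if P j then H.coeff j * (4 * (q : ℤ)) ^ (j / 2) else 0| := Finset.abs_sum_le_sum_abs _ _
    _ ≤ ∑ j ∈ Finset.range (H.natDegree + 1), (4 * (q : ℤ)) ^ g * (4 * (q : ℤ)) ^ g := by
        apply Finset.sum_le_sum
        intro j hj
        rw [Finset.mem_range] at hj
        split_ifs
        · rw [abs_mul]
          apply mul_le_mul (hc j) _ (abs_nonneg _) (by positivity)
          rw [abs_of_nonneg (by positivity)]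
          exact pow_le_pow_right₀ (by linarith) (by omega)
        · rw [abs_zero]; positivity
    _ = ((H.natDegree + 1 : ℕ) : ℤ) * ((4 * (q : ℤ)) ^ g * (4 * (q : ℤ)) ^ g) := by
        rw [Finset.sum_const, Finset.card_range, nsmul_eq_mul]
    _ ≤ 2 ^ g * ((4 * (q : ℤ)) ^ g * (4 * (q : ℤ)) ^ g) := by
        apply mul_le_mul_of_nonneg_right _ (by positivity)
        have : H.natDegree + 1 ≤ 2 ^ g := by
          have := Nat.lt_two_pow_self (n := g)
          omega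
        exact_mod_cast this
    _ = (32 * q ^ 2 : ℤ) ^ g := by
        rw [← mul_pow, ← mul_pow]; ring_nf

theorem evE_bd {q g : ℕ} (hq : 1 ≤ q) {H : ℤ[X]} (hd : H.natDegree ≤ g)
    (hc : ∀ i, |H.coeff i| ≤ (4 * q : ℤ) ^ g) : |evE q H| ≤ (32 * q ^ 2 : ℤ) ^ g :=
  sum_bd hq hd hc _

theorem odO_bd {q g : ℕ} (hq : 1 ≤ q) {H : ℤ[X]} (hd : H.natDegree ≤ g)
    (hc : ∀ i, |H.coeff i| ≤ (4 * q : ℤ) ^ g) : |odO q H| ≤ (32 * q ^ 2 : ℤ) ^ g :=
  sum_bd hq hd hc _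

theorem Gpol_coeff_bd {q g : ℕ} (hq : 1 ≤ q) {H : ℤ[X]} (hd : H.natDegree ≤ g)
    (hc : ∀ i, |H.coeff i| ≤ (4 * q : ℤ) ^ g) {n : ℕ} (hn : n ≤ 3 * g) :
    |(Gpol q H).coeff n| ≤ ((12 * g + 4 + 4 * q : ℕ) : ℤ) * ((32 * q ^ 2 : ℤ) ^ g) ^ 2 := by
  set E : ℤ := (32 * q ^ 2 : ℤ) ^ g with hE
  have hq' : (1 : ℤ) ≤ q := by exact_mod_cast hq
  have hE0 : 0 ≤ E := by positivity
  have hBE : (4 * q : ℤ) ^ g ≤ E := by
    apply pow_le_pow_left₀ (by positivity)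
    nlinarith
  have h1 : ∀ i, |(H - C (evE q H)).coeff i| ≤ 2 * E := by
    intro i
    rw [coeff_sub]
    have ha := hc i
    have hb := evE_bd hq hd hc
    have hcC : |(C (evE q H)).coeff i| ≤ E := by
      rw [coeff_C]
      split_ifs
      · exact hb
      · simpa using hE0
    calc |H.coeff i - (C (evE q H)).coeff i| ≤ |H.coeff i| + |(C (evE q H)).coeff i| := abs_sub _ _
      _ ≤ E + E := add_le_add (ha.trans hBE) hcC
      _ = 2 * E := by ring
  have h2 : |((H - C (evE q H)) ^ 2).coeff n| ≤ ((n + 1 : ℕ) : ℤ) * (2 * E) ^ 2 := by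
    rw [sq, coeff_mul]
    refine (Finset.abs_sum_le_sum_abs _ _).trans ?_
    refine (Finset.sum_le_card_nsmul _ _ ((2 * E) ^ 2) ?_).trans ?_
    · intro x _
      rw [abs_mul, sq]
      exact mul_le_mul (h1 _) (h1 _) (abs_nonneg _) (mul_nonneg (by norm_num) hE0)
    · rw [Finset.Nat.card_antidiagonal, nsmul_eq_mul]
  have h3 : |(C (4 * (q : ℤ) * odO q H ^ 2)).coeff n| ≤ 4 * q * E ^ 2 := by
    rw [coeff_C]
    split_ifs
    · rw [abs_mul, abs_of_nonneg (show (0 : ℤ) ≤ 4 * q by positivity), abs_pow]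
      have := odO_bd hq hd hc
      gcongr
    · simp only [abs_zero]; positivity
  have h4 : (n : ℤ) ≤ 3 * g := by exact_mod_cast hn
  have hE2 : 0 ≤ E ^ 2 := by positivity
  calc |(Gpol q H).coeff n| ≤ |((H - C (evE q H)) ^ 2).coeff n| +
        |(C (4 * (q : ℤ) * odO q H ^ 2)).coeff n| := by
        rw [Gpol, coeff_sub]; exact abs_sub _ _
    _ ≤ ((n + 1 : ℕ) : ℤ) * (2 * E) ^ 2 + 4 * q * E ^ 2 := add_le_add h2 h3
    _ ≤ ((12 * g + 4 + 4 * q : ℕ) : ℤ) * E ^ 2 := by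
        push_cast
        nlinarith

theorem deriv_coeff_bd {q g : ℕ} (hq : 1 ≤ q) {H : ℤ[X]}
    (hc : ∀ i, |H.coeff i| ≤ (4 * q : ℤ) ^ g) {n : ℕ} (hn : n ≤ 3 * g) :
    |(derivative H).coeff n| ≤ ((12 * g + 4 + 4 * q : ℕ) : ℤ) * ((32 * q ^ 2 : ℤ) ^ g) ^ 2 := by
  set E : ℤ := (32 * q ^ 2 : ℤ) ^ g with hE
  have hq' : (1 : ℤ) ≤ q := by exact_mod_cast hq
  have hE1 : 1 ≤ E := one_le_pow₀ (by nlinarith)
  have hBE : (4 * q : ℤ) ^ g ≤ E := by
    apply pow_le_pow_left₀ (by positivity)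
    nlinarith
  have h4 : (n : ℤ) ≤ 3 * g := by exact_mod_cast hn
  rw [coeff_derivative, abs_mul, abs_of_nonneg (show (0 : ℤ) ≤ (n : ℤ) + 1 by positivity)]
  calc |H.coeff (n + 1)| * ((n : ℤ) + 1) ≤ E * ((n : ℤ) + 1) := by
        apply mul_le_mul_of_nonneg_right ((hc _).trans hBE) (by positivity)
    _ ≤ E ^ 2 * ((12 * g + 4 + 4 * q : ℕ) : ℤ) := by
        apply mul_le_mul _ _ (by positivity) (by positivity)
        · nlinarith
        · push_cast; linarith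
    _ = _ := by ring

theorem sylv_bd {f k : ℤ[X]} {m n : ℕ} {N : ℕ} {B : ℤ} (hmn : m + n ≤ N) (hB : 0 ≤ B)
    (hf : ∀ i, i ≤ N → |f.coeff i| ≤ B) (hk : ∀ i, i ≤ N → |k.coeff i| ≤ B) (i j) :
    |sylvester f k m n i j| ≤ B := by
  have hi := i.2
  rw [sylvester, Matrix.of_apply]
  refine Fin.addCases (fun j₁ => ?_) (fun j₁ => ?_) j
  · rw [Fin.addCases_left]
    split_ifs
    · exact hk _ (by omega)
    · simpa using hB
  · rw [Fin.addCases_right]
    split_ifs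
    · exact hf _ (by omega)
    · simpa using hB

theorem res_bd {f k : ℤ[X]} {m n : ℕ} {N : ℕ} {B : ℤ} (hmn : m + n ≤ N) (hB : 1 ≤ B)
    (hf : ∀ i, i ≤ N → |f.coeff i| ≤ B) (hk : ∀ i, i ≤ N → |k.coeff i| ≤ B) :
    |resultant f k m n| ≤ ((N ^ N : ℕ) : ℤ) * B ^ N := by
  have h1 := Matrix.det_le (A := sylvester f k m n) (abv := AbsoluteValue.abs) (x := B)
    (fun i j => sylv_bd hmn (by linarith) hf hk i j)
  rw [Fintype.card_fin, nsmul_eq_mul] at h1
  change |resultant f k m n| ≤ _ at h1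
  refine h1.trans ?_
  apply mul_le_mul _ _ (by positivity) (by positivity)
  · have : (m + n).factorial ≤ N ^ N :=
      (Nat.factorial_le hmn).trans (Nat.factorial_le_pow N)
    exact_mod_cast this
  · exact pow_le_pow_right₀ hB hmn

theorem delta_bound (q : ℕ) (hq : 1 ≤ q) : ∃ c : ℝ, ∀ g : ℕ, 1 ≤ g → ∀ h : ℤ[X],
    IsTrace q g h → |((Delta q (h - C (h.coeff 0)) : ℤ) : ℝ)| ≤ Real.exp (c * g ^ 2) := by
  have hq' : (1 : ℝ) ≤ q := by exact_mod_cast hq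
  have hl1 : 0 ≤ Real.log (32 * q ^ 2) := Real.log_nonneg (by nlinarith)
  have hl2 : 0 ≤ Real.log (20 * q) := Real.log_nonneg (by nlinarith)
  have hl3 : 0 ≤ Real.log (2 * q) := Real.log_nonneg (by nlinarith)
  set a : ℝ := Real.log (32 * q ^ 2) with ha
  set b : ℝ := Real.log (20 * q) with hb
  refine ⟨Real.log (2 * q) + a + 9 + 3 * (b + 1 + 2 * a), ?_⟩
  intro g hg h hh
  have hg' : (1 : ℝ) ≤ g := by exact_mod_cast hg
  set H := h - C (h.coeff 0) with hH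
  have hd : H.natDegree ≤ g := natDegree_le hh
  have hc : ∀ i, |H.coeff i| ≤ (4 * q : ℤ) ^ g := sub_coeff_bd hq hh
  set B : ℤ := ((12 * g + 4 + 4 * q : ℕ) : ℤ) * ((32 * q ^ 2 : ℤ) ^ g) ^ 2 with hBdef
  have hGd : (Gpol q H).natDegree ≤ 2 * g := by
    rw [Gpol]
    refine natDegree_sub_C.le.trans ?_
    refine natDegree_pow_le.trans ?_
    rw [natDegree_sub_C]
    omega
  have hDd : (derivative H).natDegree ≤ g := (natDegree_derivative_le H).trans (by omega)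
  have hqz : (1 : ℤ) ≤ q := by exact_mod_cast hq
  have hB1 : 1 ≤ B := by
    have h1 : (1 : ℤ) ≤ ((12 * g + 4 + 4 * q : ℕ) : ℤ) := by
      exact_mod_cast (by omega : 1 ≤ 12 * g + 4 + 4 * q)
    have h2 : (1 : ℤ) ≤ ((32 * q ^ 2 : ℤ) ^ g) ^ 2 := one_le_pow₀ (one_le_pow₀ (by nlinarith))
    nlinarith
  have hres : |(Gpol q H).resultant (derivative H)| ≤
      (((3 * g) ^ (3 * g) : ℕ) : ℤ) * B ^ (3 * g) :=
    res_bd (by omega) hB1 (fun i hi => Gpol_coeff_bd hq hd hc hi)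
      (fun i hi => deriv_coeff_bd hq hc hi)
  have hO := odO_bd hq hd hc
  -- real versions
  have hE : (((32 * q ^ 2 : ℤ) ^ g : ℤ) : ℝ) = Real.exp (a * g) := by
    have h1 : Real.exp (a * g) = Real.exp a ^ g := by rw [mul_comm, Real.exp_nat_mul]
    rw [h1, ha, Real.exp_log (by positivity)]
    push_cast
    rfl
  have hBr : (B : ℝ) ≤ Real.exp ((b + 1 + 2 * a) * g) := by
    rw [hBdef, Int.cast_mul, Int.cast_pow, hE]
    have h1 : (((12 * g + 4 + 4 * q : ℕ) : ℤ) : ℝ) ≤ Real.exp ((b + 1) * g) := by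
      have h2 : (20 * q : ℝ) ≤ Real.exp (b * g) := by
        have : (20 * q : ℝ) = Real.exp b := by rw [hb, Real.exp_log (by positivity)]
        rw [this]
        apply Real.exp_le_exp.mpr
        nlinarith
      have h3 : (g : ℝ) ≤ Real.exp (1 * g) := by
        have := Real.add_one_le_exp (1 * (g : ℝ))
        linarith
      calc (((12 * g + 4 + 4 * q : ℕ) : ℤ) : ℝ) = 12 * g + 4 + 4 * q := by push_cast; ring
        _ ≤ 20 * q * g := by nlinarith
        _ ≤ Real.exp (b * g) * Real.exp (1 * g) := by gcongr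
        _ = Real.exp ((b + 1) * g) := by rw [← Real.exp_add]; ring_nf
    calc (((12 * g + 4 + 4 * q : ℕ) : ℤ) : ℝ) * Real.exp (a * g) ^ 2
        ≤ Real.exp ((b + 1) * g) * Real.exp (a * g) ^ 2 := by gcongr
      _ = Real.exp ((b + 1 + 2 * a) * g) := by
        rw [sq, ← Real.exp_add, ← Real.exp_add]; ring_nf
  have hB0 : (0 : ℝ) ≤ B := by exact_mod_cast (by linarith : (0 : ℤ) ≤ B)
  have hresr : |(((Gpol q H).resultant (derivative H) : ℤ) : ℝ)| ≤
      Real.exp (9 * g ^ 2) * Real.exp (3 * (b + 1 + 2 * a) * g ^ 2) := by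
    have h1 : |(((Gpol q H).resultant (derivative H) : ℤ) : ℝ)| ≤
        ((3 * g : ℕ) : ℝ) ^ (3 * g) * (B : ℝ) ^ (3 * g) := by
      exact_mod_cast hres
    refine h1.trans ?_
    gcongr
    · have h2 : ((3 * g : ℕ) : ℝ) ≤ Real.exp (3 * g) := by
        have := Real.add_one_le_exp (3 * (g : ℝ))
        push_cast
        linarith
      calc ((3 * g : ℕ) : ℝ) ^ (3 * g) ≤ Real.exp (3 * g) ^ (3 * g) := by gcongr
        _ = Real.exp (9 * g ^ 2) := by
          rw [← Real.exp_nat_mul]; congr 1; push_cast; ring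
    · calc (B : ℝ) ^ (3 * g) ≤ Real.exp ((b + 1 + 2 * a) * g) ^ (3 * g) := by gcongr
        _ = Real.exp (3 * (b + 1 + 2 * a) * g ^ 2) := by
          rw [← Real.exp_nat_mul]; congr 1; push_cast; ring
  have hOr : |((odO q H : ℤ) : ℝ)| ≤ Real.exp (a * g ^ 2) := by
    have h1 : |((odO q H : ℤ) : ℝ)| ≤ Real.exp (a * g) := by
      rw [← hE]; exact_mod_cast hO
    refine h1.trans (Real.exp_le_exp.mpr ?_)
    have : (g : ℝ) ≤ g ^ 2 := by nlinarith
    exact mul_le_mul_of_nonneg_left this hl1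
  have h2q : |((2 * q : ℝ))| ≤ Real.exp (Real.log (2 * q) * g ^ 2) := by
    rw [abs_of_nonneg (by positivity)]
    calc (2 * q : ℝ) = Real.exp (Real.log (2 * q)) := by rw [Real.exp_log (by positivity)]
      _ ≤ _ := Real.exp_le_exp.mpr (le_mul_of_one_le_right hl3 (by nlinarith))
  calc |((Delta q H : ℤ) : ℝ)| = |((2 * q : ℝ))| * |((odO q H : ℤ) : ℝ)| *
        |(((Gpol q H).resultant (derivative H) : ℤ) : ℝ)| := by
        rw [← abs_mul, ← abs_mul, Delta]; push_cast; rfl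
    _ ≤ Real.exp (Real.log (2 * q) * g ^ 2) * Real.exp (a * g ^ 2) *
        (Real.exp (9 * g ^ 2) * Real.exp (3 * (b + 1 + 2 * a) * g ^ 2)) := by gcongr
    _ = Real.exp ((Real.log (2 * q) + a + 9 + 3 * (b + 1 + 2 * a)) * g ^ 2) := by
        rw [← Real.exp_add, ← Real.exp_add, ← Real.exp_add]; congr 1; ring

theorem small_sum {D : ℤ} (hD : D ≠ 0) {z : ℕ} (hz : 3 ≤ z) (P : Finset ℕ)
    (hP : ∀ l ∈ P, l.Prime ∧ z < l ∧ (l : ℤ) ∣ D) :
    ∑ l ∈ P, (1 : ℝ) / l ≤ Real.log |(D : ℝ)| / z := by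
  have hz0 : (0 : ℝ) < z := by exact_mod_cast (by omega : 0 < z)
  have hz3 : (3 : ℝ) ≤ z := by exact_mod_cast hz
  have h1 : ∏ l ∈ P, l ∣ D.natAbs := by
    apply Finset.prod_primes_dvd
    · intro l hl; exact (hP l hl).1.prime
    · intro l hl
      have := (hP l hl).2.2
      exact Int.natCast_dvd.mp this
  have hD0 : 0 < D.natAbs := Int.natAbs_pos.mpr hD
  have h2 : z ^ P.card ≤ D.natAbs := by
    calc z ^ P.card = ∏ l ∈ P, z := by rw [Finset.prod_const]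
      _ ≤ ∏ l ∈ P, l := Finset.prod_le_prod' (fun l hl => (hP l hl).2.1.le)
      _ ≤ D.natAbs := Nat.le_of_dvd hD0 h1
  have h3 : ((z : ℝ)) ^ P.card ≤ |(D : ℝ)| := by
    have : ((z ^ P.card : ℕ) : ℝ) ≤ ((D.natAbs : ℕ) : ℝ) := by exact_mod_cast h2
    rw [Nat.cast_natAbs, Int.cast_abs] at this
    simpa using this
  have h4 : (P.card : ℝ) ≤ Real.log |(D : ℝ)| := by
    have h5 : Real.log ((z : ℝ) ^ P.card) ≤ Real.log |(D : ℝ)| :=
      Real.log_le_log (by positivity) h3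
    rw [Real.log_pow] at h5
    have h6 : 1 ≤ Real.log z := by
      rw [Real.le_log_iff_exp_le hz0]
      have := Real.exp_one_lt_d9
      linarith
    have h7 : (0 : ℝ) ≤ P.card := by positivity
    nlinarith
  calc ∑ l ∈ P, (1 : ℝ) / l ≤ ∑ l ∈ P, (1 : ℝ) / z := by
        apply Finset.sum_le_sum
        intro l hl
        have : (z : ℝ) ≤ l := by exact_mod_cast (hP l hl).2.1.le
        exact one_div_le_one_div_of_le hz0 this
    _ = P.card / z := by rw [Finset.sum_const, nsmul_eq_mul]; ring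
    _ ≤ _ := by gcongr

end Pool.Agent.Helper84.AA
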