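import Pool.Agent.Helper84.AA.Defs

/-!
# AA-14: adding tiny coordinates

PROOF.  Induction on `K`.  `K = 0`: from `∑ α_i^2 ≤ M^2` each `|α_i| ≤ M`.  Step: the set for `K + 1` contains all
`Fin.snoc y t` (casts: `n + (K+1) = (n+K)+1` definitionally) with `y` in the set for `K` and `|t| ≤ τ`:
`Apoly (snoc y t) z = Apoly y z + t z^(n+K+1)`.  The volume of `{snoc y t | y ∈ Y, |t| ≤ τ}` is
`volume Y * 2τ` (`volume_preserving_piFinSuccAbove (fun _ => ℝ) (Fin.last _)`; only `≤` in one direction is needed: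
`volume Y * volume (Icc (-τ) τ) = (volume.prod volume)(Y ×ˢ Icc) ≤ volume (image)`; the equivalence is a
measurable equivalence preserving the measures, so it holds for all sets).
-/

open MeasureTheory

namespace Pool.Agent.Helper84.AA

theorem box_volume (n K : ℕ) (m M τ : ℝ) (hM : 0 ≤ M) (hτ : 0 ≤ τ) :
    volume {α : Fin n → ℝ | (∀ z : ℂ, ‖z‖ ≤ 1 → m ≤ ‖Apoly α z‖) ∧ ∑ i, α i ^ 2 ≤ M ^ 2} *
        ENNReal.ofReal (2 * τ) ^ K ≤
      volume {y : Fin (n + K) → ℝ | (∀ z : ℂ, ‖z‖ ≤ 1 → m - K * τ ≤ ‖Apoly y z‖) ∧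
        (∀ i : Fin (n + K), (i : ℕ) < n → |y i| ≤ M) ∧
        ∀ i : Fin (n + K), n ≤ (i : ℕ) → |y i| ≤ τ} := by
  induction K with
  | zero =>
    rw [pow_zero, mul_one]
    apply measure_mono
    rintro α ⟨h1, h2⟩
    refine ⟨fun z hz => ?_, fun i _ => ?_, fun i hi => ?_⟩
    · rw [Nat.cast_zero, zero_mul, sub_zero]
      exact h1 z hz
    · have h3 : α i ^ 2 ≤ ∑ j, α j ^ 2 :=
        Finset.single_le_sum (f := fun j : Fin n => α j ^ 2) (fun j _ => sq_nonneg _)
          (Finset.mem_univ (i : Fin n))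
      exact abs_le_of_sq_le_sq (h3.trans h2) hM
    · exact absurd i.2 (by omega)
  | succ K ih =>
    rw [pow_succ (ENNReal.ofReal (2 * τ)) K, ← mul_assoc]
    refine (mul_le_mul' ih le_rfl).trans ?_
    set Y : Set (Fin (n + K) → ℝ) :=
      {y | (∀ z : ℂ, ‖z‖ ≤ 1 → m - K * τ ≤ ‖Apoly y z‖) ∧
        (∀ i : Fin (n + K), (i : ℕ) < n → |y i| ≤ M) ∧
        ∀ i : Fin (n + K), n ≤ (i : ℕ) → |y i| ≤ τ} with hY
    have hI : ENNReal.ofReal (2 * τ) = volume (Set.Icc (-τ) τ) := by
      rw [Real.volume_Icc]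
      congr 1
      ring
    have hpres := volume_preserving_piFinSuccAbove (fun _ : Fin (n + K + 1) => ℝ)
      (Fin.last (n + K))
    have h1 := hpres.measure_preimage_equiv (Set.Icc (-τ) τ ×ˢ Y)
    rw [Measure.volume_eq_prod, Measure.prod_prod] at h1
    rw [hI, mul_comm]
    refine (le_of_eq h1.symm).trans (measure_mono ?_)
    intro y hy
    obtain ⟨ht, hy'⟩ := hy
    have ht' : y (Fin.last (n + K)) ∈ Set.Icc (-τ) τ := ht
    have hYe : ((MeasurableEquiv.piFinSuccAbove (fun _ : Fin (n + K + 1) => ℝ)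
        (Fin.last (n + K))) y).2 = fun j : Fin (n + K) => y j.castSucc := by
      funext j
      change y ((Fin.last (n + K)).succAbove j) = y j.castSucc
      rw [Fin.succAbove_last]
    rw [hYe] at hy'
    have habs : |y (Fin.last (n + K))| ≤ τ := abs_le.2 ht'
    obtain ⟨g1, g2, g3⟩ := hy'
    refine ⟨fun z hz => ?_, fun i => ?_, fun i => ?_⟩
    · have h3 : Apoly y z = Apoly (fun j : Fin (n + K) => y j.castSucc) z +
          (y (Fin.last (n + K)) : ℂ) * z ^ (n + K + 1) := by
        unfold Apoly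
        rw [Fin.sum_univ_castSucc]
        simp only [Fin.val_castSucc, Fin.val_last]
        ring
      have h4 : ‖(y (Fin.last (n + K)) : ℂ) * z ^ (n + K + 1)‖ ≤ τ := by
        rw [norm_mul, Complex.norm_real, norm_pow, Real.norm_eq_abs]
        calc |y (Fin.last (n + K))| * ‖z‖ ^ (n + K + 1) ≤ τ * 1 :=
              mul_le_mul habs (pow_le_one₀ (norm_nonneg z) hz) (by positivity) hτ
          _ = τ := mul_one τ
      have h5 := g1 z hz
      have h6 := norm_sub_le (Apoly y z) ((y (Fin.last (n + K)) : ℂ) * z ^ (n + K + 1))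
      have h7 : Apoly y z - (y (Fin.last (n + K)) : ℂ) * z ^ (n + K + 1) =
          Apoly (fun j : Fin (n + K) => y j.castSucc) z := by
        rw [h3]
        ring
      rw [h7] at h6
      push_cast
      linarith
    · refine Fin.lastCases (fun h => ?_) (fun j h => ?_) i
      · have h' : n + K < n := h
        omega
      · exact g2 j h
    · refine Fin.lastCases (fun _ => habs) (fun j h => ?_) i
      exact g3 j h

end Pool.Agent.Helper84.AA
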