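import Pool.Agent.Helper84.AA.Mom

/-!
# AA-13: the good set has large volume

PROOF.  `Q = Qn n ≥ 1`, `D = Dn n ≥ 1`, `m = 1/(200 n^2 Q^2)`.  Let `N = ⌈400 π n^3.5 Q^2.5⌉` (or any integer with
`2 π n^(3/2) √Q / m ≤ N` and `16 N m^2 Q ≤ 1`: as `2π n^1.5 √Q/m = 400 π n^3.5 Q^2.5 ≤ 1257 n^4 Q^3` and
`16 Q m^2 = 16/(40000 n^4 Q^3)`, any integer `N` with `400 π n^3.5 Q^2.5 ≤ N ≤ 2500 n^4 Q^3` works; it is convenient to take
`N = ⌈1257 n^4 Q^3⌉₊`), `z_k = exp(2π i k/N)`.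
Bad events (measure `mu n`, `W = mu n univ`): `B_0 = {1 + ∑ α_i^2 > 4 Q}`: `mu n B_0 ≤ W/4` (Markov,
`mom_sq`).  `B_k = {‖Apoly α z_k‖ < 2 m}`: `mu n B_k ≤ 4 m^2 Q W` (Markov for `mom_inv`:
`(ofReal ‖A‖^2)⁻¹ > (4 m^2)⁻¹` on `B_k`), together at most `4 N m^2 Q W ≤ W/4`.  `Z = {not zero free}`: null
(`mu_zero_free`).  So the complement `S` of all these has `mu n S ≥ W/2` and by `mu_le` volume at least `W/(2D)`;
it is contained in the set of the theorem: let `α ∈ S`.  `|z| = 1`: some `z_k` has `|z - z_k| ≤ π/N`, and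
`|A(z) - A(z_k)| ≤ |z - z_k| ∑ (i+1)|α_i| ≤ (π/N) n^(3/2) 2 √Q ≤ m` (Cauchy-Schwarz, `∑_{i<n} (i+1)^2 ≤ n^3`,
`|z^j - w^j| ≤ j |z-w|` in the disc), so `|A(z)| ≥ m`.  In the disc: `A` has no zero in the closed disc, so `1/A`
is analytic there and `|1/A| ≤ 1/m` on the circle, hence in the disc (maximum principle).
No measurability problem: `mu n S ≥ W - mu n(bad)` with the bad set contained in a measurable set (`toMeasurable`) or
all the sets are measurable (`Apoly` continuous in `α`); for the final inequality `mu n T ≤ ofReal D * volume T` holds for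
all sets `T` (`Measure.le_iff'`).
-/

open MeasureTheory

namespace Pool.Agent.Helper84.AA

private theorem prod_one_le (n : ℕ) (f : ℕ → ℝ) (hf : ∀ j, 1 ≤ f j) :
    1 ≤ ∏ j ∈ Finset.range n, f j := by
  induction n with
  | zero => simp
  | succ n ih =>
    rw [Finset.prod_range_succ]
    nlinarith [hf n]

private theorem pow_sub_pow_le (z w : ℂ) (hz : ‖z‖ ≤ 1) (hw : ‖w‖ ≤ 1) (j : ℕ) :
    ‖z ^ j - w ^ j‖ ≤ j * ‖z - w‖ := by
  induction j with
  | zero => simp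
  | succ j ih =>
    have h1 : z ^ (j + 1) - w ^ (j + 1) = z * (z ^ j - w ^ j) + (z - w) * w ^ j := by ring
    rw [h1]
    calc ‖z * (z ^ j - w ^ j) + (z - w) * w ^ j‖ ≤
        ‖z * (z ^ j - w ^ j)‖ + ‖(z - w) * w ^ j‖ := norm_add_le _ _
      _ = ‖z‖ * ‖z ^ j - w ^ j‖ + ‖z - w‖ * ‖w‖ ^ j := by rw [norm_mul, norm_mul, norm_pow]
      _ ≤ 1 * (j * ‖z - w‖) + ‖z - w‖ * 1 := by
          apply add_le_add
          · exact mul_le_mul hz ih (norm_nonneg _) zero_le_one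
          · exact mul_le_mul_of_nonneg_left (pow_le_one₀ (norm_nonneg w) hw) (norm_nonneg _)
      _ = ((j + 1 : ℕ) : ℝ) * ‖z - w‖ := by push_cast; ring

private theorem Apoly_sub_le {n : ℕ} (α : Fin n → ℝ) (z w : ℂ) (hz : ‖z‖ ≤ 1) (hw : ‖w‖ ≤ 1)
    {s : ℝ} (hs : ∑ i, α i ^ 2 ≤ s) :
    ‖Apoly α z - Apoly α w‖ ^ 2 ≤ ‖z - w‖ ^ 2 * (s * (n : ℝ) ^ 3) := by
  have h1 : ‖Apoly α z - Apoly α w‖ ≤ ‖z - w‖ * ∑ i : Fin n, |α i| * ((i : ℕ) + 1 : ℝ) := by
    have h2 : Apoly α z - Apoly α w =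
        ∑ i : Fin n, (α i : ℂ) * (z ^ ((i : ℕ) + 1) - w ^ ((i : ℕ) + 1)) := by
      unfold Apoly
      simp only [mul_sub, Finset.sum_sub_distrib]
      ring
    rw [h2, Finset.mul_sum]
    refine (norm_sum_le _ _).trans (Finset.sum_le_sum fun i _ => ?_)
    rw [norm_mul, Complex.norm_real, Real.norm_eq_abs]
    have h3 := pow_sub_pow_le z w hz hw ((i : ℕ) + 1)
    push_cast at h3
    calc |α i| * ‖z ^ ((i : ℕ) + 1) - w ^ ((i : ℕ) + 1)‖ ≤ |α i| * (((i : ℕ) + 1) * ‖z - w‖) :=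
          mul_le_mul_of_nonneg_left h3 (abs_nonneg _)
      _ = ‖z - w‖ * (|α i| * ((i : ℕ) + 1 : ℝ)) := by ring
  have h4 : (∑ i : Fin n, |α i| * ((i : ℕ) + 1 : ℝ)) ^ 2 ≤ s * (n : ℝ) ^ 3 := by
    have h5 := Finset.sum_mul_sq_le_sq_mul_sq Finset.univ (fun i : Fin n => |α i|)
      (fun i : Fin n => ((i : ℕ) + 1 : ℝ))
    have h6 : ∑ i : Fin n, |α i| ^ 2 = ∑ i, α i ^ 2 :=
      Finset.sum_congr rfl fun i _ => sq_abs _
    have h7 : ∑ i : Fin n, ((i : ℕ) + 1 : ℝ) ^ 2 ≤ (n : ℝ) ^ 3 := by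
      calc ∑ i : Fin n, ((i : ℕ) + 1 : ℝ) ^ 2 ≤ ∑ _i : Fin n, (n : ℝ) ^ 2 := by
            refine Finset.sum_le_sum fun i _ => pow_le_pow_left₀ (by positivity) ?_ 2
            have h8 : (i : ℕ) + 1 ≤ n := i.2
            exact_mod_cast h8
        _ = (n : ℝ) ^ 3 := by
            rw [Finset.sum_const, Finset.card_univ, Fintype.card_fin, nsmul_eq_mul]
            ring
    rw [h6] at h5
    have h9 : (0 : ℝ) ≤ ∑ i : Fin n, ((i : ℕ) + 1 : ℝ) ^ 2 :=
      Finset.sum_nonneg fun i _ => sq_nonneg _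
    have h10 : (0 : ℝ) ≤ ∑ i, α i ^ 2 := Finset.sum_nonneg fun i _ => sq_nonneg _
    calc _ ≤ _ := h5
      _ ≤ s * (n : ℝ) ^ 3 := mul_le_mul hs h7 h9 (h10.trans hs)
  calc ‖Apoly α z - Apoly α w‖ ^ 2 ≤ (‖z - w‖ * ∑ i : Fin n, |α i| * ((i : ℕ) + 1 : ℝ)) ^ 2 :=
        pow_le_pow_left₀ (norm_nonneg _) h1 2
    _ = ‖z - w‖ ^ 2 * (∑ i : Fin n, |α i| * ((i : ℕ) + 1 : ℝ)) ^ 2 := by ring
    _ ≤ ‖z - w‖ ^ 2 * (s * (n : ℝ) ^ 3) := mul_le_mul_of_nonneg_left h4 (sq_nonneg _)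

/-- A point of the circle is close to a root of unity. -/
private theorem near_root (N : ℕ) (hN : 0 < N) (z : ℂ) (hz : ‖z‖ = 1) :
    ∃ ζ : ℂ, ζ ^ N = 1 ∧ ‖z - ζ‖ ≤ Real.pi / N := by
  have hNR : (0 : ℝ) < N := by exact_mod_cast hN
  set θ : ℝ := Complex.arg z with hθ
  have hz1 : z = Complex.exp (θ * Complex.I) := by
    have h1 := Complex.norm_mul_exp_arg_mul_I z
    rw [hz, Complex.ofReal_one, one_mul] at h1
    exact h1.symm
  set k : ℤ := round (θ * N / (2 * Real.pi)) with hk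
  set φ : ℝ := 2 * Real.pi * k / N with hφ
  refine ⟨Complex.exp (φ * Complex.I), ?_, ?_⟩
  · rw [← Complex.exp_nat_mul]
    have h2 : (N : ℂ) * ((φ : ℂ) * Complex.I) = (k : ℂ) * (2 * Real.pi * Complex.I) := by
      have hN0 : (N : ℂ) ≠ 0 := by exact_mod_cast hN.ne'
      rw [hφ]
      push_cast
      field_simp
    rw [h2]
    exact Complex.exp_int_mul_two_pi_mul_I k
  · have h3 : |θ - φ| ≤ Real.pi / N := by
      have h4 := abs_sub_round (θ * N / (2 * Real.pi))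
      rw [← hk] at h4
      have hpi := Real.pi_pos
      have h5 : θ - φ = (θ * N / (2 * Real.pi) - k) * (2 * Real.pi / N) := by
        rw [hφ]
        field_simp
      rw [h5, abs_mul, abs_of_pos (by positivity : 0 < 2 * Real.pi / N)]
      calc |θ * N / (2 * Real.pi) - k| * (2 * Real.pi / N) ≤ 1 / 2 * (2 * Real.pi / N) :=
            mul_le_mul_of_nonneg_right h4 (by positivity)
        _ = Real.pi / N := by ring
    have h6 : z - Complex.exp (φ * Complex.I) =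
        Complex.exp (φ * Complex.I) * (Complex.exp (Complex.I * ((θ - φ : ℝ) : ℂ)) - 1) := by
      rw [mul_sub, mul_one, ← Complex.exp_add, hz1]
      congr 2
      push_cast
      ring
    rw [h6, norm_mul, Complex.norm_exp_ofReal_mul_I, one_mul]
    refine (Real.norm_exp_I_mul_ofReal_sub_one_le).trans ?_
    rw [Real.norm_eq_abs]
    exact h3

private theorem Apoly_cont {n : ℕ} (z : ℂ) : Continuous fun α : Fin n → ℝ => Apoly α z := by
  unfold Apoly
  fun_prop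

private theorem Apoly_cont' {n : ℕ} (α : Fin n → ℝ) : Continuous fun z : ℂ => Apoly α z := by
  unfold Apoly
  fun_prop

private theorem Apoly_diff {n : ℕ} (α : Fin n → ℝ) : Differentiable ℂ fun z : ℂ => Apoly α z := by
  unfold Apoly
  fun_prop

/-- From the circle to the disc. -/
private theorem disc_of_circle {n : ℕ} (α : Fin n → ℝ) {m : ℝ} (hm : 0 < m)
    (h0 : ∀ z : ℂ, ‖z‖ ≤ 1 → Apoly α z ≠ 0) (h1 : ∀ z : ℂ, ‖z‖ = 1 → m ≤ ‖Apoly α z‖)
    (z : ℂ) (hz : ‖z‖ ≤ 1) : m ≤ ‖Apoly α z‖ := by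
  have hd : DiffContOnCl ℂ (fun w : ℂ => (Apoly α w)⁻¹) (Metric.ball 0 1) := by
    refine ⟨?_, ?_⟩
    · intro w hw
      have hw1 : ‖w‖ ≤ 1 := (mem_ball_zero_iff.1 hw).le
      exact ((Apoly_diff α w).inv (h0 w hw1)).differentiableWithinAt
    · rw [closure_ball _ one_ne_zero]
      intro w hw
      have hw1 : ‖w‖ ≤ 1 := mem_closedBall_zero_iff.1 hw
      exact ((Apoly_cont' α).continuousAt.inv₀ (h0 w hw1)).continuousWithinAt
  have h2 : ‖(Apoly α z)⁻¹‖ ≤ m⁻¹ := by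
    refine Complex.norm_le_of_forall_mem_frontier_norm_le Metric.isBounded_ball hd ?_ ?_
    · intro w hw
      rw [frontier_ball _ one_ne_zero, mem_sphere_zero_iff_norm] at hw
      rw [norm_inv]
      exact inv_anti₀ hm (h1 w hw)
    · rw [closure_ball _ one_ne_zero]
      exact mem_closedBall_zero_iff.2 hz
  rw [norm_inv] at h2
  exact (inv_le_inv₀ (norm_pos_iff.2 (h0 z hz)) hm).1 h2

theorem one_le_Qn (n : ℕ) : 1 ≤ Qn n := by
  refine prod_one_le n _ fun j => ?_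
  have h1 := win_pos j
  have h2 := win_le j
  have h3 : (0 : ℝ) < (1 - win j ^ 2) ^ 2 := by
    have : 0 < 1 - win j ^ 2 := by nlinarith
    positivity
  rw [le_div_iff₀ h3]
  have h4 : 0 ≤ win j ^ 2 := sq_nonneg _
  have h5 : win j ^ 2 ≤ 1 / 4 := by nlinarith
  nlinarith

theorem one_le_Dn (n : ℕ) : 1 ≤ Dn n := by
  refine prod_one_le n _ fun j => ?_
  have h1 := win_pos j
  have h2 := win_le j
  rw [Real.one_le_sqrt, le_div_iff₀ (by linarith)]
  linarith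

theorem good_volume {n : ℕ} (hn : 1 ≤ n) :
    ENNReal.ofReal (1 / (2 * Dn n) * ∏ j ∈ Finset.range n, Wj j) ≤
      volume {α : Fin n → ℝ | (∀ z : ℂ, ‖z‖ ≤ 1 → 1 / (200 * n ^ 2 * Qn n ^ 2) ≤ ‖Apoly α z‖) ∧
        ∑ i, α i ^ 2 ≤ 4 * Qn n} := by
  classical
  have hQ := one_le_Qn n
  have hD := one_le_Dn n
  set Q : ℝ := Qn n with hQd
  set D : ℝ := Dn n with hDd
  have hnR : (1 : ℝ) ≤ n := by exact_mod_cast hn
  have hn0 : (0 : ℝ) < n := by linarith
  have hQ0 : 0 < Q := by linarith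
  have hD0 : 0 < D := by linarith
  set m : ℝ := 1 / (200 * n ^ 2 * Q ^ 2) with hm
  have hm0 : 0 < m := by positivity
  set w : ℝ := ∏ j ∈ Finset.range n, Wj j with hw
  have hw0 : 0 < w := Finset.prod_pos fun j _ => Wj_pos j
  have hW : mu n Set.univ = ENNReal.ofReal w := mu_univ n
  set P : ℝ := (n : ℝ) ^ 4 * Q ^ 3 with hP
  have hP1 : 1 ≤ P := one_le_mul_of_one_le_of_one_le (one_le_pow₀ hnR) (one_le_pow₀ hQ)
  set N : ℕ := ⌈1257 * P⌉₊ with hN
  have hN1 : 1257 * P ≤ N := Nat.le_ceil _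
  have hN2 : (N : ℝ) ≤ 1258 * P := by
    have h1 : (N : ℝ) < 1257 * P + 1 := Nat.ceil_lt_add_one (by positivity)
    linarith
  have hN0R : (0 : ℝ) < N := by linarith
  have hN0 : 0 < N := by exact_mod_cast hN0R
  set T : Set (Fin n → ℝ) := {α | (∀ z : ℂ, ‖z‖ ≤ 1 → m ≤ ‖Apoly α z‖) ∧
    ∑ i, α i ^ 2 ≤ 4 * Q} with hT
  -- the bad events
  set B0 : Set (Fin n → ℝ) :=
    {α | ENNReal.ofReal (4 * Q) ≤ ENNReal.ofReal (1 + ∑ i, α i ^ 2)} with hB0
  set BB : ℂ → Set (Fin n → ℝ) := fun ζ =>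
    {α | (ENNReal.ofReal (4 * m ^ 2))⁻¹ ≤ (ENNReal.ofReal (‖Apoly α ζ‖ ^ 2))⁻¹} with hBB
  set Z : Set (Fin n → ℝ) := {α | ¬ ∀ z : ℂ, ‖z‖ ≤ 1 → Apoly α z ≠ 0} with hZ
  have hZ0 : mu n Z = 0 := ae_iff.1 (mu_zero_free n)
  -- Markov
  have hfin : ∀ S : Set (Fin n → ℝ), mu n S = ENNReal.ofReal ((mu n S).toReal) := fun S =>
    (ENNReal.ofReal_toReal (measure_ne_top _ _)).symm
  have hm1 : mu n B0 ≤ ENNReal.ofReal (w / 4) := by
    have hmeas : Measurable fun α : Fin n → ℝ => ENNReal.ofReal (1 + ∑ i, α i ^ 2) := by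
      apply ENNReal.measurable_ofReal.comp
      apply Continuous.measurable
      fun_prop
    have h1 := (mul_meas_ge_le_lintegral (μ := mu n) hmeas (ENNReal.ofReal (4 * Q))).trans
      (mom_sq n)
    rw [hW, ← hQd, hfin, ← ENNReal.ofReal_mul (by positivity), ← ENNReal.ofReal_mul hQ0.le,
      ENNReal.ofReal_le_ofReal_iff (by positivity)] at h1
    rw [hfin]
    apply ENNReal.ofReal_le_ofReal
    have h2 : Q * (4 * (mu n B0).toReal) ≤ Q * w := by
      calc Q * (4 * (mu n B0).toReal) = 4 * Q * (mu n B0).toReal := by ring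
        _ ≤ Q * w := h1
    have h3 := le_of_mul_le_mul_left h2 hQ0
    linarith
  have hm2 : ∀ ζ : ℂ, ‖ζ‖ = 1 → mu n (BB ζ) ≤ ENNReal.ofReal (4 * m ^ 2 * Q * w) := by
    intro ζ hζ
    have hmeas : Measurable fun α : Fin n → ℝ => (ENNReal.ofReal (‖Apoly α ζ‖ ^ 2))⁻¹ := by
      refine (ENNReal.measurable_ofReal.comp ?_).inv
      exact (((Apoly_cont ζ).norm).pow 2).measurable
    have h1 := (mul_meas_ge_le_lintegral (μ := mu n) hmeas (ENNReal.ofReal (4 * m ^ 2))⁻¹).trans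
      (mom_inv n ζ hζ)
    have h4m : 0 < 4 * m ^ 2 := by positivity
    rw [hW, ← hQd, hfin, ← ENNReal.ofReal_inv_of_pos h4m,
      ← ENNReal.ofReal_mul (by positivity), ← ENNReal.ofReal_mul hQ0.le,
      ENNReal.ofReal_le_ofReal_iff (by positivity)] at h1
    have h5 : mu n (BB ζ) = ENNReal.ofReal ((mu n (BB ζ)).toReal) := hfin _
    rw [h5]
    apply ENNReal.ofReal_le_ofReal
    have h6 : (mu n (BB ζ)).toReal ≤ 4 * m ^ 2 * (Q * w) := by
      have h7 : (4 * m ^ 2)⁻¹ * (mu n (BB ζ)).toReal ≤ Q * w := by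
        have h8 : BB ζ = {α | ENNReal.ofReal (4 * m ^ 2)⁻¹ ≤
            (ENNReal.ofReal (‖Apoly α ζ‖ ^ 2))⁻¹} := by
          rw [ENNReal.ofReal_inv_of_pos h4m]
        rw [h8]
        exact h1
      rw [inv_mul_eq_div, div_le_iff₀ h4m] at h7
      linarith
    linarith
  set F : Finset ℂ := Polynomial.nthRootsFinset N (1 : ℂ) with hF
  have hFcard : (F.card : ℝ) ≤ N := by
    have h1 : F.card ≤ N := by
      rw [hF, Polynomial.nthRootsFinset_def]
      exact (Multiset.toFinset_card_le _).trans (Polynomial.card_nthRoots N 1)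
    exact_mod_cast h1
  have hFn : ∀ ζ ∈ F, ‖ζ‖ = 1 := by
    intro ζ hζ
    rw [hF, Polynomial.mem_nthRootsFinset hN0] at hζ
    exact Complex.norm_eq_one_of_pow_eq_one hζ hN0.ne'
  have hm3 : ∑ ζ ∈ F, mu n (BB ζ) ≤ ENNReal.ofReal (w / 4) := by
    calc ∑ ζ ∈ F, mu n (BB ζ) ≤ ∑ _ζ ∈ F, ENNReal.ofReal (4 * m ^ 2 * Q * w) :=
          Finset.sum_le_sum fun ζ hζ => hm2 ζ (hFn ζ hζ)
      _ = ENNReal.ofReal (F.card * (4 * m ^ 2 * Q * w)) := by
          have h0 : ENNReal.ofReal ((F.card : ℝ) * (4 * m ^ 2 * Q * w)) =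
              ENNReal.ofReal (F.card : ℝ) * ENNReal.ofReal (4 * m ^ 2 * Q * w) :=
            ENNReal.ofReal_mul (Nat.cast_nonneg _)
          rw [Finset.sum_const, nsmul_eq_mul, h0, ENNReal.ofReal_natCast]
      _ ≤ ENNReal.ofReal (w / 4) := by
          apply ENNReal.ofReal_le_ofReal
          have h1 : 4 * m ^ 2 * Q = 1 / (10000 * P) := by
            rw [hm, hP]
            field_simp
            norm_num
          rw [h1]
          have hP0 : 0 < P := by linarith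
          calc (F.card : ℝ) * (1 / (10000 * P) * w) ≤ 1258 * P * (1 / (10000 * P) * w) :=
                mul_le_mul_of_nonneg_right (hFcard.trans hN2) (by positivity)
            _ = 1258 / 10000 * w := by field_simp
            _ ≤ w / 4 := by linarith
  -- the inclusion
  have hcov : (Set.univ : Set (Fin n → ℝ)) ⊆ T ∪ (B0 ∪ ((⋃ ζ ∈ F, BB ζ) ∪ Z)) := by
    intro α _
    by_contra hcon
    simp only [Set.mem_union, not_or, Set.mem_iUnion, not_exists] at hcon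
    obtain ⟨h1, h2, h3, h4⟩ := hcon
    apply h1
    have hzf : ∀ z : ℂ, ‖z‖ ≤ 1 → Apoly α z ≠ 0 := by
      by_contra h5
      exact h4 h5
    have hsum : 1 + ∑ i, α i ^ 2 < 4 * Q := by
      have h5 : ENNReal.ofReal (1 + ∑ i, α i ^ 2) < ENNReal.ofReal (4 * Q) := not_le.1 h2
      exact (ENNReal.ofReal_lt_ofReal_iff (by positivity)).1 h5
    have hsum' : ∑ i, α i ^ 2 ≤ 4 * Q := by linarith
    refine ⟨disc_of_circle α hm0 hzf ?_, hsum'⟩
    intro z hz
    obtain ⟨ζ, hζ, hzζ⟩ := near_root N hN0 z hz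
    have hζF : ζ ∈ F := by
      rw [hF, Polynomial.mem_nthRootsFinset hN0]
      exact hζ
    have hζ1 := hFn ζ hζF
    have h6 : 2 * m ≤ ‖Apoly α ζ‖ := by
      have h7 := h3 ζ hζF
      by_contra h8
      push Not at h8
      apply h7
      change (ENNReal.ofReal (4 * m ^ 2))⁻¹ ≤ (ENNReal.ofReal (‖Apoly α ζ‖ ^ 2))⁻¹
      rw [ENNReal.inv_le_inv]
      apply ENNReal.ofReal_le_ofReal
      nlinarith [norm_nonneg (Apoly α ζ)]
    have h9 := Apoly_sub_le α z ζ hz.le hζ1.le hsum'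
    have h10 : ‖Apoly α z - Apoly α ζ‖ ≤ m := by
      refine abs_le_of_sq_le_sq' ?_ hm0.le |>.2
      refine h9.trans ?_
      have h11 : ‖z - ζ‖ ^ 2 ≤ (Real.pi / N) ^ 2 := pow_le_pow_left₀ (norm_nonneg _) hzζ 2
      have h12 : (Real.pi / N) ^ 2 ≤ 3.1416 ^ 2 / (1257 * P) ^ 2 := by
        rw [div_pow]
        have hpi : Real.pi ≤ 3.1416 := Real.pi_lt_d4.le
        have hpi0 := Real.pi_pos
        exact div_le_div₀ (by positivity) (pow_le_pow_left₀ hpi0.le hpi 2) (by positivity)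
          (pow_le_pow_left₀ (by positivity) hN1 2)
      have h13 : 3.1416 ^ 2 / (1257 * P) ^ 2 * (4 * Q * (n : ℝ) ^ 3) ≤ m ^ 2 := by
        have h14 : m ^ 2 = 1 / (40000 * n ^ 4 * Q ^ 4) := by
          rw [hm]
          field_simp
          norm_num
        have h15 : 3.1416 ^ 2 / (1257 * P) ^ 2 * (4 * Q * (n : ℝ) ^ 3) =
            (3.1416 ^ 2 * 4 / 1257 ^ 2) / (n ^ 5 * Q ^ 5) := by
          rw [hP]
          field_simp
        rw [h14, h15, div_le_div_iff₀ (by positivity) (by positivity)]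
        have h16 : (3.1416 : ℝ) ^ 2 * 4 / 1257 ^ 2 * 40000 ≤ 1 := by norm_num
        have h17 : (n : ℝ) ^ 4 * Q ^ 4 ≤ n ^ 5 * Q ^ 5 :=
          mul_le_mul (pow_le_pow_right₀ hnR (by norm_num)) (pow_le_pow_right₀ hQ (by norm_num))
            (by positivity) (by positivity)
        have h18 : (0 : ℝ) ≤ (n : ℝ) ^ 4 * Q ^ 4 := by positivity
        calc (3.1416 : ℝ) ^ 2 * 4 / 1257 ^ 2 * (40000 * n ^ 4 * Q ^ 4) =
            ((3.1416 : ℝ) ^ 2 * 4 / 1257 ^ 2 * 40000) * (n ^ 4 * Q ^ 4) := by ring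
          _ ≤ 1 * (n ^ 4 * Q ^ 4) := mul_le_mul_of_nonneg_right h16 h18
          _ ≤ 1 * (n ^ 5 * Q ^ 5) := by linarith
      calc ‖z - ζ‖ ^ 2 * (4 * Q * (n : ℝ) ^ 3) ≤
          3.1416 ^ 2 / (1257 * P) ^ 2 * (4 * Q * (n : ℝ) ^ 3) :=
            mul_le_mul_of_nonneg_right (h11.trans h12) (by positivity)
        _ ≤ m ^ 2 := h13
    have h19 := norm_sub_norm_le (Apoly α ζ) (Apoly α z)
    rw [norm_sub_rev] at h10
    linarith
  have hmain : ENNReal.ofReal (w / 2) ≤ mu n T := by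
    have h1 : ENNReal.ofReal w ≤ mu n T + ENNReal.ofReal (w / 2) := by
      calc ENNReal.ofReal w = mu n Set.univ := hW.symm
        _ ≤ mu n (T ∪ (B0 ∪ ((⋃ ζ ∈ F, BB ζ) ∪ Z))) := measure_mono hcov
        _ ≤ mu n T + (mu n B0 + (mu n (⋃ ζ ∈ F, BB ζ) + mu n Z)) := by
            refine (measure_union_le _ _).trans (add_le_add le_rfl ?_)
            refine (measure_union_le _ _).trans (add_le_add le_rfl ?_)
            exact measure_union_le _ _
        _ ≤ mu n T + (ENNReal.ofReal (w / 4) + (ENNReal.ofReal (w / 4) + 0)) := by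
            refine add_le_add le_rfl (add_le_add hm1 (add_le_add ?_ hZ0.le))
            exact (measure_biUnion_finset_le F _).trans hm3
        _ = mu n T + ENNReal.ofReal (w / 2) := by
            rw [add_zero, ← ENNReal.ofReal_add (by positivity) (by positivity)]
            congr 2
            ring
    have h2 : ENNReal.ofReal (w / 2) + ENNReal.ofReal (w / 2) ≤
        mu n T + ENNReal.ofReal (w / 2) := by
      rw [← ENNReal.ofReal_add (by positivity) (by positivity), add_halves]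
      exact h1
    exact (ENNReal.add_le_add_iff_right ENNReal.ofReal_ne_top).1 h2
  have hle : mu n T ≤ ENNReal.ofReal D * volume T := Measure.le_iff'.1 (mu_le n) T
  have hfinal : ENNReal.ofReal (1 / (2 * D) * w) = ENNReal.ofReal (w / 2) / ENNReal.ofReal D := by
    rw [← ENNReal.ofReal_div_of_pos hD0]
    congr 1
    field_simp
  rw [hfinal]
  apply ENNReal.div_le_of_le_mul
  rw [mul_comm]
  exact hmain.trans hle

end Pool.Agent.Helper84.AA
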