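import Pool.Agent.Helper84.AA.Defs

/-!
# AA-06: the integrals `I_k` (Wallis)

PROOFS.  `Ik 0 = 2`.  `Ik (k+1) = (2k+2)/(2k+3) Ik k`: integrate by parts, or: the derivative of
`x (1-x^2)^(k+1)` is `(1-x^2)^(k+1) - 2(k+1) x^2 (1-x^2)^k = (2k+3)(1-x^2)^(k+1) - 2(k+1)(1-x^2)^k`
(`x^2 = 1 - (1 - x^2)`), and the integral of the derivative is `0`.
`a_k = I_k^2 (2k+1)` is increasing (`a_(k+1)/a_k = (2k+2)^2/((2k+3)(2k+1)) > 1`),
`b_k = I_k^2 (2k+2)` is decreasing (`b_(k+1)/b_k = (2k+2)^2 (2k+4)/((2k+3)^2 (2k+2)) =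
(2k+2)(2k+4)/(2k+3)^2 < 1`), `a_k ≤ b_k`.  So `a_j ≤ a_m ≤ b_m ≤ b_k`, `m = max j k`.
`Ik_lower`: `a_2 = 5 (16/15)^2 = 5.68.. ≥ 5.12 = 2 * 1.6^2`.  `Ik_le_two`: `0 ≤ (1-x^2)^k ≤ 1`.
-/

namespace Pool.Agent.Helper84.AA

theorem Ik_zero : Ik 0 = 2 := by
  unfold Ik
  norm_num

theorem Ik_succ (k : ℕ) : Ik (k + 1) = (2 * k + 2) / (2 * k + 3) * Ik k := by
  have hd : ∀ x ∈ Set.uIcc (-1 : ℝ) 1, HasDerivAt (fun x : ℝ => x * (1 - x ^ 2) ^ (k + 1))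
      ((2 * k + 3) * (1 - x ^ 2) ^ (k + 1) - (2 * k + 2) * (1 - x ^ 2) ^ k) x := by
    intro x _
    have h1 : HasDerivAt (fun x : ℝ => 1 - x ^ 2) (-(2 * x)) x := by
      have h2 := (hasDerivAt_pow 2 x).const_sub 1
      simpa using h2
    have h3 := (hasDerivAt_id x).mul (h1.pow (k + 1))
    have h4 : (2 * k + 3) * (1 - x ^ 2) ^ (k + 1) - (2 * k + 2) * (1 - x ^ 2) ^ k =
        1 * (1 - x ^ 2) ^ (k + 1) + x * (((k + 1 : ℕ) : ℝ) * (1 - x ^ 2) ^ k * -(2 * x)) := by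
      push_cast
      ring
    rw [h4]
    exact h3
  have hc1 : Continuous fun x : ℝ => (1 - x ^ 2) ^ (k + 1) := by fun_prop
  have hc2 : Continuous fun x : ℝ => (1 - x ^ 2) ^ k := by fun_prop
  have h1 := intervalIntegral.integral_eq_sub_of_hasDerivAt hd
    (((hc1.const_mul _).sub (hc2.const_mul _)).intervalIntegrable _ _)
  rw [intervalIntegral.integral_sub ((hc1.const_mul _).intervalIntegrable _ _)
    ((hc2.const_mul _).intervalIntegrable _ _), intervalIntegral.integral_const_mul,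
    intervalIntegral.integral_const_mul] at h1
  have h2 : (2 * (k : ℝ) + 3) * Ik (k + 1) - (2 * k + 2) * Ik k = 0 := by
    unfold Ik
    rw [h1]
    norm_num
  have h3 : (0 : ℝ) < 2 * k + 3 := by positivity
  rw [div_mul_eq_mul_div, eq_div_iff h3.ne']
  linarith

theorem Ik_pos (k : ℕ) : 0 < Ik k := by
  induction k with
  | zero => rw [Ik_zero]; norm_num
  | succ k ih => rw [Ik_succ]; positivity

private theorem ik_antitone : Antitone Ik := by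
  refine antitone_nat_of_succ_le fun k => ?_
  rw [Ik_succ]
  have h1 : (2 * (k : ℝ) + 2) / (2 * k + 3) ≤ 1 := by
    rw [div_le_one (by positivity)]
    linarith
  have h2 := mul_le_mul_of_nonneg_right h1 (Ik_pos k).le
  linarith

theorem Ik_anti {j k : ℕ} (h : j ≤ k) : Ik k ≤ Ik j := ik_antitone h

theorem Ik_le_two (k : ℕ) : Ik k ≤ 2 := by
  have h := Ik_anti (Nat.zero_le k)
  rwa [Ik_zero] at h

private theorem ik_a : Monotone fun k : ℕ => (2 * (k : ℝ) + 1) * Ik k ^ 2 := by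
  refine monotone_nat_of_le_succ fun k => ?_
  have h0 : 0 < Ik k ^ 2 := pow_pos (Ik_pos k) 2
  have h1 : (2 * (k : ℝ) + 1) ≤ (2 * ((k + 1 : ℕ) : ℝ) + 1) * ((2 * k + 2) / (2 * k + 3)) ^ 2 := by
    rw [div_pow, mul_div_assoc', le_div_iff₀ (by positivity)]
    push_cast
    have hk : (0 : ℝ) ≤ k := Nat.cast_nonneg k
    nlinarith
  change (2 * (k : ℝ) + 1) * Ik k ^ 2 ≤ (2 * ((k + 1 : ℕ) : ℝ) + 1) * Ik (k + 1) ^ 2
  rw [Ik_succ, mul_pow, ← mul_assoc]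
  exact mul_le_mul_of_nonneg_right h1 h0.le

private theorem ik_b : Antitone fun k : ℕ => (2 * (k : ℝ) + 2) * Ik k ^ 2 := by
  refine antitone_nat_of_succ_le fun k => ?_
  have h0 : 0 < Ik k ^ 2 := pow_pos (Ik_pos k) 2
  have h1 : (2 * ((k + 1 : ℕ) : ℝ) + 2) * ((2 * k + 2) / (2 * k + 3)) ^ 2 ≤ 2 * (k : ℝ) + 2 := by
    rw [div_pow, mul_div_assoc', div_le_iff₀ (by positivity)]
    push_cast
    have hk : (0 : ℝ) ≤ k := Nat.cast_nonneg k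
    nlinarith
  change (2 * ((k + 1 : ℕ) : ℝ) + 2) * Ik (k + 1) ^ 2 ≤ (2 * (k : ℝ) + 2) * Ik k ^ 2
  rw [Ik_succ, mul_pow, ← mul_assoc]
  exact mul_le_mul_of_nonneg_right h1 h0.le

theorem Ik_compare (j k : ℕ) : (2 * j + 1) * Ik j ^ 2 ≤ (2 * k + 2) * Ik k ^ 2 := by
  have h1 : (2 * (j : ℝ) + 1) * Ik j ^ 2 ≤
      (2 * ((max j k : ℕ) : ℝ) + 1) * Ik (max j k) ^ 2 := ik_a (le_max_left j k)
  have h2 : (2 * ((max j k : ℕ) : ℝ) + 2) * Ik (max j k) ^ 2 ≤ (2 * (k : ℝ) + 2) * Ik k ^ 2 :=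
    ik_b (le_max_right j k)
  have h3 : 0 < Ik (max j k) ^ 2 := pow_pos (Ik_pos _) 2
  linarith

theorem Ik_lower (k : ℕ) : 8 / 5 / √((k : ℝ) + 1) ≤ Ik k := by
  have h1 : Ik 1 = 4 / 3 := by
    have h := Ik_succ 0
    rw [Ik_zero] at h
    rw [show Ik 1 = Ik (0 + 1) from rfl, h]
    norm_num
  have h2 : Ik 2 = 16 / 15 := by
    have h := Ik_succ 1
    rw [h1] at h
    rw [show Ik 2 = Ik (1 + 1) from rfl, h]
    norm_num
  have h3 := Ik_compare 2 k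
  rw [h2] at h3
  have hk : (0 : ℝ) < (k : ℝ) + 1 := by positivity
  have hs : 0 < √((k : ℝ) + 1) := Real.sqrt_pos.2 hk
  rw [div_le_iff₀ hs]
  refine le_of_sq_le_sq ?_ (mul_pos (Ik_pos k) hs).le
  rw [mul_pow, Real.sq_sqrt hk.le]
  push_cast at h3
  nlinarith

end Pool.Agent.Helper84.AA
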