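import Pool.Agent.Helper84.AA.Step
import Pool.Agent.Helper84.AA.Ik

/-!
# AA-18: analytic estimates for the constants

PROOFS.
`Wj_lower`: `j ≥ 1000`, `w = win j = 4/√(j+1) ≤ 1/2`.  Substitute `κ = √2 τ`, `a = w/√2`, `a^2 = 8/(j+1) ≤ 1/8`:
`Wj j = √2 ∫_{-a}^{a} √((1-2τ^2)^j) dτ` and `1 - 2τ^2 = (1-τ^2)^2 (1 - s)`, `s = τ^4/(1-τ^2)^2 ≤ 84/(j+1)^2`, so
`√((1-2τ^2)^j) = (1-τ^2)^j √((1-s)^j) ≥ (1-τ^2)^j (1 - j s) ≥ (1-τ^2)^j (1 - 84/(j+1))` (`√x ≥ x` for `0 ≤ x ≤ 1`,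
Bernoulli).  And `∫_{-a}^{a} (1-τ^2)^j = Ik j - 2 ∫_a^1 (1-τ^2)^j`,
`∫_a^1 (1-τ^2)^j ≤ ∫_a^1 (τ/a)(1-τ^2)^j = (1-a^2)^(j+1)/(2a(j+1)) ≤ e^(-8)/(2 a (j+1))`, and
`1/(a (j+1)) = 1/√(8 (j+1)) ≤ (5/(8 √8)) Ik j` (`Ik_lower`), so twice the tail is at most `e^(-8) * 0.23 * Ik j ≤ 10^(-4) Ik j`.
`Dn_le`: `(1+w)/(1-w) ≤ exp(3 w)` for `0 ≤ w ≤ 1/2` (`exp(3w) ≥ 1 + 3w + 4.5 w^2`, or convexity; check
`(1+w) ≤ (1-w)(1+3w+4.5w^2)`: `(1-w)(1+3w+4.5w²) = 1+2w+1.5w²-4.5w³ ≥ 1 + w`), so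
`Dn n ≤ exp((3/2) ∑ 4/√(j+1)) ≤ exp(12 √n)` (`∑_{j<n} 1/√(j+1) ≤ 2√n`).
`Qn_le`: `(1+w²)/(1-w²)² ≤ exp(w²) exp(8w²/3) ≤ exp(4 w²)` (`1-x ≥ exp(-4x/3)` for `0 ≤ x ≤ 1/4`), `w² ≤ 16/(j+1)`, so
`Qn n ≤ exp(64 ∑_{j<n} 1/(j+1)) ≤ exp(64 (1 + log n)) ≤ (3 n)^64`.
-/

namespace Pool.Agent.Helper84.AA

private theorem wl_sq {j : ℕ} (hj : 1000 ≤ j) {τ : ℝ} (hτ : τ ^ 2 ≤ 8 / ((j : ℝ) + 1)) :
    (1 - 84 / ((j : ℝ) + 1)) * (1 - τ ^ 2) ^ j ≤ √((1 - (√2 * τ) ^ 2) ^ j) := by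
  have hjr : (1000 : ℝ) ≤ j := by exact_mod_cast hj
  have hj1 : (0 : ℝ) < (j : ℝ) + 1 := by linarith
  have h0 : (0 : ℝ) ≤ τ ^ 2 := sq_nonneg τ
  have hu : 8 / ((j : ℝ) + 1) ≤ 8 / 1001 := by
    apply div_le_div_of_nonneg_left (by norm_num) (by norm_num)
    linarith
  have hτ1 : τ ^ 2 ≤ 8 / 1001 := hτ.trans hu
  have hp : 0 < 1 - τ ^ 2 := by linarith
  have h84 : 84 / ((j : ℝ) + 1) ≤ 84 / 1001 := by
    apply div_le_div_of_nonneg_left (by norm_num) (by norm_num)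
    linarith
  have hc0 : 0 ≤ 1 - 84 / ((j : ℝ) + 1) := by linarith
  have hc84 : 0 ≤ 84 / ((j : ℝ) + 1) := by positivity
  apply Real.le_sqrt_of_sq_le
  have h2 : (√2 * τ) ^ 2 = 2 * τ ^ 2 := by
    rw [mul_pow, Real.sq_sqrt (by norm_num)]
  rw [h2]
  set s : ℝ := τ ^ 4 / (1 - τ ^ 2) ^ 2 with hs
  have hp2 : 0 < (1 - τ ^ 2) ^ 2 := by positivity
  have e1 : 1 - 2 * τ ^ 2 = (1 - τ ^ 2) ^ 2 * (1 - s) := by
    rw [hs, mul_sub, mul_div_cancel₀ _ hp2.ne']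
    ring
  have hs0 : 0 ≤ s := by positivity
  have hs1 : s * ((j : ℝ) + 1) ^ 2 ≤ 84 := by
    have h3 : τ ^ 2 * ((j : ℝ) + 1) ≤ 8 := by
      rwa [le_div_iff₀ hj1] at hτ
    have h4 : τ ^ 4 * ((j : ℝ) + 1) ^ 2 ≤ 64 := by
      have h5 : τ ^ 4 * ((j : ℝ) + 1) ^ 2 = (τ ^ 2 * ((j : ℝ) + 1)) ^ 2 := by ring
      rw [h5]
      have h6 : 0 ≤ τ ^ 2 * ((j : ℝ) + 1) := by positivity
      nlinarith
    have h7 : (64 : ℝ) / 84 ≤ (1 - τ ^ 2) ^ 2 := by nlinarith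
    rw [hs, div_mul_eq_mul_div, div_le_iff₀ hp2]
    linarith
  have hsj : s * j ≤ 84 / ((j : ℝ) + 1) := by
    rw [le_div_iff₀ hj1]
    have : s * j * ((j : ℝ) + 1) ≤ s * ((j : ℝ) + 1) ^ 2 := by
      have h8 : 0 ≤ s * ((j : ℝ) + 1) := by positivity
      nlinarith
    linarith
  have hs2 : s ≤ 1 := by
    have : s * 1 ≤ s * j := mul_le_mul_of_nonneg_left (by linarith) hs0
    linarith
  have hb : 1 - 84 / ((j : ℝ) + 1) ≤ (1 - s) ^ j := by
    have h9 := one_add_mul_le_pow (a := -s) (by linarith) j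
    rw [← sub_eq_add_neg] at h9
    linarith
  have hc1 : (1 - 84 / ((j : ℝ) + 1)) ^ 2 ≤ 1 - 84 / ((j : ℝ) + 1) := by nlinarith
  calc ((1 - 84 / ((j : ℝ) + 1)) * (1 - τ ^ 2) ^ j) ^ 2
      = (1 - 84 / ((j : ℝ) + 1)) ^ 2 * ((1 - τ ^ 2) ^ 2) ^ j := by
        rw [mul_pow, ← pow_mul, ← pow_mul, mul_comm j 2]
    _ ≤ (1 - s) ^ j * ((1 - τ ^ 2) ^ 2) ^ j :=
        mul_le_mul_of_nonneg_right (hc1.trans hb) (by positivity)
    _ = (1 - 2 * τ ^ 2) ^ j := by rw [e1, mul_pow, mul_comm]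

private theorem wl_tail {a : ℝ} (ha : 0 < a) (ha1 : a ≤ 1) (j : ℕ) :
    ∫ τ in a..1, (1 - τ ^ 2) ^ j ≤ (1 - a ^ 2) ^ (j + 1) / (2 * a * (j + 1)) := by
  have hj1 : (0 : ℝ) < (j : ℝ) + 1 := by positivity
  have hc2 : Continuous fun x : ℝ => (1 - x ^ 2) ^ j := by fun_prop
  have hd : ∀ x ∈ Set.uIcc a 1, HasDerivAt
      (fun x : ℝ => -(1 - x ^ 2) ^ (j + 1) / (2 * a * (j + 1))) (x / a * (1 - x ^ 2) ^ j) x := by
    intro x _
    have h1 : HasDerivAt (fun x : ℝ => 1 - x ^ 2) (-(2 * x)) x := by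
      have h2 := (hasDerivAt_pow 2 x).const_sub 1
      simpa using h2
    have h3 := ((h1.pow (j + 1)).neg).div_const (2 * a * (j + 1))
    have h4 : x / a * (1 - x ^ 2) ^ j =
        -(((j + 1 : ℕ) : ℝ) * (1 - x ^ 2) ^ j * -(2 * x)) / (2 * a * (j + 1)) := by
      push_cast
      field_simp
    rw [h4]
    exact h3
  have hc3 : Continuous fun x : ℝ => x / a * (1 - x ^ 2) ^ j := by fun_prop
  have h1 := intervalIntegral.integral_eq_sub_of_hasDerivAt hd (hc3.intervalIntegrable _ _)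
  have h2 : ∫ τ in a..1, (1 - τ ^ 2) ^ j ≤ ∫ x in a..1, x / a * (1 - x ^ 2) ^ j := by
    refine intervalIntegral.integral_mono_on ha1 (hc2.intervalIntegrable _ _)
      (hc3.intervalIntegrable _ _) fun x hx => ?_
    have h5 : 1 ≤ x / a := by
      rw [le_div_iff₀ ha, one_mul]
      exact hx.1
    have h6 : 0 ≤ (1 - x ^ 2) ^ j := by
      apply pow_nonneg
      nlinarith [hx.1, hx.2]
    nlinarith
  rw [h1] at h2
  refine h2.trans (le_of_eq ?_)
  norm_num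
  ring

private theorem wl_sym (a : ℝ) (j : ℕ) :
    ∫ τ in (-a)..a, (1 - τ ^ 2) ^ j = Ik j - 2 * ∫ τ in a..1, (1 - τ ^ 2) ^ j := by
  have hc : Continuous fun x : ℝ => (1 - x ^ 2) ^ j := by fun_prop
  have h1 : ∫ τ in (-1)..(-a), (1 - τ ^ 2) ^ j = ∫ τ in a..1, (1 - τ ^ 2) ^ j := by
    have h2 := intervalIntegral.integral_comp_neg (a := a) (b := 1)
      (fun x : ℝ => (1 - x ^ 2) ^ j)
    simp only [neg_sq] at h2
    exact h2.symm
  have h3 := intervalIntegral.integral_add_adjacent_intervals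
    (hc.intervalIntegrable (μ := MeasureTheory.volume) (-1) (-a))
    (hc.intervalIntegrable (μ := MeasureTheory.volume) (-a) a)
  have h4 := intervalIntegral.integral_add_adjacent_intervals
    (hc.intervalIntegrable (μ := MeasureTheory.volume) (-1) a)
    (hc.intervalIntegrable (μ := MeasureTheory.volume) a 1)
  unfold Ik
  linarith

theorem Wj_lower {j : ℕ} (hj : 1000 ≤ j) :
    √2 * Ik j * (1 - 84 / ((j : ℝ) + 1)) * (1 - 1 / 10000) ≤ Wj j := by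
  have hjr : (1000 : ℝ) ≤ j := by exact_mod_cast hj
  have hj1 : (0 : ℝ) < (j : ℝ) + 1 := by linarith
  have hsj : 0 < √((j : ℝ) + 1) := Real.sqrt_pos.2 hj1
  have hsj2 : √((j : ℝ) + 1) ^ 2 = (j : ℝ) + 1 := Real.sq_sqrt hj1.le
  have hs31 : 31 ≤ √((j : ℝ) + 1) := by
    apply Real.le_sqrt_of_sq_le
    linarith
  have hw : win j = 4 / √((j : ℝ) + 1) := by
    unfold win
    apply min_eq_right
    rw [div_le_iff₀ hsj]
    linarith
  have h2pos : 0 < √(2 : ℝ) := Real.sqrt_pos.2 (by norm_num)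
  have h2sq : √(2 : ℝ) ^ 2 = 2 := Real.sq_sqrt (by norm_num)
  set a : ℝ := 2 * √2 / √((j : ℝ) + 1) with ha
  have ha0 : 0 < a := by positivity
  have haw : √2 * a = win j := by
    rw [hw, ha]
    field_simp
    linarith
  have hasq : a ^ 2 = 8 / ((j : ℝ) + 1) := by
    rw [ha, div_pow, mul_pow, h2sq, hsj2]
    norm_num
  have ha1 : a ≤ 1 := by
    rw [ha, div_le_one hsj]
    have : √(2 : ℝ) ≤ 2 := by
      rw [Real.sqrt_le_left (by norm_num)]
      norm_num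
    linarith
  have h84 : 84 / ((j : ℝ) + 1) ≤ 84 / 1001 := by
    apply div_le_div_of_nonneg_left (by norm_num) (by norm_num)
    linarith
  have hc0 : 0 ≤ 1 - 84 / ((j : ℝ) + 1) := by linarith
  -- substitution
  have hsub : Wj j = √2 * ∫ τ in (-a)..a, √((1 - (√2 * τ) ^ 2) ^ j) := by
    have h := intervalIntegral.mul_integral_comp_mul_left (a := -a) (b := a)
      (f := fun x : ℝ => √((1 - x ^ 2) ^ j)) (√2)
    rw [h]
    unfold Wj
    rw [mul_neg, haw]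
  have hc1 : Continuous fun x : ℝ => (1 - 84 / ((j : ℝ) + 1)) * (1 - x ^ 2) ^ j := by fun_prop
  have hc2 : Continuous fun x : ℝ => √((1 - (√2 * x) ^ 2) ^ j) := by fun_prop
  have hmono : ∫ τ in (-a)..a, (1 - 84 / ((j : ℝ) + 1)) * (1 - τ ^ 2) ^ j ≤
      ∫ τ in (-a)..a, √((1 - (√2 * τ) ^ 2) ^ j) := by
    refine intervalIntegral.integral_mono_on (by linarith) (hc1.intervalIntegrable _ _)
      (hc2.intervalIntegrable _ _) fun x hx => ?_
    apply wl_sq hj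
    rw [← hasq]
    nlinarith [hx.1, hx.2]
  rw [intervalIntegral.integral_const_mul, wl_sym] at hmono
  -- the tail
  have ht := wl_tail ha0 ha1 j
  have hI := Ik_lower j
  have hI0 := Ik_pos j
  have hexp : (1 - a ^ 2) ^ (j + 1) ≤ 1 / 2800 := by
    have h1 : 1 - a ^ 2 ≤ Real.exp (-a ^ 2) := by
      have := Real.add_one_le_exp (-a ^ 2)
      linarith
    have h2 : (1 - a ^ 2) ^ (j + 1) ≤ Real.exp (-a ^ 2) ^ (j + 1) :=
      pow_le_pow_left₀ (by nlinarith) h1 _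
    have h3 : Real.exp (-a ^ 2) ^ (j + 1) = Real.exp (-8) := by
      rw [← Real.exp_nat_mul]
      congr 1
      push_cast
      rw [hasq]
      field_simp
    have h4 : Real.exp (-8) ≤ 1 / 2800 := by
      rw [Real.exp_neg, one_div]
      apply inv_anti₀ (by norm_num)
      have h5 : Real.exp 8 = Real.exp 1 ^ 8 := by
        rw [← Real.exp_nat_mul]
        norm_num
      rw [h5]
      have h6 : (2.7182818283 : ℝ) < Real.exp 1 := Real.exp_one_gt_d9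
      calc (2800 : ℝ) ≤ 2.7182818283 ^ 8 := by norm_num
        _ ≤ Real.exp 1 ^ 8 := pow_le_pow_left₀ (by norm_num) h6.le _
    rw [h3] at h2
    exact h2.trans h4
  have haj : a * ((j : ℝ) + 1) = 2 * √2 * √((j : ℝ) + 1) := by
    rw [ha]
    nth_rewrite 2 [← hsj2]
    field_simp
  have htail : 2 * ∫ τ in a..1, (1 - τ ^ 2) ^ j ≤ 1 / 10000 * Ik j := by
    have h1 : (1 - a ^ 2) ^ (j + 1) / (2 * a * (j + 1)) ≤
        1 / 2800 / (2 * (2 * √2 * √((j : ℝ) + 1))) := by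
      have h2 : 2 * a * ((j : ℝ) + 1) = 2 * (2 * √2 * √((j : ℝ) + 1)) := by
        rw [← haj]
        ring
      rw [h2]
      exact div_le_div_of_nonneg_right hexp (by positivity)
    have h3 : 2 * (1 / 2800 / (2 * (2 * √2 * √((j : ℝ) + 1)))) ≤
        1 / 10000 * (8 / 5 / √((j : ℝ) + 1)) := by
      have h4 : (1.4 : ℝ) ≤ √2 := by
        apply Real.le_sqrt_of_sq_le
        norm_num
      have h5 : 2 * (1 / 2800 / (2 * (2 * √2 * √((j : ℝ) + 1)))) =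
          1 / (5600 * √2) / √((j : ℝ) + 1) := by
        field_simp
        norm_num
      rw [h5]
      have h6 : 1 / 10000 * (8 / 5 / √((j : ℝ) + 1)) = (1 / 6250) / √((j : ℝ) + 1) := by
        field_simp
        norm_num
      rw [h6]
      refine div_le_div_of_nonneg_right ?_ hsj.le
      apply one_div_le_one_div_of_le (by norm_num)
      linarith
    have h7 : 1 / 10000 * (8 / 5 / √((j : ℝ) + 1)) ≤ 1 / 10000 * Ik j :=
      mul_le_mul_of_nonneg_left hI (by norm_num)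
    linarith
  rw [hsub]
  calc √2 * Ik j * (1 - 84 / ((j : ℝ) + 1)) * (1 - 1 / 10000)
      = √2 * ((1 - 84 / ((j : ℝ) + 1)) * ((1 - 1 / 10000) * Ik j)) := by ring
    _ ≤ √2 * ((1 - 84 / ((j : ℝ) + 1)) *
        (Ik j - 2 * ∫ τ in a..1, (1 - τ ^ 2) ^ j)) := by
        apply mul_le_mul_of_nonneg_left _ h2pos.le
        apply mul_le_mul_of_nonneg_left _ hc0
        linarith
    _ ≤ √2 * ∫ τ in (-a)..a, √((1 - (√2 * τ) ^ 2) ^ j) :=
        mul_le_mul_of_nonneg_left hmono h2pos.le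

private theorem wl_win_nonneg (j : ℕ) : 0 ≤ win j := by
  unfold win
  apply le_min (by norm_num)
  positivity

private theorem wl_win_le (j : ℕ) : win j ≤ 4 / √((j : ℝ) + 1) := min_le_right _ _

theorem Dn_le (n : ℕ) : Dn n ≤ Real.exp (12 * √n) := by
  induction n with
  | zero => simp [Dn]
  | succ n ih =>
    have hn1 : (0 : ℝ) < (n : ℝ) + 1 := by positivity
    have hs : 0 < √((n : ℝ) + 1) := Real.sqrt_pos.2 hn1
    have h0 := wl_win_nonneg n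
    have h1 := win_le n
    have h2 := wl_win_le n
    have hf : √((1 + win n) / (1 - win n)) ≤ Real.exp (3 * win n / 2) := by
      rw [Real.exp_half]
      apply Real.sqrt_le_sqrt
      rw [div_le_iff₀ (by linarith)]
      have h3 := Real.quadratic_le_exp_of_nonneg (x := 3 * win n) (by linarith)
      have h4 : (1 + 3 * win n + (3 * win n) ^ 2 / 2) * (1 - win n) ≤
          Real.exp (3 * win n) * (1 - win n) :=
        mul_le_mul_of_nonneg_right h3 (by linarith)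
      refine le_trans ?_ h4
      have h5 : 0 ≤ win n * (1 + 3 / 2 * win n - 9 / 2 * win n ^ 2) := by
        apply mul_nonneg h0
        nlinarith
      nlinarith
    have hstep : 12 * √(n : ℝ) + 3 * win n / 2 ≤ 12 * √((n : ℝ) + 1) := by
      have h6 : 3 * win n / 2 ≤ 6 / √((n : ℝ) + 1) := by
        have : 6 / √((n : ℝ) + 1) = 3 / 2 * (4 / √((n : ℝ) + 1)) := by ring
        rw [this]
        linarith
      have h7 : 6 / √((n : ℝ) + 1) ≤ 12 * (√((n : ℝ) + 1) - √(n : ℝ)) := by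
        rw [div_le_iff₀ hs]
        have h8 : √((n : ℝ) + 1) ^ 2 = (n : ℝ) + 1 := Real.sq_sqrt hn1.le
        have h9 : √(n : ℝ) ^ 2 = n := Real.sq_sqrt (Nat.cast_nonneg n)
        nlinarith [sq_nonneg (√((n : ℝ) + 1) - √(n : ℝ))]
      linarith
    have hD : Dn (n + 1) = Dn n * √((1 + win n) / (1 - win n)) := by
      unfold Dn
      rw [Finset.prod_range_succ]
    rw [hD]
    push_cast
    calc Dn n * √((1 + win n) / (1 - win n))
        ≤ Real.exp (12 * √(n : ℝ)) * Real.exp (3 * win n / 2) :=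
          mul_le_mul ih hf (Real.sqrt_nonneg _) (Real.exp_pos _).le
      _ = Real.exp (12 * √(n : ℝ) + 3 * win n / 2) := (Real.exp_add _ _).symm
      _ ≤ Real.exp (12 * √((n : ℝ) + 1)) := Real.exp_le_exp.2 hstep

private theorem wl_fac (j : ℕ) :
    (1 + win j ^ 2) / (1 - win j ^ 2) ^ 2 ≤ Real.exp (64 / ((j : ℝ) + 1)) := by
  have hj1 : (0 : ℝ) < (j : ℝ) + 1 := by positivity
  have hs : 0 < √((j : ℝ) + 1) := Real.sqrt_pos.2 hj1
  have h0 := wl_win_nonneg j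
  have h1 := win_le j
  have h2 := wl_win_le j
  set x := win j ^ 2 with hx
  have hx0 : 0 ≤ x := sq_nonneg _
  have hx1 : x ≤ 1 / 4 := by
    rw [hx]
    nlinarith
  have hx2 : x ≤ 16 / ((j : ℝ) + 1) := by
    have h3 : win j ^ 2 ≤ (4 / √((j : ℝ) + 1)) ^ 2 := pow_le_pow_left₀ h0 h2 2
    rw [div_pow, Real.sq_sqrt hj1.le] at h3
    rw [hx]
    linarith
  have hle : 4 * x ≤ 64 / ((j : ℝ) + 1) := by
    have : 64 / ((j : ℝ) + 1) = 4 * (16 / ((j : ℝ) + 1)) := by ring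
    rw [this]
    linarith
  refine le_trans ?_ (Real.exp_le_exp.2 hle)
  have hp : 0 < (1 - x) ^ 2 := by
    have : 0 < 1 - x := by linarith
    positivity
  rw [div_le_iff₀ hp]
  have h3 := Real.quadratic_le_exp_of_nonneg (x := 4 * x) (by linarith)
  refine le_trans ?_ (mul_le_mul_of_nonneg_right h3 hp.le)
  have h5 : 0 ≤ x * (1 + x - 12 * x ^ 2 + 8 * x ^ 3) := by
    apply mul_nonneg hx0
    have h6 : 0 ≤ x ^ 3 := by positivity
    nlinarith
  nlinarith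

private theorem wl_Qn {n : ℕ} (hn : 1 ≤ n) : Qn n ≤ Real.exp (64 * (1 + Real.log n)) := by
  induction n, hn using Nat.le_induction with
  | base =>
    have h1 := wl_fac 0
    have h2 : Qn 1 = (1 + win 0 ^ 2) / (1 - win 0 ^ 2) ^ 2 := by
      unfold Qn
      rw [Finset.prod_range_one]
    rw [h2]
    refine h1.trans (Real.exp_le_exp.2 ?_)
    norm_num
  | succ n hn ih =>
    have hn0 : (0 : ℝ) < n := by exact_mod_cast hn
    have hn1 : (0 : ℝ) < (n : ℝ) + 1 := by positivity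
    have hQ : Qn (n + 1) = Qn n * ((1 + win n ^ 2) / (1 - win n ^ 2) ^ 2) := by
      unfold Qn
      rw [Finset.prod_range_succ]
    rw [hQ]
    push_cast
    have h0 : 0 ≤ (1 + win n ^ 2) / (1 - win n ^ 2) ^ 2 := by positivity
    have hlog : 1 / ((n : ℝ) + 1) ≤ Real.log ((n : ℝ) + 1) - Real.log n := by
      have h1 := Real.log_le_sub_one_of_pos (x := (n : ℝ) / (n + 1)) (by positivity)
      rw [Real.log_div hn0.ne' hn1.ne'] at h1
      have h2 : (n : ℝ) / (n + 1) - 1 = -(1 / ((n : ℝ) + 1)) := by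
        field_simp
        ring
      linarith
    have h64 : 64 / ((n : ℝ) + 1) = 64 * (1 / ((n : ℝ) + 1)) := by ring
    calc Qn n * ((1 + win n ^ 2) / (1 - win n ^ 2) ^ 2)
        ≤ Real.exp (64 * (1 + Real.log n)) * Real.exp (64 / ((n : ℝ) + 1)) :=
          mul_le_mul ih (wl_fac n) h0 (Real.exp_pos _).le
      _ = Real.exp (64 * (1 + Real.log n) + 64 / ((n : ℝ) + 1)) := (Real.exp_add _ _).symm
      _ ≤ Real.exp (64 * (1 + Real.log ((n : ℝ) + 1))) := by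
          apply Real.exp_le_exp.2
          rw [h64]
          linarith

theorem Qn_le {n : ℕ} (hn : 1 ≤ n) : Qn n ≤ (3 * n) ^ 64 := by
  have hn0 : (0 : ℝ) < n := by exact_mod_cast hn
  refine (wl_Qn hn).trans ?_
  have h1 : Real.exp (64 * (1 + Real.log n)) = (Real.exp 1 * n) ^ 64 := by
    have h2 : Real.exp (64 * (1 + Real.log n)) = Real.exp (1 + Real.log n) ^ 64 := by
      rw [← Real.exp_nat_mul]
      norm_num
    rw [h2, Real.exp_add, Real.exp_log hn0]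
  rw [h1]
  apply pow_le_pow_left₀ (by positivity)
  apply mul_le_mul_of_nonneg_right _ hn0.le
  have := Real.exp_one_lt_d9
  linarith

end Pool.Agent.Helper84.AA
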