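import Pool.Agent.Helper84.AA.TrCount
import Pool.Agent.Helper84.AA.Good
import Pool.Agent.Helper84.AA.Box
import Pool.Agent.Helper84.AA.WjLow

/-!
# AA-19: the lower bound for the number of trace polynomials

PROOF.  `K = ⌈√g⌉` (or `Nat.sqrt g + 1`), `n = g - K`, `Q = Qn n`, `m₀ = 1/(200 n^2 Q^2)`, `M = 2√Q`, `τ = m₀/(4K)`,
`m = m₀ - K τ = (3/4) m₀`.  `Y` = the set of `box_volume` (in `Fin (n+K) → ℝ`, `n + K = g`; generalise `g` to
`n + K`, `subst`).  For `y ∈ Y`: `∑_{i<n} |y_i| (3/8)^(g-1-i) ≤ M (3/8)^K (8/5)`, `∑_{i ≥ n} ≤ K τ = m₀/4`, so the condition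
`≤ 3m = (9/4) m₀` of `trace_count` holds as soon as `(3/8)^K (1 + (16/5)√Q) ≤ 2 m₀`, i.e.
`(8/3)^K ≥ 100 n^2 Q^2 (1 + (16/5) √Q)`, true for large `g` (`Qn_le`: the right side is at most a fixed power of
`3g`, the left side is `exp(c √g)`).  By `trace_count`, `box_volume`, `good_volume`:
`ncard ≥ σ^(g(g+1)/2) (2τ)^K (1/(2 Dn n)) ∏_{j<n} Wj j`.  Compare with the claim:
`∏_{j<n} Wj j ≥ c₀ ∏_{1000≤j<n} √2 Ik j (1-84/(j+1)) (0.9999)`, `c₀ = ∏_{j<1000} Wj j / (√2 Ik j)` (times the product of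
`√2 Ik j`, `j < 1000`) a positive constant; `∏_{1000 ≤ j<n} (1-84/(j+1)) ≥ exp(-168 ∑ 1/(j+1)) ≥ (3n)^(-168)`;
`∏_{n≤j<g} √2 Ik j ≤ (2√2)^K ≤ 3^K`.  So it remains:
`(2τ)^K (3n)^(-168) c₀ (0.9999)^n / (2 Dn n 3^K) ≥ (0.999)^g` for large `g`: the logarithm of the left side is
`≥ -C √g log g - C - 0.00011 g` (`2τ = m₀/(2K) ≥` a negative power of `g`), the logarithm of the right side is
`≤ -0.001 g`.
-/

namespace Pool.Agent.Helper84.AA

open MeasureTheory

private theorem lo_geom (n : ℕ) : ∑ i : Fin n, (3 / 8 : ℝ) ^ (n - 1 - (i : ℕ)) ≤ 8 / 5 := by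
  rw [Fin.sum_univ_eq_sum_range (fun i => (3 / 8 : ℝ) ^ (n - 1 - i)) n,
    Finset.sum_range_reflect (fun i => (3 / 8 : ℝ) ^ i) n, geom_sum_eq (by norm_num)]
  have h : (0 : ℝ) < (3 / 8) ^ n := by positivity
  have h2 : ((3 / 8 : ℝ) ^ n - 1) / (3 / 8 - 1) = 8 / 5 * (1 - (3 / 8) ^ n) := by ring
  rw [h2]
  linarith

/-- The volume bound for fixed `n`, `K`. -/
private theorem lo_nK {q n K : ℕ} (hq : 16 ≤ q) (hn : 1 ≤ n) (hK : 1 ≤ K)
    (hc : (3 / 8 : ℝ) ^ K * (1 + 16 / 5 * √(Qn n)) ≤ 2 * (1 / (200 * n ^ 2 * Qn n ^ 2))) :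
    √q ^ ((n + K) * (n + K + 1) / 2) * ((1 / (2 * Dn n) * ∏ j ∈ Finset.range n, Wj j) *
      (2 * ((1 / (200 * n ^ 2 * Qn n ^ 2)) / (4 * K))) ^ K) ≤
      ((traceSet q (n + K)).ncard : ℝ) := by
  have hQ := one_le_Qn n
  have hD := one_le_Dn n
  have hnR : (1 : ℝ) ≤ n := by exact_mod_cast hn
  have hKR : (1 : ℝ) ≤ K := by exact_mod_cast hK
  set Q : ℝ := Qn n with hQd
  set m₀ : ℝ := 1 / (200 * n ^ 2 * Q ^ 2) with hm0
  have hm0p : 0 < m₀ := by positivity
  set τ : ℝ := m₀ / (4 * K) with hτ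
  have hτp : 0 < τ := by positivity
  have hKτ : K * τ = m₀ / 4 := by
    rw [hτ]
    field_simp
  set Y : Set (Fin (n + K) → ℝ) := {y | (∀ z : ℂ, ‖z‖ ≤ 1 → m₀ - K * τ ≤ ‖Apoly y z‖) ∧
        (∀ i : Fin (n + K), (i : ℕ) < n → |y i| ≤ 2 * √Q) ∧
        ∀ i : Fin (n + K), n ≤ (i : ℕ) → |y i| ≤ τ} with hY
  have h1 := trace_count hq (by omega : 1 ≤ n + K) (3 / 4 * m₀) (by positivity) Y (by
    rintro y ⟨hy1, hy2, hy3⟩
    refine ⟨fun z hz => ?_, ?_⟩
    · have := hy1 z hz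
      rw [hKτ] at this
      linarith
    · have hs : ∑ i : Fin (n + K), |y i| * (3 / 8 : ℝ) ^ (n + K - 1 - (i : ℕ)) ≤
          2 * √Q * ((3 / 8) ^ K * (8 / 5)) + K * τ := by
        rw [Fin.sum_univ_add]
        refine add_le_add ?_ ?_
        · calc ∑ i : Fin n, |y (Fin.castAdd K i)| *
                (3 / 8 : ℝ) ^ (n + K - 1 - ((Fin.castAdd K i : Fin (n + K)) : ℕ)) ≤
              ∑ i : Fin n, 2 * √Q * ((3 / 8) ^ K * (3 / 8 : ℝ) ^ (n - 1 - (i : ℕ))) := by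
                refine Finset.sum_le_sum fun i _ => ?_
                have hi := i.2
                have he : n + K - 1 - ((Fin.castAdd K i : Fin (n + K)) : ℕ) =
                    K + (n - 1 - (i : ℕ)) := by
                  simp only [Fin.val_castAdd]
                  omega
                rw [he, pow_add]
                exact mul_le_mul_of_nonneg_right (hy2 _ (by simp)) (by positivity)
            _ = 2 * √Q * ((3 / 8) ^ K * ∑ i : Fin n, (3 / 8 : ℝ) ^ (n - 1 - (i : ℕ))) := by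
                rw [Finset.mul_sum, Finset.mul_sum]
            _ ≤ 2 * √Q * ((3 / 8) ^ K * (8 / 5)) := by
                have := lo_geom n
                gcongr
        · calc ∑ i : Fin K, |y (Fin.natAdd n i)| *
                (3 / 8 : ℝ) ^ (n + K - 1 - ((Fin.natAdd n i : Fin (n + K)) : ℕ)) ≤
              ∑ _i : Fin K, τ := by
                refine Finset.sum_le_sum fun i _ => ?_
                have h5 : |y (Fin.natAdd n i)| ≤ τ := hy3 _ (by simp)
                have h6 : (3 / 8 : ℝ) ^ (n + K - 1 - ((Fin.natAdd n i : Fin (n + K)) : ℕ)) ≤ 1 :=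
                  pow_le_one₀ (by norm_num) (by norm_num)
                calc _ ≤ τ * 1 := mul_le_mul h5 h6 (by positivity) hτp.le
                  _ = τ := mul_one _
            _ = K * τ := by simp
      have h7 : (3 / 8 : ℝ) ^ (n + K) ≤ (3 / 8) ^ K :=
        pow_le_pow_of_le_one (by norm_num) (by norm_num) (by omega)
      rw [hKτ] at hs
      calc (3 / 8 : ℝ) ^ (n + K) + ∑ i : Fin (n + K), |y i| * (3 / 8 : ℝ) ^ (n + K - 1 - (i : ℕ))
          ≤ (3 / 8) ^ K + (2 * √Q * ((3 / 8) ^ K * (8 / 5)) + m₀ / 4) := add_le_add h7 hs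
        _ = (3 / 8 : ℝ) ^ K * (1 + 16 / 5 * √Q) + m₀ / 4 := by ring
        _ ≤ 2 * m₀ + m₀ / 4 := by linarith
        _ = 3 * (3 / 4 * m₀) := by ring)
  have h2 := box_volume n K m₀ (2 * √Q) τ (by positivity) hτp.le
  have h3 := good_volume hn
  have h4 : (2 * √Q) ^ 2 = 4 * Q := by
    rw [mul_pow, Real.sq_sqrt (by linarith)]
    norm_num
  rw [h4] at h2
  have hWp : 0 < ∏ j ∈ Finset.range n, Wj j := Finset.prod_pos fun j _ => Wj_pos j
  have h5 : ENNReal.ofReal (√q ^ ((n + K) * (n + K + 1) / 2) *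
      ((1 / (2 * Dn n) * ∏ j ∈ Finset.range n, Wj j) * (2 * τ) ^ K)) ≤
      ((traceSet q (n + K)).ncard : ENNReal) := by
    rw [ENNReal.ofReal_mul (by positivity), ENNReal.ofReal_mul (by positivity),
      ENNReal.ofReal_pow (by positivity : 0 ≤ 2 * τ)]
    refine le_trans (mul_le_mul' le_rfl ?_) h1
    exact le_trans (mul_le_mul' h3 le_rfl) h2
  have h6 : ((traceSet q (n + K)).ncard : ENNReal) =
      ENNReal.ofReal ((traceSet q (n + K)).ncard : ℝ) := (ENNReal.ofReal_natCast _).symm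
  rw [h6] at h5
  exact (ENNReal.ofReal_le_ofReal_iff (by positivity)).1 h5

/-- Bernoulli. -/
private theorem lo_bern {x : ℝ} (hx : 0 ≤ x) (hx1 : x ≤ 1 / 168) :
    (1 - x) ^ 168 ≤ 1 - 84 * x := by
  have h1 : 1 + 168 * x ≤ (1 + x) ^ 168 := by
    have := one_add_mul_le_pow (by linarith : (-2 : ℝ) ≤ x) 168
    norm_num at this
    exact this
  have h2 : (1 - x) ^ 168 * (1 + x) ^ 168 ≤ 1 := by
    rw [← mul_pow]
    apply pow_le_one₀ <;> nlinarith
  have h3 : 0 ≤ (1 - x) ^ 168 := by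
    apply pow_nonneg
    linarith
  have h4 : (1 - x) ^ 168 * (1 + 168 * x) ≤ 1 := le_trans (mul_le_mul_of_nonneg_left h1 h3) h2
  have h5 : 1 ≤ (1 - 84 * x) * (1 + 168 * x) := by nlinarith
  have h6 : 0 < 1 + 168 * x := by linarith
  exact le_of_mul_le_mul_right (h4.trans h5) h6

private theorem lo_W : ∃ c : ℝ, 0 < c ∧ ∀ n : ℕ, 1000 ≤ n →
    c * (∏ j ∈ Finset.range n, (√2 * Ik j)) * (1 - 1 / 10000) ^ n ≤
      (∏ j ∈ Finset.range n, Wj j) * (n : ℝ) ^ 168 := by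
  have hp : ∀ n : ℕ, 0 < ∏ j ∈ Finset.range n, (√2 * Ik j) := fun n =>
    Finset.prod_pos fun j _ => mul_pos (by positivity) (Ik_pos j)
  have hW : ∀ n : ℕ, 0 < ∏ j ∈ Finset.range n, Wj j := fun n =>
    Finset.prod_pos fun j _ => Wj_pos j
  obtain ⟨N, hN⟩ : ∃ N : ℕ, N = 1000 := ⟨_, rfl⟩
  obtain ⟨c, hc⟩ : ∃ c : ℝ, c = (∏ j ∈ Finset.range N, Wj j) / (∏ j ∈ Finset.range N, (√2 * Ik j)) :=
    ⟨_, rfl⟩
  refine ⟨c, hc ▸ div_pos (hW _) (hp _), fun n hn => ?_⟩
  rw [← hN] at hn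
  induction n, hn using Nat.le_induction with
  | base =>
    rw [hc, div_mul_cancel₀ _ (hp _).ne']
    apply mul_le_mul_of_nonneg_left _ (hW _).le
    have h1 : (1 - 1 / 10000 : ℝ) ^ N ≤ 1 := pow_le_one₀ (by norm_num) (by norm_num)
    have h2 : (1 : ℝ) ≤ (N : ℝ) ^ 168 := one_le_pow₀ (by rw [hN]; norm_num)
    linarith
  | succ n hn ih =>
    rw [hN] at hn
    have hnR : (1000 : ℝ) ≤ n := by exact_mod_cast hn
    rw [Finset.prod_range_succ, Finset.prod_range_succ, pow_succ (1 - 1 / 10000 : ℝ) n]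
    have h1 := Wj_lower hn
    have h2 : (n : ℝ) ^ 168 ≤ (1 - 84 / ((n : ℝ) + 1)) * ((n : ℝ) + 1) ^ 168 := by
      have h3 := lo_bern (x := 1 / ((n : ℝ) + 1)) (by positivity) (by
        apply div_le_div_of_nonneg_left (by norm_num) (by norm_num)
        linarith)
      have h4 : (n : ℝ) = (1 - 1 / ((n : ℝ) + 1)) * ((n : ℝ) + 1) := by
        field_simp
        ring
      calc (n : ℝ) ^ 168 = (1 - 1 / ((n : ℝ) + 1)) ^ 168 * ((n : ℝ) + 1) ^ 168 := by
            rw [← mul_pow, ← h4]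
        _ ≤ (1 - 84 * (1 / ((n : ℝ) + 1))) * ((n : ℝ) + 1) ^ 168 :=
            mul_le_mul_of_nonneg_right h3 (by positivity)
        _ = _ := by ring
    have h0 : 0 ≤ √2 * Ik n * (1 - 1 / 10000) := by
      have := Ik_pos n
      have : (0 : ℝ) ≤ √2 := by positivity
      have h8 : (0 : ℝ) ≤ 1 - 1 / 10000 := by norm_num
      positivity
    calc c * ((∏ j ∈ Finset.range n, (√2 * Ik j)) * (√2 * Ik n)) *
          ((1 - 1 / 10000) ^ n * (1 - 1 / 10000)) =
        c * (∏ j ∈ Finset.range n, (√2 * Ik j)) * (1 - 1 / 10000) ^ n *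
          (√2 * Ik n * (1 - 1 / 10000)) := by ring
      _ ≤ (∏ j ∈ Finset.range n, Wj j) * (n : ℝ) ^ 168 * (√2 * Ik n * (1 - 1 / 10000)) :=
          mul_le_mul_of_nonneg_right ih h0
      _ = (∏ j ∈ Finset.range n, Wj j) * ((√2 * Ik n * (1 - 1 / 10000)) * (n : ℝ) ^ 168) := by
          ring
      _ ≤ (∏ j ∈ Finset.range n, Wj j) * ((√2 * Ik n * (1 - 1 / 10000)) *
            ((1 - 84 / ((n : ℝ) + 1)) * ((n : ℝ) + 1) ^ 168)) :=
          mul_le_mul_of_nonneg_left (mul_le_mul_of_nonneg_left h2 h0) (hW n).le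
      _ = (∏ j ∈ Finset.range n, Wj j) *
            ((√2 * Ik n * (1 - 84 / ((n : ℝ) + 1)) * (1 - 1 / 10000)) * ((n : ℝ) + 1) ^ 168) := by
          ring
      _ ≤ (∏ j ∈ Finset.range n, Wj j) * (Wj n * ((n : ℝ) + 1) ^ 168) :=
          mul_le_mul_of_nonneg_left (mul_le_mul_of_nonneg_right h1 (by positivity)) (hW n).le
      _ = _ := by
          rw [Nat.cast_add, Nat.cast_one]
          ring

/-- `3g ≤ exp(8 g^(1/4))`. -/
private theorem lo_log {g : ℕ} (hg : 1 ≤ g) {x : ℝ} (hx : 0 < x) (hx4 : x ^ 4 = g) (k : ℕ) :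
    (3 * (g : ℝ)) ^ k ≤ Real.exp (8 * x * k) := by
  have hgR : (1 : ℝ) ≤ g := by exact_mod_cast hg
  have h1 : 3 * (g : ℝ) ≤ Real.exp (8 * x) := by
    have h2 : 2 * x ≤ Real.exp (2 * x) := by linarith [Real.add_one_le_exp (2 * x)]
    calc 3 * (g : ℝ) ≤ 16 * g := by linarith
      _ = (2 * x) ^ 4 := by rw [mul_pow, hx4]; norm_num
      _ ≤ Real.exp (2 * x) ^ 4 := pow_le_pow_left₀ (by positivity) h2 4
      _ = Real.exp (8 * x) := by
          rw [← Real.exp_nat_mul]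
          congr 1
          push_cast
          ring
  calc (3 * (g : ℝ)) ^ k ≤ Real.exp (8 * x) ^ k := pow_le_pow_left₀ (by positivity) h1 k
    _ = Real.exp (8 * x * k) := by
        rw [← Real.exp_nat_mul]
        congr 1
        ring

theorem lower {q : ℕ} (hq : 16 ≤ q) : ∃ g₀ : ℕ, ∀ g ≥ g₀,
    (999 / 1000 : ℝ) ^ g * √2 ^ g * (∏ j ∈ Finset.range g, Ik j) * √q ^ (g * (g + 1) / 2) ≤
      ((traceSet q g).ncard : ℝ) := by
  obtain ⟨c, hc0, hc⟩ := lo_W
  obtain ⟨A, hA⟩ : ∃ A : ℝ, A = |Real.log c| := ⟨_, rfl⟩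
  have hA0 : 0 ≤ A := hA ▸ abs_nonneg _
  have hA1 : -A ≤ Real.log c := hA ▸ neg_abs_le _
  obtain ⟨X, hX⟩ : ∃ X : ℝ, X = (4000 + A) / (9 / 10000) := ⟨_, rfl⟩
  have hXb : 4000 * 1000 ≤ X := by
    rw [hX, le_div_iff₀ (by norm_num)]
    linarith
  refine ⟨⌈X ^ 4⌉₊, fun g hg => ?_⟩
  have hg1 : X ^ 4 ≤ g := (Nat.le_ceil _).trans (by exact_mod_cast hg)
  obtain ⟨x, hx⟩ : ∃ x : ℝ, x = √(√(g : ℝ)) := ⟨_, rfl⟩
  have hx0 : 0 ≤ x := hx ▸ Real.sqrt_nonneg _
  have hx2 : x ^ 2 = √(g : ℝ) := by rw [hx, Real.sq_sqrt (Real.sqrt_nonneg _)]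
  have hx4 : x ^ 4 = g := by
    rw [show x ^ 4 = (x ^ 2) ^ 2 by ring, hx2, Real.sq_sqrt (Nat.cast_nonneg g)]
  have hXx : X ≤ x := by
    rw [← hx4] at hg1
    exact le_of_pow_le_pow_left₀ (by norm_num) hx0 hg1
  have hxb : 4000 * 1000 ≤ x := hXb.trans hXx
  have hxp : 0 < x := by linarith
  have hgR : (1000000 : ℝ) ≤ g := by
    rw [← hx4]
    calc (1000000 : ℝ) ≤ 4000000 := by norm_num
      _ ≤ x := by linarith
      _ = x ^ 1 := (pow_one x).symm
      _ ≤ x ^ 4 := pow_le_pow_right₀ (by linarith) (by norm_num)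
  have hgN : 1000000 ≤ g := by exact_mod_cast hgR
  obtain ⟨K, hK⟩ : ∃ K : ℕ, K = Nat.sqrt g + 1 := ⟨_, rfl⟩
  have hK1 : 1 ≤ K := by omega
  have hKlow : x ^ 2 ≤ K := by
    rw [hx2, hK, Real.sqrt_le_left (by positivity)]
    have := (Nat.lt_succ_sqrt' g).le
    rw [Nat.succ_eq_add_one] at this
    exact_mod_cast this
  have hKup : (K : ℝ) ≤ x ^ 2 + 1 := by
    rw [hx2, hK]
    push_cast
    have : (Nat.sqrt g : ℝ) ≤ √(g : ℝ) := Real.nat_sqrt_le_real_sqrt
    linarith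
  have hsum : K + 1000 ≤ g := by
    have h1 : (K : ℝ) + 1000 ≤ g := by
      rw [← hx4]
      have h2 : x ^ 4 = x ^ 2 * x ^ 2 := by ring
      have h3 : (1001 : ℝ) ≤ x ^ 2 := by nlinarith
      nlinarith
    exact_mod_cast h1
  obtain ⟨n, hn⟩ : ∃ n : ℕ, g = n + K := ⟨g - K, by omega⟩
  have hn1000 : 1000 ≤ n := by omega
  have hn1 : 1 ≤ n := by omega
  have hng : n ≤ g := by omega
  have hngR : (n : ℝ) ≤ g := by exact_mod_cast hng
  have hKgR : (K : ℝ) ≤ g := by exact_mod_cast (by omega : K ≤ g)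
  have hnR : (1 : ℝ) ≤ n := by exact_mod_cast hn1
  have hKR : (1 : ℝ) ≤ K := by exact_mod_cast hK1
  have hQ := one_le_Qn n
  have hQ2 := Qn_le hn1
  have hD := one_le_Dn n
  have hD2 := Dn_le n
  have hQ3 : Qn n ≤ (3 * (g : ℝ)) ^ 64 := hQ2.trans
    (pow_le_pow_left₀ (by positivity) (by linarith) 64)
  have h3g : (1 : ℝ) ≤ 3 * g := by linarith
  have h3g2 : (420 : ℝ) ≤ (3 * g) ^ 2 := by nlinarith
  -- the condition
  have hcond : (3 / 8 : ℝ) ^ K * (1 + 16 / 5 * √(Qn n)) ≤ 2 * (1 / (200 * n ^ 2 * Qn n ^ 2)) := by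
    have h1 : √(Qn n) ≤ Qn n := by
      rw [Real.sqrt_le_left (by linarith)]
      nlinarith
    have h2 : 1 + 16 / 5 * √(Qn n) ≤ 21 / 5 * Qn n := by linarith
    have h3 : 420 * (n : ℝ) ^ 2 * Qn n ^ 3 ≤ (8 / 3 : ℝ) ^ K := by
      calc 420 * (n : ℝ) ^ 2 * Qn n ^ 3 ≤
          (3 * (g : ℝ)) ^ 2 * (3 * (g : ℝ)) ^ 2 * ((3 * (g : ℝ)) ^ 64) ^ 3 := by
            apply mul_le_mul _ (pow_le_pow_left₀ (by linarith) hQ3 3) (by positivity)
              (by positivity)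
            apply mul_le_mul h3g2 _ (by positivity) (by positivity)
            exact pow_le_pow_left₀ (by positivity) (by linarith) 2
        _ = (3 * (g : ℝ)) ^ 196 := by ring
        _ ≤ Real.exp (8 * x * (196 : ℕ)) := lo_log (by omega) hxp hx4 196
        _ ≤ Real.exp (5 / 8 * K) := by
            apply Real.exp_le_exp.2
            push_cast
            nlinarith
        _ = Real.exp (5 / 8) ^ K := by
            rw [← Real.exp_nat_mul]
            congr 1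
            ring
        _ ≤ (8 / 3 : ℝ) ^ K := by
            apply pow_le_pow_left₀ (Real.exp_pos _).le
            rw [← Real.le_log_iff_exp_le (by norm_num)]
            have := Real.one_sub_inv_le_log_of_pos (show (0 : ℝ) < 8 / 3 by norm_num)
            norm_num at this ⊢
            linarith
    have h4 : (3 / 8 : ℝ) ^ K * (8 / 3) ^ K = 1 := by
      rw [← mul_pow]
      norm_num
    have h5 : (0 : ℝ) < (3 / 8) ^ K := by positivity
    have h6 : (3 / 8 : ℝ) ^ K * (420 * (n : ℝ) ^ 2 * Qn n ^ 3) ≤ 1 :=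
      (mul_le_mul_of_nonneg_left h3 h5.le).trans h4.le
    rw [← mul_div_assoc, le_div_iff₀ (by positivity)]
    calc (3 / 8 : ℝ) ^ K * (1 + 16 / 5 * √(Qn n)) * (200 * n ^ 2 * Qn n ^ 2) ≤
        (3 / 8 : ℝ) ^ K * (21 / 5 * Qn n) * (200 * n ^ 2 * Qn n ^ 2) := by gcongr
      _ = 2 * ((3 / 8 : ℝ) ^ K * (420 * (n : ℝ) ^ 2 * Qn n ^ 3)) := by ring
      _ ≤ 2 * 1 := by linarith
  have hmain := lo_nK hq hn1 hK1 hcond
  rw [← hn] at hmain
  -- the product
  set PI : ℝ := ∏ j ∈ Finset.range n, (√2 * Ik j) with hPI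
  have hPIp : 0 < PI := Finset.prod_pos fun j _ => mul_pos (by positivity) (Ik_pos j)
  have hprod : √2 ^ g * (∏ j ∈ Finset.range g, Ik j) ≤ PI * 3 ^ K := by
    have h1 : √2 ^ g * (∏ j ∈ Finset.range g, Ik j) = ∏ j ∈ Finset.range g, (√2 * Ik j) := by
      rw [Finset.prod_mul_distrib, Finset.prod_const, Finset.card_range]
    rw [h1, hn, Finset.prod_range_add]
    apply mul_le_mul_of_nonneg_left _ hPIp.le
    calc ∏ i ∈ Finset.range K, (√2 * Ik (n + i)) ≤ ∏ _i ∈ Finset.range K, (3 : ℝ) := by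
          apply Finset.prod_le_prod
          · intro i _
            exact (mul_pos (by positivity) (Ik_pos _)).le
          · intro i _
            have h2 := Ik_le_two (n + i)
            have h3 : √2 ≤ 3 / 2 := by
              rw [Real.sqrt_le_left (by norm_num)]
              norm_num
            have h4 : 0 ≤ √2 := by positivity
            nlinarith [Ik_pos (n + i)]
      _ = 3 ^ K := by simp
  have hWn := hc n hn1000
  set W : ℝ := ∏ j ∈ Finset.range n, Wj j with hW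
  have hWp : 0 < W := Finset.prod_pos fun j _ => Wj_pos j
  set τ2 : ℝ := 2 * ((1 / (200 * n ^ 2 * Qn n ^ 2)) / (4 * K)) with hτ2
  have hτp : 0 < τ2 := by positivity
  have hτb : 1 ≤ τ2 * (3 * (g : ℝ)) ^ 140 := by
    have h1 : τ2 = 1 / (400 * K * n ^ 2 * Qn n ^ 2) := by
      rw [hτ2]
      field_simp
      norm_num
    rw [h1, one_div, ← div_eq_inv_mul, le_div_iff₀ (by positivity), one_mul]
    calc 400 * (K : ℝ) * n ^ 2 * Qn n ^ 2 ≤
        (3 * (g : ℝ)) ^ 2 * (3 * (g : ℝ)) * (3 * (g : ℝ)) ^ 2 * ((3 * (g : ℝ)) ^ 64) ^ 2 := by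
          apply mul_le_mul _ (pow_le_pow_left₀ (by linarith) hQ3 2) (by positivity)
            (by positivity)
          apply mul_le_mul _ (pow_le_pow_left₀ (by positivity) (by linarith) 2) (by positivity)
            (by positivity)
          apply mul_le_mul (by linarith) (by linarith) (by positivity) (by positivity)
      _ = (3 * (g : ℝ)) ^ 133 := by ring
      _ ≤ (3 * (g : ℝ)) ^ 140 := pow_le_pow_right₀ h3g (by norm_num)
  have hτK : 1 ≤ τ2 ^ K * (3 * (g : ℝ)) ^ (140 * K) := by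
    rw [pow_mul, ← mul_pow]
    exact one_le_pow₀ hτb
  -- the final comparison
  have hfin : (999 / 1000 : ℝ) ^ g * 3 ^ K * (2 * Dn n) * (n : ℝ) ^ 168 *
      (3 * (g : ℝ)) ^ (140 * K) ≤ c * (1 - 1 / 10000) ^ n := by
    have e1 : (3 : ℝ) ^ K ≤ Real.exp (2 * K) := by
      calc (3 : ℝ) ^ K ≤ Real.exp 2 ^ K := by
            apply pow_le_pow_left₀ (by norm_num)
            linarith [Real.add_one_le_exp (2 : ℝ)]
        _ = Real.exp (2 * K) := by
            rw [← Real.exp_nat_mul]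
            congr 1
            ring
    have e2 : 2 * Dn n ≤ Real.exp (1 + 12 * x ^ 2) := by
      rw [Real.exp_add]
      apply mul_le_mul
      · linarith [Real.add_one_le_exp (1 : ℝ)]
      · refine hD2.trans (Real.exp_le_exp.2 ?_)
        rw [hx2]
        have := Real.sqrt_le_sqrt hngR
        linarith
      · linarith
      · positivity
    have e3 : (n : ℝ) ^ 168 ≤ Real.exp (8 * x * (168 : ℕ)) :=
      (pow_le_pow_left₀ (by positivity) (by linarith) 168).trans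
        (lo_log (by omega) hxp hx4 168)
    have e4 := lo_log (k := 140 * K) (by omega) hxp hx4
    have e5 : (999 / 1000 : ℝ) ^ g ≤ (1 - 1 / 10000) ^ g * Real.exp (-(9 / 10000) * g) := by
      have h1 : (999 / 1000 : ℝ) ≤ (1 - 1 / 10000) * Real.exp (-(9 / 10000)) := by
        have := Real.add_one_le_exp (-(9 / 10000) : ℝ)
        nlinarith
      calc (999 / 1000 : ℝ) ^ g ≤ ((1 - 1 / 10000) * Real.exp (-(9 / 10000))) ^ g :=
            pow_le_pow_left₀ (by norm_num) h1 g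
        _ = _ := by
            rw [mul_pow, ← Real.exp_nat_mul]
            congr 2
            ring
    have e6 : (1 - 1 / 10000 : ℝ) ^ g ≤ (1 - 1 / 10000) ^ n :=
      pow_le_pow_of_le_one (by norm_num) (by norm_num) hng
    have e7 : Real.exp (-(9 / 10000) * g) * Real.exp (2 * K) * Real.exp (1 + 12 * x ^ 2) *
        Real.exp (8 * x * (168 : ℕ)) * Real.exp (8 * x * (140 * K : ℕ)) ≤ c := by
      rw [← Real.exp_add, ← Real.exp_add, ← Real.exp_add, ← Real.exp_add]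
      have h1 : Real.exp (-A) ≤ c := by
        calc Real.exp (-A) ≤ Real.exp (Real.log c) := Real.exp_le_exp.2 hA1
          _ = c := Real.exp_log hc0
      refine le_trans (Real.exp_le_exp.2 ?_) h1
      push_cast
      rw [← hx4]
      have h2 : (4000 + A) ≤ 9 / 10000 * x := by
        have := hXx
        rw [hX, div_le_iff₀ (by norm_num)] at this
        linarith
      have h3 : (4000 + A) * x ^ 3 ≤ 9 / 10000 * x ^ 4 := by
        have h4 : 0 ≤ x ^ 3 := by positivity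
        nlinarith
      have hx1 : 1 ≤ x := by linarith
      have h5 : 1 ≤ x ^ 3 := one_le_pow₀ hx1
      have h6 : x ^ 2 ≤ x ^ 3 := pow_le_pow_right₀ hx1 (by norm_num)
      have h7 : x ≤ x ^ 3 := by
        calc x = x ^ 1 := (pow_one x).symm
          _ ≤ x ^ 3 := pow_le_pow_right₀ hx1 (by norm_num)
      have h8 : 8 * x * (140 * (K : ℝ)) ≤ 1120 * (x ^ 3 + x) := by nlinarith
      have h9 : A ≤ A * x ^ 3 := le_mul_of_one_le_right hA0 h5
      linarith
    have p0 : (0 : ℝ) ≤ (1 - 1 / 10000) ^ g := by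
      apply pow_nonneg
      norm_num
    calc (999 / 1000 : ℝ) ^ g * 3 ^ K * (2 * Dn n) * (n : ℝ) ^ 168 *
          (3 * (g : ℝ)) ^ (140 * K) ≤
        ((1 - 1 / 10000) ^ g * Real.exp (-(9 / 10000) * g)) * Real.exp (2 * K) *
          Real.exp (1 + 12 * x ^ 2) * Real.exp (8 * x * (168 : ℕ)) *
          Real.exp (8 * x * (140 * K : ℕ)) := by
          apply mul_le_mul _ e4 (by positivity) (by positivity)
          apply mul_le_mul _ e3 (by positivity) (by positivity)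
          apply mul_le_mul _ e2 (by positivity) (by positivity)
          exact mul_le_mul e5 e1 (by positivity) (by positivity)
      _ = (1 - 1 / 10000) ^ g * (Real.exp (-(9 / 10000) * g) * Real.exp (2 * K) *
          Real.exp (1 + 12 * x ^ 2) * Real.exp (8 * x * (168 : ℕ)) *
          Real.exp (8 * x * (140 * K : ℕ))) := by ring
      _ ≤ (1 - 1 / 10000) ^ g * c := mul_le_mul_of_nonneg_left e7 p0
      _ ≤ (1 - 1 / 10000) ^ n * c := mul_le_mul_of_nonneg_right e6 hc0.le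
      _ = _ := by ring
  -- assembly
  have hstep : (999 / 1000 : ℝ) ^ g * √2 ^ g * (∏ j ∈ Finset.range g, Ik j) ≤
      1 / (2 * Dn n) * W * τ2 ^ K := by
    have a1 : (999 / 1000 : ℝ) ^ g * 3 ^ K * (2 * Dn n) * (n : ℝ) ^ 168 ≤
        c * (1 - 1 / 10000) ^ n * τ2 ^ K := by
      have p1 : 0 ≤ (999 / 1000 : ℝ) ^ g * 3 ^ K * (2 * Dn n) * (n : ℝ) ^ 168 := by positivity
      calc (999 / 1000 : ℝ) ^ g * 3 ^ K * (2 * Dn n) * (n : ℝ) ^ 168 ≤
          (999 / 1000 : ℝ) ^ g * 3 ^ K * (2 * Dn n) * (n : ℝ) ^ 168 *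
            (τ2 ^ K * (3 * (g : ℝ)) ^ (140 * K)) := le_mul_of_one_le_right p1 hτK
        _ = ((999 / 1000 : ℝ) ^ g * 3 ^ K * (2 * Dn n) * (n : ℝ) ^ 168 *
            (3 * (g : ℝ)) ^ (140 * K)) * τ2 ^ K := by ring
        _ ≤ _ := mul_le_mul_of_nonneg_right hfin (by positivity)
    have hn168 : (0 : ℝ) < (n : ℝ) ^ 168 := by positivity
    have a2 : ((999 / 1000 : ℝ) ^ g * √2 ^ g * (∏ j ∈ Finset.range g, Ik j)) * (2 * Dn n) *
        (n : ℝ) ^ 168 ≤ W * τ2 ^ K * (n : ℝ) ^ 168 := by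
      calc ((999 / 1000 : ℝ) ^ g * √2 ^ g * (∏ j ∈ Finset.range g, Ik j)) * (2 * Dn n) *
            (n : ℝ) ^ 168 =
          (√2 ^ g * (∏ j ∈ Finset.range g, Ik j)) * ((999 / 1000 : ℝ) ^ g * (2 * Dn n) *
            (n : ℝ) ^ 168) := by ring
        _ ≤ (PI * 3 ^ K) * ((999 / 1000 : ℝ) ^ g * (2 * Dn n) * (n : ℝ) ^ 168) :=
            mul_le_mul_of_nonneg_right hprod (by positivity)
        _ = PI * ((999 / 1000 : ℝ) ^ g * 3 ^ K * (2 * Dn n) * (n : ℝ) ^ 168) := by ring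
        _ ≤ PI * (c * (1 - 1 / 10000) ^ n * τ2 ^ K) := mul_le_mul_of_nonneg_left a1 hPIp.le
        _ = (c * PI * (1 - 1 / 10000) ^ n) * τ2 ^ K := by ring
        _ ≤ (W * (n : ℝ) ^ 168) * τ2 ^ K := mul_le_mul_of_nonneg_right hWn (by positivity)
        _ = _ := by ring
    have a3 := le_of_mul_le_mul_right a2 hn168
    rw [div_mul_eq_mul_div, div_mul_eq_mul_div, le_div_iff₀ (by positivity), one_mul]
    exact a3
  calc (999 / 1000 : ℝ) ^ g * √2 ^ g * (∏ j ∈ Finset.range g, Ik j) * √q ^ (g * (g + 1) / 2) ≤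
      (1 / (2 * Dn n) * W * τ2 ^ K) * √q ^ (g * (g + 1) / 2) :=
        mul_le_mul_of_nonneg_right hstep (by positivity)
    _ = √q ^ (g * (g + 1) / 2) * ((1 / (2 * Dn n) * W) * τ2 ^ K) := by ring
    _ ≤ _ := hmain

end Pool.Agent.Helper84.AA
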