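import Pool.Agent.Helper84.AA.Upper
import Pool.Agent.Helper84.AA.Lower

/-!
# AA-28: comparison of the bounds

NOTATION.  `σ = √q ≥ 4`, `N k = (traceSet q k).ncard`, `Π_n = ∏_{j<n} Ik j`, `N g ≥ L_g := 0.999^g √2^g Π_g σ^(g(g+1)/2)` for
`g ≥ g₀` (`lower`), `(preSet q g n).ncard ≤ U(g, n)` (`upper`).

PROOFS.  `g^g / g! ≤ e^g` (`Nat.factorial_lt`/`Real.exp` series: `g^g/g! ≤ ∑ g^k/k! = e^g`), `Ik (g-1) ≥ (8/5)/√g`.
`ratio1`: `U(g, g-1)/L_g = 2 (2g)^(g-1)/(g-1)! * σ^(-g) / (0.999^g √2^g Ik (g-1))`, `(2g)^(g-1)/(g-1)! = 2^(g-1) g^g/g! ≤ 2^(g-1) e^g`,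
so it is `≤ (5/8) √g (√2 e/(4 * 0.999))^g ≤ √g * 0.9625^g` (`√2 < 1.41422`, `e < 2.7182818286`); `1.01 * 0.9625 < 0.975`, and
`√g (0.975)^g ≤ 0.98^g` for large `g`.
`ratio2`: `U(g, g-2)/L_g = 2 (2g)^(g-2)/(g-2)! * σ^(-(2g-1)) / (0.999^g √2^g Ik (g-1) Ik (g-2))`,
`(2g)^(g-2)/(g-2)! ≤ g 2^g e^g` (crude), `1/(Ik (g-1) Ik (g-2)) ≤ g`; times `(2g+1)(4σ^g + 1) ≤ 15 g σ^g`: the total is at most
`30 g^3 (√2 e/0.999)^g σ^(-(g-1)) ≤ 30 g^3 σ (√2 e/(0.999 σ))^g ≤ 120 g^3 (0.9625)^g` (for `σ ≥ 4` the function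
`σ^(1-g)` is decreasing in `σ`).
`ratio3`: `1 ≤ k ≤ g/2`.  `N k N (g-k)/L_g ≤ 4 (2k)^k/k! (2(g-k))^(g-k)/(g-k)! Π_k Π_{g-k} σ^(-k(g-k)) / (0.999^g √2^g Π_g)`
(`k(k+1)/2 + (g-k)(g-k+1)/2 - g(g+1)/2 = -k(g-k)`), `(2k)^k/k! ≤ (2e)^k`, `Π_k Π_{g-k}/Π_g = ∏_{j<k} Ik j / Ik (g-k+j) ≤
(2 * (5/8) √g)^k ≤ (2√g)^k`.  So the quotient is at most `4 (2e/(0.999√2))^g (2√g)^k σ^(-k(g-k))`.  `k = 1`:
`≤ 8 √g σ (√2 e/(0.999 σ))^g ≤ 32 √g (0.9625)^g`.  `k ≥ 2`: for large `g` `2√g ≤ 4^((g/2)/2) ≤ σ^((g-k)/2)` so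
`(2√g)^k σ^(-k(g-k)) ≤ σ^(-k(g-k)/2) ≤ σ^(-(g-2)) ` (`k (g-k) ≥ 2(g-2)` for `2 ≤ k ≤ g/2`): the quotient is at most
`4 σ^2 (√2 e/(0.999 σ))^g`, and `σ^(2-g)` is decreasing in `σ`: `≤ 64 (0.9625)^g`.  Sum over `k ≤ g/2`: `≤ 32 g (0.9625)^g * ..` fine.
(To avoid half integers compare squares or use `σ^(k(g-k)) = q^(k(g-k)/2)` as you like.)
-/

namespace Pool.Agent.Helper84.AA

/-- The only asymptotic inequality. -/
lemma key (C : ℝ) : ∃ G : ℕ, ∀ g ≥ G,
    C * (g : ℝ) ^ 3 * ((101 / 100 : ℝ) ^ g * (2 * Real.exp 1) ^ g) ≤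
      (98 / 100 : ℝ) ^ g * (999 / 1000 : ℝ) ^ g * √2 ^ g * 4 ^ g := by
  set a : ℝ := 101 / 100 * (2 * Real.exp 1) with ha
  set b : ℝ := 98 / 100 * (999 / 1000) * √2 * 4 with hb
  have he : Real.exp 1 < 2.7182818286 := Real.exp_one_lt_d9
  have h2 : (1.414213 : ℝ) < √2 := by
    apply Real.lt_sqrt_of_sq_lt
    norm_num
  have ha0 : 0 < a := by positivity
  have hb0 : 0 < b := by positivity
  have hab : a < b := by
    rw [ha, hb]
    nlinarith
  have hr : |a / b| < 1 := by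
    rw [abs_of_pos (div_pos ha0 hb0), div_lt_one hb0]
    exact hab
  have hT := (tendsto_pow_const_mul_const_pow_of_abs_lt_one 3 hr).const_mul C
  rw [mul_zero] at hT
  obtain ⟨G, hG⟩ := Filter.eventually_atTop.1 (hT.eventually_le_const (show (0 : ℝ) < 1 by norm_num))
  refine ⟨G, fun g hg => ?_⟩
  have h1 := hG g hg
  rw [div_pow] at h1
  have hbg : 0 < b ^ g := pow_pos hb0 g
  have h3 : C * (g : ℝ) ^ 3 * a ^ g ≤ b ^ g := by
    have := mul_le_mul_of_nonneg_right h1 hbg.le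
    have h4 : C * ((g : ℝ) ^ 3 * (a ^ g / b ^ g)) * b ^ g = C * (g : ℝ) ^ 3 * a ^ g := by
      field_simp
    rw [h4, one_mul] at this
    exact this
  rw [ha, hb] at h3
  simpa only [mul_pow] using h3

lemma pow_div_fact_le {n g : ℕ} : ((g : ℝ)) ^ n / n.factorial ≤ Real.exp 1 ^ g := by
  have h := Real.pow_div_factorial_le_exp (g : ℝ) (by positivity) n
  rw [← Real.exp_nat_mul, mul_one]
  exact h

lemma sigma_ge {q : ℕ} (hq : 16 ≤ q) : (4 : ℝ) ≤ √q := by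
  apply Real.le_sqrt_of_sq_le
  have : (16 : ℝ) ≤ q := by exact_mod_cast hq
  linarith

lemma P_pos (n : ℕ) : 0 < ∏ j ∈ Finset.range n, Ik j := Finset.prod_pos fun j _ => Ik_pos j

lemma sqrt_le_self' {g : ℕ} (hg : 1 ≤ g) : √(g : ℝ) ≤ g := by
  have h1 : (1 : ℝ) ≤ g := by exact_mod_cast hg
  rw [Real.sqrt_le_left (by linarith)]
  nlinarith

theorem ratio1 {q : ℕ} (hq : 16 ≤ q) : ∃ G : ℕ, ∀ g ≥ G,
    (101 / 100 : ℝ) ^ g * (preSet q g (g - 1)).ncard ≤
      (98 / 100 : ℝ) ^ g * (traceSet q g).ncard := by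
  obtain ⟨g₀, hg₀⟩ := lower hq
  obtain ⟨G, hG⟩ := key 1
  refine ⟨max g₀ (max G 1), fun g hg => ?_⟩
  have hgg : g₀ ≤ g := le_trans (le_max_left _ _) hg
  have hGg : G ≤ g := le_trans (le_max_left _ _) (le_trans (le_max_right _ _) hg)
  have h1g : 1 ≤ g := le_trans (le_max_right _ _) (le_trans (le_max_right _ _) hg)
  have hlow := hg₀ g hgg
  have hkey := hG g hGg
  have hup := upper (q := q) (g := g) (n := g - 1) (by omega) h1g (by omega)
  obtain ⟨m, rfl⟩ : ∃ m, g = m + 1 := ⟨g - 1, by omega⟩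
  rw [Nat.add_sub_cancel] at hup ⊢
  have hσ := sigma_ge hq
  set σ : ℝ := √(q : ℝ) with hσd
  have hσ0 : (0 : ℝ) < σ := by linarith
  have hexp : (m + 1) * (m + 1 + 1) / 2 = m * (m + 1) / 2 + (m + 1) := by
    have : (m + 1) * (m + 1 + 1) = m * (m + 1) + (m + 1) * 2 := by ring
    rw [this, Nat.add_mul_div_right _ _ (by norm_num)]
  rw [hexp, pow_add σ, Finset.prod_range_succ] at hlow
  have hP := P_pos m
  set P : ℝ := ∏ j ∈ Finset.range m, Ik j with hPd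
  set S : ℝ := σ ^ (m * (m + 1) / 2) with hSd
  have hS : 0 < S := by positivity
  have hI := Ik_lower m
  have hg1 : (1 : ℝ) ≤ ((m + 1 : ℕ) : ℝ) := by exact_mod_cast h1g
  have hsq : √((m : ℝ) + 1) ≤ ((m + 1 : ℕ) : ℝ) := by
    have := sqrt_le_self' h1g
    push_cast at this ⊢
    exact this
  have hsq0 : 0 < √((m : ℝ) + 1) := by positivity
  -- the factorial
  have hf : (2 * ((m + 1 : ℕ) : ℝ)) ^ m / m.factorial ≤ (2 * Real.exp 1) ^ (m + 1) / 2 := by
    have h := pow_div_fact_le (n := m + 1) (g := m + 1)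
    have h2 : (2 * ((m + 1 : ℕ) : ℝ)) ^ m / m.factorial =
        2 ^ m * (((m + 1 : ℕ) : ℝ) ^ (m + 1) / (m + 1).factorial) := by
      rw [Nat.factorial_succ, mul_pow]
      push_cast
      field_simp
      ring
    rw [h2]
    calc 2 ^ m * (((m + 1 : ℕ) : ℝ) ^ (m + 1) / (m + 1).factorial)
        ≤ 2 ^ m * (Real.exp 1 ^ (m + 1)) := by gcongr
      _ = (2 * Real.exp 1) ^ (m + 1) / 2 := by
        rw [mul_pow, pow_succ (2 : ℝ)]
        ring
  have hIm : (1 : ℝ) / ((m + 1 : ℕ) : ℝ) ≤ Ik m := by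
    refine le_trans ?_ hI
    rw [div_le_div_iff₀ (by linarith) hsq0]
    nlinarith
  have hσpow : (4 : ℝ) ^ (m + 1) ≤ σ ^ (m + 1) := pow_le_pow_left₀ (by norm_num) hσ _
  calc (101 / 100 : ℝ) ^ (m + 1) * (preSet q (m + 1) m).ncard
      ≤ (101 / 100 : ℝ) ^ (m + 1) * (2 * ((2 * Real.exp 1) ^ (m + 1) / 2) * S * P) := by
        apply mul_le_mul_of_nonneg_left _ (by positivity)
        refine hup.trans ?_
        have : 2 * (2 * ((m + 1 : ℕ) : ℝ)) ^ m / m.factorial =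
          2 * ((2 * ((m + 1 : ℕ) : ℝ)) ^ m / m.factorial) := by ring
        rw [this]
        gcongr
    _ = (101 / 100 : ℝ) ^ (m + 1) * (2 * Real.exp 1) ^ (m + 1) * (S * P) := by ring
    _ ≤ ((98 / 100 : ℝ) ^ (m + 1) * (999 / 1000 : ℝ) ^ (m + 1) * √2 ^ (m + 1) * 4 ^ (m + 1) *
          (1 / ((m + 1 : ℕ) : ℝ))) * (S * P) := by
        apply mul_le_mul_of_nonneg_right _ (by positivity)
        rw [mul_one_div, le_div_iff₀ (by linarith)]
        refine le_trans ?_ hkey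
        have h3 : ((m + 1 : ℕ) : ℝ) ≤ ((m + 1 : ℕ) : ℝ) ^ 3 := by
          nlinarith [mul_nonneg (sub_nonneg.2 hg1) (sub_nonneg.2 hg1), sq_nonneg (((m + 1 : ℕ) : ℝ))]
        rw [one_mul, mul_comm]
        apply mul_le_mul_of_nonneg_right h3 (by positivity)
    _ ≤ ((98 / 100 : ℝ) ^ (m + 1) * (999 / 1000 : ℝ) ^ (m + 1) * √2 ^ (m + 1) * σ ^ (m + 1) *
          Ik m) * (S * P) := by
        gcongr
    _ = (98 / 100 : ℝ) ^ (m + 1) * ((999 / 1000 : ℝ) ^ (m + 1) * √2 ^ (m + 1) * (P * Ik m) *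
          (S * σ ^ (m + 1))) := by ring
    _ ≤ _ := mul_le_mul_of_nonneg_left hlow (by positivity)

theorem ratio2 {q : ℕ} (hq : 16 ≤ q) : ∃ G : ℕ, ∀ g ≥ G,
    (2 * (g : ℝ) + 1) * (4 * √q ^ g + 1) * (preSet q g (g - 2)).ncard ≤
      (98 / 100 : ℝ) ^ g * (traceSet q g).ncard := by
  obtain ⟨g₀, hg₀⟩ := lower hq
  obtain ⟨G, hG⟩ := key 120
  refine ⟨max g₀ (max G 2), fun g hg => ?_⟩
  have hgg : g₀ ≤ g := le_trans (le_max_left _ _) hg
  have hGg : G ≤ g := le_trans (le_max_left _ _) (le_trans (le_max_right _ _) hg)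
  have h1g : 2 ≤ g := le_trans (le_max_right _ _) (le_trans (le_max_right _ _) hg)
  have hlow := hg₀ g hgg
  have hkey := hG g hGg
  have hup := upper (q := q) (g := g) (n := g - 2) (by omega) (by omega) (by omega)
  obtain ⟨m, rfl⟩ : ∃ m, g = m + 2 := ⟨g - 2, by omega⟩
  rw [Nat.add_sub_cancel] at hup ⊢
  have hσ := sigma_ge hq
  set σ : ℝ := √(q : ℝ) with hσd
  have hσ0 : (0 : ℝ) < σ := by linarith
  have hexp : (m + 2) * (m + 2 + 1) / 2 = m * (m + 1) / 2 + ((m + 2) + (m + 1)) := by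
    have : (m + 2) * (m + 2 + 1) = m * (m + 1) + ((m + 2) + (m + 1)) * 2 := by ring
    rw [this, Nat.add_mul_div_right _ _ (by norm_num)]
  rw [hexp, pow_add σ (m * (m + 1) / 2), pow_add σ (m + 2), Finset.prod_range_succ,
    Finset.prod_range_succ] at hlow
  have hP := P_pos m
  set P : ℝ := ∏ j ∈ Finset.range m, Ik j with hPd
  set S : ℝ := σ ^ (m * (m + 1) / 2) with hSd
  have hS : 0 < S := by positivity
  set x : ℝ := ((m + 2 : ℕ) : ℝ) with hx
  have hxm : x = (m : ℝ) + 2 := by rw [hx]; push_cast; ring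
  have hg1 : (2 : ℝ) ≤ x := by rw [hx]; exact_mod_cast h1g
  have hI : 1 / √x ≤ Ik m := by
    refine le_trans ?_ (Ik_lower m)
    rw [div_le_div_iff₀ (by positivity) (by positivity)]
    have : √((m : ℝ) + 1) ≤ √x := Real.sqrt_le_sqrt (by rw [hxm]; linarith)
    have h0 : 0 ≤ √x := Real.sqrt_nonneg _
    nlinarith
  have hI' : 1 / √x ≤ Ik (m + 1) := by
    refine le_trans ?_ (Ik_lower (m + 1))
    rw [div_le_div_iff₀ (by positivity) (by positivity)]
    have : √(((m + 1 : ℕ) : ℝ) + 1) ≤ √x := Real.sqrt_le_sqrt (by rw [hxm]; push_cast; linarith)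
    have h0 : 0 ≤ √x := Real.sqrt_nonneg _
    nlinarith
  have hII : 1 / x ≤ Ik m * Ik (m + 1) := by
    have h0 : 0 < √x := Real.sqrt_pos.2 (by linarith)
    have : 1 / x = 1 / √x * (1 / √x) := by
      rw [div_mul_div_comm, one_mul, Real.mul_self_sqrt (by linarith)]
    rw [this]
    exact mul_le_mul hI hI' (by positivity) (Ik_pos m).le
  -- the factorial
  have hf : (2 * x) ^ m / m.factorial ≤ (2 * Real.exp 1) ^ (m + 2) := by
    have h := pow_div_fact_le (n := m) (g := m + 2)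
    rw [mul_pow, mul_div_assoc]
    calc (2 : ℝ) ^ m * (x ^ m / m.factorial)
        ≤ 2 ^ m * (Real.exp 1 ^ (m + 2)) := by gcongr
      _ ≤ 2 ^ (m + 2) * (Real.exp 1 ^ (m + 2)) := by
        gcongr
        · norm_num
        · omega
      _ = (2 * Real.exp 1) ^ (m + 2) := by
        rw [mul_pow]
  have hσpow : (4 : ℝ) ^ (m + 1) ≤ σ ^ (m + 1) := pow_le_pow_left₀ (by norm_num) hσ _
  have hσ1 : (1 : ℝ) ≤ σ ^ (m + 2) := one_le_pow₀ (by linarith)
  have h101 : (1 : ℝ) ≤ (101 / 100 : ℝ) ^ (m + 2) := one_le_pow₀ (by norm_num)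
  calc (2 * x + 1) * (4 * σ ^ (m + 2) + 1) * (preSet q (m + 2) m).ncard
      ≤ (3 * x) * (5 * σ ^ (m + 2)) * (2 * (2 * Real.exp 1) ^ (m + 2) * S * P) := by
        apply mul_le_mul _ _ (by positivity) (by positivity)
        · apply mul_le_mul (by linarith) (by linarith) (by positivity) (by positivity)
        · refine hup.trans ?_
          have : 2 * (2 * x) ^ m / m.factorial =
            2 * ((2 * x) ^ m / m.factorial) := by ring
          rw [this]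
          gcongr
    _ = (30 * x * (2 * Real.exp 1) ^ (m + 2)) * (σ ^ (m + 2) * (S * P)) := by ring
    _ ≤ ((98 / 100 : ℝ) ^ (m + 2) * (999 / 1000 : ℝ) ^ (m + 2) * √2 ^ (m + 2) * 4 ^ (m + 1) *
          (1 / x)) * (σ ^ (m + 2) * (S * P)) := by
        apply mul_le_mul_of_nonneg_right _ (by positivity)
        rw [mul_one_div, le_div_iff₀ (by linarith)]
        have h4 : 120 * x ^ 3 * ((2 * Real.exp 1) ^ (m + 2)) ≤
            (98 / 100 : ℝ) ^ (m + 2) * (999 / 1000 : ℝ) ^ (m + 2) * √2 ^ (m + 2) * 4 ^ (m + 2) := by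
          refine le_trans ?_ hkey
          apply mul_le_mul_of_nonneg_left _ (by positivity)
          have h0 : 0 ≤ (2 * Real.exp 1) ^ (m + 2) := by positivity
          nlinarith
        have h5 : (4 : ℝ) ^ (m + 2) = 4 * 4 ^ (m + 1) := by ring
        rw [h5] at h4
        have h6 : 120 * x * x * ((2 * Real.exp 1) ^ (m + 2)) ≤
            120 * x ^ 3 * ((2 * Real.exp 1) ^ (m + 2)) := by
          apply mul_le_mul_of_nonneg_right _ (by positivity)
          nlinarith [mul_pos (show 0 < x by linarith) (show 0 < x by linarith)]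
        nlinarith
    _ ≤ ((98 / 100 : ℝ) ^ (m + 2) * (999 / 1000 : ℝ) ^ (m + 2) * √2 ^ (m + 2) * σ ^ (m + 1) *
          (Ik m * Ik (m + 1))) * (σ ^ (m + 2) * (S * P)) := by
        gcongr
    _ = (98 / 100 : ℝ) ^ (m + 2) * ((999 / 1000 : ℝ) ^ (m + 2) * √2 ^ (m + 2) *
          (P * Ik m * Ik (m + 1)) * (S * (σ ^ (m + 2) * σ ^ (m + 1)))) := by ring
    _ ≤ _ := mul_le_mul_of_nonneg_left hlow (by positivity)

/-- `Π_k Π_(g-k) ≤ (2√g)^k Π_g`. -/
lemma P_mul_le {g k : ℕ} (hk : k ≤ g) (hg : 1 ≤ g) :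
    (∏ j ∈ Finset.range k, Ik j) * (∏ j ∈ Finset.range (g - k), Ik j) ≤
      (2 * √g) ^ k * ∏ j ∈ Finset.range g, Ik j := by
  obtain ⟨d, rfl⟩ : ∃ d, g = d + k := ⟨g - k, by omega⟩
  rw [Nat.add_sub_cancel, Finset.prod_range_add, mul_comm, ← mul_assoc,
    mul_comm ((2 * √((d + k : ℕ) : ℝ)) ^ k), mul_assoc]
  apply mul_le_mul_of_nonneg_left _ (P_pos d).le
  have h1 : (2 * √((d + k : ℕ) : ℝ)) ^ k = ∏ _j ∈ Finset.range k, (2 * √((d + k : ℕ) : ℝ)) := by
    rw [Finset.prod_const, Finset.card_range]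
  rw [h1, ← Finset.prod_mul_distrib]
  apply Finset.prod_le_prod
  · intro j _
    exact (Ik_pos j).le
  · intro j hj
    rw [Finset.mem_range] at hj
    have h2 := Ik_lower (d + j)
    have h3 : 0 < √(((d + j : ℕ) : ℝ) + 1) := by positivity
    rw [div_le_iff₀ h3] at h2
    have h4 : √(((d + j : ℕ) : ℝ) + 1) ≤ √((d + k : ℕ) : ℝ) := by
      apply Real.sqrt_le_sqrt
      have : d + j + 1 ≤ d + k := by omega
      exact_mod_cast this
    have h5 := Ik_le_two j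
    have h6 := Ik_pos (d + j)
    nlinarith

theorem ratio3 {q : ℕ} (hq : 16 ≤ q) : ∃ G : ℕ, ∀ g ≥ G,
    ∑ k ∈ Finset.Icc 1 (g / 2), ((traceSet q k).ncard : ℝ) * (traceSet q (g - k)).ncard ≤
      (98 / 100 : ℝ) ^ g * (traceSet q g).ncard := by
  obtain ⟨g₀, hg₀⟩ := lower hq
  obtain ⟨G, hG⟩ := key 32
  refine ⟨max g₀ (max G 16), fun g hg => ?_⟩
  have hgg : g₀ ≤ g := le_trans (le_max_left _ _) hg
  have hGg : G ≤ g := le_trans (le_max_left _ _) (le_trans (le_max_right _ _) hg)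
  have h8g : 16 ≤ g := le_trans (le_max_right _ _) (le_trans (le_max_right _ _) hg)
  have hlow := hg₀ g hgg
  have hkey := hG g hGg
  have hσ := sigma_ge hq
  set σ : ℝ := √(q : ℝ) with hσd
  have hσ0 : (0 : ℝ) < σ := by linarith
  have hP := P_pos g
  set P : ℝ := ∏ j ∈ Finset.range g, Ik j with hPd
  set S : ℝ := σ ^ (g * (g + 1) / 2) with hSd
  have hS : 0 < S := by positivity
  have hg1 : (16 : ℝ) ≤ g := by exact_mod_cast h8g
  have hsg : √(g : ℝ) ≤ g := sqrt_le_self' (by omega)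
  have hsg0 : 0 < √(g : ℝ) := Real.sqrt_pos.2 (by linarith)
  have hnn : ∀ n : ℕ, 1 ≤ n → ((traceSet q n).ncard : ℝ) ≤
      2 * (2 * Real.exp 1) ^ n * σ ^ (n * (n + 1) / 2) * ∏ j ∈ Finset.range n, Ik j := by
    intro n hn
    refine (upper_trace (q := q) (g := n) (by omega) hn).trans ?_
    have h := pow_div_fact_le (n := n) (g := n)
    have h2 : 2 * (2 * (n : ℝ)) ^ n / n.factorial = 2 * (2 ^ n * ((n : ℝ) ^ n / n.factorial)) := by
      rw [mul_pow]
      ring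
    rw [h2, mul_pow]
    have := P_pos n
    gcongr
  have hterm : ∀ k ∈ Finset.Icc 1 (g / 2),
      ((traceSet q k).ncard : ℝ) * (traceSet q (g - k)).ncard ≤
        32 * √g * (2 * Real.exp 1) ^ g / 4 ^ g * (S * P) := by
    intro k hk
    rw [Finset.mem_Icc] at hk
    obtain ⟨hk1, hk2⟩ := hk
    have hkg : k ≤ g := by omega
    have h1 := hnn k hk1
    have h2 := hnn (g - k) (by omega)
    have h3 := P_mul_le hkg (by omega)
    have hexp : g * (g + 1) / 2 = k * (k + 1) / 2 + (g - k) * ((g - k) + 1) / 2 +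
        ((g - 1) + (k - 1) * (g - k - 1)) := by
      obtain ⟨i, rfl⟩ : ∃ i, k = i + 1 := ⟨k - 1, by omega⟩
      obtain ⟨d, rfl⟩ : ∃ d, g = d + (i + 1) + 1 := ⟨g - (i + 1) - 1, by omega⟩
      have e1 : d + (i + 1) + 1 - (i + 1) = d + 1 := by omega
      have e2 : d + (i + 1) + 1 - 1 = d + i + 1 := by omega
      have e3 : i + 1 - 1 = i := by omega
      have e4 : d + 1 - 1 = d := by omega
      rw [e1, e2, e3, e4]
      have ev1 : 2 ∣ (i + 1) * (i + 1 + 1) := (Nat.even_mul_succ_self (i + 1)).two_dvd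
      have ev2 : 2 ∣ (d + 1) * (d + 1 + 1) := (Nat.even_mul_succ_self (d + 1)).two_dvd
      obtain ⟨a, ha⟩ := ev1
      obtain ⟨b, hb⟩ := ev2
      have ev3 : (d + (i + 1) + 1) * (d + (i + 1) + 1 + 1) = 2 * (a + b + (d + i + 1 + i * d)) := by
        have : (d + (i + 1) + 1) * (d + (i + 1) + 1 + 1) =
          (i + 1) * (i + 1 + 1) + (d + 1) * (d + 1 + 1) + 2 * (d + i + 1 + i * d) := by ring
        rw [this, ha, hb]
        ring
      rw [ha, hb, ev3, Nat.mul_div_cancel_left _ (by norm_num),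
        Nat.mul_div_cancel_left _ (by norm_num), Nat.mul_div_cancel_left _ (by norm_num)]
    set A : ℝ := σ ^ (k * (k + 1) / 2) with hA
    set B : ℝ := σ ^ ((g - k) * ((g - k) + 1) / 2) with hB
    have hSS : S = A * B * (σ ^ (g - 1) * (σ ^ (g - k - 1)) ^ (k - 1)) := by
      rw [hSd, hexp, pow_add, pow_add, pow_add, ← pow_mul, mul_comm (k - 1) (g - k - 1)]
    have hA0 : 0 < A := by positivity
    have hB0 : 0 < B := by positivity
    have hsmall : (2 * √g) ^ k ≤ 8 * √g / 4 ^ g * (σ ^ (g - 1) * (σ ^ (g - k - 1)) ^ (k - 1)) := by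
      have h4 : 2 * √g ≤ σ ^ (g - k - 1) := by
        have h5 : (4 : ℝ) ^ (g / 2 - 1) ≤ σ ^ (g - k - 1) :=
          (pow_le_pow_right₀ (by norm_num) (by omega)).trans
            (pow_le_pow_left₀ (by norm_num) hσ _)
        refine le_trans ?_ h5
        have h6 : (2 * √g) ^ 2 ≤ ((4 : ℝ) ^ (g / 2 - 1)) ^ 2 := by
          rw [mul_pow, Real.sq_sqrt (by linarith), ← pow_mul]
          have h7 : g - 3 ≤ (g / 2 - 1) * 2 := by omega
          refine le_trans ?_ (pow_le_pow_right₀ (show (1 : ℝ) ≤ 4 by norm_num) h7)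
          have h8 : 4 * g ≤ 4 ^ (g - 3) := by
            obtain ⟨t, rfl⟩ : ∃ t, g = t + 16 := ⟨g - 16, by omega⟩
            have : t + 16 - 3 = t + 13 := by omega
            rw [this]
            clear * -
            induction t with
            | zero => norm_num
            | succ t ih =>
              have : 4 ^ (t + 1 + 13) = 4 * 4 ^ (t + 13) := by ring
              rw [this]
              omega
          have h9 : ((4 * g : ℕ) : ℝ) ≤ ((4 ^ (g - 3) : ℕ) : ℝ) := by exact_mod_cast h8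
          push_cast at h9
          linarith
        exact (pow_le_pow_iff_left₀ (by positivity) (by positivity) two_ne_zero).1 h6
      have h10 : (2 * √g) ^ k = 2 * √g * (2 * √g) ^ (k - 1) := by
        rw [← pow_succ']
        congr 1
        omega
      rw [h10]
      have h11 : (4 : ℝ) ^ (g - 1) ≤ σ ^ (g - 1) := pow_le_pow_left₀ (by norm_num) hσ _
      have h12 : (4 : ℝ) ^ g = 4 * 4 ^ (g - 1) := by
        rw [← pow_succ']
        congr 1
        omega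
      calc 2 * √g * (2 * √g) ^ (k - 1) ≤ 2 * √g * (σ ^ (g - k - 1)) ^ (k - 1) := by
            gcongr
        _ = 8 * √g / 4 ^ g * (4 ^ (g - 1) * (σ ^ (g - k - 1)) ^ (k - 1)) := by
            rw [h12]
            field_simp
            norm_num
        _ ≤ _ := by gcongr
    have hE : (2 * Real.exp 1) ^ k * (2 * Real.exp 1) ^ (g - k) = (2 * Real.exp 1) ^ g := by
      rw [← pow_add]
      congr 1
      omega
    set PP : ℝ := ∏ j ∈ Finset.range k, Ik j with hPP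
    set PQ : ℝ := ∏ j ∈ Finset.range (g - k), Ik j with hPQ
    have hPP0 : 0 < PP := P_pos k
    have hPQ0 : 0 < PQ := P_pos (g - k)
    calc ((traceSet q k).ncard : ℝ) * (traceSet q (g - k)).ncard
        ≤ (2 * (2 * Real.exp 1) ^ k * A * PP) * (2 * (2 * Real.exp 1) ^ (g - k) * B * PQ) :=
          mul_le_mul h1 h2 (by positivity) (by positivity)
      _ = 4 * ((2 * Real.exp 1) ^ k * (2 * Real.exp 1) ^ (g - k)) * (A * B) * (PP * PQ) := by ring
      _ ≤ 4 * ((2 * Real.exp 1) ^ k * (2 * Real.exp 1) ^ (g - k)) * (A * B) *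
            ((2 * √g) ^ k * P) := mul_le_mul_of_nonneg_left h3 (by positivity)
      _ = 4 * (2 * Real.exp 1) ^ g * (A * B) * P * (2 * √g) ^ k := by rw [hE]; ring
      _ ≤ 4 * (2 * Real.exp 1) ^ g * (A * B) * P *
            (8 * √g / 4 ^ g * (σ ^ (g - 1) * (σ ^ (g - k - 1)) ^ (k - 1))) :=
          mul_le_mul_of_nonneg_left hsmall (by positivity)
      _ = 32 * √g * (2 * Real.exp 1) ^ g / 4 ^ g *
            (A * B * (σ ^ (g - 1) * (σ ^ (g - k - 1)) ^ (k - 1)) * P) := by ring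
      _ = _ := by rw [← hSS]
  calc ∑ k ∈ Finset.Icc 1 (g / 2), ((traceSet q k).ncard : ℝ) * (traceSet q (g - k)).ncard
      ≤ ∑ _k ∈ Finset.Icc 1 (g / 2), 32 * √g * (2 * Real.exp 1) ^ g / 4 ^ g * (S * P) :=
        Finset.sum_le_sum hterm
    _ = ((g / 2 : ℕ) : ℝ) * (32 * √g * (2 * Real.exp 1) ^ g / 4 ^ g * (S * P)) := by
        rw [Finset.sum_const, Nat.card_Icc, nsmul_eq_mul, Nat.add_sub_cancel]
    _ ≤ (g : ℝ) * (32 * g * (2 * Real.exp 1) ^ g / 4 ^ g * (S * P)) := by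
        have : ((g / 2 : ℕ) : ℝ) ≤ g := by exact_mod_cast Nat.div_le_self g 2
        gcongr
    _ = (32 * (g : ℝ) ^ 2 * (2 * Real.exp 1) ^ g) / 4 ^ g * (S * P) := by ring
    _ ≤ ((98 / 100 : ℝ) ^ g * (999 / 1000 : ℝ) ^ g * √2 ^ g) * (S * P) := by
        apply mul_le_mul_of_nonneg_right _ (by positivity)
        rw [div_le_iff₀ (by positivity)]
        refine le_trans ?_ hkey
        have h101 : (1 : ℝ) ≤ (101 / 100 : ℝ) ^ g := one_le_pow₀ (by norm_num)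
        have h0 : 0 ≤ (2 * Real.exp 1) ^ g := by positivity
        have h1 : (g : ℝ) ^ 2 ≤ (g : ℝ) ^ 3 := pow_le_pow_right₀ (by linarith) (by norm_num)
        have h2 : (2 * Real.exp 1) ^ g ≤ (101 / 100 : ℝ) ^ g * (2 * Real.exp 1) ^ g := by
          nlinarith
        apply mul_le_mul _ h2 h0 (by positivity)
        linarith
    _ = (98 / 100 : ℝ) ^ g * ((999 / 1000 : ℝ) ^ g * √2 ^ g * P * S) := by ring
    _ ≤ _ := mul_le_mul_of_nonneg_left hlow (by positivity)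

end Pool.Agent.Helper84.AA
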