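import Mathlib

/-!
# Project AA (MP_de89cc_ag): almost all isogeny classes, `q` fixed. Definitions.

Overview: team store `blackboard_AA.md`.
-/

open Polynomial MeasureTheory

namespace Pool.Agent.Helper84.AA

noncomputable section

/-- Trace polynomials: monic of degree `g` with integer coefficients, all complex roots are real
numbers in `[-2 √q, 2 √q]`. -/
def IsTrace (q g : ℕ) (h : ℤ[X]) : Prop :=
  h.Monic ∧ h.natDegree = g ∧ ∀ z : ℂ, aeval z h = 0 → ∃ x : ℝ, (x : ℂ) = z ∧ x ^ 2 ≤ 4 * q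

/-- The set of trace polynomials. -/
def traceSet (q g : ℕ) : Set ℤ[X] := {h | IsTrace q g h}

/-- The prefixes of length `n`: the polynomials formed by the `n + 1` top coefficients. -/
def preSet (q g n : ℕ) : Set ℤ[X] := (fun h : ℤ[X] => divX^[g - n] h) '' traceSet q g

/-- The last coefficients which complete the prefix `u` (of degree `g - 1`). -/
def Jset (q g : ℕ) (u : ℤ[X]) : Set ℤ := {t | IsTrace q g (X * u + C t)}

/-- `I_k`. -/
def Ik (k : ℕ) : ℝ := ∫ x in (-1 : ℝ)..1, (1 - x ^ 2) ^ k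

/-! ### Point systems on the circle -/

/-- The real bilinear form of a finite system of complex numbers on real polynomials. -/
def bil (s : Multiset ℂ) (p r : ℝ[X]) : ℝ :=
  (s.map fun z => (aeval z p * (starRingEnd ℂ) (aeval z r)).re).sum

/-- The real parts of the power sums. -/
def mom (s : Multiset ℂ) (k : ℕ) : ℝ := (s.map fun z => (z ^ k).re).sum

/-- The Levinson recursion. -/
def lev (s : Multiset ℂ) : ℕ → ℝ[X]
  | 0 => 1
  | n + 1 => X * lev s n -
      C (bil s (X * lev s n) (reflect n (lev s n)) / bil s (lev s n) (lev s n)) *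
        reflect n (lev s n)

/-- The prediction error. -/
def levE (s : Multiset ℂ) (n : ℕ) : ℝ := bil s (lev s n) (lev s n)

/-- The numerator of the reflection coefficient. -/
def levT (s : Multiset ℂ) (n : ℕ) : ℝ := bil s (X * lev s n) (reflect n (lev s n))

/-- The points `exp(i θ)`, `0 ≤ θ ≤ π`, with `x = 2 √q cos θ`, `x` the roots of `h`. -/
def pts (q : ℕ) (h : ℤ[X]) : Multiset ℂ :=
  (h.map (Int.castRingHom ℝ)).roots.map fun x : ℝ =>
    ((x / (2 * √q) : ℝ) : ℂ) + Complex.I * ((√(1 - (x / (2 * √q)) ^ 2) : ℝ) : ℂ)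

/-! ### Real coefficient vectors: `α` stands for `1 + ∑ α_i z^(i+1)` -/

/-- The value of the polynomial of the coefficient vector `α`. -/
def Apoly {n : ℕ} (α : Fin n → ℝ) (z : ℂ) : ℂ := 1 + ∑ i, (α i : ℂ) * z ^ ((i : ℕ) + 1)

/-- The step of the Schur recursion: `A + κ z^(n+1) A(1/z)`. -/
def step {n : ℕ} (κ : ℝ) (α : Fin n → ℝ) : Fin (n + 1) → ℝ :=
  Fin.snoc (α := fun _ => ℝ) (fun i => α i + κ * α i.rev) κ

/-- The windows. -/
def win (j : ℕ) : ℝ := min (1 / 2) (4 / √(j + 1))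

/-- The weighted windows. -/
def nu (j : ℕ) : Measure ℝ :=
  (volume.restrict (Set.Icc (-win j) (win j))).withDensity
    fun κ => ENNReal.ofReal (√((1 - κ ^ 2) ^ j))

/-- The measures on coefficient vectors. -/
def mu : (n : ℕ) → Measure (Fin n → ℝ)
  | 0 => Measure.dirac 0
  | n + 1 => ((mu n).prod (nu n)).map fun p => step p.2 p.1

/-- The mass of `nu j`. -/
def Wj (j : ℕ) : ℝ := ∫ κ in (-win j)..(win j), √((1 - κ ^ 2) ^ j)

/-- The density constant. -/
def Dn (n : ℕ) : ℝ := ∏ j ∈ Finset.range n, √((1 + win j) / (1 - win j))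

/-- The moment constant. -/
def Qn (n : ℕ) : ℝ := ∏ j ∈ Finset.range n, (1 + win j ^ 2) / (1 - win j ^ 2) ^ 2

/-- The trace polynomial of the reciprocal polynomial `z^(2g) A(1/z) + A(z)` (`γ 0 = 1`). -/
def hOf (q g : ℕ) (γ : ℕ → ℤ) : ℤ[X] :=
  dickson 1 (q : ℤ) g + ∑ i ∈ Finset.Ico 1 g, C (γ i) * dickson 1 (q : ℤ) (g - i) + C (2 * γ g)

/-- Multiplication in the group `1 + x ℝ[x] / x^(g+1)` (coefficients of `x^(i+1)`). -/
def mulc {g : ℕ} (u v : Fin g → ℝ) (k : Fin g) : ℝ :=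
  u k + v k + ∑ i : Fin g, ∑ j : Fin g, if (i : ℕ) + j + 1 = k then u i * v j else 0

/-! ### The sieve -/

/-- `H(2 √q) = evE + 2 √q odO`. -/
def evE (q : ℕ) (H : ℤ[X]) : ℤ :=
  ∑ j ∈ Finset.range (H.natDegree + 1), if Even j then H.coeff j * (4 * q) ^ (j / 2) else 0

/-- See `evE`. -/
def odO (q : ℕ) (H : ℤ[X]) : ℤ :=
  ∑ j ∈ Finset.range (H.natDegree + 1), if Odd j then H.coeff j * (4 * q) ^ (j / 2) else 0

/-- `(H - H(2 √q)) (H - H(- 2 √q))`. -/
def Gpol (q : ℕ) (H : ℤ[X]) : ℤ[X] := (H - C (evE q H)) ^ 2 - C (4 * q * odO q H ^ 2)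

/-- The excluded primes of the sieve divide this number. -/
def Delta (q : ℕ) (H : ℤ[X]) : ℤ := 2 * q * odO q H * (Gpol q H).resultant (derivative H)

/-- The criterion: one prime. -/
def Nice (q : ℕ) (h : ℤ[X]) : Prop :=
  ∃ l : ℕ, l.Prime ∧ (h.map (Int.castRingHom (ZMod l))).Separable ∧
    padicValInt l (h.resultant (X ^ 2 - C (4 * (q : ℤ)))) = 1

/-! ### Frobenius polynomials and multiplicative relations -/

/-- The polynomial `T^g h(T + q/T)`, `g = deg h`. -/
def frob (q : ℕ) (h : ℤ[X]) : ℤ[X] :=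
  ∑ j ∈ Finset.range (h.natDegree + 1),
    C (h.coeff j) * X ^ (h.natDegree - j) * (X ^ 2 + C (q : ℤ)) ^ j

/-- `T^g h(T + q/T)` is irreducible and there are no multiplicative relations between its complex
roots up to roots of unity and rational numbers, except the trivial ones `z * (q / z) = q`. -/
def Good (q : ℕ) (h : ℤ[X]) : Prop :=
  Irreducible (frob q h) ∧ ∀ (n : ℂ → ℤ) (N : ℕ) (r : ℚ), N ≠ 0 →
    (∏ z ∈ ((frob q h).map (Int.castRingHom ℂ)).roots.toFinset, z ^ n z) ^ N = (r : ℂ) →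
    ∀ z ∈ ((frob q h).map (Int.castRingHom ℂ)).roots.toFinset, n z = n (q / z)

end

end Pool.Agent.Helper84.AA
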