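import Pool.Agent.Helper84.AA.Defs

/-!
# AA-25: few degenerate prefixes

`H = X (X v + s)`, monic of degree `g ≥ 2`, `H = H₀ + s X`, `H₀ = X^2 v`.

PROOF.  `Delta q H = 0` iff `odO q H = 0` or `Res(G, H') = 0` (`q ≥ 1`).
(1) `odO q H = odO q H₀ + s` (the coefficient of `X` is `s`, `j / 2 = 0` for `j = 1`): at most one `s`.
(2) `Res(G, H') = 0`: over `ℂ` (`resultant_map_map`, `Int.castRingHom ℂ` injective, `resultant_eq_zero_iff`) `G` and `H'` are
not coprime, so they have a common complex root `x`: `H'(x) = 0` and `(H(x) - E)^2 = 4 q O^2`, i.e. `H(x) = E ± 2√q O = H(ε)`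
for `ε = ± 2√q` (`E`, `O` the integers `evE q H`, `odO q H`; `H(± 2√q) = E ± 2√q O` by the definition).
`H₀'(x) + s = 0` and `H₀(x) + s x = H₀(ε) + s ε`, so `s = - H₀'(x)` and
`Ψ_ε(x) = H₀(x) - x H₀'(x) - H₀(ε) + ε H₀'(x) = 0`.  `Ψ_ε` has degree `g` (leading coefficient `1 - g ≠ 0`, `g ≥ 2`), so it
has at most `g` roots `x`, so there are at most `g` values of `s` for each of the two `ε`.
Total: at most `2 g + 1`.
-/

open Polynomial

namespace Pool.Agent.Helper84.AA

private theorem deg_H0 {g : ℕ} (hg : 2 ≤ g) {v : ℤ[X]} (hv : v.Monic) (hd : v.natDegree = g - 2) :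
    (X ^ 2 * v : ℤ[X]).natDegree = g ∧ (X ^ 2 * v : ℤ[X]).Monic := by
  have h1 : (X ^ 2 : ℤ[X]).Monic := monic_X_pow 2
  refine ⟨?_, h1.mul hv⟩
  rw [h1.natDegree_mul hv, natDegree_X_pow, hd]
  omega

private theorem deg_H {g : ℕ} (hg : 2 ≤ g) {v : ℤ[X]} (hv : v.Monic) (hd : v.natDegree = g - 2)
    (s : ℤ) : (X ^ 2 * v + C s * X : ℤ[X]).natDegree = g := by
  rw [natDegree_add_eq_left_of_natDegree_lt]
  · exact (deg_H0 hg hv hd).1
  · rw [(deg_H0 hg hv hd).1]
    have h1 : (C s * X : ℤ[X]).natDegree ≤ 1 := by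
      refine natDegree_mul_le.trans ?_
      rw [natDegree_C, natDegree_X]
    omega

private theorem odO_eq {q g : ℕ} (hg : 2 ≤ g) {v : ℤ[X]} (hv : v.Monic) (hd : v.natDegree = g - 2)
    (s : ℤ) : odO q (X ^ 2 * v + C s * X) = odO q (X ^ 2 * v) + s := by
  unfold odO
  rw [deg_H hg hv hd s, (deg_H0 hg hv hd).1]
  have h1 : ∀ j ∈ Finset.range (g + 1),
      (if Odd j then (X ^ 2 * v + C s * X : ℤ[X]).coeff j * (4 * (q : ℤ)) ^ (j / 2) else 0) =
      (if Odd j then (X ^ 2 * v : ℤ[X]).coeff j * (4 * (q : ℤ)) ^ (j / 2) else 0) +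
        (if j = 1 then s else 0) := by
    intro j _
    by_cases hj : j = 1
    · subst hj
      simp
    · rw [if_neg hj, add_zero, coeff_add, coeff_C_mul, coeff_X_of_ne_one hj, mul_zero, add_zero]
  rw [Finset.sum_congr rfl h1, Finset.sum_add_distrib, Finset.sum_ite_eq',
    if_pos (Finset.mem_range.2 (by omega))]

private theorem eval_eps (q : ℕ) (H : ℤ[X]) {e : ℂ} (he : e ^ 2 = 4 * q) :
    aeval e H = (evE q H : ℂ) + e * (odO q H : ℂ) := by
  unfold evE odO
  rw [aeval_eq_sum_range]
  push_cast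
  rw [Finset.mul_sum, ← Finset.sum_add_distrib]
  refine Finset.sum_congr rfl fun j _ => ?_
  rcases Nat.even_or_odd j with hj | hj
  · rw [if_pos hj, if_neg (Nat.not_odd_iff_even.2 hj), mul_zero, add_zero]
    obtain ⟨r, hr⟩ := hj
    have h2 : j / 2 = r := by omega
    rw [h2, ← he, ← pow_mul, show 2 * r = j by omega, zsmul_eq_mul]
  · rw [if_neg (Nat.not_even_iff_odd.2 hj), if_pos hj, zero_add]
    obtain ⟨r, hr⟩ := hj
    have h2 : j / 2 = r := by omega
    rw [h2, ← he, ← pow_mul, zsmul_eq_mul, hr, pow_succ]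
    ring

/-- The polynomial `H₀(x) - x H₀'(x) - H₀(ε) + ε H₀'(x)`. -/
private noncomputable def psi (H : ℂ[X]) (e : ℂ) : ℂ[X] :=
  H - X * derivative H + C e * derivative H - C (H.eval e)

private theorem psi_deg {g : ℕ} {H : ℂ[X]} (hH : H.natDegree = g) (e : ℂ) :
    (psi H e).natDegree ≤ g := by
  unfold psi
  have h1 : (derivative H).natDegree ≤ g - 1 := hH ▸ natDegree_derivative_le H
  have h0 : g = 0 → derivative H = 0 := by
    intro h
    rw [h] at hH
    rw [eq_C_of_natDegree_eq_zero hH, derivative_C]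
  refine (natDegree_sub_le _ _).trans (max_le ?_ (by simp))
  refine (natDegree_add_le _ _).trans (max_le ?_ ?_)
  · refine (natDegree_sub_le _ _).trans (max_le hH.le ?_)
    rcases Nat.eq_zero_or_pos g with h | h
    · rw [h0 h, mul_zero, natDegree_zero]
      exact Nat.zero_le _
    · refine natDegree_mul_le.trans ?_
      have := natDegree_X_le (R := ℂ)
      omega
  · refine (natDegree_C_mul_le _ _).trans ?_
    omega

private theorem psi_ne {g : ℕ} (hg : 2 ≤ g) {H : ℂ[X]} (hH : H.natDegree = g) (hm : H.Monic) (e : ℂ) :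
    psi H e ≠ 0 := by
  intro h
  have h1 : (psi H e).coeff g = 0 := by rw [h, coeff_zero]
  obtain ⟨g', rfl⟩ : ∃ g', g = g' + 1 := ⟨g - 1, by omega⟩
  have h2 : H.coeff (g' + 1) = 1 := by rw [← hH]; exact hm
  have h3 : H.coeff (g' + 1 + 1) = 0 := coeff_eq_zero_of_natDegree_lt (by omega)
  unfold psi at h1
  rw [coeff_sub, coeff_add, coeff_sub, coeff_X_mul, coeff_derivative, coeff_C_mul,
    coeff_derivative, coeff_C, if_neg (by omega), h2, h3] at h1
  have h4 : (g' : ℂ) = 0 := by linear_combination (-1 : ℂ) * h1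
  rw [Nat.cast_eq_zero] at h4
  omega

theorem degen {q g : ℕ} (hq : 1 ≤ q) (hg : 2 ≤ g) {v : ℤ[X]} (hv : v.Monic)
    (hd : v.natDegree = g - 2) :
    {s : ℤ | Delta q (X * (X * v + C s)) = 0}.Finite ∧
      {s : ℤ | Delta q (X * (X * v + C s)) = 0}.ncard ≤ 2 * g + 1 := by
  classical
  obtain ⟨w, hw⟩ : ∃ w : ℂ, w ^ 2 = 4 * q := IsAlgClosed.exists_pow_nat_eq _ (by norm_num)
  have hw' : (-w) ^ 2 = 4 * q := by rw [neg_sq, hw]
  have hinj : Function.Injective (Int.castRingHom ℂ) := Int.cast_injective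
  set H₀ : ℂ[X] := (X ^ 2 * v : ℤ[X]).map (Int.castRingHom ℂ) with hH₀
  have hH₀d : H₀.natDegree = g := by
    rw [hH₀, natDegree_map_eq_of_injective hinj]
    exact (deg_H0 hg hv hd).1
  have hH₀m : H₀.Monic := (deg_H0 hg hv hd).2.map _
  set T : Finset ℂ := insert (-(odO q (X ^ 2 * v) : ℂ))
    (((psi H₀ w).roots.toFinset ∪ (psi H₀ (-w)).roots.toFinset).image
      (fun x => -(derivative H₀).eval x)) with hT
  have hTc : T.card ≤ 2 * g + 1 := by
    have h1 : ∀ e : ℂ, (psi H₀ e).roots.toFinset.card ≤ g := fun e =>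
      (Multiset.toFinset_card_le _).trans ((card_roots' _).trans (psi_deg hH₀d e))
    have h2 := h1 w
    have h3 := h1 (-w)
    have h4 := Finset.card_union_le (psi H₀ w).roots.toFinset (psi H₀ (-w)).roots.toFinset
    have h5 := Finset.card_image_le (s := (psi H₀ w).roots.toFinset ∪ (psi H₀ (-w)).roots.toFinset)
      (f := fun x => -(derivative H₀).eval x)
    have h6 := Finset.card_insert_le (-(odO q (X ^ 2 * v) : ℂ))
      (((psi H₀ w).roots.toFinset ∪ (psi H₀ (-w)).roots.toFinset).image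
        (fun x => -(derivative H₀).eval x))
    rw [hT]
    omega
  have hmem : ∀ s ∈ {s : ℤ | Delta q (X * (X * v + C s)) = 0}, ((s : ℤ) : ℂ) ∈ (T : Set ℂ) := by
    intro s hs
    have hs : Delta q (X * (X * v + C s)) = 0 := hs
    have hHs : X * (X * v + C s) = X ^ 2 * v + C s * X := by ring
    rw [hHs] at hs
    set H : ℤ[X] := X ^ 2 * v + C s * X with hH
    unfold Delta at hs
    have hq0 : (q : ℤ) ≠ 0 := by
      have : q ≠ 0 := by omega
      exact_mod_cast this
    rw [Finset.mem_coe, hT, Finset.mem_insert]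
    rcases mul_eq_zero.1 hs with h1 | h1
    · left
      have h2 : odO q H = 0 := by
        rcases mul_eq_zero.1 h1 with h3 | h3
        · rcases mul_eq_zero.1 h3 with h4 | h4
          · norm_num at h4
          · exact absurd h4 hq0
        · exact h3
      rw [hH, odO_eq hg hv hd] at h2
      have h3 : s = - odO q (X ^ 2 * v) := by linarith
      rw [h3]
      push_cast
      ring
    · right
      have hHd : H.natDegree = g := deg_H hg hv hd s
      have h2 : ((Gpol q H).map (Int.castRingHom ℂ)).resultant ((derivative H).map (Int.castRingHom ℂ)) = 0 := by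
        rw [natDegree_map_eq_of_injective hinj, natDegree_map_eq_of_injective hinj,
          resultant_map_map, h1, map_zero]
      rw [resultant_eq_zero_iff] at h2
      have h3 := h2.2
      rw [isCoprime_iff_aeval_ne_zero_of_isAlgClosed ℂ ℂ] at h3
      push Not at h3
      obtain ⟨x, hx1, hx2⟩ := h3
      have hmapH : H.map (Int.castRingHom ℂ) = H₀ + C (s : ℂ) * X := by
        rw [hH, hH₀, Polynomial.map_add, Polynomial.map_mul (p := C s), map_C, map_X]
        rfl
      have hev : ∀ y : ℂ, aeval y H = H₀.eval y + s * y := by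
        intro y
        rw [← eval_map_algebraMap, show algebraMap ℤ ℂ = Int.castRingHom ℂ from rfl, hmapH]
        simp
      -- derivative
      have hder : (derivative H₀).eval x + s = 0 := by
        rw [← derivative_map, hmapH] at hx2
        simpa using hx2
      have hG : (aeval x H - (evE q H : ℂ)) ^ 2 = (w * (odO q H : ℂ)) ^ 2 := by
        have h4 : aeval x ((Gpol q H).map (Int.castRingHom ℂ)) =
            (aeval x H - (evE q H : ℂ)) ^ 2 - 4 * q * (odO q H : ℂ) ^ 2 := by
          rw [show Int.castRingHom ℂ = algebraMap ℤ ℂ from rfl, aeval_map_algebraMap]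
          unfold Gpol
          rw [map_sub, map_pow, map_sub, aeval_C, aeval_C, eq_intCast, eq_intCast]
          push_cast
          ring
        rw [h4] at hx1
        rw [mul_pow, hw]
        linear_combination hx1
      have key : ∀ e : ℂ, e ^ 2 = 4 * q → aeval x H = (evE q H : ℂ) + e * (odO q H : ℂ) →
          x ∈ (psi H₀ e).roots.toFinset := by
        intro e he h4
        rw [← eval_eps q H he, hev, hev] at h4
        rw [Multiset.mem_toFinset, mem_roots (psi_ne hg hH₀d hH₀m e), IsRoot.def]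
        unfold psi
        simp only [eval_sub, eval_add, eval_mul, eval_X, eval_C]
        linear_combination h4 + (e - x) * hder
      rw [Finset.mem_image]
      refine ⟨x, ?_, by linear_combination (-1 : ℂ) * hder⟩
      rw [Finset.mem_union]
      rcases sq_eq_sq_iff_eq_or_eq_neg.1 hG with h5 | h5
      · left
        exact key w hw (by linear_combination h5)
      · right
        exact key (-w) hw' (by linear_combination h5)
  have hinj' : Set.InjOn (fun s : ℤ => (s : ℂ)) {s : ℤ | Delta q (X * (X * v + C s)) = 0} :=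
    fun a _ b _ h => Int.cast_injective h
  refine ⟨Set.Finite.of_injOn (f := fun s : ℤ => (s : ℂ)) hmem hinj' T.finite_toSet, ?_⟩
  have h := Set.ncard_le_ncard_of_injOn (fun s : ℤ => (s : ℂ)) hmem hinj' T.finite_toSet
  rw [Set.ncard_coe_finset] at h
  exact h.trans hTc

end Pool.Agent.Helper84.AA
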