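import Pool.Agent.Helper84.AA.Defs

/-!
# AA-23: primes not dividing `Delta`

PROOFS.
`eval_two`: `H(2r) ≡ evE + 2 r odO mod d` for every `d ∣ r^2 - q`: `H(2r) = ∑ H_j (2r)^j`
(`Polynomial.eval_eq_sum_range`), `(2r)^j = (4r^2)^(j/2)` for even `j`, `2r (4r^2)^(j/2)` for odd `j`, and
`4 r^2 ≡ 4 q mod d`.
`nice_of`: `l ∣ r^2 - q`, `l ∤ Delta` so `l ∤ 2, q, odO, Res(G, H')`, hence `l ∤ r`.  Put `h = H + t`, `l ∣ h(2r)`.
(1) `h(2r) - h(-2r) = H(2r) - H(-2r) ≡ 4 r odO mod l` (`eval_two` for `r` and `-r`), so `l ∤ h(-2r)`.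
(2) over `F_l`: `G = (H - E)^2 - 4 q O^2 = (H - E - 2rO)(H - E + 2rO) = (H - H(2r)) (H - H(-2r))` and
`Res(G, H') ≠ 0` (`resultant_map_map`; `G` is monic of degree `2g`, `H'` has degree `g - 1` over `ℤ` and over `F_l` since
`l > g`: the leading coefficient is `g`), so `G` and `H'` are coprime over `F_l` (`resultant_eq_zero_iff`), hence
`h = H + t ≡ H - H(2r)` (a factor of `G`) is coprime to `h' = H'`: separable.
(3) `Res(h, X^2 - 4q) ≡ Res(h, (X-2r)(X+2r)) = h(2r) h(-2r)` up to sign mod `l^2` (`resultant_map_map` to `ZMod (l^2)`,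
`resultant_mul_right`, `resultant_X_sub_C_right`, `resultant_X_add_C_right`; take the explicit degrees `natDegree h` and `2`), so
it is divisible by `l` and not by `l^2`: `padicValInt = 1`.
`exists_sqrt`: `l ≡ 1 mod 8q`: `l` is odd, prime to `q`; every prime factor `p` of `q` is a square mod `l`
(odd `p`: quadratic reciprocity `legendreSym.quadratic_reciprocity_one_mod_four`, `l ≡ 1 mod 4`, `l ≡ 1 mod p`;
`p = 2`: `ZMod.exists_sq_eq_two_iff`, `l ≡ 1 mod 8`), so `q` is a square mod `l`: `r₀^2 ≡ q mod l`, `l ∤ r₀`; lift: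
`r = r₀ + l k` with `(r₀^2 - q)/l + 2 r₀ k ≡ 0 mod l`.
-/

open Polynomial

namespace Pool.Agent.Helper84.AA

theorem eval_two (q : ℕ) (H : ℤ[X]) (r d : ℤ) (hr : d ∣ r ^ 2 - q) :
    d ∣ H.eval (2 * r) - (evE q H + 2 * r * odO q H) := by
  have key : H.eval (2 * r) - (evE q H + 2 * r * odO q H) =
      ∑ j ∈ Finset.range (H.natDegree + 1), (H.coeff j * (2 * r) ^ j -
        ((if Even j then H.coeff j * (4 * q) ^ (j / 2) else 0) +
          2 * r * (if Odd j then H.coeff j * (4 * q) ^ (j / 2) else 0))) := by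
    rw [Finset.sum_sub_distrib, Finset.sum_add_distrib, ← Finset.mul_sum,
      Polynomial.eval_eq_sum_range]
    rfl
  rw [key]
  apply Finset.dvd_sum
  intro j _
  have hpow : ∀ k : ℕ, d ∣ (4 * r ^ 2) ^ k - (4 * (q : ℤ)) ^ k := by
    intro k
    have h1 : d ∣ 4 * r ^ 2 - 4 * (q : ℤ) := by
      rw [← mul_sub]
      exact Dvd.dvd.mul_left hr 4
    exact h1.trans (sub_dvd_pow_sub_pow _ _ k)
  rcases Nat.even_or_odd j with hj | hj
  · have hno : ¬ Odd j := Nat.not_odd_iff_even.2 hj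
    rw [if_pos hj, if_neg hno, mul_zero, add_zero, ← mul_sub]
    apply Dvd.dvd.mul_left
    obtain ⟨k, hk⟩ := hj
    have e1 : j / 2 = k := by omega
    have e2 : (2 * r) ^ j = (4 * r ^ 2) ^ k := by
      rw [hk, ← two_mul, pow_mul]
      congr 1
      ring
    rw [e1, e2]
    exact hpow k
  · have hne : ¬ Even j := Nat.not_even_iff_odd.2 hj
    rw [if_neg hne, if_pos hj, zero_add]
    obtain ⟨k, hk⟩ := hj
    have e1 : j / 2 = k := by omega
    have e2 : (2 * r) ^ j = 2 * r * (4 * r ^ 2) ^ k := by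
      rw [hk, pow_succ, pow_mul, mul_comm]
      congr 2
      ring
    rw [e1, e2]
    have e3 : H.coeff j * (2 * r * (4 * r ^ 2) ^ k) - 2 * r * (H.coeff j * (4 * (q : ℤ)) ^ k) =
        H.coeff j * (2 * r) * ((4 * r ^ 2) ^ k - (4 * (q : ℤ)) ^ k) := by ring
    rw [e3]
    exact Dvd.dvd.mul_left (hpow k) _

theorem exists_sqrt {q l : ℕ} (hq : 1 ≤ q) (hl : l.Prime) (hlq : l % (8 * q) = 1 % (8 * q)) :
    ∃ r : ℤ, (l : ℤ) ^ 2 ∣ r ^ 2 - q := by
  have : Fact l.Prime := ⟨hl⟩
  have h8 : 1 % (8 * q) = 1 := Nat.mod_eq_of_lt (by omega)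
  rw [h8] at hlq
  have hmod : l ≡ 1 [MOD (8 * q)] := by
    rw [Nat.ModEq, hlq, h8]
  have hl8 : l % 8 = 1 := by
    have := hmod.of_dvd (Dvd.intro q rfl)
    exact this
  have hsq : ∀ n : ℕ, n ≠ 0 → n ∣ q → IsSquare ((n : ℕ) : ZMod l) := by
    intro n
    induction n using Nat.recOnMul with
    | zero => intro h; exact absurd rfl h
    | one => intro _ _; rw [Nat.cast_one]; exact IsSquare.one
    | prime p hp =>
      intro _ hpq
      have : Fact p.Prime := ⟨hp⟩
      by_cases hp2 : p = 2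
      · subst hp2
        have hl2 : l ≠ 2 := by
          rintro rfl
          omega
        have := (ZMod.exists_sq_eq_two_iff (p := l) hl2).2 (Or.inl hl8)
        simpa using this
      · rw [ZMod.exists_sq_eq_prime_iff_of_mod_four_eq_one (p := l) (q := p) (by omega) hp2]
        have h1 : l ≡ 1 [MOD p] := hmod.of_dvd (Dvd.dvd.mul_left hpq 8)
        have h2 : ((l : ℕ) : ZMod p) = ((1 : ℕ) : ZMod p) :=
          (ZMod.natCast_eq_natCast_iff l 1 p).2 h1
        rw [h2, Nat.cast_one]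
        exact IsSquare.one
    | mul a b iha ihb =>
      intro hne hd
      have ha : a ≠ 0 := left_ne_zero_of_mul hne
      have hb : b ≠ 0 := right_ne_zero_of_mul hne
      rw [Nat.cast_mul]
      exact (iha ha ((Dvd.intro b rfl).trans hd)).mul (ihb hb ((Dvd.intro_left a rfl).trans hd))
  obtain ⟨c, hc⟩ := hsq q (by omega) dvd_rfl
  obtain ⟨r₀, hr₀⟩ := ZMod.intCast_surjective c
  have hdiv : (l : ℤ) ∣ r₀ ^ 2 - q := by
    rw [← ZMod.intCast_zmod_eq_zero_iff_dvd] 
    push_cast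
    rw [hr₀, hc]
    ring
  obtain ⟨a, ha⟩ := hdiv
  have hlq1 : q < l := by
    by_contra hcon
    push Not at hcon
    have h1 : l % (8 * q) = l := Nat.mod_eq_of_lt (by omega)
    rw [h1] at hlq
    exact hl.one_lt.ne' hlq
  have hlndvd : ¬ (l : ℤ) ∣ 2 * r₀ := by
    intro h
    have hlp : Prime (l : ℤ) := Nat.prime_iff_prime_int.1 hl
    rcases hlp.dvd_or_dvd h with h1 | h1
    · have h2 : l ∣ 2 := by exact_mod_cast h1
      have := Nat.le_of_dvd (by norm_num) h2
      have h3 := hl.two_le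
      have h4 : l = 2 := by omega
      omega
    · have h2 : (l : ℤ) ∣ (q : ℤ) := by
        have h3 : (l : ℤ) ∣ r₀ ^ 2 := Dvd.dvd.trans h1 (Dvd.intro_left r₀ (by ring))
        have h4 : (l : ℤ) ∣ r₀ ^ 2 - q := ⟨a, ha⟩
        have h5 := dvd_sub h3 h4
        rwa [sub_sub_cancel] at h5
      have h3 : l ∣ q := by exact_mod_cast h2
      have := Nat.le_of_dvd (by omega) h3
      omega
  have hcop : IsCoprime (2 * r₀) (l : ℤ) := by
    have hlp : Prime (l : ℤ) := Nat.prime_iff_prime_int.1 hl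
    exact ((Prime.coprime_iff_not_dvd hlp).2 hlndvd).symm
  obtain ⟨u, v, huv⟩ := hcop
  refine ⟨r₀ + l * (-a * u), ?_⟩
  refine ⟨a * v + (a * u) ^ 2, ?_⟩
  have e1 : r₀ ^ 2 = l * a + q := by linarith
  have e2 : (v * (l : ℤ)) = 1 - u * (2 * r₀) := by linarith
  have e3 : (r₀ + l * (-a * u)) ^ 2 - q = (r₀ ^ 2 - q) - l * a * (u * (2 * r₀)) +
    l ^ 2 * (a * u) ^ 2 := by ring
  rw [e3, ha]
  have e4 : (l : ℤ) ^ 2 * (a * v + (a * u) ^ 2) = l * a * (v * l) + l ^ 2 * (a * u) ^ 2 := by ring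
  rw [e4, e2]
  ring

theorem nice_of {q g : ℕ} (hq : 1 ≤ q) (hg : 2 ≤ g) {H : ℤ[X]} (hm : H.Monic)
    (hd : H.natDegree = g) {l : ℕ} (hl : l.Prime) (hlg : g < l) {r : ℤ}
    (hr : (l : ℤ) ^ 2 ∣ r ^ 2 - q) {t : ℤ} (h1 : (l : ℤ) ∣ H.eval (2 * r) + t)
    (h2 : ¬ (l : ℤ) ^ 2 ∣ H.eval (2 * r) + t) (h3 : ¬ (l : ℤ) ∣ Delta q H) :
    Nice q (H + C t) := by
  have : Fact l.Prime := ⟨hl⟩
  have hlp : Prime (l : ℤ) := Nat.prime_iff_prime_int.1 hl
  have hr1 : (l : ℤ) ∣ r ^ 2 - q := (Dvd.intro_left (l : ℤ) (by ring)).trans hr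
  -- the factors of `Delta`
  have hΔ : Delta q H = 2 * q * odO q H * (Gpol q H).resultant (derivative H) := rfl
  rw [hΔ] at h3
  have hn2 : ¬ (l : ℤ) ∣ 2 := fun h => h3 (by
    exact Dvd.dvd.mul_right (Dvd.dvd.mul_right (Dvd.dvd.mul_right h _) _) _)
  have hnq : ¬ (l : ℤ) ∣ q := fun h => h3 (by
    exact Dvd.dvd.mul_right (Dvd.dvd.mul_right (Dvd.dvd.mul_left h _) _) _)
  have hnO : ¬ (l : ℤ) ∣ odO q H := fun h => h3 (Dvd.dvd.mul_right (Dvd.dvd.mul_left h _) _)
  have hnR : ¬ (l : ℤ) ∣ (Gpol q H).resultant (derivative H) := fun h => h3 (Dvd.dvd.mul_left h _)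
  have hnr : ¬ (l : ℤ) ∣ r := by
    intro h
    apply hnq
    have h4 : (l : ℤ) ∣ r ^ 2 := Dvd.dvd.trans h (Dvd.intro_left r (by ring))
    have h5 := dvd_sub h4 hr1
    rwa [sub_sub_cancel] at h5
  have hev1 := eval_two q H r l hr1
  have hev2 := eval_two q H (-r) l (by rw [neg_sq]; exact hr1)
  -- the value at `-2r`
  have hneg : ¬ (l : ℤ) ∣ H.eval (-(2 * r)) + t := by
    intro h
    have e1 : (2 : ℤ) * -r = -(2 * r) := by ring
    rw [e1] at hev2
    have h4 : (l : ℤ) ∣ 2 * (2 * r * odO q H) := by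
      have h5 := dvd_sub (dvd_sub h1 h) (dvd_sub hev1 hev2)
      have e2 : H.eval (2 * r) + t - (H.eval (-(2 * r)) + t) -
          (H.eval (2 * r) - (evE q H + 2 * r * odO q H) -
            (H.eval (-(2 * r)) - (evE q H + -(2 * r) * odO q H))) = 2 * (2 * r * odO q H) := by
        ring
      rwa [e2] at h5
    rcases hlp.dvd_or_dvd h4 with h5 | h5
    · exact hn2 h5
    rcases hlp.dvd_or_dvd h5 with h6 | h6
    · rcases hlp.dvd_or_dvd h6 with h7 | h7
      · exact hn2 h7
      · exact hnr h7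
    · exact hnO h6
  have hmt : (H + C t).Monic := by
    apply hm.add_of_left
    refine lt_of_le_of_lt degree_C_le ?_
    rw [Polynomial.degree_eq_natDegree hm.ne_zero, hd]
    exact_mod_cast (by omega : 0 < g)
  have hdt : (H + C t).natDegree = g := by
    rw [natDegree_add_C, hd]
  refine ⟨l, hl, ?_, ?_⟩
  · -- separability
    set φ := Int.castRingHom (ZMod l) with hφ
    have hφ0 : ∀ z : ℤ, φ z = 0 ↔ (l : ℤ) ∣ z := fun z => by
      rw [hφ, eq_intCast]
      exact ZMod.intCast_zmod_eq_zero_iff_dvd z l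
    have hMon1 : (H - C (evE q H)).Monic := by
      apply hm.sub_of_left
      refine lt_of_le_of_lt degree_C_le ?_
      rw [Polynomial.degree_eq_natDegree hm.ne_zero, hd]
      exact_mod_cast (by omega : 0 < g)
    have hd1 : (H - C (evE q H)).natDegree = g := by rw [natDegree_sub_C, hd]
    have hMonG : (Gpol q H).Monic := by
      unfold Gpol
      apply (hMon1.pow 2).sub_of_left
      refine lt_of_le_of_lt degree_C_le ?_
      rw [Polynomial.degree_eq_natDegree (hMon1.pow 2).ne_zero, hMon1.natDegree_pow, hd1]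
      exact_mod_cast (by omega : 0 < 2 * g)
    have hlead : (derivative H).coeff (g - 1) = g := by
      rw [coeff_derivative, Nat.sub_add_cancel (by omega : 1 ≤ g)]
      have h5 : H.coeff g = 1 := by rw [← hd]; exact hm.coeff_natDegree
      rw [h5, Nat.cast_sub (by omega : 1 ≤ g)]
      ring
    have hnd : (derivative H).natDegree = g - 1 := by
      apply le_antisymm
      · have := natDegree_derivative_le H
        omega
      · apply le_natDegree_of_ne_zero
        rw [hlead]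
        exact_mod_cast (by omega : g ≠ 0)
    have hgl : φ (g : ℤ) ≠ 0 := by
      rw [Ne, hφ0]
      intro h
      have h5 : l ∣ g := by exact_mod_cast h
      have := Nat.le_of_dvd (by omega) h5
      omega
    have hnd' : ((derivative H).map φ).natDegree = (derivative H).natDegree := by
      apply natDegree_map_of_leadingCoeff_ne_zero
      rw [leadingCoeff, hnd, hlead]
      exact hgl
    have hres : ((Gpol q H).map φ).resultant ((derivative H).map φ) =
        φ ((Gpol q H).resultant (derivative H)) := by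
      rw [hMonG.natDegree_map φ, hnd']
      exact resultant_map_map _ _ _ _ φ
    have hcop : IsCoprime ((Gpol q H).map φ) ((derivative H).map φ) := by
      rw [← isUnit_resultant_iff_isCoprime (hMonG.map φ), hres, isUnit_iff_ne_zero, Ne, hφ0]
      exact hnR
    have hφq : φ (q : ℤ) = φ r ^ 2 := by
      have h5 := (hφ0 _).2 hr1
      rw [map_sub, map_pow] at h5
      exact (sub_eq_zero.1 h5).symm
    have hφt : φ t = -(φ (evE q H) + 2 * φ r * φ (odO q H)) := by
      have h5 := (hφ0 _).2 h1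
      have h6 := (hφ0 _).2 hev1
      rw [map_add] at h5
      rw [map_sub, map_add, map_mul, map_mul] at h6
      have h7 : φ 2 = 2 := by simp
      rw [h7] at h6
      have h8 := sub_eq_zero.1 h6
      rw [h8] at h5
      exact eq_neg_of_add_eq_zero_right h5
    have hfac : (Gpol q H).map φ = ((H + C t).map φ) *
        (H.map φ - C (φ (evE q H)) + C (2 * φ r * φ (odO q H))) := by
      unfold Gpol
      rw [Polynomial.map_sub, Polynomial.map_pow, Polynomial.map_sub, Polynomial.map_C,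
        Polynomial.map_C, Polynomial.map_add, Polynomial.map_C, hφt]
      have h7 : φ (4 * (q : ℤ) * odO q H ^ 2) = (2 * φ r * φ (odO q H)) ^ 2 := by
        rw [map_mul, map_mul, hφq, map_pow]
        have h8 : φ 4 = 4 := by simp
        rw [h8]
        ring
      rw [h7, C_neg, C_add, C_pow]
      ring
    rw [hfac] at hcop
    have hcop2 := hcop.of_mul_left_left
    have hder : derivative ((H + C t).map φ) = (derivative H).map φ := by
      rw [derivative_map, derivative_add, derivative_C, add_zero]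
    rw [Polynomial.Separable, hder]
    exact hcop2
  · -- the resultant
    set ψ := Int.castRingHom (ZMod (l ^ 2)) with hψ
    have hψ0 : ∀ z : ℤ, ψ z = 0 ↔ (l : ℤ) ^ 2 ∣ z := fun z => by
      rw [hψ, eq_intCast, ZMod.intCast_zmod_eq_zero_iff_dvd]
      push_cast
      exact Iff.rfl
    have hψq : ψ (q : ℤ) = ψ r ^ 2 := by
      have h5 := (hψ0 _).2 hr
      rw [map_sub, map_pow] at h5
      exact (sub_eq_zero.1 h5).symm
    have : Fact (1 < l ^ 2) := ⟨Nat.one_lt_pow (by norm_num) hl.one_lt⟩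
    set R := (H + C t).resultant (X ^ 2 - C (4 * (q : ℤ))) with hR
    have hnd2 : (X ^ 2 - C (4 * (q : ℤ)) : ℤ[X]).natDegree = 2 := natDegree_X_pow_sub_C
    -- the factorisation of the resultant modulo `l ^ 2`
    have hfac : (X ^ 2 - C (4 * (q : ℤ)) : ℤ[X]).map ψ = (X - C (ψ (2 * r))) *
        (X - C (ψ (-(2 * r)))) := by
      rw [Polynomial.map_sub, Polynomial.map_pow, Polynomial.map_X, Polynomial.map_C, map_mul, hψq]
      have h8 : ψ 4 = 4 := by simp
      have h9 : ψ (2 * r) = 2 * ψ r := by rw [map_mul]; simp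
      rw [map_neg, h8, h9, C_neg, C_mul, C_mul, C_pow]
      have h10 : (C (4 : ZMod (l ^ 2)) : (ZMod (l ^ 2))[X]) = 4 := rfl
      have h11 : (C (2 : ZMod (l ^ 2)) : (ZMod (l ^ 2))[X]) = 2 := rfl
      rw [h10, h11]
      ring
    have hψR : ψ R = (-1) ^ g * ψ (H.eval (2 * r) + t) * ((-1) ^ g * ψ (H.eval (-(2 * r)) + t)) := by
      rw [hR, ← resultant_map_map, hfac, hnd2, hdt]
      have h12 := resultant_mul_right ((H + C t).map ψ) (X - C (ψ (2 * r)))
        (X - C (ψ (-(2 * r)))) g (by rw [hmt.natDegree_map ψ, hdt])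
      rw [natDegree_X_sub_C, natDegree_X_sub_C] at h12
      have h13 : (1 : ℕ) + 1 = 2 := rfl
      rw [h13] at h12
      rw [h12, resultant_X_sub_C_right _ _ _ (by rw [hmt.natDegree_map ψ, hdt]),
        resultant_X_sub_C_right _ _ _ (by rw [hmt.natDegree_map ψ, hdt]), eval_map_apply,
        eval_map_apply, eval_add, eval_C, eval_add, eval_C]
    have hsign : ((-1 : ZMod (l ^ 2)) ^ g) * ((-1) ^ g) = 1 := by
      rw [← mul_pow]
      simp
    have hprod : ψ R = ψ ((H.eval (2 * r) + t) * (H.eval (-(2 * r)) + t)) := by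
      rw [hψR, map_mul]
      have : (-1) ^ g * ψ (H.eval (2 * r) + t) * ((-1) ^ g * ψ (H.eval (-(2 * r)) + t)) =
          ((-1 : ZMod (l ^ 2)) ^ g) * ((-1) ^ g) * (ψ (H.eval (2 * r) + t) *
            ψ (H.eval (-(2 * r)) + t)) := by ring
      rw [this, hsign, one_mul]
    have hdvd : (l : ℤ) ^ 2 ∣ R - (H.eval (2 * r) + t) * (H.eval (-(2 * r)) + t) := by
      rw [← hψ0, map_sub, hprod, sub_self]
    have hA : (l : ℤ) ∣ R := by
      have h5 : (l : ℤ) ∣ R - (H.eval (2 * r) + t) * (H.eval (-(2 * r)) + t) :=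
        (Dvd.intro_left (l : ℤ) (by ring)).trans hdvd
      have h6 := dvd_add h5 (Dvd.dvd.mul_right h1 (H.eval (-(2 * r)) + t))
      rwa [sub_add_cancel] at h6
    have hB : ¬ (l : ℤ) ^ 2 ∣ R := by
      intro h
      have h5 := dvd_sub h hdvd
      rw [sub_sub_cancel] at h5
      apply h2
      have hc : IsCoprime ((l : ℤ) ^ 2) (H.eval (-(2 * r)) + t) :=
        ((Prime.coprime_iff_not_dvd hlp).2 hneg).pow_left
      exact hc.dvd_of_dvd_mul_right h5
    have hR0 : R ≠ 0 := by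
      intro h
      rw [h] at hB
      exact hB (dvd_zero _)
    have hge : 1 ≤ padicValInt l R := by
      have := (padicValInt_dvd_iff 1 R).1 (by simpa using hA)
      rcases this with h | h
      · exact absurd h hR0
      · exact h
    have hlt : ¬ 2 ≤ padicValInt l R := by
      intro h
      exact hB ((padicValInt_dvd_iff 2 R).2 (Or.inr h))
    omega

end Pool.Agent.Helper84.AA
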