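import Mathlib

/-!
# AA-10: the determinant of `1 + κ R`, `R` the reversal (Mathlib only)

PROOF.  `det (1 + κ R) = (1 - κ^2)^(m/2) (1 + κ)^(m mod 2)` (integer division).  One way: induction
`m → m + 2` (expand along the first row and column, or block form: reindex `Fin m` so that
`R` becomes `[[0,1],[1,0]]` in blocks, `Matrix.det_fromBlocks_one₁₁`: `det (fromBlocks 1 B C D) = det (D - C B)`,
the middle index of odd `m` is a block `(1 + κ)` by itself).  Another way: `det (1 + κ R)` via the basis of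
symmetric and antisymmetric vectors.  Then with `a = |κ| < 1`:
`det^2 (1 + a) ≥ (1 - κ^2)^m (1 - a)`: for even `m`, `det^2 = (1-κ^2)^m`; for odd `m`,
`det^2 = (1-κ^2)^(m-1) (1+κ)^2 = (1-κ^2)^m (1+κ)/(1-κ)` and `(1+κ)/(1-κ) ≥ (1-a)/(1+a)`.
A way which avoids the exact formula: `d(κ) = det (1 + κ R)` is a polynomial in `κ`, `d(κ) d(-κ) = (1-κ^2)^m`
and the derivative of `log d` is `(tr R - κ m)/(1 - κ^2)` (Jacobi) with `tr R ∈ {0, 1}`.
-/

open Matrix

namespace Pool.Agent.Helper84.AA

/-- The reversal matrix. -/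
def revM (m : ℕ) : Matrix (Fin m) (Fin m) ℝ := fun i j => if j = i.rev then 1 else 0

private def evFun (m : ℕ) : Fin 2 ⊕ Fin m → Fin (m + 2) :=
  Sum.elim (fun i => if i = 0 then 0 else Fin.last _) (fun i => i.castSucc.succ)

private lemma evFun_inj (m : ℕ) : Function.Injective (evFun m) := by
  intro a b hab
  rcases a with a | a <;> rcases b with b | b
  · simp only [evFun, Sum.elim_inl] at hab
    fin_cases a <;> fin_cases b <;> simp_all [Fin.ext_iff]
  · simp only [evFun, Sum.elim_inl, Sum.elim_inr] at hab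
    fin_cases a
    · simp [Fin.ext_iff] at hab
    · have h := b.isLt
      simp [Fin.ext_iff] at hab
      omega
  · simp only [evFun, Sum.elim_inl, Sum.elim_inr] at hab
    fin_cases b
    · simp [Fin.ext_iff] at hab
    · have h := a.isLt
      simp [Fin.ext_iff] at hab
      omega
  · simp only [evFun, Sum.elim_inr] at hab
    simp only [Fin.ext_iff, Fin.val_succ, Fin.val_castSucc] at hab
    congr 1
    exact Fin.ext (by omega)

private noncomputable def evEquiv (m : ℕ) : Fin 2 ⊕ Fin m ≃ Fin (m + 2) :=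
  Equiv.ofBijective (evFun m) ((Fintype.bijective_iff_injective_and_card _).2
    ⟨evFun_inj m, by simp [add_comm]⟩)

private lemma block (m : ℕ) (κ : ℝ) :
    (1 + κ • revM (m + 2)).submatrix (evEquiv m) (evEquiv m) =
      Matrix.fromBlocks (!![1, κ; κ, 1]) 0 0 (1 + κ • revM m) := by
  have hval : ∀ x, (evEquiv m x) = evFun m x := fun _ => rfl
  ext i j
  rcases i with i | i <;> rcases j with j | j
  · rw [Matrix.fromBlocks_apply₁₁]
    simp only [Matrix.submatrix_apply, hval, Matrix.add_apply, Matrix.smul_apply, smul_eq_mul,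
      revM, evFun, Sum.elim_inl, Matrix.one_apply]
    fin_cases i <;> fin_cases j <;> simp [Fin.ext_iff]
  · rw [Matrix.fromBlocks_apply₁₂]
    simp only [Matrix.submatrix_apply, hval, Matrix.add_apply, Matrix.smul_apply, smul_eq_mul,
      revM, evFun, Sum.elim_inl, Sum.elim_inr, Matrix.one_apply, Matrix.zero_apply]
    have h := j.isLt
    fin_cases i
    · simp [Fin.ext_iff]
      omega
    · simp [Fin.ext_iff]
      omega
  · rw [Matrix.fromBlocks_apply₂₁]
    simp only [Matrix.submatrix_apply, hval, Matrix.add_apply, Matrix.smul_apply, smul_eq_mul,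
      revM, evFun, Sum.elim_inl, Sum.elim_inr, Matrix.one_apply, Matrix.zero_apply]
    have h := i.isLt
    fin_cases j
    · simp [Fin.ext_iff]
      omega
    · simp [Fin.ext_iff]
      rw [if_neg (by omega), if_neg (by omega), add_zero]
  · rw [Matrix.fromBlocks_apply₂₂]
    simp only [Matrix.submatrix_apply, hval, Matrix.add_apply, Matrix.smul_apply, smul_eq_mul,
      revM, evFun, Sum.elim_inr, Matrix.one_apply]
    have h := i.isLt
    have h' := j.isLt
    have e1 : (i.castSucc.succ = j.castSucc.succ) ↔ i = j := by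
      simp [Fin.ext_iff]
    have e2 : (j.castSucc.succ = (i.castSucc.succ).rev) ↔ j = i.rev := by
      simp only [Fin.ext_iff, Fin.val_succ, Fin.val_castSucc, Fin.val_rev]
      omega
    simp only [e1, e2]

theorem det_rev (m : ℕ) (κ : ℝ) :
    (1 + κ • revM m).det = (1 - κ ^ 2) ^ (m / 2) * (1 + κ) ^ (m % 2) := by
  induction m using Nat.twoStepInduction with
  | zero => simp
  | one => simp [revM]
  | more m ih _ =>
    rw [← Matrix.det_submatrix_equiv_self (evEquiv m), block, Matrix.det_fromBlocks_zero₂₁, ih,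
      Matrix.det_fin_two_of]
    have h1 : (m + 2) / 2 = m / 2 + 1 := by omega
    have h2 : (m + 2) % 2 = m % 2 := by omega
    rw [h1, h2, pow_succ]
    ring

theorem det_rev_lower (m : ℕ) {κ : ℝ} (hκ : |κ| < 1) :
    0 < (1 + κ • revM m).det ∧
      (1 - κ ^ 2) ^ m * (1 - |κ|) ≤ (1 + κ • revM m).det ^ 2 * (1 + |κ|) := by
  rw [det_rev]
  obtain ⟨h1, h2⟩ := abs_lt.1 hκ
  have h3 : 0 < 1 - κ ^ 2 := by nlinarith
  have h4 : 0 < 1 + κ := by linarith
  have ha := abs_nonneg κ
  refine ⟨by positivity, ?_⟩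
  rcases Nat.even_or_odd' m with ⟨n, rfl | rfl⟩
  · have e1 : 2 * n / 2 = n := by omega
    have e2 : 2 * n % 2 = 0 := by omega
    rw [e1, e2, pow_zero, mul_one, ← pow_mul, mul_comm n 2]
    exact mul_le_mul_of_nonneg_left (by linarith) (by positivity)
  · have e1 : (2 * n + 1) / 2 = n := by omega
    have e2 : (2 * n + 1) % 2 = 1 := by omega
    rw [e1, e2, pow_one, mul_pow, ← pow_mul, mul_comm n 2, pow_succ, mul_assoc, mul_assoc]
    refine mul_le_mul_of_nonneg_left ?_ (by positivity)
    have h5 : (1 - κ) * (1 - |κ|) ≤ (1 + κ) * (1 + |κ|) := by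
      rcases le_total 0 κ with h | h
      · rw [abs_of_nonneg h]
        nlinarith
      · rw [abs_of_nonpos h]
        nlinarith
    calc (1 - κ ^ 2) * (1 - |κ|) = (1 + κ) * ((1 - κ) * (1 - |κ|)) := by ring
      _ ≤ (1 + κ) * ((1 + κ) * (1 + |κ|)) := mul_le_mul_of_nonneg_left h5 h4.le
      _ = (1 + κ) ^ 2 * (1 + |κ|) := by ring

end Pool.Agent.Helper84.AA
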