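import Pool.Agent.Helper84.AA.Defs

/-!
# AA-01: finiteness and elementary facts on trace polynomials and prefixes

PROOFS.  `iter_coeff`: induction on `k` (`Polynomial.coeff_divX`, `Function.iterate_succ`).
`trace_real`: `h.map ℂ` splits; all its roots are real so the real polynomial
`h.map ℝ` splits (an irreducible real factor has a complex root, or: the product of
`X - C x` over the real numbers `x` below the complex roots maps to `h.map ℂ`), the number of roots
is the degree.
`traceSet_finite`: the coefficients are bounded (`Polynomial.coeff_le_of_roots_le`,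
`coeff_bdd_of_roots_le` in Mathlib.Analysis/Topology.Algebra.Polynomial), a polynomial of degree at
most `g` with coefficients in a finite set of integers: `Set.Finite.of_injOn`/image of a finite set
of functions `Fin (g + 1) → ℤ`; or `Algebra`/`NumberField.Embeddings.finite_of_norm_le` style.
`pre_monic`: `divX^[k]` of a monic polynomial of degree `≥ k` is monic of degree `natDegree - k`.
`divX_pre`: `divX (divX^[g-(n+1)] h) = divX^[g-n] h`.
`pre_card_fiber` is not needed here.
`trace_mul`: a monic factor of a trace polynomial is a trace polynomial.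
-/

open Polynomial

namespace Pool.Agent.Helper84.AA

theorem iter_coeff (h : ℤ[X]) (k i : ℕ) : (divX^[k] h).coeff i = h.coeff (i + k) := by
  induction k generalizing h with
  | zero => rfl
  | succ k ih =>
    rw [Function.iterate_succ_apply, ih, coeff_divX]
    rfl

private theorem h86_complex_prod {q g : ℕ} {h : ℤ[X]} (hh : IsTrace q g h) :
    h.map (Int.castRingHom ℝ) =
      (((h.map (Int.castRingHom ℂ)).roots.map Complex.re).map fun x => X - C x).prod := by
  obtain ⟨hm, _, hr⟩ := hh
  apply Polynomial.map_injective Complex.ofRealHom Complex.ofReal_injective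
  have h1 : (h.map (Int.castRingHom ℝ)).map Complex.ofRealHom = h.map (Int.castRingHom ℂ) := by
    rw [Polynomial.map_map]
    congr 1
  rw [h1, (IsAlgClosed.splits (h.map (Int.castRingHom ℂ))).eq_prod_roots_of_monic (hm.map _)]
  rw [Polynomial.map_multiset_prod, Multiset.map_map, Multiset.map_map]
  congr 1
  rw [← (IsAlgClosed.splits (h.map (Int.castRingHom ℂ))).eq_prod_roots_of_monic (hm.map _)]
  refine Multiset.map_congr rfl fun z hz => ?_
  have hz2 : aeval z h = 0 := by
    rw [mem_roots (hm.map _).ne_zero, IsRoot.def, eval_map] at hz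
    rw [aeval_def, ← hz]
    congr 1
  obtain ⟨x, hx, _⟩ := hr z hz2
  simp only [Function.comp_apply, Polynomial.map_sub, map_X, map_C]
  rw [← hx]
  rfl

private theorem h86_root_complex {h : ℤ[X]} (hm : h.Monic) {z : ℂ} :
    z ∈ (h.map (Int.castRingHom ℂ)).roots ↔ aeval z h = 0 := by
  rw [mem_roots (hm.map _).ne_zero, IsRoot.def, eval_map, aeval_def]
  constructor
  · intro hz
    rw [← hz]
    congr 1
  · intro hz
    rw [← hz]
    congr 1

/-- The real polynomial of a trace polynomial splits. -/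
theorem trace_real {q g : ℕ} {h : ℤ[X]} (hh : IsTrace q g h) :
    (h.map (Int.castRingHom ℝ)).Splits ∧ (h.map (Int.castRingHom ℝ)).Monic ∧
      (h.map (Int.castRingHom ℝ)).natDegree = g ∧
      (h.map (Int.castRingHom ℝ)).roots.card = g ∧
      ∀ x ∈ (h.map (Int.castRingHom ℝ)).roots, x ^ 2 ≤ 4 * q := by
  have h0 := h86_complex_prod hh
  obtain ⟨hm, hd, hr⟩ := hh
  have hmR : (h.map (Int.castRingHom ℝ)).Monic := hm.map _
  have hdR : (h.map (Int.castRingHom ℝ)).natDegree = g := by
    rw [hm.natDegree_map, hd]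
  have hs : (h.map (Int.castRingHom ℝ)).Splits := by
    rw [h0]
    refine Splits.multisetProd fun f hf => ?_
    obtain ⟨x, _, rfl⟩ := Multiset.mem_map.1 hf
    exact Splits.X_sub_C x
  refine ⟨hs, hmR, hdR, ?_, ?_⟩
  · rw [← hdR]
    exact hs.natDegree_eq_card_roots.symm
  · intro x hx
    rw [mem_roots hmR.ne_zero, IsRoot.def, eval_map] at hx
    have h1 : aeval (x : ℂ) h = 0 := by
      have h2 : aeval (x : ℂ) h = ((eval₂ (Int.castRingHom ℝ) x h : ℝ) : ℂ) := by
        rw [aeval_def]
        have h3 := Polynomial.hom_eval₂ h (Int.castRingHom ℝ) Complex.ofRealHom x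
        rw [show ((eval₂ (Int.castRingHom ℝ) x h : ℝ) : ℂ) =
          Complex.ofRealHom (eval₂ (Int.castRingHom ℝ) x h) from rfl, h3]
        congr 1
      rw [h2, hx, Complex.ofReal_zero]
    obtain ⟨y, hy, hy2⟩ := hr _ h1
    rw [← Complex.ofReal_injective hy]
    exact hy2

theorem traceSet_finite (q g : ℕ) : (traceSet q g).Finite := by
  obtain ⟨N, hN⟩ := exists_nat_ge (max (2 * √(q : ℝ)) 1 ^ g * g.choose (g / 2))
  have hb : ∀ h ∈ traceSet q g, ∀ i, h.coeff i ∈ Set.Icc (-(N : ℤ)) N := by
    intro h hh i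
    obtain ⟨hs, hmR, hdR, _, hx⟩ := trace_real hh
    have h1 := coeff_bdd_of_roots_le (B := 2 * √(q : ℝ)) (d := g) (RingHom.id ℝ) hmR
      (by rwa [Polynomial.map_id]) hdR.le (by
        intro z hz
        rw [Polynomial.map_id] at hz
        have h2 := hx z hz
        rw [Real.norm_eq_abs]
        apply abs_le_of_sq_le_sq _ (by positivity)
        rw [mul_pow, Real.sq_sqrt (Nat.cast_nonneg q)]
        linarith) i
    rw [Polynomial.map_id, coeff_map, Real.norm_eq_abs] at h1
    have h3 : |((h.coeff i : ℤ) : ℝ)| ≤ N := h1.trans hN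
    have h4 : |h.coeff i| ≤ (N : ℤ) := by
      exact_mod_cast h3
    exact abs_le.1 h4
  refine Set.Finite.of_injOn (f := fun (h : ℤ[X]) (i : Fin (g + 1)) => h.coeff i)
    (t := Set.pi Set.univ fun _ => Set.Icc (-(N : ℤ)) N) ?_ ?_
    (Set.Finite.pi fun _ => Set.finite_Icc _ _)
  · intro h hh i _
    exact hb h hh i
  · intro h hh h' hh' he
    ext i
    by_cases hi : i < g + 1
    · exact congrFun he ⟨i, hi⟩
    · rw [coeff_eq_zero_of_natDegree_lt (by rw [hh.2.1]; omega),
        coeff_eq_zero_of_natDegree_lt (by rw [hh'.2.1]; omega)]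

theorem preSet_finite (q g n : ℕ) : (preSet q g n).Finite :=
  (traceSet_finite q g).image _

/-- Conversely. -/
theorem trace_of_real {q g : ℕ} {h : ℤ[X]} (hm : h.Monic) (hd : h.natDegree = g)
    (hs : (h.map (Int.castRingHom ℝ)).Splits)
    (hr : ∀ x ∈ (h.map (Int.castRingHom ℝ)).roots, x ^ 2 ≤ 4 * q) : IsTrace q g h := by
  refine ⟨hm, hd, fun z hz => ?_⟩
  have h1 : (h.map (Int.castRingHom ℝ)).map Complex.ofRealHom = h.map (Int.castRingHom ℂ) := by
    rw [Polynomial.map_map]
    congr 1
  have h2 : eval z (h.map (Int.castRingHom ℂ)) = 0 := by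
    exact (mem_roots (hm.map _).ne_zero).1 ((h86_root_complex hm).2 hz)
  rw [← h1, hs.eq_prod_roots_of_monic (hm.map _), Polynomial.map_multiset_prod, Multiset.map_map,
    eval_multiset_prod, Multiset.prod_eq_zero_iff] at h2
  obtain ⟨w, hw, hw2⟩ := Multiset.mem_map.1 h2
  obtain ⟨x, hx, rfl⟩ := Multiset.mem_map.1 hw
  refine ⟨x, ?_, hr x hx⟩
  simp only [Function.comp_apply, Polynomial.map_sub, map_X, map_C, eval_sub, eval_X, eval_C] at hw2
  exact (sub_eq_zero.1 hw2).symm

theorem pre_self (q g : ℕ) : preSet q g g = traceSet q g := by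
  unfold preSet
  rw [Nat.sub_self]
  exact Set.image_id _

theorem pre_monic {q g n : ℕ} (hn : n ≤ g) {u : ℤ[X]} (hu : u ∈ preSet q g n) :
    u.Monic ∧ u.natDegree = n := by
  obtain ⟨h, hh, rfl⟩ := hu
  obtain ⟨hm, hd, _⟩ := hh
  have h1 : (divX^[g - n] h).coeff n = 1 := by
    rw [iter_coeff, Nat.add_sub_cancel' hn, ← hd]
    exact hm
  have h2 : (divX^[g - n] h).natDegree ≤ n := by
    rw [natDegree_le_iff_coeff_eq_zero]
    intro i hi
    rw [iter_coeff]
    apply coeff_eq_zero_of_natDegree_lt
    omega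
  refine ⟨monic_of_natDegree_le_of_coeff_eq_one n h2 h1,
    natDegree_eq_of_le_of_coeff_ne_zero h2 ?_⟩
  rw [h1]
  exact one_ne_zero

theorem divX_pre {q g n : ℕ} (hn : n + 1 ≤ g) {u : ℤ[X]} (hu : u ∈ preSet q g (n + 1)) :
    divX u ∈ preSet q g n := by
  obtain ⟨h, hh, rfl⟩ := hu
  refine ⟨h, hh, ?_⟩
  simp only
  rw [← Function.iterate_succ_apply' divX]
  congr 2
  omega

/-- The elements of `traceSet` with the prefix `u` are the `X u + t` with `t ∈ Jset`. -/
theorem mem_trace_iff {q g : ℕ} (hg : 1 ≤ g) (h : ℤ[X]) :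
    h ∈ traceSet q g ↔ divX h ∈ preSet q g (g - 1) ∧ h.coeff 0 ∈ Jset q g (divX h) := by
  have h1 : X * divX h + C (h.coeff 0) = h := by
    rw [mul_comm]
    exact divX_mul_X_add h
  constructor
  · intro hh
    refine ⟨⟨h, hh, ?_⟩, ?_⟩
    · have h2 : g - (g - 1) = 1 := by omega
      simp only [h2]
      rfl
    · change IsTrace q g (X * divX h + C (h.coeff 0))
      rw [h1]
      exact hh
  · rintro ⟨_, h2⟩
    change IsTrace q g (X * divX h + C (h.coeff 0)) at h2
    rw [h1] at h2
    exact h2

theorem Jset_finite (q g : ℕ) (u : ℤ[X]) : (Jset q g u).Finite := by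
  refine (traceSet_finite q g).preimage (f := fun t : ℤ => X * u + C t) ?_
  intro a _ b _ hab
  simp only at hab
  exact C_injective (add_left_cancel hab)

theorem trace_mul {q g k : ℕ} {h a b : ℤ[X]} (hh : IsTrace q g h) (hab : h = a * b)
    (ha : a.Monic) (hk : a.natDegree = k) : IsTrace q k a := by
  refine ⟨ha, hk, fun z hz => hh.2.2 z ?_⟩
  rw [hab, map_mul, hz, zero_mul]

end Pool.Agent.Helper84.AA
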