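import Pool.Agent.Helper84.AA.Fin

/-!
# AA-22: the set of the last coefficients is an interval

PROOF of `trace_convex`.  Let `H = X u`, `H_i = H + t_i`, `t₁ ≤ t ≤ t₂`, `g = deg`.  If `g = 0` the statement is trivial
(`X * u + C t` of degree `g` monic forces `g ≥ 1`, or `u = 0`).  We may assume `t₁ < t < t₂`.
Monic and degree: from `H_1` (`X * u + C t = (X*u + C t₁) + C (t - t₁)`, degree `g ≥ 1`; if `g = 0`, `H_1 = 1`, then `u = 0`,
`t₁ = 1 = t₂ = t`).  Let `z` be a root of `H + t` with `Im z > 0` (the case `Im z < 0` by conjugation).  `H_i` is real rooted: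
`H'/H_i (z) = ∑ 1/(z - x_j)` has negative imaginary part (`g ≥ 1`; `H_i(z) ≠ 0`), so `H'(z) ≠ 0` and
`H_i(z)/H'(z)` has positive imaginary part, `i = 1, 2`; `(H + t)(z)/H'(z)` is a convex combination of these two numbers,
so it has positive imaginary part, so it is not `0`: contradiction.  So all the roots are real.
A real root `x > 2√q`: `H_1(x), H_2(x) > 0` (all roots below `x`, monic), so `(H+t)(x) > 0`.  `x < -2√q`: both have
the sign `(-1)^g`.  (`Polynomial.eval_derivative_eq_eval_mul_sum`/`logDeriv`, `trace_real`.)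
`Jset_Ico`: a finite set of integers which is order connected is an interval.
-/

open Polynomial

namespace Pool.Agent.Helper84.AA

private lemma im_sum {z : ℂ} (hz : z.im ≠ 0) (s : Multiset ℂ) (hs : ∀ a ∈ s, a.im = 0) :
    ∃ c : ℝ, 0 ≤ c ∧ (s ≠ 0 → 0 < c) ∧ (s.map fun a => 1 / (z - a)).sum.im = -(z.im * c) := by
  induction s using Multiset.induction_on with
  | empty => exact ⟨0, le_refl _, fun h => absurd rfl h, by simp⟩
  | cons a s ih =>
    obtain ⟨c, hc0, -, hc⟩ := ih fun b hb => hs b (Multiset.mem_cons_of_mem hb)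
    have ha : a.im = 0 := hs a (Multiset.mem_cons_self a s)
    have hza : z - a ≠ 0 := by
      intro h
      have := congrArg Complex.im h
      simp [ha] at this
      exact hz this
    have hn : 0 < Complex.normSq (z - a) := Complex.normSq_pos.mpr hza
    refine ⟨(Complex.normSq (z - a))⁻¹ + c, by positivity, fun _ => by positivity, ?_⟩
    rw [Multiset.map_cons, Multiset.sum_cons, Complex.add_im, hc, one_div, Complex.inv_im,
      Complex.sub_im, ha]
    field_simp
    ring

private lemma roots_real {q g : ℕ} {h : ℤ[X]} (hh : IsTrace q g h) {a : ℂ}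
    (ha : a ∈ (h.map (Int.castRingHom ℂ)).roots) : a.im = 0 := by
  have hne : h.map (Int.castRingHom ℂ) ≠ 0 := (hh.1.map _).ne_zero
  have h1 := (mem_roots hne).mp ha
  obtain ⟨x, hx, -⟩ := hh.2.2 a (by
    rw [IsRoot.def, eval_map] at h1
    rw [aeval_def]
    simpa using h1)
  rw [← hx]
  exact Complex.ofReal_im x

/-- The values at a real number outside of the interval. -/
private lemma eval_outside {q g : ℕ} {h : ℤ[X]} (hh : IsTrace q g h) {x : ℝ}
    (hx : (4 * q : ℝ) < x ^ 2) :
    (0 < x → 0 < (h.map (Int.castRingHom ℝ)).eval x) ∧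
      (x < 0 → 0 < (-1) ^ g * (h.map (Int.castRingHom ℝ)).eval x) := by
  obtain ⟨h1, h2, -, h4, h5⟩ := trace_real hh
  rw [h1.eval_eq_prod_roots_of_monic h2]
  rw [← h4]
  generalize (h.map (Int.castRingHom ℝ)).roots = s at h5
  clear h1 h2 h4
  induction s using Multiset.induction_on with
  | empty => simp
  | cons a s ih =>
    obtain ⟨i1, i2⟩ := ih fun b hb => h5 b (Multiset.mem_cons_of_mem hb)
    have ha := h5 a (Multiset.mem_cons_self a s)
    rw [Multiset.map_cons, Multiset.prod_cons, Multiset.card_cons]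
    constructor
    · intro hx0
      refine mul_pos ?_ (i1 hx0)
      by_contra hc
      push Not at hc
      nlinarith
    · intro hx0
      have h3 : 0 < a - x := by
        by_contra hc
        push Not at hc
        nlinarith
      have h4 := mul_pos h3 (i2 hx0)
      calc (0 : ℝ) < _ := h4
        _ = _ := by ring

theorem trace_convex {q g : ℕ} {u : ℤ[X]} {t₁ t t₂ : ℤ} (h₁ : t₁ ≤ t) (h₂ : t ≤ t₂)
    (ht₁ : IsTrace q g (X * u + C t₁)) (ht₂ : IsTrace q g (X * u + C t₂)) :
    IsTrace q g (X * u + C t) := by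
  rcases h₁.eq_or_lt with rfl | h₁
  · exact ht₁
  rcases h₂.eq_or_lt with rfl | h₂
  · exact ht₂
  have hg : g ≠ 0 := by
    rintro rfl
    have e1 := ht₁.1.natDegree_eq_zero.mp ht₁.2.1
    have e2 := ht₂.1.natDegree_eq_zero.mp ht₂.2.1
    have e3 : (C t₁ : ℤ[X]) = C t₂ := add_left_cancel (e1.trans e2.symm)
    have := C_injective e3
    omega
  have hadd : X * u + C t = (X * u + C t₁) + C (t - t₁) := by
    rw [C_sub]; ring
  have hm : (X * u + C t).Monic := by
    rw [hadd]
    refine ht₁.1.add_of_left ?_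
    refine lt_of_le_of_lt degree_C_le ?_
    rw [degree_eq_natDegree ht₁.1.ne_zero, ht₁.2.1]
    exact_mod_cast Nat.pos_of_ne_zero hg
  have hd : (X * u + C t).natDegree = g := by
    rw [hadd, natDegree_add_C, ht₁.2.1]
  refine ⟨hm, hd, ?_⟩
  intro z hz
  -- values at `z`
  have hval : ∀ t' : ℤ, ((X * u + C t').map (Int.castRingHom ℂ)).eval z = ((t' - t : ℤ) : ℂ) := by
    intro t'
    have e : X * u + C t' = (X * u + C t) + C (t' - t) := by
      rw [C_sub]; ring
    rw [e, Polynomial.map_add, eval_add]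
    have h0 : ((X * u + C t).map (Int.castRingHom ℂ)).eval z = 0 := by
      rw [eval_map]
      rw [aeval_def] at hz
      simpa using hz
    rw [h0]
    simp
  have hder : ∀ t' : ℤ, ((X * u + C t').map (Int.castRingHom ℂ)).derivative.eval z =
      ((X * u).map (Int.castRingHom ℂ)).derivative.eval z := by
    intro t'
    simp [derivative_add]
  have key : ∀ t' : ℤ, t' ≠ t → IsTrace q g (X * u + C t') → z.im ≠ 0 → ∃ c : ℝ, 0 < c ∧
      (((X * u).map (Int.castRingHom ℂ)).derivative.eval z).im = (t' - t) * -(z.im * c) := by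
    intro t' htt ht' hzi
    have hne : ((X * u + C t').map (Int.castRingHom ℂ)).eval z ≠ 0 := by
      rw [hval t']
      exact_mod_cast sub_ne_zero.mpr htt
    have hs := (IsAlgClosed.splits ((X * u + C t').map
      (Int.castRingHom ℂ))).eval_derivative_eq_eval_mul_sum hne
    obtain ⟨c, -, hc, hsum⟩ := im_sum hzi ((X * u + C t').map (Int.castRingHom ℂ)).roots
      (fun a ha => roots_real ht' ha)
    refine ⟨c, hc ?_, ?_⟩
    · intro h0
      have hcard := (IsAlgClosed.splits ((X * u + C t').map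
        (Int.castRingHom ℂ))).natDegree_eq_card_roots
      rw [h0, (ht'.1).natDegree_map, ht'.2.1] at hcard
      exact hg (by simpa using hcard)
    · rw [← hder t', hs, hval t', ← hsum]
      have : (((t' - t : ℤ) : ℂ)) = (((t' - t : ℤ) : ℝ) : ℂ) := by push_cast; ring
      rw [this, Complex.im_ofReal_mul]
      push_cast
      ring
  have hzi : z.im = 0 := by
    by_contra hzi
    obtain ⟨c₁, hc₁, e₁⟩ := key t₁ h₁.ne ht₁ hzi
    obtain ⟨c₂, hc₂, e₂⟩ := key t₂ h₂.ne' ht₂ hzi
    rw [e₁] at e₂
    have a1 : (0 : ℝ) < t - t₁ := by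
      have : (t₁ : ℝ) < t := by exact_mod_cast h₁
      linarith
    have a2 : (0 : ℝ) < t₂ - t := by
      have : (t : ℝ) < t₂ := by exact_mod_cast h₂
      linarith
    have : z.im * (((t : ℝ) - t₁) * c₁ + ((t₂ : ℝ) - t) * c₂) = 0 := by linarith
    rcases mul_eq_zero.mp this with h | h
    · exact hzi h
    · have b1 := mul_pos a1 hc₁
      have b2 := mul_pos a2 hc₂
      linarith
  refine ⟨z.re, ?_, ?_⟩
  · apply Complex.ext
    · simp
    · simp [hzi]
  have hzr : z = ((z.re : ℝ) : ℂ) := by
    apply Complex.ext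
    · simp
    · simp [hzi]
  by_contra hc
  push Not at hc
  have hvr : ∀ t' : ℤ, ((X * u + C t').map (Int.castRingHom ℝ)).eval z.re = ((t' - t : ℤ) : ℝ) := by
    intro t'
    have e1 := hval t'
    have e2 : (X * u + C t').map (Int.castRingHom ℂ) =
        ((X * u + C t').map (Int.castRingHom ℝ)).map Complex.ofRealHom := by
      rw [Polynomial.map_map]
      congr 1
    rw [e2, hzr] at e1
    have e3 : ((((X * u + C t').map (Int.castRingHom ℝ)).map Complex.ofRealHom).eval
        ((z.re : ℝ) : ℂ)) = ((((X * u + C t').map (Int.castRingHom ℝ)).eval z.re : ℝ) : ℂ) := by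
      have := eval_map_apply (f := Complex.ofRealHom)
        (p := (X * u + C t').map (Int.castRingHom ℝ)) (x := z.re)
      simpa using this
    rw [e3] at e1
    exact_mod_cast e1
  have a1 : ((t₁ - t : ℤ) : ℝ) < 0 := by exact_mod_cast sub_neg.mpr h₁
  have a2 : (0 : ℝ) < ((t₂ - t : ℤ) : ℝ) := by exact_mod_cast sub_pos.mpr h₂
  obtain ⟨o1, o2⟩ := eval_outside ht₁ hc
  obtain ⟨o3, o4⟩ := eval_outside ht₂ hc
  rw [hvr] at o1 o2 o3 o4
  rcases lt_trichotomy z.re 0 with h | h | h
  · have b1 := o2 h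
    have b2 := o4 h
    rcases neg_one_pow_eq_or ℝ g with hs | hs
    · rw [hs] at b1
      linarith
    · rw [hs] at b2
      linarith
  · rw [h] at hc
    have : (0 : ℝ) ≤ 4 * q := by positivity
    nlinarith
  · have b1 := o1 h
    linarith

theorem Jset_Ico (q g : ℕ) (u : ℤ[X]) : ∃ (a : ℤ) (M : ℕ), Jset q g u = Set.Ico a (a + M) := by
  rcases (Jset q g u).eq_empty_or_nonempty with he | hne
  · exact ⟨0, 0, by rw [he]; simp⟩
  have hf := Jset_finite q g u
  obtain ⟨a, ha, hamin⟩ := Set.exists_min_image _ id hf hne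
  obtain ⟨b, hb, hbmax⟩ := Set.exists_max_image _ id hf hne
  simp only [id] at hamin hbmax
  have hab : a ≤ b := hamin b hb
  refine ⟨a, (b + 1 - a).toNat, ?_⟩
  have hM : (((b + 1 - a).toNat : ℕ) : ℤ) = b + 1 - a := Int.toNat_of_nonneg (by omega)
  rw [hM]
  ext t
  rw [Set.mem_Ico]
  constructor
  · intro ht
    have h1 := hamin t ht
    have h2 := hbmax t ht
    omega
  · rintro ⟨h1, h2⟩
    exact trace_convex h1 (by omega) ha hb

end Pool.Agent.Helper84.AA
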