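import Pool.Agent.Helper84.AA.Defs

/-!
# AA-03: the Levinson recursion for a finite system of points on the unit circle

`s` is a multiset of complex numbers of absolute value `1`.

PROOFS.  For a real polynomial `p` with `natDegree p ≤ n` and `|z| = 1`:
`aeval z (reflect n p) = z^n conj (aeval z p)` (coefficients real, `z⁻¹ = conj z`), so
`|aeval z (reflect n p)| = |aeval z p|`.  `bil` is bilinear and symmetric and `bil s (X p) (X r) =
bil s p r`.

* `lev_monic`: induction; `reflect n (lev n)` has degree at most `n`.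
* `levE_succ`: `Ψ' = X Ψ - γ Ψ*`: `bil Ψ' Ψ' = bil Ψ Ψ - 2 γ t + γ^2 bil Ψ Ψ`, `t = bil (XΨ) Ψ*`,
  `γ = t / e`; if `e ≠ 0` this is `e - t^2/e`; if `e = 0` then `γ = 0` (division by zero) and `e' = e = 0`.
* `levT_le`: `|Re (a conj b)| ≤ |a||b|` and `|XΨ(z)| = |Ψ*(z)| = |Ψ(z)|` give `|t| ≤ ∑ |Ψ(z)|^2 = e`
  (`aeval z p * conj (aeval z p)` has real part the square of the absolute value).
* `bil_eq_mom`: `Re (z^a conj (z^b)) = Re z^(|a-b|)` for `|z| = 1`; so
  `bil s p r = ∑_{a,b} p_a r_b mom s (|a - b|)` (sums over `a < A`, `b < B` for any bounds on the degrees).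
* `lev_congr`: induction: `lev n`, `reflect n (lev n)`, `X * lev n` have degrees at most
  `n`, `n`, `n+1`; the pairs `(a, b)` with `|a - b| = n + 1` in `levT s n` are only `(n+1, 0)`.
  For `lev (n+1)` one needs `levT s n`, `levE s n`: moments up to `n + 1`.
* `levT_sub`: in `levT s n = bil s (X Ψ_n) Ψ_n^*` the coefficient of `mom s (n+1)` is
  `(X Ψ_n).coeff (n+1) * (Ψ_n^*).coeff 0 = 1` (`Ψ_n` monic of degree `n`), all the other terms have
  `|a - b| ≤ n`.
-/

open Polynomial

namespace Pool.Agent.Helper84.AA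

private theorem lv_reflect_deg {n : ℕ} {p : ℝ[X]} (hp : p.natDegree ≤ n) :
    (reflect n p).natDegree ≤ n :=
  natDegree_reflect_le.trans (max_le le_rfl hp)

theorem lev_monic (s : Multiset ℂ) (n : ℕ) : (lev s n).Monic ∧ (lev s n).natDegree = n := by
  induction n with
  | zero => exact ⟨monic_one, natDegree_one⟩
  | succ n ih =>
    obtain ⟨hm, hd⟩ := ih
    have h1 : (X * lev s n).Monic := monic_X.mul hm
    have h2 : (X * lev s n).natDegree = n + 1 := by
      rw [natDegree_X_mul hm.ne_zero, hd]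
    have h3 : (C (bil s (X * lev s n) (reflect n (lev s n)) / bil s (lev s n) (lev s n)) *
        reflect n (lev s n)).natDegree < (X * lev s n).natDegree := by
      rw [h2]
      refine lt_of_le_of_lt (natDegree_C_mul_le _ _) ?_
      exact Nat.lt_succ_of_le (lv_reflect_deg hd.le)
    constructor
    · show (X * lev s n - _).Monic
      apply Monic.sub_of_left h1
      exact degree_lt_degree h3
    · show (X * lev s n - _).natDegree = n + 1
      rw [natDegree_sub_eq_left_of_natDegree_lt h3, h2]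

theorem levE_zero (s : Multiset ℂ) : levE s 0 = s.card := by
  simp [levE, bil, lev]

private theorem lv_re_self (a : ℂ) : (a * (starRingEnd ℂ) a).re = ‖a‖ ^ 2 := by
  rw [Complex.mul_conj, Complex.ofReal_re, Complex.normSq_eq_norm_sq]

private theorem lv_bil_self (s : Multiset ℂ) (p : ℝ[X]) :
    bil s p p = (s.map fun z => ‖aeval z p‖ ^ 2).sum := by
  unfold bil
  congr 1
  apply Multiset.map_congr rfl
  intro z _
  exact lv_re_self _

theorem levE_nonneg (s : Multiset ℂ) (n : ℕ) : 0 ≤ levE s n := by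
  unfold levE
  rw [lv_bil_self]
  apply Multiset.sum_nonneg
  intro x hx
  rw [Multiset.mem_map] at hx
  obtain ⟨z, _, rfl⟩ := hx
  positivity

private theorem lv_norm_reflect {z : ℂ} (hz : ‖z‖ = 1) {n : ℕ} {p : ℝ[X]}
    (hp : p.natDegree ≤ n) : ‖aeval z (reflect n p)‖ = ‖aeval z p‖ := by
  have hz0 : z ≠ 0 := by
    rintro rfl
    simp at hz
  have hcz : z * (starRingEnd ℂ) z = 1 := by
    rw [Complex.mul_conj, Complex.normSq_eq_norm_sq, hz]
    norm_num
  let _ : Invertible ((starRingEnd ℂ) z) := invertibleOfRightInverse _ z (by rw [mul_comm, hcz])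
  have h1 := eval₂_reflect_mul_pow (algebraMap ℝ ℂ) ((starRingEnd ℂ) z) n p hp
  have h2 : ⅟((starRingEnd ℂ) z) = z := invOf_eq_right_inv (by rw [mul_comm, hcz])
  rw [h2] at h1
  have h3 : eval₂ (algebraMap ℝ ℂ) ((starRingEnd ℂ) z) p = (starRingEnd ℂ) (aeval z p) := by
    rw [Polynomial.aeval_def, Polynomial.hom_eval₂]
    congr 1
    ext x
    simp
  rw [h3] at h1
  have h4 := congrArg norm h1
  rw [norm_mul, norm_pow, RCLike.norm_conj, RCLike.norm_conj, hz, one_pow, mul_one] at h4
  exact h4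

private theorem lv_norm_X {z : ℂ} (hz : ‖z‖ = 1) (p : ℝ[X]) :
    ‖aeval z (X * p)‖ = ‖aeval z p‖ := by
  rw [map_mul, aeval_X, norm_mul, hz, one_mul]

private theorem lv_bil_X {s : Multiset ℂ} (hs : ∀ z ∈ s, ‖z‖ = 1) (p : ℝ[X]) :
    bil s (X * p) (X * p) = bil s p p := by
  rw [lv_bil_self, lv_bil_self]
  congr 1
  apply Multiset.map_congr rfl
  intro z hz
  rw [lv_norm_X (hs z hz)]

private theorem lv_bil_reflect {s : Multiset ℂ} (hs : ∀ z ∈ s, ‖z‖ = 1) {n : ℕ} {p : ℝ[X]}
    (hp : p.natDegree ≤ n) : bil s (reflect n p) (reflect n p) = bil s p p := by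
  rw [lv_bil_self, lv_bil_self]
  congr 1
  apply Multiset.map_congr rfl
  intro z hz
  rw [lv_norm_reflect (hs z hz) hp]

private theorem lv_bil_expand (s : Multiset ℂ) (p r : ℝ[X]) (c : ℝ) :
    bil s (p - C c * r) (p - C c * r) = bil s p p - 2 * c * bil s p r + c ^ 2 * bil s r r := by
  unfold bil
  induction s using Multiset.induction_on with
  | empty => simp
  | cons z s ih =>
    rw [Multiset.map_cons, Multiset.sum_cons, Multiset.map_cons, Multiset.sum_cons,
      Multiset.map_cons, Multiset.sum_cons, Multiset.map_cons, Multiset.sum_cons, ih]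
    have h1 : aeval z (p - C c * r) = aeval z p - (c : ℂ) * aeval z r := by
      rw [map_sub, map_mul, aeval_C]
      rfl
    have h2 : (aeval z (p - C c * r) * (starRingEnd ℂ) (aeval z (p - C c * r))).re =
        (aeval z p * (starRingEnd ℂ) (aeval z p)).re -
          2 * c * (aeval z p * (starRingEnd ℂ) (aeval z r)).re +
          c ^ 2 * (aeval z r * (starRingEnd ℂ) (aeval z r)).re := by
      rw [h1]
      simp only [map_sub, map_mul, Complex.conj_ofReal, Complex.mul_re, Complex.sub_re,
        Complex.sub_im, Complex.mul_im, Complex.conj_re, Complex.conj_im, Complex.ofReal_re,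
        Complex.ofReal_im]
      ring
    rw [h2]
    ring

theorem levE_succ {s : Multiset ℂ} (hs : ∀ z ∈ s, ‖z‖ = 1) (n : ℕ) :
    levE s (n + 1) = levE s n * (1 - (levT s n / levE s n) ^ 2) := by
  have h1 : levE s (n + 1) = levE s n - 2 * (levT s n / levE s n) * levT s n +
      (levT s n / levE s n) ^ 2 * levE s n := by
    have h2 : levE s (n + 1) = bil s (X * lev s n - C (levT s n / levE s n) * reflect n (lev s n))
        (X * lev s n - C (levT s n / levE s n) * reflect n (lev s n)) := rfl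
    rw [h2, lv_bil_expand, lv_bil_X hs, lv_bil_reflect hs (lev_monic s n).2.le]
    rfl
  rw [h1]
  by_cases h0 : levE s n = 0
  · simp [h0]
  · field_simp
    ring

private theorem lv_abs_sum_le (s : Multiset ℂ) (f g : ℂ → ℝ) (h : ∀ z ∈ s, |f z| ≤ g z) :
    |(s.map f).sum| ≤ (s.map g).sum := by
  induction s using Multiset.induction_on with
  | empty => simp
  | cons z s ih =>
    rw [Multiset.map_cons, Multiset.sum_cons, Multiset.map_cons, Multiset.sum_cons]
    refine (abs_add_le _ _).trans ?_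
    exact add_le_add (h z (Multiset.mem_cons_self z s))
      (ih fun w hw => h w (Multiset.mem_cons_of_mem hw))

theorem levT_le {s : Multiset ℂ} (hs : ∀ z ∈ s, ‖z‖ = 1) (n : ℕ) :
    |levT s n| ≤ levE s n := by
  unfold levT levE
  rw [lv_bil_self]
  unfold bil
  apply lv_abs_sum_le s
  intro z hz
  refine (Complex.abs_re_le_norm _).trans ?_
  rw [norm_mul, RCLike.norm_conj, lv_norm_X (hs z hz),
    lv_norm_reflect (hs z hz) (lev_monic s n).2.le, sq]

private theorem lv_re_pow {z : ℂ} (hz : ‖z‖ = 1) (a b : ℕ) :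
    (z ^ a * (starRingEnd ℂ) (z ^ b)).re = (z ^ (max a b - min a b)).re := by
  have hcz : z * (starRingEnd ℂ) z = 1 := by
    rw [Complex.mul_conj, Complex.normSq_eq_norm_sq, hz]
    norm_num
  rcases le_total a b with h | h
  · obtain ⟨c, rfl⟩ := Nat.exists_eq_add_of_le h
    have h1 : z ^ a * (starRingEnd ℂ) (z ^ (a + c)) = (starRingEnd ℂ) (z ^ c) := by
      rw [map_pow, pow_add, ← mul_assoc, ← mul_pow, hcz, one_pow, one_mul, map_pow]
    rw [h1, Complex.conj_re, max_eq_right h, min_eq_left h, Nat.add_sub_cancel_left]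
  · obtain ⟨c, rfl⟩ := Nat.exists_eq_add_of_le h
    have h1 : z ^ (b + c) * (starRingEnd ℂ) (z ^ b) = z ^ c := by
      rw [map_pow, pow_add, mul_right_comm, ← mul_pow, hcz, one_pow, one_mul]
    rw [h1, max_eq_left h, min_eq_right h, Nat.add_sub_cancel_left]

private theorem lv_re_aeval {z : ℂ} (hz : ‖z‖ = 1) (p r : ℝ[X]) {A B : ℕ}
    (hA : p.natDegree < A) (hB : r.natDegree < B) :
    (aeval z p * (starRingEnd ℂ) (aeval z r)).re = ∑ a ∈ Finset.range A, ∑ b ∈ Finset.range B,
      p.coeff a * r.coeff b * (z ^ (max a b - min a b)).re := by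
  rw [aeval_eq_sum_range' hA, aeval_eq_sum_range' hB, map_sum, Finset.sum_mul_sum, Complex.re_sum]
  refine Finset.sum_congr rfl fun a _ => ?_
  rw [Complex.re_sum]
  refine Finset.sum_congr rfl fun b _ => ?_
  rw [← lv_re_pow hz a b]
  have h1 : p.coeff a • z ^ a * (starRingEnd ℂ) (r.coeff b • z ^ b) =
      ((p.coeff a * r.coeff b : ℝ) : ℂ) * (z ^ a * (starRingEnd ℂ) (z ^ b)) := by
    rw [Complex.real_smul, Complex.real_smul, map_mul, Complex.conj_ofReal]
    push_cast
    ring
  rw [h1, Complex.re_ofReal_mul]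

theorem bil_eq_mom {s : Multiset ℂ} (hs : ∀ z ∈ s, ‖z‖ = 1) (p r : ℝ[X]) {A B : ℕ}
    (hA : p.natDegree < A) (hB : r.natDegree < B) :
    bil s p r = ∑ a ∈ Finset.range A, ∑ b ∈ Finset.range B,
      p.coeff a * r.coeff b * mom s (max a b - min a b) := by
  unfold bil mom
  induction s using Multiset.induction_on with
  | empty => simp
  | cons z s ih =>
    rw [Multiset.map_cons, Multiset.sum_cons, ih fun w hw => hs w (Multiset.mem_cons_of_mem hw),
      lv_re_aeval (hs z (Multiset.mem_cons_self z s)) p r hA hB, ← Finset.sum_add_distrib]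
    refine Finset.sum_congr rfl fun a _ => ?_
    rw [← Finset.sum_add_distrib]
    refine Finset.sum_congr rfl fun b _ => ?_
    rw [Multiset.map_cons, Multiset.sum_cons]
    ring

private theorem lv_bil_congr {s s' : Multiset ℂ} (hs : ∀ z ∈ s, ‖z‖ = 1)
    (hs' : ∀ z ∈ s', ‖z‖ = 1) {N : ℕ} (h : ∀ k ≤ N, mom s k = mom s' k) {p r : ℝ[X]}
    (hp : p.natDegree ≤ N) (hr : r.natDegree ≤ N) : bil s p r = bil s' p r := by
  rw [bil_eq_mom hs p r (Nat.lt_succ_of_le hp) (Nat.lt_succ_of_le hr),
    bil_eq_mom hs' p r (Nat.lt_succ_of_le hp) (Nat.lt_succ_of_le hr)]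
  refine Finset.sum_congr rfl fun a ha => Finset.sum_congr rfl fun b hb => ?_
  rw [Finset.mem_range] at ha hb
  rw [h _ (by omega)]

theorem lev_congr {s s' : Multiset ℂ} (hs : ∀ z ∈ s, ‖z‖ = 1) (hs' : ∀ z ∈ s', ‖z‖ = 1) {n : ℕ}
    (h : ∀ k ≤ n, mom s k = mom s' k) : lev s n = lev s' n ∧ levE s n = levE s' n := by
  have key : lev s n = lev s' n := by
    induction n with
    | zero => rfl
    | succ n ih =>
      have ih' := ih fun k hk => h k (hk.trans n.le_succ)
      have hd := (lev_monic s' n)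
      have hX : (X * lev s' n).natDegree ≤ n + 1 := by
        rw [natDegree_X_mul hd.1.ne_zero, hd.2]
      have hR : (reflect n (lev s' n)).natDegree ≤ n + 1 :=
        (lv_reflect_deg hd.2.le).trans n.le_succ
      have h1 : bil s (X * lev s n) (reflect n (lev s n)) =
          bil s' (X * lev s' n) (reflect n (lev s' n)) := by
        rw [ih']
        exact lv_bil_congr hs hs' h hX hR
      have h2 : bil s (lev s n) (lev s n) = bil s' (lev s' n) (lev s' n) := by
        rw [ih']
        exact lv_bil_congr hs hs' h (hd.2.le.trans n.le_succ) (hd.2.le.trans n.le_succ)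
      show X * lev s n - C (bil s (X * lev s n) (reflect n (lev s n)) /
        bil s (lev s n) (lev s n)) * reflect n (lev s n) = X * lev s' n -
        C (bil s' (X * lev s' n) (reflect n (lev s' n)) /
        bil s' (lev s' n) (lev s' n)) * reflect n (lev s' n)
      rw [h1, h2, ih']
  refine ⟨key, ?_⟩
  unfold levE
  rw [key]
  exact lv_bil_congr hs hs' h (lev_monic s' n).2.le (lev_monic s' n).2.le

theorem levT_sub {s s' : Multiset ℂ} (hs : ∀ z ∈ s, ‖z‖ = 1) (hs' : ∀ z ∈ s', ‖z‖ = 1) {n : ℕ}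
    (h : ∀ k ≤ n, mom s k = mom s' k) :
    levT s n - levT s' n = mom s (n + 1) - mom s' (n + 1) := by
  have key := (lev_congr hs hs' h).1
  have hd := lev_monic s' n
  have hX : (X * lev s' n).natDegree < n + 2 := by
    rw [natDegree_X_mul hd.1.ne_zero, hd.2]
    omega
  have hR : (reflect n (lev s' n)).natDegree < n + 1 := Nat.lt_succ_of_le (lv_reflect_deg hd.2.le)
  unfold levT
  rw [key, bil_eq_mom hs _ _ hX hR, bil_eq_mom hs' _ _ hX hR, ← Finset.sum_sub_distrib,
    Finset.sum_range_succ]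
  have hz : ∑ a ∈ Finset.range (n + 1), (∑ b ∈ Finset.range (n + 1),
      (X * lev s' n).coeff a * (reflect n (lev s' n)).coeff b * mom s (max a b - min a b) -
      ∑ b ∈ Finset.range (n + 1),
      (X * lev s' n).coeff a * (reflect n (lev s' n)).coeff b * mom s' (max a b - min a b)) = 0 := by
    apply Finset.sum_eq_zero
    intro a ha
    rw [← Finset.sum_sub_distrib]
    apply Finset.sum_eq_zero
    intro b hb
    rw [Finset.mem_range] at ha hb
    rw [h _ (by omega), sub_self]
  rw [hz, zero_add, ← Finset.sum_sub_distrib, Finset.sum_range_succ']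
  have hz2 : ∑ b ∈ Finset.range n, ((X * lev s' n).coeff (n + 1) *
      (reflect n (lev s' n)).coeff (b + 1) * mom s (max (n + 1) (b + 1) - min (n + 1) (b + 1)) -
      (X * lev s' n).coeff (n + 1) *
      (reflect n (lev s' n)).coeff (b + 1) *
        mom s' (max (n + 1) (b + 1) - min (n + 1) (b + 1))) = 0 := by
    apply Finset.sum_eq_zero
    intro b hb
    rw [Finset.mem_range] at hb
    rw [h _ (by omega), sub_self]
  have hc1 : (X * lev s' n).coeff (n + 1) = 1 := by
    rw [coeff_X_mul]
    have := hd.1.coeff_natDegree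
    rwa [hd.2] at this
  have hc2 : (reflect n (lev s' n)).coeff 0 = 1 := by
    rw [coeff_reflect, revAt_zero]
    have := hd.1.coeff_natDegree
    rwa [hd.2] at this
  rw [hz2, zero_add, hc1, hc2]
  simp

end Pool.Agent.Helper84.AA
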