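import Pool.Agent.Helper84.AA.Fin

/-!
# AA-27: the number of reducible trace polynomials

PROOF.  `h` monic of degree `g ≥ 1`, not irreducible: by `Polynomial.Monic.irreducible_iff_natDegree'` there are monic
`a, b` with `a b = h` and `natDegree b = k ∈ Ioc 0 (g/2)`; `natDegree a = g - k`; both are trace polynomials (`trace_mul`).
So `h` is in the image of `traceSet q (g-k) × traceSet q k` under multiplication; the number of elements of a finite
union of images is at most the sum of the products (`Set.ncard_image_le`, `Set.ncard_prod`, finite by `traceSet_finite`).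
-/

open Polynomial

namespace Pool.Agent.Helper84.AA

theorem red_count {q g : ℕ} (hg : 1 ≤ g) :
    {h ∈ traceSet q g | ¬ Irreducible h}.ncard ≤
      ∑ k ∈ Finset.Icc 1 (g / 2), (traceSet q k).ncard * (traceSet q (g - k)).ncard := by
  classical
  have hsub : {h ∈ traceSet q g | ¬ Irreducible h} ⊆
      ⋃ k ∈ Finset.Icc 1 (g / 2),
        (fun p : ℤ[X] × ℤ[X] => p.1 * p.2) '' (traceSet q k ×ˢ traceSet q (g - k)) := by
    rintro h ⟨hh, hirr⟩
    have hh' : IsTrace q g h := hh
    obtain ⟨hmon, hdeg, -⟩ := hh
    have hne : h ≠ 1 := by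
      rintro rfl
      rw [natDegree_one] at hdeg
      omega
    rw [hmon.irreducible_iff_natDegree'] at hirr
    simp only [not_and, not_forall, not_not] at hirr
    obtain ⟨a, b, ha, hb, hab, hk⟩ := hirr hne
    rw [hdeg, Finset.mem_Ioc] at hk
    have hdab : a.natDegree + b.natDegree = g := by
      rw [← ha.natDegree_mul hb, hab, hdeg]
    simp only [Set.mem_iUnion]
    refine ⟨b.natDegree, Finset.mem_Icc.2 ⟨hk.1, hk.2⟩, (b, a), ⟨?_, ?_⟩, ?_⟩
    · exact trace_mul hh' (by rw [← hab, mul_comm]) hb rfl
    · exact trace_mul hh' hab.symm ha (show a.natDegree = g - b.natDegree by omega)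
    · change b * a = h
      rw [mul_comm, hab]
  have hfin : ∀ k, (traceSet q k ×ˢ traceSet q (g - k)).Finite := fun k =>
    (traceSet_finite q k).prod (traceSet_finite q (g - k))
  have hfin2 : (⋃ k ∈ Finset.Icc 1 (g / 2),
        (fun p : ℤ[X] × ℤ[X] => p.1 * p.2) '' (traceSet q k ×ˢ traceSet q (g - k))).Finite :=
    (Finset.Icc 1 (g / 2)).finite_toSet.biUnion fun k _ => (hfin k).image _
  refine (Set.ncard_le_ncard hsub hfin2).trans ?_
  refine (Finset.set_ncard_biUnion_le _ _).trans ?_
  refine Finset.sum_le_sum fun k _ => ?_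
  refine (Set.ncard_image_le (hfin k)).trans ?_
  rw [Set.ncard_prod]

end Pool.Agent.Helper84.AA
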