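import Mathlib

/-!
# AA-21: Turan's variance argument (Mathlib only)

`J = {a, ..., a + M - 1}`, `P` a finite set of primes, one residue class `c l` mod `l` for each.

PROOF of `turan`.  `ν(t) = #{l ∈ P : l ∣ t - c l}`, `μ = ∑ 1/l`.  The number of `t ∈ J` in a residue class mod `d` is
`M/d + O(1)` with error at most `1` (`Int.Ico_filter_dvd_card`/`Int.card_Ico_filter_..`: `M/d - 1 ≤ # ≤ M/d + 1`), for two
different primes `l, l'` the two conditions are one residue class mod `l l'` (CRT).  So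
`∑ ν ≥ M μ - |P|`, `∑ ν^2 = ∑_{l, l'} ≤ M μ^2 + M μ + |P|^2`,
`∑_t (ν(t) - μ)^2 ≤ M μ + |P|^2 + 2 μ |P| ≤ M μ + M + 2 μ M` (`|P|^2 ≤ M`, so `|P| ≤ M` as well).  Each `t` with `ν(t) = 0`
contributes `μ^2`: `# ≤ M (3 μ + 1)/μ^2 ≤ 4 M/μ` for `μ ≥ 1`.
PROOF of `square_div`: for each `l`: at most `M/l^2 + 1`; `∑_{l > z} 1/l^2 ≤ 1/z`.
-/

namespace Pool.Agent.Helper84.AA

theorem count_div (a : ℤ) (M : ℕ) (d : ℕ) (hd : 0 < d) (v : ℤ) :
    (M : ℝ) / d - 1 ≤ (((Finset.Ico a (a + M)).filter fun t => (d : ℤ) ∣ t - v).card : ℝ) ∧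
      (((Finset.Ico a (a + M)).filter fun t => (d : ℤ) ∣ t - v).card : ℝ) ≤ (M : ℝ) / d + 1 := by
  have h := Int.Ico_filter_modEq_card a (a + M) (r := (d : ℤ)) (by exact_mod_cast hd) v
  have he : ((Finset.Ico a (a + M)).filter fun t => (d : ℤ) ∣ t - v) =
      (Finset.Ico a (a + M)).filter fun t => t ≡ v [ZMOD d] := by
    apply Finset.filter_congr
    intro t _
    rw [Int.modEq_comm, Int.modEq_iff_dvd]
  rw [he]
  have hdq : (0 : ℚ) < d := by exact_mod_cast hd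
  have h1 : ((((Finset.Ico a (a + M)).filter fun t => t ≡ v [ZMOD d]).card : ℤ) : ℚ) =
      ((max (⌈((a + M : ℤ) - v : ℚ) / ((d : ℤ) : ℚ)⌉ - ⌈((a : ℚ) - v) / ((d : ℤ) : ℚ)⌉) 0 : ℤ) : ℚ) := by
    rw [h]
  set x : ℚ := ((a : ℚ) - v) / ((d : ℤ) : ℚ) with hx
  have hy : ((a + M : ℤ) - v : ℚ) / ((d : ℤ) : ℚ) = x + (M : ℚ) / d := by
    rw [hx]; push_cast; ring
  rw [hy] at h1
  have c1 := Int.ceil_lt_add_one (x + (M : ℚ) / d)
  have c2 := Int.le_ceil (x + (M : ℚ) / d)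
  have c3 := Int.ceil_lt_add_one x
  have c4 := Int.le_ceil x
  have hM0 : (0 : ℚ) ≤ (M : ℚ) / d := by positivity
  have key : (M : ℚ) / d - 1 ≤ ((((Finset.Ico a (a + M)).filter fun t => t ≡ v [ZMOD d]).card : ℤ) : ℚ) ∧
      ((((Finset.Ico a (a + M)).filter fun t => t ≡ v [ZMOD d]).card : ℤ) : ℚ) ≤ (M : ℚ) / d + 1 := by
    rw [h1]
    push_cast
    constructor
    · apply le_trans _ (le_max_left _ _)
      linarith
    · apply max_le
      · linarith
      · linarith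
  constructor
  · have := key.1
    have h2 : ((M : ℚ) / d - 1 : ℝ) ≤ (((((Finset.Ico a (a + M)).filter fun t =>
        t ≡ v [ZMOD d]).card : ℤ) : ℚ) : ℝ) := by exact_mod_cast this
    push_cast at h2
    simpa using h2
  · have := key.2
    have h2 : ((((((Finset.Ico a (a + M)).filter fun t =>
        t ≡ v [ZMOD d]).card : ℤ) : ℚ) : ℝ)) ≤ ((M : ℚ) / d + 1 : ℝ) := by exact_mod_cast this
    push_cast at h2
    simpa using h2

theorem crt_dvd {l l' : ℕ} (h : IsCoprime (l : ℤ) (l' : ℤ)) (c c' : ℤ) : ∃ e : ℤ, ∀ t : ℤ,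
    ((l : ℤ) ∣ t - c ∧ (l' : ℤ) ∣ t - c') ↔ ((l * l' : ℕ) : ℤ) ∣ t - e := by
  obtain ⟨u, v, huv⟩ := h
  refine ⟨c * (v * l') + c' * (u * l), fun t => ?_⟩
  have e1 : t - (c * (v * l') + c' * (u * l)) = (t - c) + (l : ℤ) * (c * u - c' * u) := by
    linear_combination (-c) * huv
  have e2 : t - (c * (v * l') + c' * (u * l)) = (t - c') + (l' : ℤ) * (c' * v - c * v) := by
    linear_combination (-c') * huv
  push_cast
  constructor
  · rintro ⟨h1, h2⟩
    apply IsCoprime.mul_dvd ⟨u, v, huv⟩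
    · rw [e1]; exact dvd_add h1 (Dvd.intro _ rfl)
    · rw [e2]; exact dvd_add h2 (Dvd.intro _ rfl)
  · intro h3
    constructor
    · have : (l : ℤ) ∣ (t - c) + (l : ℤ) * (c * u - c' * u) := by
        rw [← e1]; exact dvd_trans (Dvd.intro _ rfl) h3
      exact (dvd_add_left (Dvd.intro _ rfl)).mp this
    · have : (l' : ℤ) ∣ (t - c') + (l' : ℤ) * (c' * v - c * v) := by
        rw [← e2]; exact dvd_trans (Dvd.intro_left _ rfl) h3
      exact (dvd_add_left (Dvd.intro _ rfl)).mp this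

theorem turan (a : ℤ) (M : ℕ) (P : Finset ℕ) (hP : ∀ l ∈ P, l.Prime) (c : ℕ → ℤ)
    (hM : P.card ^ 2 ≤ M) (hμ : 1 ≤ ∑ l ∈ P, (1 : ℝ) / l) :
    (((Finset.Ico a (a + M)).filter fun t => ∀ l ∈ P, ¬ (l : ℤ) ∣ t - c l).card : ℝ) ≤
      4 * M / ∑ l ∈ P, (1 : ℝ) / l := by
  classical
  set μ : ℝ := ∑ l ∈ P, (1 : ℝ) / l with hμd
  set J := Finset.Ico a (a + M) with hJ
  have hJc : (J.card : ℝ) = M := by
    rw [hJ, Int.card_Ico]; simp
  let χ : ℕ → ℤ → ℝ := fun l t => if (l : ℤ) ∣ t - c l then 1 else 0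
  let ν : ℤ → ℝ := fun t => ∑ l ∈ P, χ l t
  have hpos : ∀ l ∈ P, 0 < l := fun l hl => (hP l hl).pos
  -- first moment
  have hχ : ∀ l, ∑ t ∈ J, χ l t = ((J.filter fun t => (l : ℤ) ∣ t - c l).card : ℝ) := by
    intro l
    simp only [χ]
    rw [Finset.sum_ite, Finset.sum_const_zero, add_zero, Finset.sum_const, nsmul_eq_mul, mul_one]
  have h1 : (M : ℝ) * μ - P.card ≤ ∑ t ∈ J, ν t := by
    simp only [ν]
    rw [Finset.sum_comm]
    calc (M : ℝ) * μ - P.card = ∑ l ∈ P, ((M : ℝ) / l - 1) := by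
          rw [Finset.sum_sub_distrib, hμd, Finset.mul_sum]
          simp [div_eq_mul_inv]
      _ ≤ ∑ l ∈ P, ∑ t ∈ J, χ l t := by
          apply Finset.sum_le_sum
          intro l hl
          rw [hχ]
          exact (count_div a M l (hpos l hl) (c l)).1
  -- second moment
  have hχ2 : ∀ l ∈ P, ∀ l' ∈ P, ∑ t ∈ J, χ l t * χ l' t ≤
      (M : ℝ) * ((1 / l) * (1 / l')) + (if l = l' then (M : ℝ) * (1 / l) else 0) + 1 := by
    intro l hl l' hl'
    by_cases hll : l = l'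
    · subst hll
      rw [if_pos rfl]
      have : ∀ t, χ l t * χ l t = χ l t := by
        intro t; simp only [χ]; split_ifs <;> simp
      simp only [this]
      rw [hχ]
      have h3 := (count_div a M l (hpos l hl) (c l)).2
      have h4 : (0 : ℝ) ≤ (M : ℝ) * ((1 / l) * (1 / l)) := by positivity
      have h5 : (M : ℝ) / l = M * (1 / l) := by ring
      rw [h5] at h3
      linarith
    · rw [if_neg hll, add_zero]
      have hco : IsCoprime (l : ℤ) (l' : ℤ) := by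
        rw [Nat.isCoprime_iff_coprime]
        exact (Nat.coprime_primes (hP l hl) (hP l' hl')).mpr hll
      obtain ⟨e, he⟩ := crt_dvd hco (c l) (c l')
      have h6 : ∑ t ∈ J, χ l t * χ l' t =
          ((J.filter fun t => ((l * l' : ℕ) : ℤ) ∣ t - e).card : ℝ) := by
        have : ∀ t, χ l t * χ l' t = if ((l * l' : ℕ) : ℤ) ∣ t - e then (1 : ℝ) else 0 := by
          intro t
          simp only [χ]
          by_cases h7 : ((l * l' : ℕ) : ℤ) ∣ t - e
          · have h8 := (he t).mpr h7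
            rw [if_pos h8.1, if_pos h8.2, if_pos h7, one_mul]
          · rw [if_neg h7]
            by_cases h9 : (l : ℤ) ∣ t - c l
            · have h10 : ¬ (l' : ℤ) ∣ t - c l' := fun h => h7 ((he t).mp ⟨h9, h⟩)
              rw [if_neg h10, mul_zero]
            · rw [if_neg h9, zero_mul]
        simp only [this]
        rw [Finset.sum_ite, Finset.sum_const_zero, add_zero, Finset.sum_const, nsmul_eq_mul, mul_one]
      rw [h6]
      have h11 := (count_div a M (l * l') (Nat.mul_pos (hpos l hl) (hpos l' hl')) e).2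
      have h12 : (M : ℝ) / ((l * l' : ℕ) : ℝ) = (M : ℝ) * ((1 / l) * (1 / l')) := by
        push_cast
        rw [one_div, one_div, ← mul_inv, div_eq_mul_inv]
      rw [h12] at h11
      exact h11
  have h2 : ∑ t ∈ J, ν t ^ 2 ≤ M * μ ^ 2 + M * μ + (P.card : ℝ) ^ 2 := by
    have e1 : ∑ t ∈ J, ν t ^ 2 = ∑ l ∈ P, ∑ l' ∈ P, ∑ t ∈ J, χ l t * χ l' t := by
      simp only [ν, sq, Finset.sum_mul_sum]
      rw [Finset.sum_comm]
      apply Finset.sum_congr rfl
      intro l _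
      rw [Finset.sum_comm]
    rw [e1]
    calc ∑ l ∈ P, ∑ l' ∈ P, ∑ t ∈ J, χ l t * χ l' t
        ≤ ∑ l ∈ P, ∑ l' ∈ P, ((M : ℝ) * ((1 / l) * (1 / l')) +
            (if l = l' then (M : ℝ) * (1 / l) else 0) + 1) :=
          Finset.sum_le_sum fun l hl => Finset.sum_le_sum fun l' hl' => hχ2 l hl l' hl'
      _ = M * μ ^ 2 + M * μ + (P.card : ℝ) ^ 2 := by
          simp only [Finset.sum_add_distrib]
          congr 1
          · congr 1
            · rw [hμd, sq, Finset.sum_mul_sum, Finset.mul_sum]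
              apply Finset.sum_congr rfl
              intro l _
              rw [Finset.mul_sum]
            · rw [hμd, Finset.mul_sum]
              apply Finset.sum_congr rfl
              intro l hl
              rw [Finset.sum_ite_eq, if_pos hl]
          · simp [sq]
  have hPM : (P.card : ℝ) ^ 2 ≤ M := by exact_mod_cast hM
  have hPM1 : (P.card : ℝ) ≤ M := by
    have : P.card ≤ M := le_trans (Nat.le_self_pow (by norm_num) P.card) hM
    exact_mod_cast this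
  have h3 : ∑ t ∈ J, (ν t - μ) ^ 2 ≤ 4 * M * μ := by
    have e : ∑ t ∈ J, (ν t - μ) ^ 2 = ∑ t ∈ J, ν t ^ 2 - 2 * μ * ∑ t ∈ J, ν t + M * μ ^ 2 := by
      have : ∀ t, (ν t - μ) ^ 2 = ν t ^ 2 - 2 * μ * ν t + μ ^ 2 := fun t => by ring
      simp only [this, Finset.sum_add_distrib, Finset.sum_sub_distrib, Finset.sum_const,
        nsmul_eq_mul, hJc, ← Finset.mul_sum]
    rw [e]
    have hMn : (0 : ℝ) ≤ M := Nat.cast_nonneg M
    nlinarith [mul_le_mul_of_nonneg_left h1 (by linarith : (0 : ℝ) ≤ 2 * μ),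
      mul_le_mul_of_nonneg_left hPM1 (by linarith : (0 : ℝ) ≤ 2 * μ),
      mul_le_mul_of_nonneg_left hμ hMn]
  set Z := J.filter fun t => ∀ l ∈ P, ¬ (l : ℤ) ∣ t - c l with hZ
  have h4 : (Z.card : ℝ) * μ ^ 2 ≤ ∑ t ∈ J, (ν t - μ) ^ 2 := by
    calc (Z.card : ℝ) * μ ^ 2 = ∑ t ∈ Z, (ν t - μ) ^ 2 := by
          rw [← nsmul_eq_mul, ← Finset.sum_const]
          apply Finset.sum_congr rfl
          intro t ht
          have ht2 := (Finset.mem_filter.mp ht).2
          have : ν t = 0 := by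
            simp only [ν, χ]
            apply Finset.sum_eq_zero
            intro l hl
            rw [if_neg (ht2 l hl)]
          rw [this]; ring
      _ ≤ ∑ t ∈ J, (ν t - μ) ^ 2 :=
          Finset.sum_le_sum_of_subset_of_nonneg (Finset.filter_subset _ _)
            (fun t _ _ => sq_nonneg _)
  have hμ0 : 0 < μ := by linarith
  rw [le_div_iff₀ hμ0]
  have h5 : (Z.card : ℝ) * μ * μ ≤ 4 * M * μ := by
    calc (Z.card : ℝ) * μ * μ = (Z.card : ℝ) * μ ^ 2 := by ring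
      _ ≤ _ := le_trans h4 h3
  exact le_of_mul_le_mul_right h5 hμ0

theorem square_div (a : ℤ) (M z : ℕ) (hz : 1 ≤ z) (P : Finset ℕ) (hP : ∀ l ∈ P, z < l)
    (c : ℕ → ℤ) :
    (((Finset.Ico a (a + M)).filter fun t => ∃ l ∈ P, ((l : ℤ) ^ 2) ∣ t - c l).card : ℝ) ≤
      M / z + P.card := by
  classical
  set J := Finset.Ico a (a + M) with hJ
  have h1 : (J.filter fun t => ∃ l ∈ P, ((l : ℤ) ^ 2) ∣ t - c l) ⊆
      P.biUnion fun l => J.filter fun t => ((l ^ 2 : ℕ) : ℤ) ∣ t - c l := by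
    intro t ht
    rw [Finset.mem_filter] at ht
    obtain ⟨htJ, l, hl, hd⟩ := ht
    rw [Finset.mem_biUnion]
    refine ⟨l, hl, Finset.mem_filter.mpr ⟨htJ, ?_⟩⟩
    push_cast
    exact hd
  have h2 : ((J.filter fun t => ∃ l ∈ P, ((l : ℤ) ^ 2) ∣ t - c l).card : ℝ) ≤
      ∑ l ∈ P, ((J.filter fun t => ((l ^ 2 : ℕ) : ℤ) ∣ t - c l).card : ℝ) := by
    have := le_trans (Finset.card_le_card h1) Finset.card_biUnion_le
    exact_mod_cast this
  have h3 : ∑ l ∈ P, ((J.filter fun t => ((l ^ 2 : ℕ) : ℤ) ∣ t - c l).card : ℝ) ≤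
      ∑ l ∈ P, ((M : ℝ) * (((l : ℝ) ^ 2)⁻¹) + 1) := by
    apply Finset.sum_le_sum
    intro l hl
    have hl0 : 0 < l := lt_of_le_of_lt (Nat.zero_le _) (hP l hl)
    have := (count_div a M (l ^ 2) (pow_pos hl0 2) (c l)).2
    rw [div_eq_mul_inv] at this
    push_cast at this ⊢
    exact this
  have h4 : ∑ l ∈ P, (((l : ℝ) ^ 2)⁻¹) ≤ (z : ℝ)⁻¹ := by
    rcases P.eq_empty_or_nonempty with rfl | hne
    · simp
    set K := P.sup id with hK
    have hsub : P ⊆ Finset.Ioc z K := by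
      intro l hl
      exact Finset.mem_Ioc.mpr ⟨hP l hl, Finset.le_sup (f := id) hl⟩
    have hzK : z ≤ K := by
      obtain ⟨l, hl⟩ := hne
      exact le_trans (le_of_lt (hP l hl)) (Finset.le_sup (f := id) hl)
    calc ∑ l ∈ P, (((l : ℝ) ^ 2)⁻¹) ≤ ∑ l ∈ Finset.Ioc z K, (((l : ℝ) ^ 2)⁻¹) :=
          Finset.sum_le_sum_of_subset_of_nonneg hsub (fun _ _ _ => by positivity)
      _ ≤ (z : ℝ)⁻¹ - (K : ℝ)⁻¹ := sum_Ioc_inv_sq_le_sub (by omega) hzK
      _ ≤ (z : ℝ)⁻¹ := by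
          have : (0 : ℝ) ≤ (K : ℝ)⁻¹ := by positivity
          linarith
  calc ((J.filter fun t => ∃ l ∈ P, ((l : ℤ) ^ 2) ∣ t - c l).card : ℝ)
      ≤ ∑ l ∈ P, ((M : ℝ) * (((l : ℝ) ^ 2)⁻¹) + 1) := le_trans h2 h3
    _ = M * ∑ l ∈ P, (((l : ℝ) ^ 2)⁻¹) + P.card := by
        rw [Finset.sum_add_distrib, Finset.mul_sum]
        simp
    _ ≤ M / z + P.card := by
        rw [div_eq_mul_inv]
        have := mul_le_mul_of_nonneg_left h4 (Nat.cast_nonneg (α := ℝ) M)
        linarith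

end Pool.Agent.Helper84.AA
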