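import Pool.Agent.Helper84.AA.PrimeSum
import Pool.Agent.Helper84.AA.Turan
import Pool.Agent.Helper84.AA.Jint
import Pool.Agent.Helper84.AA.Delta
import Pool.Agent.Helper84.AA.DeltaBd

/-!
# AA-26: the sieve on the interval of last coefficients

PROOF.  Let `B = 1 + 16/η`, `c` the constant of `delta_bound`, `G` so large that for `g ≥ G`: `g ≥ 3`, `prime_sum (8q) (B+1)`
applies, `c g^2 / g^5 ≤ 1`, `4/g^5 ≤ η`, `4 * 1.003^g ≤ η 1.01^g`.  Let `u`, `J = Ico a (a + M)` (`Jset_Ico`), `M = #J ≥ 1.01^g`,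
`H = X u` (monic of degree `g`, `pre_monic`), `D = Delta q H ≠ 0`; as `J` is nonempty `H = h - h(0)` for a trace polynomial
`h = X u + t`, so `log |D| ≤ c g^2`.  `P₀` = the primes of `prime_sum`, `P = {l ∈ P₀ | l ∤ D}`.  By `small_sum` (`z = g^5`)
`∑_P 1/l ≥ B + 1 - c g^2/g^5 ≥ B`.  `|P| ≤ 1.003^g` so `|P|^2 ≤ M`.  For `l ∈ P` let `r_l` be from `exists_sqrt` and
`c_l = - H(2 r_l)`.  By `turan` at most `4M/B ≤ (η/4) M` of the `t ∈ J` are divisible (`l ∣ t - c_l`) by no `l ∈ P`; by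
`square_div` at most `M/g^5 + |P| ≤ (η/4) M + (η/4) M` have `l^2 ∣ t - c_l` for some `l ∈ P`.  For all the other `t ∈ J` some
`l ∈ P` satisfies the hypotheses of `nice_of` (`l > g^5 ≥ g`), so `X u + C t = H + C t` is `Nice`.
-/

open Polynomial

namespace Pool.Agent.Helper84.AA

theorem sieve_core {q : ℕ} (hq : 1 ≤ q) {η : ℝ} (hη : 0 < η) {c : ℝ}
    (hc : ∀ g : ℕ, 1 ≤ g → ∀ h : ℤ[X], IsTrace q g h →
      |((Delta q (h - C (h.coeff 0)) : ℤ) : ℝ)| ≤ Real.exp (c * g ^ 2)) {g : ℕ} (hg5 : 3 ≤ g)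
    (hP0 : 1 + 16 / η + 1 ≤ ∑ l ∈ (Finset.Ioc (g ^ 5) ⌊(1003 / 1000 : ℝ) ^ g⌋₊).filter
      (fun l => l.Prime ∧ l % (8 * q) = 1 % (8 * q)), (1 : ℝ) / l)
    (hratio : 4 / η ≤ ((101 / 100 : ℝ) / (1003 / 1000)) ^ g) (hcg : c ≤ g) (hηg : 4 / η ≤ g)
    (u : ℤ[X]) (hu : u ∈ preSet q g (g - 1)) (hD : Delta q (X * u) ≠ 0)
    (hM : (101 / 100 : ℝ) ^ g ≤ (Jset q g u).ncard) :
      (({t ∈ Jset q g u | ¬ Nice q (X * u + C t)}.ncard : ℕ) : ℝ) ≤ η * (Jset q g u).ncard := by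
  classical
  have hgR : (3 : ℝ) ≤ g := by exact_mod_cast hg5
  have hg0 : (0 : ℝ) < g := by linarith
  obtain ⟨a, M, hJ⟩ := Jset_Ico q g u
  have hJc : (Jset q g u).ncard = M := by
    rw [hJ]
    have : (Set.Ico a (a + M) : Set ℤ) = ((Finset.Ico a (a + (M : ℤ)) : Finset ℤ) : Set ℤ) := by
      simp
    rw [this, Set.ncard_coe_finset]
    simp
  rw [hJc] at hM ⊢
  obtain ⟨hum, hud⟩ := pre_monic (q := q) (g := g) (n := g - 1) (by omega) hu
  have hHm : (X * u).Monic := monic_X.mul hum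
  have hHd : (X * u).natDegree = g := by
    rw [natDegree_X_mul hum.ne_zero, hud]; omega
  have hpow1 : (1 : ℝ) ≤ (101 / 100 : ℝ) ^ g := one_le_pow₀ (by norm_num)
  have hM1 : (1 : ℝ) ≤ M := le_trans hpow1 hM
  have hMpos : 0 < M := by
    have : (0 : ℝ) < M := by linarith
    exact_mod_cast this
  -- the bound on the discriminant
  have ha : a ∈ Jset q g u := by
    rw [hJ]; exact ⟨le_refl _, by
      have : (0 : ℤ) < M := by exact_mod_cast hMpos
      linarith⟩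
  have hDb : |((Delta q (X * u) : ℤ) : ℝ)| ≤ Real.exp (c * g ^ 2) := by
    have h1 := hc g (by omega) (X * u + C a) ha
    have h2 : (X * u + C a : ℤ[X]).coeff 0 = a := by simp
    rw [h2] at h1
    simpa using h1
  have hDne : ((Delta q (X * u) : ℤ) : ℝ) ≠ 0 := by exact_mod_cast hD
  have hlog : Real.log |((Delta q (X * u) : ℤ) : ℝ)| ≤ c * g ^ 2 := by
    have := Real.log_le_log (abs_pos.2 hDne) hDb
    rwa [Real.log_exp] at this
  set P₀ := (Finset.Ioc (g ^ 5) ⌊(1003 / 1000 : ℝ) ^ g⌋₊).filter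
      (fun l => l.Prime ∧ l % (8 * q) = 1 % (8 * q)) with hP₀
  set P := P₀.filter (fun l : ℕ => ¬ ((l : ℤ) ∣ Delta q (X * u))) with hP
  have hmem : ∀ l ∈ P₀, l.Prime ∧ g ^ 5 < l ∧ l % (8 * q) = 1 % (8 * q) ∧
      l ≤ ⌊(1003 / 1000 : ℝ) ^ g⌋₊ := by
    intro l hl
    rw [hP₀, Finset.mem_filter, Finset.mem_Ioc] at hl
    exact ⟨hl.2.1, hl.1.1, hl.2.2, hl.1.2⟩
  have hg5pos : 3 ≤ g ^ 5 := by
    calc 3 ≤ g := hg5
      _ ≤ g ^ 5 := Nat.le_self_pow (by norm_num) g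
  have hsmall : ∑ l ∈ P₀.filter (fun l : ℕ => ((l : ℤ) ∣ Delta q (X * u))), (1 : ℝ) / l ≤ 1 := by
    have h1 := small_sum (D := Delta q (X * u)) hD hg5pos
      (P₀.filter (fun l : ℕ => ((l : ℤ) ∣ Delta q (X * u)))) (by
        intro l hl
        rw [Finset.mem_filter] at hl
        exact ⟨(hmem l hl.1).1, (hmem l hl.1).2.1, hl.2⟩)
    refine h1.trans ?_
    have h5 : (0 : ℝ) < ((g ^ 5 : ℕ) : ℝ) := by positivity
    rw [div_le_one h5]
    refine hlog.trans ?_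
    push_cast
    calc c * (g : ℝ) ^ 2 ≤ g * (g : ℝ) ^ 2 := by
          apply mul_le_mul_of_nonneg_right hcg (by positivity)
      _ = (g : ℝ) ^ 3 := by ring
      _ ≤ (g : ℝ) ^ 5 := pow_le_pow_right₀ (by linarith) (by norm_num)
  have hsum : 1 + 16 / η ≤ ∑ l ∈ P, (1 : ℝ) / l := by
    have hsplit := Finset.sum_filter_add_sum_filter_not P₀
      (fun l : ℕ => ((l : ℤ) ∣ Delta q (X * u))) (fun l => (1 : ℝ) / l)
    have : (1 + 16 / η + 1) ≤ ∑ l ∈ P₀, (1 : ℝ) / l := hP0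
    rw [hP]
    linarith
  have hη16 : 0 < 16 / η := by positivity
  -- cardinality
  have hPcard : (P.card : ℝ) ≤ (1003 / 1000 : ℝ) ^ g := by
    have h1 : P.card ≤ ⌊(1003 / 1000 : ℝ) ^ g⌋₊ := by
      calc P.card ≤ P₀.card := Finset.card_filter_le _ _
        _ ≤ (Finset.Ioc (g ^ 5) ⌊(1003 / 1000 : ℝ) ^ g⌋₊).card := Finset.card_filter_le _ _
        _ ≤ ⌊(1003 / 1000 : ℝ) ^ g⌋₊ := by rw [Nat.card_Ioc]; omega
    calc (P.card : ℝ) ≤ (⌊(1003 / 1000 : ℝ) ^ g⌋₊ : ℝ) := by exact_mod_cast h1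
      _ ≤ (1003 / 1000 : ℝ) ^ g := Nat.floor_le (by positivity)
  have hPcard2 : P.card ^ 2 ≤ M := by
    have h1 : ((P.card : ℝ)) ^ 2 ≤ (101 / 100 : ℝ) ^ g := by
      calc ((P.card : ℝ)) ^ 2 ≤ ((1003 / 1000 : ℝ) ^ g) ^ 2 :=
            pow_le_pow_left₀ (Nat.cast_nonneg _) hPcard 2
        _ = ((1003 / 1000 : ℝ) ^ 2) ^ g := by rw [← pow_mul, ← pow_mul, mul_comm]
        _ ≤ (101 / 100 : ℝ) ^ g := pow_le_pow_left₀ (by norm_num) (by norm_num) g
    have h2 : ((P.card ^ 2 : ℕ) : ℝ) ≤ M := by push_cast; linarith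
    exact_mod_cast h2
  have hPη : (P.card : ℝ) ≤ η / 4 * M := by
    have h1 : (1003 / 1000 : ℝ) ^ g * (4 / η) ≤ (101 / 100 : ℝ) ^ g := by
      rw [div_pow] at hratio
      have h3 : (0 : ℝ) < (1003 / 1000 : ℝ) ^ g := by positivity
      rw [le_div_iff₀ h3] at hratio
      linarith
    have h2 : (1003 / 1000 : ℝ) ^ g ≤ η / 4 * (101 / 100 : ℝ) ^ g := by
      have h4 : η / 4 * ((1003 / 1000 : ℝ) ^ g * (4 / η)) = (1003 / 1000 : ℝ) ^ g := by
        field_simp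
      rw [← h4]
      exact mul_le_mul_of_nonneg_left h1 (by positivity)
    calc (P.card : ℝ) ≤ (1003 / 1000 : ℝ) ^ g := hPcard
      _ ≤ η / 4 * (101 / 100 : ℝ) ^ g := h2
      _ ≤ η / 4 * M := mul_le_mul_of_nonneg_left hM (by positivity)
  -- the square roots
  have hroot : ∀ l : ℕ, ∃ r : ℤ, l ∈ P → (l : ℤ) ^ 2 ∣ r ^ 2 - q := by
    intro l
    by_cases hl : l ∈ P
    · have hl0 : l ∈ P₀ := Finset.mem_of_mem_filter l hl
      obtain ⟨r, hr⟩ := exists_sqrt hq (hmem l hl0).1 (hmem l hl0).2.2.1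
      exact ⟨r, fun _ => hr⟩
    · exact ⟨0, fun h => absurd h hl⟩
  choose r hr using hroot
  have ht1 := turan a M P (fun l hl => (hmem l (Finset.mem_of_mem_filter l hl)).1)
    (fun l => - (X * u).eval (2 * r l)) hPcard2 (by linarith)
  have ht2 := square_div a M (g ^ 5) (by omega) P
    (fun l hl => (hmem l (Finset.mem_of_mem_filter l hl)).2.1)
    (fun l => - (X * u).eval (2 * r l))
  set F1 := (Finset.Ico a (a + (M : ℤ))).filter fun t => ∀ l ∈ P,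
    ¬ (l : ℤ) ∣ t - - (X * u).eval (2 * r l) with hF1
  set F2 := (Finset.Ico a (a + (M : ℤ))).filter fun t => ∃ l ∈ P,
    ((l : ℤ) ^ 2) ∣ t - - (X * u).eval (2 * r l) with hF2
  have hsub : {t ∈ Jset q g u | ¬ Nice q (X * u + C t)} ⊆ ((F1 ∪ F2 : Finset ℤ) : Set ℤ) := by
    rintro t ⟨htJ, htN⟩
    have htI : t ∈ Finset.Ico a (a + (M : ℤ)) := by
      rw [hJ] at htJ
      exact Finset.mem_Ico.2 htJ
    by_contra hcon
    rw [Finset.mem_coe, Finset.mem_union, not_or] at hcon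
    obtain ⟨hc1, hc2⟩ := hcon
    rw [hF1, Finset.mem_filter, not_and] at hc1
    rw [hF2, Finset.mem_filter, not_and] at hc2
    have hc1' := hc1 htI
    have hc2' := hc2 htI
    push Not at hc1' hc2'
    obtain ⟨l, hlP, hl1⟩ := hc1'
    have hl2 := hc2' l hlP
    have hl0 : l ∈ P₀ := Finset.mem_of_mem_filter l hlP
    have hlD : ¬ (l : ℤ) ∣ Delta q (X * u) := (Finset.mem_filter.1 hlP).2
    have hgl : g < l := lt_of_le_of_lt (Nat.le_self_pow (by norm_num) g) (hmem l hl0).2.1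
    have e1 : t - - (X * u).eval (2 * r l) = (X * u).eval (2 * r l) + t := by ring
    rw [e1] at hl1 hl2
    exact htN (nice_of hq (by omega) hHm hHd (hmem l hl0).1 hgl (hr l hlP) hl1 hl2 hlD)
  have hcardle : ({t ∈ Jset q g u | ¬ Nice q (X * u + C t)}.ncard : ℝ) ≤
      (F1.card : ℝ) + F2.card := by
    have h1 : {t ∈ Jset q g u | ¬ Nice q (X * u + C t)}.ncard ≤ (F1 ∪ F2).card := by
      rw [← Set.ncard_coe_finset]
      exact Set.ncard_le_ncard hsub (Finset.finite_toSet _)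
    have h2 : (F1 ∪ F2).card ≤ F1.card + F2.card := Finset.card_union_le _ _
    exact_mod_cast h1.trans h2
  have hb1 : (F1.card : ℝ) ≤ η / 4 * M := by
    refine ht1.trans ?_
    have hS : (16 / η : ℝ) ≤ ∑ l ∈ P, (1 : ℝ) / l := by linarith
    rw [div_le_iff₀ (by linarith)]
    have h3 : η / 4 * (M : ℝ) * (16 / η) = 4 * M := by field_simp; ring
    have h4 : η / 4 * (M : ℝ) * (16 / η) ≤ η / 4 * (M : ℝ) * ∑ l ∈ P, (1 : ℝ) / l :=
      mul_le_mul_of_nonneg_left hS (by positivity)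
    linarith
  have hb2 : (F2.card : ℝ) ≤ η / 4 * M + η / 4 * M := by
    refine ht2.trans (add_le_add ?_ hPη)
    have h5 : (0 : ℝ) < ((g ^ 5 : ℕ) : ℝ) := by positivity
    rw [div_le_iff₀ h5]
    have h6 : (4 / η : ℝ) ≤ ((g ^ 5 : ℕ) : ℝ) := by
      refine hηg.trans ?_
      exact_mod_cast Nat.le_self_pow (by norm_num) g
    have h7 : η / 4 * (M : ℝ) * (4 / η) = M := by field_simp
    have h8 : η / 4 * (M : ℝ) * (4 / η) ≤ η / 4 * (M : ℝ) * ((g ^ 5 : ℕ) : ℝ) :=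
      mul_le_mul_of_nonneg_left h6 (by positivity)
    linarith
  have hfin : (0 : ℝ) ≤ η * M := by positivity
  calc (({t ∈ Jset q g u | ¬ Nice q (X * u + C t)}.ncard : ℕ) : ℝ)
      ≤ (F1.card : ℝ) + F2.card := hcardle
    _ ≤ η / 4 * M + (η / 4 * M + η / 4 * M) := add_le_add hb1 hb2
    _ ≤ η * M := by linarith

theorem sieve {q : ℕ} (hq : 1 ≤ q) {η : ℝ} (hη : 0 < η) : ∃ G : ℕ, ∀ g ≥ G,
    ∀ u ∈ preSet q g (g - 1), Delta q (X * u) ≠ 0 →
      (101 / 100 : ℝ) ^ g ≤ (Jset q g u).ncard →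
      (({t ∈ Jset q g u | ¬ Nice q (X * u + C t)}.ncard : ℕ) : ℝ) ≤ η * (Jset q g u).ncard := by
  obtain ⟨c, hc⟩ := delta_bound q hq
  have hm8 : 0 < 8 * q := by omega
  obtain ⟨G₁, hG₁⟩ := prime_sum (8 * q) hm8 (1 + 16 / η + 1)
  have htend : Filter.Tendsto (fun n : ℕ => ((101 / 100 : ℝ) / (1003 / 1000)) ^ n)
      Filter.atTop Filter.atTop := tendsto_pow_atTop_atTop_of_one_lt (by norm_num)
  obtain ⟨G₂, hG₂⟩ := Filter.eventually_atTop.1 (htend.eventually_ge_atTop (4 / η))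
  obtain ⟨G₃, hG₃⟩ := exists_nat_ge c
  obtain ⟨G₄, hG₄⟩ := exists_nat_ge (4 / η)
  refine ⟨max (max G₁ G₂) (max (max G₃ G₄) 3), fun g hg u hu hD hM => ?_⟩
  have hg1 : G₁ ≤ g := le_trans (le_trans (le_max_left _ _) (le_max_left _ _)) hg
  have hg2 : G₂ ≤ g := le_trans (le_trans (le_max_right _ _) (le_max_left _ _)) hg
  have hg3 : G₃ ≤ g :=
    le_trans (le_trans (le_trans (le_max_left _ _) (le_max_left _ _)) (le_max_right _ _)) hg
  have hg4 : G₄ ≤ g :=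
    le_trans (le_trans (le_trans (le_max_right _ _) (le_max_left _ _)) (le_max_right _ _)) hg
  have hg5 : 3 ≤ g := le_trans (le_trans (le_max_right _ _) (le_max_right _ _)) hg
  exact sieve_core hq hη hc hg5 (hG₁ g hg1) (hG₂ g hg2) (le_trans hG₃ (by exact_mod_cast hg3))
    (le_trans hG₄ (by exact_mod_cast hg4)) u hu hD hM

/-- The quantitative form of the sieve. -/
theorem sieve_log {q : ℕ} (hq : 1 ≤ q) : ∃ c : ℝ, 0 < c ∧ ∃ G : ℕ, ∀ g ≥ G,
    ∀ u ∈ preSet q g (g - 1), Delta q (X * u) ≠ 0 →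
      (101 / 100 : ℝ) ^ g ≤ (Jset q g u).ncard →
      (({t ∈ Jset q g u | ¬ Nice q (X * u + C t)}.ncard : ℕ) : ℝ) ≤
        c / Real.log g * (Jset q g u).ncard := by
  obtain ⟨c, hc⟩ := delta_bound q hq
  have hm8 : 0 < 8 * q := by omega
  obtain ⟨κ, hκ, G₁, hG₁⟩ := prime_sum_log (8 * q) hm8
  have hlim : Filter.Tendsto (fun n : ℕ => (n : ℝ) * ((1003 / 1000 : ℝ) / (101 / 100)) ^ n)
      Filter.atTop (nhds 0) := tendsto_self_mul_const_pow_of_lt_one (by norm_num) (by norm_num)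
  obtain ⟨G₂, hG₂⟩ := Filter.eventually_atTop.1
    (hlim.eventually (gt_mem_nhds (show (0 : ℝ) < 8 / κ by positivity)))
  obtain ⟨G₃, hG₃⟩ := exists_nat_ge c
  have hsq : Filter.Tendsto (fun n : ℕ => Real.log (n : ℝ)) Filter.atTop Filter.atTop :=
    Real.tendsto_log_atTop.comp tendsto_natCast_atTop_atTop
  obtain ⟨G₄, hG₄⟩ := Filter.eventually_atTop.1 (hsq.eventually_ge_atTop (4 / κ))
  obtain ⟨G₅, hG₅⟩ := Filter.eventually_atTop.1
    (((Real.isLittleO_log_id_atTop.comp_tendsto tendsto_natCast_atTop_atTop).def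
      (show (0 : ℝ) < 8 / κ by positivity)))
  refine ⟨32 / κ, by positivity, max (max (max G₁ G₂) (max G₃ G₄)) (max G₅ 3),
    fun g hg u hu hD hM => ?_⟩
  have hg1 : G₁ ≤ g := le_trans (by simp) hg
  have hg2 : G₂ ≤ g := le_trans (by simp) hg
  have hg3 : G₃ ≤ g := le_trans (by simp) hg
  have hg4 : G₄ ≤ g := le_trans (by simp) hg
  have hg5' : G₅ ≤ g := le_trans (by simp) hg
  have hg5 : 3 ≤ g := le_trans (by simp) hg
  have hgR : (3 : ℝ) ≤ g := by exact_mod_cast hg5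
  have hlog : 0 < Real.log g := Real.log_pos (by linarith)
  have hη : 0 < 32 / κ / Real.log g := by positivity
  have e16 : 16 / (32 / κ / Real.log g) = κ / 2 * Real.log g := by
    field_simp
    norm_num
  have e4 : 4 / (32 / κ / Real.log g) = κ / 8 * Real.log g := by
    field_simp
    norm_num
  have hl := hG₅ g hg5'
  simp only [Function.comp, id, Real.norm_eq_abs] at hl
  rw [abs_of_pos hlog, abs_of_pos (by linarith : (0 : ℝ) < g)] at hl
  have hlg : κ / 8 * Real.log g ≤ g := by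
    calc κ / 8 * Real.log g ≤ κ / 8 * (8 / κ * g) :=
          mul_le_mul_of_nonneg_left hl (by positivity)
      _ = g := by field_simp
  refine sieve_core hq hη hc hg5 ?_ ?_ (le_trans hG₃ (by exact_mod_cast hg3)) ?_ u hu hD hM
  · refine le_trans ?_ (hG₁ g hg1)
    rw [e16]
    have h4 := hG₄ g hg4
    have h5 : 2 ≤ κ / 2 * Real.log g := by
      calc (2 : ℝ) = κ / 2 * (4 / κ) := by field_simp; norm_num
        _ ≤ κ / 2 * Real.log g := mul_le_mul_of_nonneg_left h4 (by positivity)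
    linarith
  · rw [e4]
    have h2 := hG₂ g hg2
    have h6 : ((101 / 100 : ℝ) / (1003 / 1000)) ^ g * ((1003 / 1000 : ℝ) / (101 / 100)) ^ g = 1 := by
      rw [← mul_pow]
      norm_num
    have h7 : (0 : ℝ) < ((101 / 100 : ℝ) / (1003 / 1000)) ^ g := by positivity
    have h8 : κ / 8 * Real.log g ≤ κ / 8 * g := by
      have := (Real.log_le_sub_one_of_pos (by linarith : (0 : ℝ) < g))
      apply mul_le_mul_of_nonneg_left _ (by positivity)
      linarith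
    have h9 : κ / 8 * g ≤ ((101 / 100 : ℝ) / (1003 / 1000)) ^ g := by
      calc κ / 8 * g = κ / 8 * (g * ((1003 / 1000 : ℝ) / (101 / 100)) ^ g) *
            ((101 / 100 : ℝ) / (1003 / 1000)) ^ g := by
            rw [mul_assoc, mul_assoc, mul_comm (((1003 / 1000 : ℝ) / (101 / 100)) ^ g), h6, mul_one]
        _ ≤ κ / 8 * (8 / κ) * ((101 / 100 : ℝ) / (1003 / 1000)) ^ g := by
            apply mul_le_mul_of_nonneg_right _ h7.le
            exact mul_le_mul_of_nonneg_left h2.le (by positivity)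
        _ = _ := by field_simp
    exact h8.trans h9
  · rw [e4]
    exact hlg

end Pool.Agent.Helper84.AA
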