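import Pool.Agent.Helper84.AA.Asym
import Pool.Agent.Helper84.AA.Sieve
import Pool.Agent.Helper84.AA.Degen
import Pool.Agent.Helper84.AA.Red

/-!
# AA-29: almost all trace polynomials are irreducible and nice

PROOF.  `N = (traceSet q g).ncard`, `η = ε/100`.  For large `g`:
(1) reducible: at most `0.98^g N` (`red_count`, `ratio3`).
(2) degenerate: `h` with `Delta q (X * divX h) = 0`: `v = divX (divX h) ∈ preSet q g (g-2)` (`divX_pre`, `mem_trace_iff`),
`divX h = X v + C s` with `s` in the set of `degen`, `h.coeff 0 ∈ Jset q g (divX h)` with at most `4√q^g + 1` elements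
(`Jset_card`): at most `(2g+1)(4√q^g+1) * (preSet q g (g-2)).ncard ≤ 0.98^g N` (`ratio2`).
(3) short: `h` with `(Jset q g (divX h)).ncard < 1.01^g`: at most `1.01^g (preSet q g (g-1)).ncard ≤ 0.98^g N` (`ratio1`).
(4) all the others, not nice: for each `u = divX h ∈ preSet q g (g-1)` at most `η #Jset(u)`, and `∑_u #Jset(u) = N`: at most `η N`.
So the left side is at most `(3 * 0.98^g + η) N ≤ (ε/20) N`.
Ordinary: `N ≤ 20 #{h | p ∤ h(0)}`, for large `g`: for each `u` with `M = #Jset(u) ≥ 1.01^g` (large), `Jset u` is an interval of `M`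
integers, the number of multiples of `p ≥ 2` in it is at most `M/2 + 1`, so at least `M/2 - 1 ≥ M/4` are not; so
`#{h | p ∤ h(0)} ≥ (N - 0.98^g N)/4 ≥ N/8`.
Fibre sums: `traceSet` is the disjoint union over `u ∈ preSet q g (g-1)` of `{X u + C t | t ∈ Jset q g u}` (`mem_trace_iff`,
`divX_mul_X_add`); use `Finset.card_eq_sum_card_fiberwise` with `divX`.
-/

open Polynomial

namespace Pool.Agent.Helper84.AA

theorem divX_X_mul_add (u : ℤ[X]) (t : ℤ) : divX (X * u + C t) = u := by
  ext n
  rw [coeff_divX, coeff_add, coeff_X_mul, coeff_C_succ, add_zero]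

theorem coeff_X_mul_add (u : ℤ[X]) (t : ℤ) : (X * u + C t).coeff 0 = t := by
  simp

theorem sep_ncard_le (q g : ℕ) (u : ℤ[X]) (Pr : ℤ → Prop) :
    {t ∈ Jset q g u | Pr t}.ncard ≤ (Jset q g u).ncard :=
  Set.ncard_le_ncard (Set.sep_subset _ _) (Jset_finite q g u)

/-- Sums over the trace polynomials as double sums. -/
theorem fib {q g : ℕ} (hg : 1 ≤ g) (Pr : ℤ[X] → Prop) :
    {h ∈ traceSet q g | Pr h}.ncard =
      ∑ u ∈ (preSet_finite q g (g - 1)).toFinset, {t ∈ Jset q g u | Pr (X * u + C t)}.ncard := by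
  classical
  have hT := traceSet_finite q g
  have h1 : {h ∈ traceSet q g | Pr h} = ↑(hT.toFinset.filter Pr) := by
    ext h
    simp
  rw [h1, Set.ncard_coe_finset, Finset.card_eq_sum_card_fiberwise (f := divX)
    (t := (preSet_finite q g (g - 1)).toFinset)]
  · refine Finset.sum_congr rfl fun u _ => ?_
    have h2 : (fun t : ℤ => X * u + C t) '' {t ∈ Jset q g u | Pr (X * u + C t)} =
        ↑((hT.toFinset.filter Pr).filter fun h => divX h = u) := by
      ext h
      simp only [Set.mem_image, Finset.coe_filter, Finset.mem_filter, Set.Finite.mem_toFinset]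
      constructor
      · rintro ⟨t, ⟨ht, hp⟩, rfl⟩
        exact ⟨⟨ht, hp⟩, divX_X_mul_add u t⟩
      · rintro ⟨⟨hh, hp⟩, rfl⟩
        have h3 : X * divX h + C (h.coeff 0) = h := by
          rw [mul_comm]
          exact divX_mul_X_add h
        refine ⟨h.coeff 0, ⟨?_, ?_⟩, h3⟩
        · change IsTrace q g (X * divX h + C (h.coeff 0))
          rw [h3]
          exact hh
        · rw [h3]
          exact hp
    rw [← Set.ncard_coe_finset, ← h2, Set.ncard_image_of_injective]
    intro t t' h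
    have h3 := congrArg (fun p : ℤ[X] => p.coeff 0) h
    simpa using h3
  · intro h hh
    simp only [Finset.coe_filter, Set.Finite.mem_toFinset] at hh
    simpa using ((mem_trace_iff hg h).1 hh.1).1

/-- At least a quarter of an interval is prime to `p`. -/
theorem quarter {p : ℕ} (hp : 2 ≤ p) (a : ℤ) {M : ℕ} (hM : 2 ≤ M) :
    M ≤ 4 * {t ∈ Set.Ico a (a + M) | ¬ (p : ℤ) ∣ t}.ncard := by
  classical
  set A := (Finset.Ico a (a + M)).filter fun t => (p : ℤ) ∣ t with hA
  set B := (Finset.Ico a (a + M)).filter fun t => ¬ (p : ℤ) ∣ t with hB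
  have h1 : {t ∈ Set.Ico a (a + M) | ¬ (p : ℤ) ∣ t} = ↑B := by
    ext t
    simp [hB]
  have h2 : A.card + B.card = M := by
    rw [hA, hB, Finset.card_filter_add_card_filter_not, Int.card_Ico]
    simp
  have h3 : (A.erase (a + M - 1)).card ≤ B.card := by
    refine Finset.card_le_card_of_injOn (fun t => t + 1) ?_ ?_
    · intro t ht
      simp only [hA, Finset.coe_erase, Finset.coe_filter, Finset.mem_Ico, Set.mem_sdiff,
        Set.mem_singleton_iff] at ht
      obtain ⟨⟨⟨h4, h5⟩, h6⟩, h7⟩ := ht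
      simp only [hB, Finset.coe_filter, Finset.mem_Ico]
      refine ⟨⟨by omega, by omega⟩, fun h8 => ?_⟩
      have h9 : (p : ℤ) ∣ 1 := by
        have := Int.dvd_sub h8 h6
        simpa using this
      have h10 := Int.le_of_dvd one_pos h9
      omega
    · intro t _ t' _ h
      simpa using h
  have h4 := Finset.pred_card_le_card_erase (s := A) (a := a + M - 1)
  rw [h1, Set.ncard_coe_finset]
  omega

/-- The final count, for one `g`. -/
theorem almost_core {q p g : ℕ} (hq : 16 ≤ q) (hp : p.Prime) (hg2 : 2 ≤ g) {η : ℝ} (hη : 0 ≤ η)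
    (hG1 : (101 / 100 : ℝ) ^ g * (preSet q g (g - 1)).ncard ≤
      (98 / 100 : ℝ) ^ g * (traceSet q g).ncard)
    (hG2 : (2 * (g : ℝ) + 1) * (4 * √q ^ g + 1) * (preSet q g (g - 2)).ncard ≤
      (98 / 100 : ℝ) ^ g * (traceSet q g).ncard)
    (hG3 : ∑ k ∈ Finset.Icc 1 (g / 2), ((traceSet q k).ncard : ℝ) * (traceSet q (g - k)).ncard ≤
      (98 / 100 : ℝ) ^ g * (traceSet q g).ncard)
    (hG4 : ∀ u ∈ preSet q g (g - 1), Delta q (X * u) ≠ 0 →
      (101 / 100 : ℝ) ^ g ≤ (Jset q g u).ncard →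
        (({t ∈ Jset q g u | ¬ Nice q (X * u + C t)}.ncard : ℕ) : ℝ) ≤ η * (Jset q g u).ncard)
    (hθ2 : (98 / 100 : ℝ) ^ g ≤ 1 / 2) :
    (({h ∈ traceSet q g | ¬ (Irreducible h ∧ Nice q h)}.ncard : ℕ) : ℝ) ≤
      (24 * (98 / 100 : ℝ) ^ g + 8 * η) *
        (({h ∈ traceSet q g | ¬ (p : ℤ) ∣ h.coeff 0}.ncard : ℕ) : ℝ) := by
  classical
  have hθ0 : (0 : ℝ) ≤ (98 / 100 : ℝ) ^ g := by positivity
  set N : ℝ := ((traceSet q g).ncard : ℝ) with hN
  have hN0 : 0 ≤ N := Nat.cast_nonneg _
  set P1 := (preSet_finite q g (g - 1)).toFinset with hP1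
  set P2 := (preSet_finite q g (g - 2)).toFinset with hP2
  have hP1c : (P1.card : ℝ) = (preSet q g (g - 1)).ncard := by
    rw [Set.ncard_eq_toFinset_card _ (preSet_finite q g (g - 1))]
  have hP2c : (P2.card : ℝ) = (preSet q g (g - 2)).ncard := by
    rw [Set.ncard_eq_toFinset_card _ (preSet_finite q g (g - 2))]
  have hNsum : N = ∑ u ∈ P1, ((Jset q g u).ncard : ℝ) := by
    have h1 := fib (q := q) (g := g) (by omega) fun _ => True
    simp only [and_true] at h1
    have h2 : {h | h ∈ traceSet q g} = traceSet q g := rfl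
    have h3 : ∀ u, {t | t ∈ Jset q g u} = Jset q g u := fun u => rfl
    simp only [h2, h3] at h1
    rw [hN, h1]
    push_cast
    rfl
  -- the four sets
  set R := {h ∈ traceSet q g | ¬ Irreducible h} with hR
  set D := {h ∈ traceSet q g | Delta q (X * divX h) = 0} with hD
  set S := {h ∈ traceSet q g | ((Jset q g (divX h)).ncard : ℝ) < (101 / 100 : ℝ) ^ g} with hS
  set E := {h ∈ traceSet q g | Delta q (X * divX h) ≠ 0 ∧
    (101 / 100 : ℝ) ^ g ≤ (Jset q g (divX h)).ncard ∧ ¬ Nice q h} with hE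
  have hTfin := traceSet_finite q g
  have hsub : {h ∈ traceSet q g | ¬ (Irreducible h ∧ Nice q h)} ⊆ R ∪ D ∪ S ∪ E := by
    rintro h ⟨hh, hb⟩
    by_cases hi : Irreducible h
    · by_cases hd : Delta q (X * divX h) = 0
      · exact Or.inl (Or.inl (Or.inr ⟨hh, hd⟩))
      · by_cases hs : ((Jset q g (divX h)).ncard : ℝ) < (101 / 100 : ℝ) ^ g
        · exact Or.inl (Or.inr ⟨hh, hs⟩)
        · exact Or.inr ⟨hh, hd, not_lt.1 hs, fun hn => hb ⟨hi, hn⟩⟩
    · exact Or.inl (Or.inl (Or.inl ⟨hh, hi⟩))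
  have hfin : (R ∪ D ∪ S ∪ E).Finite :=
    (((hTfin.subset fun h hh => hh.1).union (hTfin.subset fun h hh => hh.1)).union
      (hTfin.subset fun h hh => hh.1)).union (hTfin.subset fun h hh => hh.1)
  have hcard : (({h ∈ traceSet q g | ¬ (Irreducible h ∧ Nice q h)}.ncard : ℕ) : ℝ) ≤
      R.ncard + D.ncard + S.ncard + E.ncard := by
    have h1 := Set.ncard_le_ncard hsub hfin
    have h2 := Set.ncard_union_le (R ∪ D ∪ S) E
    have h3 := Set.ncard_union_le (R ∪ D) S
    have h4 := Set.ncard_union_le R D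
    have h5 : {h ∈ traceSet q g | ¬ (Irreducible h ∧ Nice q h)}.ncard ≤
        R.ncard + D.ncard + S.ncard + E.ncard := by omega
    exact_mod_cast h5
  -- reducible
  have bR : (R.ncard : ℝ) ≤ (98 / 100 : ℝ) ^ g * N := by
    have h1 := red_count (q := q) (g := g) (by omega)
    refine le_trans ?_ hG3
    exact_mod_cast h1
  -- short
  have bS : (S.ncard : ℝ) ≤ (98 / 100 : ℝ) ^ g * N := by
    rw [hS, fib (by omega)]
    refine le_trans ?_ hG1
    push_cast
    rw [← hP1c, ← hP1]
    calc ∑ u ∈ P1, (({t ∈ Jset q g u | ((Jset q g (divX (X * u + C t))).ncard : ℝ) <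
            (101 / 100 : ℝ) ^ g}.ncard : ℕ) : ℝ) ≤ ∑ _u ∈ P1, (101 / 100 : ℝ) ^ g := by
          refine Finset.sum_le_sum fun u _ => ?_
          by_cases hs : ((Jset q g u).ncard : ℝ) < (101 / 100 : ℝ) ^ g
          · refine le_trans ?_ hs.le
            exact_mod_cast sep_ncard_le q g u _
          · have h1 : {t ∈ Jset q g u | ((Jset q g (divX (X * u + C t))).ncard : ℝ) <
                (101 / 100 : ℝ) ^ g} = ∅ := by
              ext t
              simp only [divX_X_mul_add, hs, and_false]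
              simp
            rw [h1, Set.ncard_empty, Nat.cast_zero]
            positivity
      _ = (101 / 100 : ℝ) ^ g * P1.card := by
          rw [Finset.sum_const, nsmul_eq_mul, mul_comm]
  -- degenerate
  have bD : (D.ncard : ℝ) ≤ (98 / 100 : ℝ) ^ g * N := by
    rw [hD, fib (by omega)]
    refine le_trans ?_ hG2
    push_cast
    rw [← hP2c, ← hP1]
    have hJ0 : (0 : ℝ) ≤ 4 * √q ^ g + 1 := by positivity
    have h1 : (((P1.filter fun u => Delta q (X * u) = 0).card : ℕ) : ℝ) ≤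
        (2 * (g : ℝ) + 1) * P2.card := by
      have h2 : (P1.filter fun u => Delta q (X * u) = 0).card ≤
          (2 * g + 1) * ((P1.filter fun u => Delta q (X * u) = 0).image divX).card := by
        refine Finset.card_le_mul_card_image _ _ fun v hv => ?_
        obtain ⟨u0, hu0, rfl⟩ := Finset.mem_image.1 hv
        have hu0' : u0 ∈ preSet q g (g - 1) := by
          simpa [hP1] using (Finset.mem_filter.1 hu0).1
        have hv' : divX u0 ∈ preSet q g (g - 2) := by
          refine divX_pre (n := g - 2) (by omega) ?_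
          have : g - 2 + 1 = g - 1 := by omega
          rw [this]
          exact hu0'
        obtain ⟨hvm, hvd⟩ := pre_monic (by omega) hv'
        obtain ⟨hfin, hcard⟩ := degen (q := q) (g := g) (by omega) hg2 hvm hvd
        refine le_trans ?_ hcard
        rw [Set.ncard_eq_toFinset_card _ hfin]
        refine Finset.card_le_card_of_injOn (fun u => u.coeff 0) ?_ ?_
        · intro u hu
          simp only [Finset.coe_filter, Finset.mem_filter] at hu
          obtain ⟨⟨_, h5⟩, h6⟩ := hu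
          have h7 : X * divX u0 + C (u.coeff 0) = u := by
            rw [← h6, mul_comm]
            exact divX_mul_X_add u
          simp only [Set.Finite.coe_toFinset]
          change Delta q (X * (X * divX u0 + C (u.coeff 0))) = 0
          rw [h7]
          exact h5
        · intro u hu u' hu' h
          simp only [Finset.coe_filter, Finset.mem_filter] at hu hu'
          rw [← divX_mul_X_add u, ← divX_mul_X_add u', hu.2, hu'.2]
          simp only at h
          rw [h]
      have h3 : ((P1.filter fun u => Delta q (X * u) = 0).image divX).card ≤ P2.card := by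
        refine Finset.card_le_card ?_
        intro v hv
        obtain ⟨u0, hu0, rfl⟩ := Finset.mem_image.1 hv
        have hu0' : u0 ∈ preSet q g (g - 1) := by
          simpa [hP1] using (Finset.mem_filter.1 hu0).1
        have hv' : divX u0 ∈ preSet q g (g - 2) := by
          refine divX_pre (n := g - 2) (by omega) ?_
          have : g - 2 + 1 = g - 1 := by omega
          rw [this]
          exact hu0'
        simpa [hP2] using hv'
      have h4 : (P1.filter fun u => Delta q (X * u) = 0).card ≤ (2 * g + 1) * P2.card :=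
        h2.trans (Nat.mul_le_mul_left _ h3)
      exact_mod_cast h4
    calc ∑ u ∈ P1, (({t ∈ Jset q g u | Delta q (X * divX (X * u + C t)) = 0}.ncard : ℕ) : ℝ) ≤
          ∑ u ∈ P1, (if Delta q (X * u) = 0 then (4 * √q ^ g + 1) else 0) := by
          refine Finset.sum_le_sum fun u hu => ?_
          have hu' : u ∈ preSet q g (g - 1) := by simpa [hP1] using hu
          split_ifs with hd
          · refine le_trans ?_ (Jset_card (by omega) (by omega) hu')
            exact_mod_cast sep_ncard_le q g u _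
          · have h2 : {t ∈ Jset q g u | Delta q (X * divX (X * u + C t)) = 0} = ∅ := by
              ext t
              simp only [divX_X_mul_add, hd, and_false]
              simp
            rw [h2, Set.ncard_empty]
            simp
      _ = (((P1.filter fun u => Delta q (X * u) = 0).card : ℕ) : ℝ) * (4 * √q ^ g + 1) := by
          rw [← Finset.sum_filter, Finset.sum_const, nsmul_eq_mul]
      _ ≤ (2 * (g : ℝ) + 1) * P2.card * (4 * √q ^ g + 1) := mul_le_mul_of_nonneg_right h1 hJ0
      _ = (2 * (g : ℝ) + 1) * (4 * √q ^ g + 1) * P2.card := by ring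
  -- all the others
  have bE : (E.ncard : ℝ) ≤ η * N := by
    rw [hE, fib (by omega), hNsum, Finset.mul_sum]
    push_cast
    refine Finset.sum_le_sum fun u hu => ?_
    have hu' : u ∈ preSet q g (g - 1) := by simpa [hP1] using hu
    by_cases hd : Delta q (X * u) ≠ 0 ∧ (101 / 100 : ℝ) ^ g ≤ (Jset q g u).ncard
    · refine le_trans ?_ (hG4 u hu' hd.1 hd.2)
      have h1 : {t ∈ Jset q g u | Delta q (X * divX (X * u + C t)) ≠ 0 ∧
          (101 / 100 : ℝ) ^ g ≤ (Jset q g (divX (X * u + C t))).ncard ∧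
          ¬ Nice q (X * u + C t)} ⊆ {t ∈ Jset q g u | ¬ Nice q (X * u + C t)} :=
        fun t ht => ⟨ht.1, ht.2.2.2⟩
      exact_mod_cast Set.ncard_le_ncard h1 ((Jset_finite q g u).subset fun t ht => ht.1)
    · have h1 : {t ∈ Jset q g u | Delta q (X * divX (X * u + C t)) ≠ 0 ∧
          (101 / 100 : ℝ) ^ g ≤ (Jset q g (divX (X * u + C t))).ncard ∧
          ¬ Nice q (X * u + C t)} = ∅ := by
        refine Set.eq_empty_of_forall_notMem fun t ht => hd ?_
        have h2 := ht.2
        simp only [divX_X_mul_add] at h2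
        exact ⟨h2.1, h2.2.1⟩
      rw [h1, Set.ncard_empty, Nat.cast_zero]
      positivity
  -- ordinary
  set O : ℝ := (({h ∈ traceSet q g | ¬ (p : ℤ) ∣ h.coeff 0}.ncard : ℕ) : ℝ) with hO
  have bO : N - (98 / 100 : ℝ) ^ g * N ≤ 4 * O := by
    have h1 : N ≤ S.ncard + 4 * O := by
      rw [hS, hO, fib (by omega), fib (by omega), hNsum]
      push_cast
      rw [Finset.mul_sum, ← Finset.sum_add_distrib]
      refine Finset.sum_le_sum fun u hu => ?_
      have hu' : u ∈ preSet q g (g - 1) := by simpa [hP1] using hu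
      by_cases hs : ((Jset q g u).ncard : ℝ) < (101 / 100 : ℝ) ^ g
      · have h2 : {t ∈ Jset q g u | ((Jset q g (divX (X * u + C t))).ncard : ℝ) <
            (101 / 100 : ℝ) ^ g} = Jset q g u := by
          ext t
          simp only [divX_X_mul_add, hs, and_true]
          rfl
        rw [h2]
        have h3 : (0 : ℝ) ≤ 4 * (({t ∈ Jset q g u |
          ¬ (p : ℤ) ∣ (X * u + C t).coeff 0}.ncard : ℕ) : ℝ) := by positivity
        linarith
      · push Not at hs
        have h4 : 2 ≤ (Jset q g u).ncard := by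
          have h5 : (1 : ℝ) < (101 / 100 : ℝ) ^ g :=
            one_lt_pow₀ (by norm_num) (by omega)
          have h6 : (1 : ℝ) < (Jset q g u).ncard := lt_of_lt_of_le h5 hs
          have h7 : 1 < (Jset q g u).ncard := by exact_mod_cast h6
          omega
        obtain ⟨a, M, hJ⟩ := Jset_Ico q g u
        have hM : (Jset q g u).ncard = M := by
          rw [hJ, ← Finset.coe_Ico, Set.ncard_coe_finset, Int.card_Ico]
          simp
        have h8 := quarter hp.two_le a (M := M) (by omega)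
        have h9 : {t ∈ Jset q g u | ¬ (p : ℤ) ∣ (X * u + C t).coeff 0} =
            {t ∈ Set.Ico a (a + M) | ¬ (p : ℤ) ∣ t} := by
          ext t
          rw [hJ]
          simp only [coeff_X_mul_add]
        rw [h9, hM]
        have h10 : (M : ℝ) ≤ 4 * ({t ∈ Set.Ico a (a + M) | ¬ (p : ℤ) ∣ t}.ncard : ℕ) := by
          exact_mod_cast h8
        have h11 : (0 : ℝ) ≤ (({t ∈ Jset q g u | ((Jset q g (divX (X * u + C t))).ncard : ℝ) <
          (101 / 100 : ℝ) ^ g}.ncard : ℕ) : ℝ) := Nat.cast_nonneg _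
        linarith
    linarith
  have hO8 : N ≤ 8 * O := by
    have h1 : (98 / 100 : ℝ) ^ g * N ≤ 1 / 2 * N := mul_le_mul_of_nonneg_right hθ2 hN0
    linarith
  calc (({h ∈ traceSet q g | ¬ (Irreducible h ∧ Nice q h)}.ncard : ℕ) : ℝ) ≤
        R.ncard + D.ncard + S.ncard + E.ncard := hcard
    _ ≤ (3 * (98 / 100 : ℝ) ^ g + η) * N := by linarith
    _ ≤ (3 * (98 / 100 : ℝ) ^ g + η) * (8 * O) :=
        mul_le_mul_of_nonneg_left hO8 (by positivity)
    _ = (24 * (98 / 100 : ℝ) ^ g + 8 * η) * O := by ring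

theorem almost_all {q p : ℕ} (hq : 16 ≤ q) (hp : p.Prime) {ε : ℝ} (hε : 0 < ε) :
    ∃ G : ℕ, ∀ g ≥ G,
      (({h ∈ traceSet q g | ¬ (Irreducible h ∧ Nice q h)}.ncard : ℕ) : ℝ) ≤
        ε * (({h ∈ traceSet q g | ¬ (p : ℤ) ∣ h.coeff 0}.ncard : ℕ) : ℝ) := by
  obtain ⟨G1, hG1⟩ := ratio1 hq
  obtain ⟨G2, hG2⟩ := ratio2 hq
  obtain ⟨G3, hG3⟩ := ratio3 hq
  obtain ⟨G4, hG4⟩ := sieve (q := q) (by omega) (η := ε / 16) (by positivity)
  obtain ⟨G5, hG5⟩ := exists_pow_lt_of_lt_one (show (0 : ℝ) < min (ε / 48) (1 / 2) by positivity)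
    (show (98 / 100 : ℝ) < 1 by norm_num)
  refine ⟨max (max (max G1 G2) (max G3 G4)) (max G5 2), fun g hg => ?_⟩
  have g1 : G1 ≤ g := le_trans (by simp) hg
  have g2 : G2 ≤ g := le_trans (by simp) hg
  have g3 : G3 ≤ g := le_trans (by simp) hg
  have g4 : G4 ≤ g := le_trans (by simp) hg
  have g5 : G5 ≤ g := le_trans (by simp) hg
  have hg2 : 2 ≤ g := le_trans (by simp) hg
  have hθ : (98 / 100 : ℝ) ^ g ≤ min (ε / 48) (1 / 2) :=
    (pow_le_pow_of_le_one (by norm_num) (by norm_num) g5).trans hG5.le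
  have hθ1 : (98 / 100 : ℝ) ^ g ≤ ε / 48 := hθ.trans (min_le_left _ _)
  have hθ2 : (98 / 100 : ℝ) ^ g ≤ 1 / 2 := hθ.trans (min_le_right _ _)
  refine (almost_core hq hp hg2 (by positivity) (hG1 g g1) (hG2 g g2) (hG3 g g3) (hG4 g g4)
    hθ2).trans (mul_le_mul_of_nonneg_right (by linarith) (Nat.cast_nonneg _))

/-- The quantitative form, from the quantitative form of the sieve. -/
theorem almost_all_log_of {q p : ℕ} (hq : 16 ≤ q) (hp : p.Prime)
    (hs : ∃ c : ℝ, 0 < c ∧ ∃ G : ℕ, ∀ g ≥ G, ∀ u ∈ preSet q g (g - 1), Delta q (X * u) ≠ 0 →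
      (101 / 100 : ℝ) ^ g ≤ (Jset q g u).ncard →
        (({t ∈ Jset q g u | ¬ Nice q (X * u + C t)}.ncard : ℕ) : ℝ) ≤
          c / Real.log g * (Jset q g u).ncard) :
    ∃ c : ℝ, 0 < c ∧ ∃ G : ℕ, ∀ g ≥ G,
      (({h ∈ traceSet q g | ¬ (Irreducible h ∧ Nice q h)}.ncard : ℕ) : ℝ) ≤
        c / Real.log g * (({h ∈ traceSet q g | ¬ (p : ℤ) ∣ h.coeff 0}.ncard : ℕ) : ℝ) := by
  obtain ⟨c, hc, G4, hG4⟩ := hs
  obtain ⟨G1, hG1⟩ := ratio1 hq
  obtain ⟨G2, hG2⟩ := ratio2 hq
  obtain ⟨G3, hG3⟩ := ratio3 hq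
  have hlim := tendsto_self_mul_const_pow_of_lt_one (show (0 : ℝ) ≤ 98 / 100 by norm_num)
    (show (98 / 100 : ℝ) < 1 by norm_num)
  obtain ⟨G5, hG5⟩ := Filter.eventually_atTop.1 (hlim.eventually (gt_mem_nhds one_pos))
  refine ⟨24 + 8 * c, by positivity, max (max (max G1 G2) (max G3 G4)) (max G5 2),
    fun g hg => ?_⟩
  have g1 : G1 ≤ g := le_trans (by simp) hg
  have g2 : G2 ≤ g := le_trans (by simp) hg
  have g3 : G3 ≤ g := le_trans (by simp) hg
  have g4 : G4 ≤ g := le_trans (by simp) hg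
  have g5 : G5 ≤ g := le_trans (by simp) hg
  have hg2 : 2 ≤ g := le_trans (by simp) hg
  have hg2' : (2 : ℝ) ≤ g := by exact_mod_cast hg2
  have hlog : 0 < Real.log g := Real.log_pos (by linarith)
  have hθ := hG5 g g5
  have hθ0 : (0 : ℝ) < (98 / 100 : ℝ) ^ g := by positivity
  have hθ2 : (98 / 100 : ℝ) ^ g ≤ 1 / 2 := by nlinarith
  have hθ1 : (98 / 100 : ℝ) ^ g ≤ 1 / Real.log g := by
    rw [le_div_iff₀ hlog]
    have h1 : Real.log g ≤ g := (Real.log_le_sub_one_of_pos (by linarith)).trans (by linarith)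
    nlinarith
  refine (almost_core hq hp hg2 (by positivity) (hG1 g g1) (hG2 g g2) (hG3 g g3) (hG4 g g4)
    hθ2).trans (mul_le_mul_of_nonneg_right ?_ (Nat.cast_nonneg _))
  have h2 : (24 + 8 * c) / Real.log g = 24 * (1 / Real.log g) + 8 * (c / Real.log g) := by ring
  rw [h2]
  linarith

end Pool.Agent.Helper84.AA
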