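import Pool.Agent.Helper84.AA.Defs

/-!
# AA-16: the quotient stays zero free

`σ = √q ≥ 4`, `y` normalised coefficients, `u` in the unit cube, `γ` real (the rounded element),
`σ^(k+1) y_k = mulc u γ k`: in the ring `ℝ[x]`, with `Y = 1 + ∑ y_k x^(k+1)`, `U = 1 + ∑ u_k σ^(-(k+1)) x^(k+1)`,
`A = 1 + ∑ γ_k σ^(-(k+1)) x^(k+1)`: `Y ≡ U A mod x^(g+1)`.

PROOF.  Let `V_0 = 1`, `V_k = - ∑_{i=1}^{min(k,g)} u_{i-1} σ^(-i) V_{k-i}`: `V = ∑_{k ≤ g} V_k x^k` satisfies
`U V ≡ 1 mod x^(g+1)`.  Induction: `|V_k| ≤ (1/2)(3/2)^(k-1) σ^(-k)` for `k ≥ 1`.  With `ρ = 3/(2σ) ≤ 3/8`: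
`|V_k| ≤ ρ^k / 3`, `∑_{k ≥ 1} |V_k| ≤ ρ/(3(1-ρ)) ≤ 1/5`, so `|V(z)| ≥ 4/5` on the disc.
`A ≡ Y V mod x^(g+1)`, so `A = Y V - R`, `R = ∑_{k>g} [Y V]_k x^k`,
`|R(z)| ≤ ∑_{i=0}^{g} |y_{i-1}| ∑_{j > g-i} |V_j| ≤ ∑_i |y_{i-1}| ρ^(g-i) ρ/(3(1-ρ)) ≤ (1/5) ∑_i |y_{i-1}| (3/8)^(g-i)`
(`y_{-1} = 1`), which is at most `(3/5) m < (4/5) m ≤ |Y(z) V(z)|`.  So `A(z) ≠ 0`.
-/

namespace Pool.Agent.Helper84.AA

/-- The coefficient sequence `1, α_0, α_1, …, 0, 0, …`. -/
private def cs {n : ℕ} (α : Fin n → ℝ) (k : ℕ) : ℝ :=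
  if k = 0 then 1 else if h : k - 1 < n then α ⟨k - 1, h⟩ else 0

private lemma cs_zero {n : ℕ} (α : Fin n → ℝ) : cs α 0 = 1 := by simp [cs]

private lemma cs_succ {n : ℕ} (α : Fin n → ℝ) (k : Fin n) : cs α ((k : ℕ) + 1) = α k := by
  simp [cs]

private lemma cs_succ' {n : ℕ} (α : Fin n → ℝ) (k : ℕ) (hk : k < n) :
    cs α (k + 1) = α ⟨k, hk⟩ := cs_succ α ⟨k, hk⟩

private lemma cs_big {n : ℕ} (α : Fin n → ℝ) (k : ℕ) (hk : n < k) : cs α k = 0 := by
  unfold cs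
  rw [if_neg (by omega), dif_neg (by omega)]

private lemma Apoly_eq {n : ℕ} (α : Fin n → ℝ) (z : ℂ) :
    Apoly α z = ∑ k ∈ Finset.range (n + 1), (cs α k : ℂ) * z ^ k := by
  rw [Finset.sum_range_succ', Finset.sum_range]
  simp only [cs_succ, cs_zero, Apoly]
  simp [add_comm]

private lemma antidiag_eq {g N : ℕ} (hN : N ≤ g) (f : ℕ → ℕ → ℝ) :
    ∑ p ∈ Finset.HasAntidiagonal.antidiagonal N, f p.1 p.2 =
      ∑ i ∈ Finset.range (g + 1), ∑ j ∈ Finset.range (g + 1),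
        if i + j = N then f i j else 0 := by
  rw [← Finset.sum_product' (Finset.range (g + 1)) (Finset.range (g + 1))
    (fun i j => if i + j = N then f i j else 0), ← Finset.sum_filter]
  refine Finset.sum_congr ?_ fun _ _ => rfl
  ext ⟨a, b⟩
  simp only [Finset.HasAntidiagonal.mem_antidiagonal, Finset.mem_filter, Finset.mem_product, Finset.mem_range]
  omega

/-- The product formula. -/
private lemma prod_coeff {g : ℕ} (a b : Fin g → ℝ) (k : Fin g) :
    ∑ p ∈ Finset.HasAntidiagonal.antidiagonal ((k : ℕ) + 1), cs a p.1 * cs b p.2 = mulc a b k := by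
  have hk := k.2
  rw [antidiag_eq (g := g) (by omega) (fun i j => cs a i * cs b j)]
  rw [Finset.sum_range_succ']
  have h1 : ∀ i ∈ Finset.range g, (∑ j ∈ Finset.range (g + 1),
      if i + 1 + j = (k : ℕ) + 1 then cs a (i + 1) * cs b j else 0) =
      (∑ j ∈ Finset.range g, if i + j + 1 = (k : ℕ) then cs a (i + 1) * cs b (j + 1) else 0) +
        (if i = (k : ℕ) then cs a (i + 1) else 0) := by
    intro i _
    rw [Finset.sum_range_succ']
    congr 1
    · refine Finset.sum_congr rfl fun j _ => ?_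
      by_cases h : i + j + 1 = (k : ℕ)
      · rw [if_pos h, if_pos (by omega)]
      · rw [if_neg h, if_neg (by omega)]
    · rw [cs_zero, mul_one]
      by_cases h : i = (k : ℕ)
      · rw [if_pos h, if_pos (by omega)]
      · rw [if_neg h, if_neg (by omega)]
  have h2 : (∑ j ∈ Finset.range (g + 1), if 0 + j = (k : ℕ) + 1 then cs a 0 * cs b j else 0) =
      b k := by
    simp only [zero_add, cs_zero, one_mul]
    rw [Finset.sum_ite_eq' (Finset.range (g + 1)) ((k : ℕ) + 1) (fun j => cs b j),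
      if_pos (Finset.mem_range.2 (by omega)), cs_succ]
  rw [Finset.sum_congr rfl h1, h2, Finset.sum_add_distrib,
    Finset.sum_ite_eq' (Finset.range g) (k : ℕ) (fun i => cs a (i + 1)),
    if_pos (Finset.mem_range.2 hk), cs_succ]
  unfold mulc
  have h3 : (∑ i ∈ Finset.range g, ∑ j ∈ Finset.range g,
      if i + j + 1 = (k : ℕ) then cs a (i + 1) * cs b (j + 1) else 0) =
      ∑ i : Fin g, ∑ j : Fin g, if (i : ℕ) + j + 1 = k then a i * b j else 0 := by
    rw [Finset.sum_range]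
    refine Finset.sum_congr rfl fun i _ => ?_
    rw [Finset.sum_range]
    refine Finset.sum_congr rfl fun j _ => ?_
    rw [cs_succ, cs_succ]
  rw [h3]
  ring

private lemma mulc_scale {g : ℕ} (τ : ℝ) (u γ : Fin g → ℝ) (k : Fin g) :
    mulc (fun i => u i * τ ^ ((i : ℕ) + 1)) (fun i => γ i * τ ^ ((i : ℕ) + 1)) k =
      τ ^ ((k : ℕ) + 1) * mulc u γ k := by
  unfold mulc
  rw [mul_add, mul_add, Finset.mul_sum]
  congr 1
  · ring
  · refine Finset.sum_congr rfl fun i _ => ?_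
    rw [Finset.mul_sum]
    refine Finset.sum_congr rfl fun j _ => ?_
    split_ifs with h
    · rw [← h]
      ring
    · rw [mul_zero]

/-- The inverse power series: coefficient bound. -/
private lemma inv_bound (U : PowerSeries ℝ) (h0 : PowerSeries.coeff 0 U = 1)
    (hU : ∀ i : ℕ, |PowerSeries.coeff (i + 1) U| ≤ 1 / 2 * (1 / 4) ^ (i + 1)) :
    PowerSeries.coeff 0 U⁻¹ = 1 ∧
      ∀ n : ℕ, |PowerSeries.coeff (n + 1) U⁻¹| ≤ 1 / 3 * (3 / 8) ^ (n + 1) := by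
  have hc : PowerSeries.constantCoeff U ≠ 0 := by
    rw [← PowerSeries.coeff_zero_eq_constantCoeff_apply, h0]
    exact one_ne_zero
  have hmul : U * U⁻¹ = 1 := PowerSeries.mul_inv_cancel U hc
  have hz : PowerSeries.coeff 0 U⁻¹ = 1 := by
    have := congrArg (PowerSeries.coeff 0) hmul
    rw [PowerSeries.coeff_mul] at this
    simpa [h0] using this
  have hrec : ∀ n : ℕ, PowerSeries.coeff (n + 1) U⁻¹ =
      -∑ p ∈ Finset.HasAntidiagonal.antidiagonal n, PowerSeries.coeff (p.1 + 1) U *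
        PowerSeries.coeff p.2 U⁻¹ := by
    intro n
    have := congrArg (PowerSeries.coeff (n + 1)) hmul
    rw [PowerSeries.coeff_mul, Finset.Nat.sum_antidiagonal_succ, h0, one_mul,
      PowerSeries.coeff_one, if_neg (by omega)] at this
    linarith
  set T : ℕ → ℝ := fun n => ∑ p ∈ Finset.HasAntidiagonal.antidiagonal n, 1 / 2 * (1 / 4 : ℝ) ^ (p.1 + 1) *
        |PowerSeries.coeff p.2 U⁻¹| with hT
  have hle : ∀ n : ℕ, |PowerSeries.coeff (n + 1) U⁻¹| ≤ T n := by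
    intro n
    rw [hrec n, abs_neg]
    refine (Finset.abs_sum_le_sum_abs _ _).trans (Finset.sum_le_sum fun p _ => ?_)
    rw [abs_mul]
    exact mul_le_mul_of_nonneg_right (hU _) (abs_nonneg _)
  have hTs : ∀ n : ℕ, T (n + 1) = 1 / 8 * |PowerSeries.coeff (n + 1) U⁻¹| + 1 / 4 * T n := by
    intro n
    simp only [hT]
    rw [Finset.Nat.sum_antidiagonal_succ, Finset.mul_sum]
    congr 1
    · norm_num
    · refine Finset.sum_congr rfl fun p _ => ?_
      rw [pow_succ (1 / 4 : ℝ) (p.1 + 1)]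
      ring
  have hTb : ∀ n : ℕ, T n ≤ 1 / 3 * (3 / 8) ^ (n + 1) := by
    intro n
    induction n with
    | zero =>
      simp only [hT]
      simp [hz]
      norm_num
    | succ n ih =>
      rw [hTs n, pow_succ]
      have := hle n
      linarith
  exact ⟨hz, fun n => (hle n).trans (hTb n)⟩

theorem margin {g q : ℕ} (hq : 16 ≤ q) (y u γ : Fin g → ℝ) (m : ℝ) (hm : 0 < m)
    (hu : ∀ i, |u i| ≤ 1 / 2) (hy : ∀ k : Fin g, √q ^ ((k : ℕ) + 1) * y k = mulc u γ k)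
    (hY : ∀ z : ℂ, ‖z‖ ≤ 1 → m ≤ ‖Apoly y z‖)
    (ht : (3 / 8 : ℝ) ^ g + ∑ i : Fin g, |y i| * (3 / 8 : ℝ) ^ (g - 1 - (i : ℕ)) ≤ 3 * m) :
    ∀ z : ℂ, ‖z‖ ≤ 1 → Apoly (fun i => γ i * (√q)⁻¹ ^ ((i : ℕ) + 1)) z ≠ 0 := by
  intro z hz hA
  have hσ : (4 : ℝ) ≤ √q := by
    apply Real.le_sqrt_of_sq_le
    have : (16 : ℝ) ≤ q := by exact_mod_cast hq
    linarith
  have hσ0 : (0 : ℝ) < √q := by linarith
  set τ : ℝ := (√q)⁻¹ with hτ
  have hτ0 : 0 ≤ τ := by positivity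
  have hτ4 : τ ≤ 1 / 4 := by
    rw [hτ, inv_eq_one_div]
    exact one_div_le_one_div_of_le (by norm_num) hσ
  have hτσ : τ * √q = 1 := inv_mul_cancel₀ hσ0.ne'
  set U : PowerSeries ℝ := PowerSeries.mk (cs fun i : Fin g => u i * τ ^ ((i : ℕ) + 1)) with hUdef
  set A : PowerSeries ℝ := PowerSeries.mk (cs fun i : Fin g => γ i * τ ^ ((i : ℕ) + 1)) with hAdef
  have hU0 : PowerSeries.coeff 0 U = 1 := by rw [hUdef, PowerSeries.coeff_mk, cs_zero]
  have hUb : ∀ i : ℕ, |PowerSeries.coeff (i + 1) U| ≤ 1 / 2 * (1 / 4) ^ (i + 1) := by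
    intro i
    rw [hUdef, PowerSeries.coeff_mk]
    by_cases hi : i < g
    · rw [cs_succ' _ i hi, abs_mul, abs_of_nonneg (pow_nonneg hτ0 _)]
      exact mul_le_mul (hu _) (pow_le_pow_left₀ hτ0 hτ4 _) (pow_nonneg hτ0 _) (by norm_num)
    · rw [cs_big _ _ (by omega), abs_zero]
      positivity
  obtain ⟨hV0, hVb⟩ := inv_bound U hU0 hUb
  have hc : PowerSeries.constantCoeff U ≠ 0 := by
    rw [← PowerSeries.coeff_zero_eq_constantCoeff_apply, hU0]
    exact one_ne_zero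
  set V : ℕ → ℝ := fun n => PowerSeries.coeff n U⁻¹ with hVdef
  have hUA : ∀ k ≤ g, PowerSeries.coeff k (U * A) = cs y k := by
    intro k hk
    rw [PowerSeries.coeff_mul]
    rcases Nat.eq_zero_or_pos k with h | h
    · subst h
      simp [hUdef, hAdef, cs_zero]
    · obtain ⟨l, rfl⟩ : ∃ l, k = l + 1 := ⟨k - 1, by omega⟩
      have hl : l < g := by omega
      have h1 := prod_coeff (fun i : Fin g => u i * τ ^ ((i : ℕ) + 1))
        (fun i : Fin g => γ i * τ ^ ((i : ℕ) + 1)) ⟨l, hl⟩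
      simp only [hUdef, hAdef, PowerSeries.coeff_mk]
      simp only at h1
      rw [h1, mulc_scale, ← hy ⟨l, hl⟩, cs_succ' _ l hl]
      simp only
      rw [← mul_assoc, ← mul_pow, hτσ, one_pow, one_mul]
  have hAk : ∀ k ≤ g, cs (fun i : Fin g => γ i * τ ^ ((i : ℕ) + 1)) k =
      ∑ i ∈ Finset.range (k + 1), cs y i * V (k - i) := by
    intro k hk
    have h1 : A = (U * A) * U⁻¹ := by
      rw [mul_comm U A, mul_assoc, PowerSeries.mul_inv_cancel U hc, mul_one]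
    have h2 : PowerSeries.coeff k A = PowerSeries.coeff k ((U * A) * U⁻¹) := by rw [← h1]
    rw [PowerSeries.coeff_mul, Finset.Nat.sum_antidiagonal_eq_sum_range_succ
      (fun i j => PowerSeries.coeff i (U * A) * PowerSeries.coeff j U⁻¹)] at h2
    rw [hAdef, PowerSeries.coeff_mk] at h2
    rw [h2]
    refine Finset.sum_congr rfl fun i hi => ?_
    have hi' := Finset.mem_range.1 hi
    rw [← hAdef, hUA i (by omega)]
  -- the polynomial A
  set f : ℕ → ℕ → ℂ := fun i j => (cs y i : ℂ) * z ^ i * ((V j : ℂ) * z ^ j) with hf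
  have hAz : ∑ i ∈ Finset.range (g + 1), ∑ j ∈ Finset.range (g + 1 - i), f i j = 0 := by
    rw [← Finset.sum_range_diag_flip, ← hA, Apoly_eq]
    refine Finset.sum_congr rfl fun k hk => ?_
    have hk' := Finset.mem_range.1 hk
    rw [hAk k (by omega)]
    push_cast
    rw [Finset.sum_mul]
    refine Finset.sum_congr rfl fun i hi => ?_
    have hi' := Finset.mem_range.1 hi
    simp only [hf]
    have : z ^ k = z ^ i * z ^ (k - i) := by rw [← pow_add]; congr 1; omega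
    rw [this]
    ring
  have hprod : Apoly y z * ∑ j ∈ Finset.range (g + 1), (V j : ℂ) * z ^ j =
      ∑ i ∈ Finset.range (g + 1), ∑ j ∈ Finset.range (g + 1), f i j := by
    rw [Apoly_eq, Finset.sum_mul_sum]
  have hdiff : ∑ i ∈ Finset.range (g + 1), ∑ j ∈ Finset.range (g + 1), f i j =
      ∑ i ∈ Finset.range (g + 1), ∑ j ∈ Finset.Ico (g + 1 - i) (g + 1), f i j := by
    rw [← sub_zero (∑ i ∈ Finset.range (g + 1), ∑ j ∈ Finset.range (g + 1), f i j), ← hAz,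
      ← Finset.sum_sub_distrib]
    refine Finset.sum_congr rfl fun i _ => ?_
    rw [Finset.sum_Ico_eq_sub _ (by omega)]
  have hzp : ∀ n : ℕ, ‖z ^ n‖ ≤ 1 := fun n => by
    rw [norm_pow]
    exact pow_le_one₀ (norm_nonneg _) hz
  have hVn : ∀ j : ℕ, 1 ≤ j → |V j| ≤ 1 / 3 * (3 / 8) ^ j := by
    intro j hj
    obtain ⟨l, rfl⟩ : ∃ l, j = l + 1 := ⟨j - 1, by omega⟩
    exact hVb l
  have hgeom : ∀ a b : ℕ, 1 ≤ a → ∑ j ∈ Finset.Ico a b, |V j| ≤ 1 / 5 * (3 / 8 : ℝ) ^ (a - 1) := by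
    intro a b ha
    calc ∑ j ∈ Finset.Ico a b, |V j| ≤ ∑ j ∈ Finset.Ico a b, 1 / 3 * (3 / 8 : ℝ) ^ j :=
          Finset.sum_le_sum fun j hj => hVn j (by have := (Finset.mem_Ico.1 hj).1; omega)
      _ = 1 / 3 * ∑ j ∈ Finset.Ico a b, (3 / 8 : ℝ) ^ j := by rw [Finset.mul_sum]
      _ ≤ 1 / 3 * ((3 / 8 : ℝ) ^ a / (1 - 3 / 8)) := by
          apply mul_le_mul_of_nonneg_left _ (by norm_num)
          exact geom_sum_Ico_le_of_lt_one (by norm_num) (by norm_num)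
      _ = 1 / 5 * (3 / 8 : ℝ) ^ (a - 1) := by
          obtain ⟨l, rfl⟩ : ∃ l, a = l + 1 := ⟨a - 1, by omega⟩
          rw [Nat.add_sub_cancel, pow_succ]
          ring
  -- lower bound for V(z)
  have hVz : (4 / 5 : ℝ) ≤ ‖∑ j ∈ Finset.range (g + 1), (V j : ℂ) * z ^ j‖ := by
    have h1 : ∑ j ∈ Finset.range (g + 1), (V j : ℂ) * z ^ j =
        1 + ∑ j ∈ Finset.Ico 1 (g + 1), (V j : ℂ) * z ^ j := by
      rw [Finset.range_eq_Ico, Finset.sum_eq_sum_Ico_succ_bot (by omega)]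
      simp [hVdef, hV0]
    have h2 : ‖∑ j ∈ Finset.Ico 1 (g + 1), (V j : ℂ) * z ^ j‖ ≤ 1 / 5 := by
      refine (norm_sum_le _ _).trans ?_
      refine le_trans (Finset.sum_le_sum (g := fun j => |V j|) fun j _ => ?_) ?_
      · rw [norm_mul, Complex.norm_real, Real.norm_eq_abs]
        exact mul_le_of_le_one_right (abs_nonneg _) (hzp j)
      · have := hgeom 1 (g + 1) le_rfl
        simpa using this
    rw [h1]
    have h3 : ‖(1 : ℂ)‖ ≤ ‖1 + ∑ j ∈ Finset.Ico 1 (g + 1), (V j : ℂ) * z ^ j‖ +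
        ‖∑ j ∈ Finset.Ico 1 (g + 1), (V j : ℂ) * z ^ j‖ := by
      have := norm_sub_le (1 + ∑ j ∈ Finset.Ico 1 (g + 1), (V j : ℂ) * z ^ j)
        (∑ j ∈ Finset.Ico 1 (g + 1), (V j : ℂ) * z ^ j)
      simpa using this
    rw [norm_one] at h3
    linarith
  -- upper bound for the remainder
  have hR : ‖∑ i ∈ Finset.range (g + 1), ∑ j ∈ Finset.Ico (g + 1 - i) (g + 1), f i j‖ ≤
      1 / 5 * (3 * m) := by
    have h1 : ‖∑ i ∈ Finset.range (g + 1), ∑ j ∈ Finset.Ico (g + 1 - i) (g + 1), f i j‖ ≤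
        ∑ i ∈ Finset.range (g + 1), |cs y i| * (1 / 5 * (3 / 8 : ℝ) ^ (g - i)) := by
      refine (norm_sum_le _ _).trans (Finset.sum_le_sum fun i hi => ?_)
      have hi' := Finset.mem_range.1 hi
      refine (norm_sum_le _ _).trans ?_
      have h2 : ∀ j ∈ Finset.Ico (g + 1 - i) (g + 1), ‖f i j‖ ≤ |cs y i| * |V j| := by
        intro j _
        simp only [hf]
        rw [norm_mul, norm_mul, norm_mul, Complex.norm_real, Complex.norm_real,
          Real.norm_eq_abs, Real.norm_eq_abs]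
        exact mul_le_mul (mul_le_of_le_one_right (abs_nonneg _) (hzp i))
          (mul_le_of_le_one_right (abs_nonneg _) (hzp j)) (by positivity) (abs_nonneg _)
      refine (Finset.sum_le_sum h2).trans ?_
      rw [← Finset.mul_sum]
      apply mul_le_mul_of_nonneg_left _ (abs_nonneg _)
      have := hgeom (g + 1 - i) (g + 1) (by omega)
      rwa [show g + 1 - i - 1 = g - i by omega] at this
    refine h1.trans ?_
    rw [Finset.sum_range_succ', Finset.sum_range]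
    simp only [cs_succ, cs_zero, abs_one, one_mul, Nat.sub_zero]
    have h4 : (∑ x : Fin g, |y x| * (1 / 5 * (3 / 8 : ℝ) ^ (g - ((x : ℕ) + 1)))) =
        1 / 5 * ∑ i : Fin g, |y i| * (3 / 8 : ℝ) ^ (g - 1 - (i : ℕ)) := by
      rw [Finset.mul_sum]
      refine Finset.sum_congr rfl fun i _ => ?_
      rw [show g - ((i : ℕ) + 1) = g - 1 - (i : ℕ) by omega]
      ring
    rw [h4]
    linarith
  have hfin : m * (4 / 5) ≤ 1 / 5 * (3 * m) := by
    calc m * (4 / 5) ≤ ‖Apoly y z‖ * ‖∑ j ∈ Finset.range (g + 1), (V j : ℂ) * z ^ j‖ :=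
          mul_le_mul (hY z hz) hVz (by norm_num) (norm_nonneg _)
      _ = ‖∑ i ∈ Finset.range (g + 1), ∑ j ∈ Finset.Ico (g + 1 - i) (g + 1), f i j‖ := by
          rw [← norm_mul, hprod, hdiff]
      _ ≤ _ := hR
  linarith

end Pool.Agent.Helper84.AA
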