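import Pool.Agent.Helper84.AA.Step

/-!
# AA-12: two moments of the measures `mu n`

PROOFS.  Induction on `n`.  `n = 0`: `Apoly = 1`, `Qn 0 = 1`.  Step: the integral over `mu (n+1)` is the double
integral of the function of `step κ α` (`lintegral_map`, `lintegral_prod`; the functions are measurable:
`Apoly` is continuous in `α`).  `nu n` is invariant under `κ ↦ -κ`, so
`∫⁻ f κ ∂nu = (1/2) ∫⁻ (f κ + f (-κ)) ∂nu`.  With `A = Apoly α z`, `B = z^(n+1) conj A`, `|B| = |A|` (`Apoly_step_circle`):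
`1/|A+κB|^2 + 1/|A-κB|^2 = (|A+κB|^2 + |A-κB|^2) / |A^2 - κ^2 B^2|^2 ≤ 2 (1+κ^2)/(1-κ^2)^2 / |A|^2`
(parallelogram law, `|A^2 - κ^2 B^2| ≥ (1-κ^2)|A|^2`); for `A = 0` both sides are `∞`.  For `|κ| ≤ w = win n`:
`(1+κ^2)/(1-κ^2)^2 ≤ (1+w^2)/(1-w^2)^2`.
`mom_sq`: `1 + ∑ (step κ α)_i^2 = (1+κ^2)(1 + ∑ α_i^2) + 2 κ ∑ α_i α_{rev i}`, the last term cancels in the
symmetrisation; `1 + w^2 ≤ (1+w^2)/(1-w^2)^2`.
-/

open MeasureTheory

namespace Pool.Agent.Helper84.AA

private theorem mom_win_lt (n : ℕ) : win n ^ 2 < 1 := by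
  have h1 := win_pos n
  have h2 := win_le n
  nlinarith

private theorem nu_neg (n : ℕ) (F : ℝ → ENNReal) (hF : Measurable F) :
    ∫⁻ κ, F (-κ) ∂(nu n) = ∫⁻ κ, F κ ∂(nu n) := by
  have hd : Measurable fun κ : ℝ => ENNReal.ofReal (√((1 - κ ^ 2) ^ n)) := by fun_prop
  have hFn : Measurable fun κ : ℝ => F (-κ) := hF.comp measurable_neg
  unfold nu
  rw [lintegral_withDensity_eq_lintegral_mul _ hd hFn, lintegral_withDensity_eq_lintegral_mul _ hd hF,
    ← lintegral_indicator measurableSet_Icc, ← lintegral_indicator measurableSet_Icc,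
    ← lintegral_neg_eq_self]
  apply lintegral_congr
  intro κ
  by_cases h : κ ∈ Set.Icc (-win n) (win n)
  · have h' : -κ ∈ Set.Icc (-win n) (win n) := by
      obtain ⟨h1, h2⟩ := Set.mem_Icc.1 h
      exact Set.mem_Icc.2 ⟨by linarith, by linarith⟩
    rw [Set.indicator_of_mem h, Set.indicator_of_mem h']
    simp
  · have h' : -κ ∉ Set.Icc (-win n) (win n) := by
      intro h'
      obtain ⟨h1, h2⟩ := Set.mem_Icc.1 h'
      exact h (Set.mem_Icc.2 ⟨by linarith, by linarith⟩)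
    rw [Set.indicator_of_notMem h, Set.indicator_of_notMem h']

private theorem nu_sym (n : ℕ) (F : ℝ → ENNReal) (hF : Measurable F) (c : ENNReal)
    (h : ∀ κ : ℝ, |κ| ≤ win n → F κ + F (-κ) ≤ 2 * c) :
    ∫⁻ κ, F κ ∂(nu n) ≤ c * nu n Set.univ := by
  have h1 : ∫⁻ κ, (F κ + F (-κ)) ∂(nu n) ≤ ∫⁻ _, 2 * c ∂(nu n) := by
    apply lintegral_mono_ae
    have hae : ∀ᵐ κ ∂(volume.restrict (Set.Icc (-win n) (win n))), F κ + F (-κ) ≤ 2 * c := by
      filter_upwards [ae_restrict_mem measurableSet_Icc] with κ hκ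
      exact h κ (abs_le.2 (Set.mem_Icc.1 hκ))
    exact (withDensity_absolutelyContinuous _ _).ae_le hae
  rw [lintegral_add_left hF, nu_neg n F hF, lintegral_const, ← two_mul, mul_assoc] at h1
  exact (ENNReal.mul_le_mul_iff_right (by norm_num) (by norm_num)).1 h1

private theorem mu_succ_univ (n : ℕ) :
    mu (n + 1) Set.univ = mu n Set.univ * nu n Set.univ := by
  change (((mu n).prod (nu n)).map fun p => step p.2 p.1) Set.univ = _
  rw [Measure.map_apply step_continuous.measurable MeasurableSet.univ, Set.preimage_univ,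
    ← Set.univ_prod_univ, Measure.prod_prod]

private theorem mom_gen (f : (n : ℕ) → (Fin n → ℝ) → ENNReal) (hf : ∀ n, Measurable (f n))
    (h0 : ∀ α, f 0 α ≤ 1)
    (hs : ∀ (n : ℕ) (α : Fin n → ℝ) (κ : ℝ), |κ| ≤ win n →
      f (n + 1) (step κ α) + f (n + 1) (step (-κ) α) ≤
        2 * (ENNReal.ofReal ((1 + win n ^ 2) / (1 - win n ^ 2) ^ 2) * f n α)) (n : ℕ) :
    ∫⁻ α, f n α ∂(mu n) ≤ ENNReal.ofReal (Qn n) * mu n Set.univ := by
  induction n with
  | zero =>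
    have h1 : Qn 0 = 1 := by simp [Qn]
    rw [h1]
    change ∫⁻ α, f 0 α ∂(Measure.dirac 0) ≤ ENNReal.ofReal 1 * (Measure.dirac 0) Set.univ
    rw [lintegral_dirac' _ (hf 0)]
    simp only [ENNReal.ofReal_one, measure_univ, mul_one]
    exact h0 0
  | succ n ih =>
    have hm : Measurable fun p : (Fin n → ℝ) × ℝ => f (n + 1) (step p.2 p.1) :=
      (hf (n + 1)).comp step_continuous.measurable
    have e1 : ∫⁻ α, f (n + 1) α ∂(mu (n + 1)) =
        ∫⁻ α, ∫⁻ κ, f (n + 1) (step κ α) ∂(nu n) ∂(mu n) := by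
      change ∫⁻ α, f (n + 1) α ∂(((mu n).prod (nu n)).map fun p => step p.2 p.1) = _
      rw [lintegral_map (hf (n + 1)) step_continuous.measurable, lintegral_prod _ hm.aemeasurable]
    have e2 : ∀ α : Fin n → ℝ, ∫⁻ κ, f (n + 1) (step κ α) ∂(nu n) ≤
        (ENNReal.ofReal ((1 + win n ^ 2) / (1 - win n ^ 2) ^ 2) * f n α) * nu n Set.univ :=
      fun α => nu_sym n _ (hm.comp (measurable_const.prodMk measurable_id)) _ (fun κ hκ => hs n α κ hκ)
    rw [e1]
    refine (lintegral_mono e2).trans ?_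
    rw [lintegral_mul_const _ ((hf n).const_mul _), lintegral_const_mul _ (hf n), mu_succ_univ]
    have hQ : Qn (n + 1) = Qn n * ((1 + win n ^ 2) / (1 - win n ^ 2) ^ 2) := by
      unfold Qn
      rw [Finset.prod_range_succ]
    have hQ0 : 0 ≤ Qn n := by
      unfold Qn
      exact Finset.prod_nonneg fun j _ => by positivity
    rw [hQ, ENNReal.ofReal_mul hQ0]
    calc ENNReal.ofReal ((1 + win n ^ 2) / (1 - win n ^ 2) ^ 2) * (∫⁻ α, f n α ∂(mu n)) *
          nu n Set.univ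
        ≤ ENNReal.ofReal ((1 + win n ^ 2) / (1 - win n ^ 2) ^ 2) *
          (ENNReal.ofReal (Qn n) * mu n Set.univ) * nu n Set.univ := by gcongr
      _ = _ := by ring

private theorem kap_sq_le {n : ℕ} {κ : ℝ} (h : |κ| ≤ win n) : κ ^ 2 ≤ win n ^ 2 := by
  rw [← sq_abs κ]
  exact pow_le_pow_left₀ (abs_nonneg _) h 2

private theorem one_add_le_q (n : ℕ) :
    1 + win n ^ 2 ≤ (1 + win n ^ 2) / (1 - win n ^ 2) ^ 2 := by
  have h1 := mom_win_lt n
  have h2 : 0 ≤ win n ^ 2 := sq_nonneg _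
  rw [le_div_iff₀ (by nlinarith)]
  have h3 : (1 - win n ^ 2) ^ 2 ≤ 1 := by nlinarith
  nlinarith

theorem mom_inv (n : ℕ) (z : ℂ) (hz : ‖z‖ = 1) :
    ∫⁻ α, (ENNReal.ofReal (‖Apoly α z‖ ^ 2))⁻¹ ∂(mu n) ≤
      ENNReal.ofReal (Qn n) * mu n Set.univ := by
  refine mom_gen (fun n α => (ENNReal.ofReal (‖Apoly α z‖ ^ 2))⁻¹) ?_ ?_ ?_ n
  · intro n
    have h1 : Measurable fun α : Fin n → ℝ => Apoly α z := by
      apply Continuous.measurable
      unfold Apoly
      fun_prop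
    exact (ENNReal.measurable_ofReal.comp (h1.norm.pow_const 2)).inv
  · intro α
    simp [Apoly]
  · intro n α κ hκ
    have hw := mom_win_lt n
    have hk := kap_sq_le hκ
    have hk0 : 0 ≤ κ ^ 2 := sq_nonneg κ
    rw [Apoly_step_circle κ α z hz, Apoly_step_circle (-κ) α z hz]
    set A := Apoly α z with hA
    set B := z ^ (n + 1) * (starRingEnd ℂ) A with hB
    have hBn : ‖B‖ = ‖A‖ := by
      rw [hB, norm_mul, norm_pow, hz, one_pow, one_mul, RCLike.norm_conj]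
    have hq : 0 < (1 + win n ^ 2) / (1 - win n ^ 2) ^ 2 := by
      have : 0 < 1 - win n ^ 2 := by linarith
      positivity
    by_cases hA0 : A = 0
    · have h1 : (ENNReal.ofReal (‖A‖ ^ 2))⁻¹ = ⊤ := by
        rw [hA0]
        simp
      rw [h1, ENNReal.mul_top (by simpa using hq), ENNReal.mul_top (by norm_num)]
      exact le_top
    · have hAp : 0 < ‖A‖ := norm_pos_iff.2 hA0
      -- the parallelogram law and the product
      have hpar : ‖A + κ * B‖ ^ 2 + ‖A + ((-κ : ℝ) : ℂ) * B‖ ^ 2 = 2 * ((1 + κ ^ 2) * ‖A‖ ^ 2) := by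
        have e := parallelogram_law_with_norm ℝ A (κ * B)
        have e3 : A - κ * B = A + ((-κ : ℝ) : ℂ) * B := by
          push_cast
          ring
        rw [e3] at e
        have e4 : ‖(κ : ℂ) * B‖ = |κ| * ‖A‖ := by
          rw [norm_mul, hBn, Complex.norm_real, Real.norm_eq_abs]
        rw [e4] at e
        have e5 : (|κ| * ‖A‖) * (|κ| * ‖A‖) = κ ^ 2 * ‖A‖ ^ 2 := by
          rw [← sq_abs κ]
          ring
        nlinarith [e, e5]
      have hprod : (1 - κ ^ 2) * ‖A‖ ^ 2 ≤ ‖A + κ * B‖ * ‖A + ((-κ : ℝ) : ℂ) * B‖ := by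
        rw [← norm_mul]
        have e1 : (A + κ * B) * (A + ((-κ : ℝ) : ℂ) * B) = A ^ 2 - (κ : ℂ) ^ 2 * B ^ 2 := by
          push_cast
          ring
        rw [e1]
        have e2 := norm_sub_norm_le (A ^ 2) ((κ : ℂ) ^ 2 * B ^ 2)
        have e3 : ‖(κ : ℂ) ^ 2 * B ^ 2‖ = κ ^ 2 * ‖A‖ ^ 2 := by
          rw [norm_mul, norm_pow, norm_pow, hBn, Complex.norm_real, Real.norm_eq_abs, sq_abs]
        rw [e3, norm_pow] at e2
        linarith
      have hk1 : 0 < 1 - κ ^ 2 := by linarith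
      have hpp : 0 < (1 - κ ^ 2) * ‖A‖ ^ 2 := by positivity
      have hab : 0 < ‖A + κ * B‖ * ‖A + ((-κ : ℝ) : ℂ) * B‖ := lt_of_lt_of_le hpp hprod
      have ha : 0 < ‖A + κ * B‖ := by
        rcases (norm_nonneg (A + κ * B)).lt_or_eq with h | h
        · exact h
        · rw [← h, zero_mul] at hab
          exact absurd hab (lt_irrefl _)
      have hb : 0 < ‖A + ((-κ : ℝ) : ℂ) * B‖ := by
        rcases (norm_nonneg (A + ((-κ : ℝ) : ℂ) * B)).lt_or_eq with h | h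
        · exact h
        · rw [← h, mul_zero] at hab
          exact absurd hab (lt_irrefl _)
      rw [← ENNReal.ofReal_inv_of_pos (by positivity), ← ENNReal.ofReal_inv_of_pos (by positivity),
        ← ENNReal.ofReal_inv_of_pos (by positivity), ← ENNReal.ofReal_add (by positivity)
        (by positivity), ← ENNReal.ofReal_mul hq.le]
      have h2 : (2 : ENNReal) = ENNReal.ofReal 2 := by simp
      rw [h2, ← ENNReal.ofReal_mul (by norm_num)]
      apply ENNReal.ofReal_le_ofReal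
      have hsum : (‖A + κ * B‖ ^ 2)⁻¹ + (‖A + ((-κ : ℝ) : ℂ) * B‖ ^ 2)⁻¹ =
          2 * ((1 + κ ^ 2) * ‖A‖ ^ 2) / (‖A + κ * B‖ * ‖A + ((-κ : ℝ) : ℂ) * B‖) ^ 2 := by
        rw [← hpar]
        generalize ‖A + κ * B‖ = s at ha ⊢
        generalize ‖A + ((-κ : ℝ) : ℂ) * B‖ = t at hb ⊢
        have hs0 : s ≠ 0 := ha.ne'
        have ht0 : t ≠ 0 := hb.ne'
        field_simp
        ring
      rw [hsum]
      have h3 : 2 * ((1 + κ ^ 2) * ‖A‖ ^ 2) / (‖A + κ * B‖ * ‖A + ((-κ : ℝ) : ℂ) * B‖) ^ 2 ≤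
          2 * ((1 + κ ^ 2) * ‖A‖ ^ 2) / ((1 - κ ^ 2) * ‖A‖ ^ 2) ^ 2 := by
        apply div_le_div_of_nonneg_left (by positivity) (by positivity)
        exact pow_le_pow_left₀ hpp.le hprod 2
      have h4 : 2 * ((1 + κ ^ 2) * ‖A‖ ^ 2) / ((1 - κ ^ 2) * ‖A‖ ^ 2) ^ 2 =
          2 * ((1 + κ ^ 2) / (1 - κ ^ 2) ^ 2 * (‖A‖ ^ 2)⁻¹) := by
        field_simp
      have h5 : (1 + κ ^ 2) / (1 - κ ^ 2) ^ 2 ≤ (1 + win n ^ 2) / (1 - win n ^ 2) ^ 2 := by
        apply div_le_div₀ (by positivity) (by linarith)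
        · have : 0 < 1 - win n ^ 2 := by linarith
          positivity
        · exact pow_le_pow_left₀ (by linarith) (by linarith) 2
      rw [h4] at h3
      refine h3.trans ?_
      have h6 : 0 ≤ (‖A‖ ^ 2)⁻¹ := by positivity
      have h7 := mul_le_mul_of_nonneg_right h5 h6
      linarith

theorem mom_sq (n : ℕ) :
    ∫⁻ α, ENNReal.ofReal (1 + ∑ i, α i ^ 2) ∂(mu n) ≤
      ENNReal.ofReal (Qn n) * mu n Set.univ := by
  refine mom_gen (fun n α => ENNReal.ofReal (1 + ∑ i, α i ^ 2)) ?_ ?_ ?_ n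
  · intro n
    apply Measurable.ennreal_ofReal
    apply Continuous.measurable
    fun_prop
  · intro α
    simp
  · intro n α κ hκ
    have hw := mom_win_lt n
    have hk := kap_sq_le hκ
    have hq := one_add_le_q n
    have hstep : ∀ t : ℝ, (1 : ℝ) + ∑ i, step t α i ^ 2 =
        (1 + t ^ 2) * (1 + ∑ i, α i ^ 2) + 2 * t * ∑ i : Fin n, α i * α i.rev := by
      intro t
      have e1 : ∑ i : Fin n, α i.rev ^ 2 = ∑ i : Fin n, α i ^ 2 :=
        Equiv.sum_comp Fin.revPerm (fun i => α i ^ 2)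
      unfold step
      rw [Fin.sum_univ_castSucc]
      simp only [Fin.snoc_castSucc, Fin.snoc_last]
      have e2 : ∑ i : Fin n, (α i + t * α i.rev) ^ 2 =
          ∑ i : Fin n, α i ^ 2 + t ^ 2 * ∑ i : Fin n, α i.rev ^ 2 +
            2 * t * ∑ i : Fin n, α i * α i.rev := by
        rw [Finset.mul_sum, Finset.mul_sum, ← Finset.sum_add_distrib, ← Finset.sum_add_distrib]
        apply Finset.sum_congr rfl
        intro i _
        ring
      rw [e2, e1]
      ring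
    have hnn : ∀ t : ℝ, 0 ≤ (1 : ℝ) + ∑ i, step t α i ^ 2 := fun t => by positivity
    rw [← ENNReal.ofReal_add (hnn _) (hnn _)]
    have h2 : (2 : ENNReal) = ENNReal.ofReal 2 := by simp
    have hS : 0 ≤ (1 : ℝ) + ∑ i, α i ^ 2 := by positivity
    rw [← ENNReal.ofReal_mul (by
      have : 0 ≤ win n ^ 2 := sq_nonneg _
      linarith), h2, ← ENNReal.ofReal_mul (by norm_num)]
    apply ENNReal.ofReal_le_ofReal
    rw [hstep, hstep]
    have h3 : (1 + κ ^ 2) * (1 + ∑ i, α i ^ 2) ≤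
        ((1 + win n ^ 2) / (1 - win n ^ 2) ^ 2) * (1 + ∑ i, α i ^ 2) :=
      mul_le_mul_of_nonneg_right (by linarith) hS
    have h4 : (-κ) ^ 2 = κ ^ 2 := by ring
    rw [h4]
    linarith

end Pool.Agent.Helper84.AA
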