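import Mathlib

/-!
# AA-02: Newton identities, difference form (Mathlib only)

PROOF.  Newton's identity for a multiset `r` of `g` real numbers with elementary symmetric functions
`e_k` and power sums `p_k`: for `1 ≤ k`, `k e_k = ∑_{i<k} (-1)^(k-i+1) e_i p_{k-i}`
(`MvPolynomial.mul_esymm_eq_sum`/`MvPolynomial.psum_eq_mul_esymm_sub_sum` evaluated at the list of the
roots, with `σ = Fin g`), and `f.coeff (g - k) = (-1)^k e_k` for a monic split polynomial of degree
`g`, `k ≤ g` (Vieta: `Polynomial.coeff_eq_esymm_roots_of_card`).  So for `k ≤ g`: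
`p_k = - k f.coeff (g-k) - ∑_{0<i<k} f.coeff (g-i) p_{k-i}`.  Strong induction on `k ≤ n`
gives the equality of the power sums, and for `k = n + 1` only the first term differs.
(`k = 0`: both sums are `g`.)
-/

open Polynomial

namespace Pool.Agent.Helper84.AA

private lemma newton_list (l : List ℝ) (k : ℕ) (hk : 0 < k) :
    ((l : Multiset ℝ).map (· ^ k)).sum = (-1) ^ (k + 1) * k * (l : Multiset ℝ).esymm k -
      ∑ a ∈ Finset.HasAntidiagonal.antidiagonal k with a.1 ∈ Set.Ioo 0 k,
        (-1) ^ a.1 * (l : Multiset ℝ).esymm a.1 * ((l : Multiset ℝ).map (· ^ a.2)).sum := by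
  classical
  have hx : (Finset.univ : Finset (Fin l.length)).val.map l.get = (l : Multiset ℝ) := by
    rw [Fin.univ_val_map, List.ofFn_get]
  have hp : ∀ j : ℕ, MvPolynomial.aeval l.get (MvPolynomial.psum (Fin l.length) ℝ j) =
      ((l : Multiset ℝ).map (· ^ j)).sum := by
    intro j
    rw [← hx, Multiset.map_map]
    simp only [MvPolynomial.psum, map_sum, map_pow, MvPolynomial.aeval_X]
    rfl
  have he : ∀ j : ℕ, MvPolynomial.aeval l.get (MvPolynomial.esymm (Fin l.length) ℝ j) =
      (l : Multiset ℝ).esymm j := by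
    intro j
    rw [MvPolynomial.aeval_esymm_eq_multiset_esymm, hx]
  have h := congrArg (MvPolynomial.aeval l.get)
    (MvPolynomial.psum_eq_mul_esymm_sub_sum (Fin l.length) ℝ k hk)
  rw [hp, map_sub, map_mul, map_mul, he, map_sum, map_pow, map_neg, map_one, map_natCast] at h
  rw [h]
  congr 1
  refine Finset.sum_congr rfl fun a _ => ?_
  rw [map_mul, map_mul, he, hp, map_pow, map_neg, map_one]

private lemma newton_ms (s : Multiset ℝ) (k : ℕ) (hk : 0 < k) :
    (s.map (· ^ k)).sum = (-1) ^ (k + 1) * k * s.esymm k -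
      ∑ a ∈ Finset.HasAntidiagonal.antidiagonal k with a.1 ∈ Set.Ioo 0 k,
        (-1) ^ a.1 * s.esymm a.1 * (s.map (· ^ a.2)).sum := by
  induction s using Quotient.inductionOn with
  | _ l => exact newton_list l k hk

private lemma coeff_esymm {g : ℕ} {f : ℝ[X]} (hf : f.Monic) (hd : f.natDegree = g)
    (hs : f.Splits) {k : ℕ} (hk : k ≤ g) : (-1) ^ k * f.roots.esymm k = f.coeff (g - k) := by
  have h := Polynomial.coeff_eq_esymm_roots_of_card (p := f) hs.natDegree_eq_card_roots.symm
    (k := g - k) (by omega)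
  rw [h, hf.leadingCoeff, hd, one_mul, Nat.sub_sub_self hk]

private lemma newton_poly {g : ℕ} {f : ℝ[X]} (hf : f.Monic) (hd : f.natDegree = g)
    (hs : f.Splits) {k : ℕ} (hk0 : 0 < k) (hk : k ≤ g) :
    (f.roots.map (· ^ k)).sum = -(k : ℝ) * f.coeff (g - k) -
      ∑ a ∈ Finset.HasAntidiagonal.antidiagonal k with a.1 ∈ Set.Ioo 0 k,
        f.coeff (g - a.1) * (f.roots.map (· ^ a.2)).sum := by
  rw [newton_ms _ k hk0]
  congr 1
  · rw [← coeff_esymm hf hd hs hk, pow_succ]
    ring
  · refine Finset.sum_congr rfl fun a ha => ?_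
    have h1 := (Finset.mem_filter.1 ha).2
    rw [coeff_esymm hf hd hs (h1.2.le.trans hk)]

theorem newton_diff {g n : ℕ} (hn : n + 1 ≤ g) {f f' : ℝ[X]} (hf : f.Monic) (hf' : f'.Monic)
    (hd : f.natDegree = g) (hd' : f'.natDegree = g) (hs : f.Splits) (hs' : f'.Splits)
    (hc : ∀ j ≤ n, f.coeff (g - j) = f'.coeff (g - j)) :
    (∀ k ≤ n, (f.roots.map (· ^ k)).sum = (f'.roots.map (· ^ k)).sum) ∧
      (f.roots.map (· ^ (n + 1))).sum - (f'.roots.map (· ^ (n + 1))).sum =
        -((n : ℝ) + 1) * (f.coeff (g - (n + 1)) - f'.coeff (g - (n + 1))) := by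
  have hpow : ∀ k ≤ n, (f.roots.map (· ^ k)).sum = (f'.roots.map (· ^ k)).sum := by
    intro k
    induction k using Nat.strong_induction_on with
    | _ k ih =>
      intro hkn
      rcases Nat.eq_zero_or_pos k with rfl | hk0
      · simp only [pow_zero, Multiset.map_const', Multiset.sum_replicate, nsmul_eq_mul,
          mul_one]
        rw [← hs.natDegree_eq_card_roots, ← hs'.natDegree_eq_card_roots, hd, hd']
      · rw [newton_poly hf hd hs hk0 (by omega), newton_poly hf' hd' hs' hk0 (by omega), hc k hkn]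
        congr 1
        refine Finset.sum_congr rfl fun a ha => ?_
        have h1 := Finset.mem_filter.1 ha
        have h2 := Finset.HasAntidiagonal.mem_antidiagonal.1 h1.1
        have h3 : 0 < a.1 := h1.2.1
        have h4 : a.1 < k := h1.2.2
        rw [hc a.1 (by omega), ih a.2 (by omega) (by omega)]
  refine ⟨hpow, ?_⟩
  rw [newton_poly hf hd hs (Nat.succ_pos n) hn, newton_poly hf' hd' hs' (Nat.succ_pos n) hn]
  have h : ∑ a ∈ Finset.HasAntidiagonal.antidiagonal (n + 1) with a.1 ∈ Set.Ioo 0 (n + 1),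
        f.coeff (g - a.1) * (f.roots.map (· ^ a.2)).sum =
      ∑ a ∈ Finset.HasAntidiagonal.antidiagonal (n + 1) with a.1 ∈ Set.Ioo 0 (n + 1),
        f'.coeff (g - a.1) * (f'.roots.map (· ^ a.2)).sum := by
    refine Finset.sum_congr rfl fun a ha => ?_
    have h1 := Finset.mem_filter.1 ha
    have h2 := Finset.HasAntidiagonal.mem_antidiagonal.1 h1.1
    have h3 : 0 < a.1 := h1.2.1
    have h4 : a.1 < n + 1 := h1.2.2
    rw [hc a.1 (by omega), hpow a.2 (by omega)]
  rw [h]
  push_cast
  ring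

end Pool.Agent.Helper84.AA
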