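import Pool.Agent.Helper84.AA.Fin
import Pool.Agent.Helper19.Sign.ArithCore

/-!
# AA-30: nice irreducible trace polynomials have no relations (helper19)

`l` prime, `h` separable mod `l`, `v_l(Res(h, X^2 - 4q)) = 1`, `h` irreducible of degree `g ≥ 2`.
`frob q h` is `weil (q : ℤ) h` of Helper19.Sign.
-/

open Polynomial

namespace Pool.Agent.Helper84.AA

open Helper19.Sign (qw weil weil_monic arith_core qw_root_ne_zero)
open Helper19.Disc (roots mem_roots')

theorem frob_eq (q : ℕ) (h : ℤ[X]) : frob q h = weil (q : ℤ) h := rfl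

theorem good_of_nice {q g : ℕ} (hq : 1 ≤ q) (hg : 2 ≤ g) {h : ℤ[X]} (hh : IsTrace q g h)
    (hirr : Irreducible h) (hn : Nice q h) : Good q h := by
  classical
  obtain ⟨hm, hd, -⟩ := hh
  obtain ⟨l, hl, hsep, hval⟩ := hn
  have hirrQ : Irreducible (h.map (Int.castRingHom ℚ)) := by
    have := (hm.irreducible_iff_irreducible_map_fraction_map (K := ℚ)).1 hirr
    exact this
  have hodd : Odd (padicValInt l (h.resultant (X ^ 2 - C (4 * (q : ℤ))))) := by
    rw [hval]; exact odd_one
  obtain ⟨h1, h2⟩ := arith_core h hm hirrQ (by omega) (q : ℤ) (by omega) l hl hsep hodd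
  have hfm : (frob q h).Monic := (weil_monic (q : ℤ) h hm).1
  have hirrF : Irreducible (frob q h) :=
    (hfm.irreducible_iff_irreducible_map_fraction_map (K := ℚ)).2 h1
  refine ⟨hirrF, ?_⟩
  intro n N r hN hrel
  set P : ℚ[X] := qw (q : ℤ) h with hP
  have hsC : (P.map (algebraMap ℚ ℂ)).Splits := IsAlgClosed.splits _
  let L : IntermediateField ℚ ℂ := IntermediateField.adjoin ℚ (P.rootSet ℂ)
  have hL : P.IsSplittingField ℚ L := IntermediateField.adjoin_rootSet_isSplittingField hsC
  have : FiniteDimensional ℚ L := IsSplittingField.finiteDimensional L P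
  have : NumberField L := { }
  have hsepP : P.Separable := h1.separable
  have : IsGalois ℚ L := IsGalois.of_separable_splitting_field hsepP
  have hsL : (P.map (algebraMap ℚ L)).Splits := IsSplittingField.splits L P
  have hmapC : (frob q h).map (Int.castRingHom ℂ) = (P.map (algebraMap ℚ L)).map
      (algebraMap L ℂ) := by
    rw [Polynomial.map_map, hP, qw, Polynomial.map_map, frob_eq]
    congr 1
  have hroots : ((frob q h).map (Int.castRingHom ℂ)).roots.toFinset =
      (roots P L).image (algebraMap L ℂ) := by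
    rw [hmapC, hsL.roots_map]
    ext z
    rw [Multiset.mem_toFinset, Multiset.mem_map, Finset.mem_image]
    constructor
    · rintro ⟨b, hb, rfl⟩
      refine ⟨b, ?_, rfl⟩
      rw [mem_roots' h1.ne_zero]
      rw [mem_roots (Polynomial.map_ne_zero h1.ne_zero), IsRoot.def, eval_map_algebraMap] at hb
      exact hb
    · rintro ⟨b, hb, rfl⟩
      refine ⟨b, ?_, rfl⟩
      rw [mem_roots' h1.ne_zero] at hb
      rw [mem_roots (Polynomial.map_ne_zero h1.ne_zero), IsRoot.def, eval_map_algebraMap]
      exact hb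
  rw [hroots] at hrel ⊢
  have hinj : Function.Injective (algebraMap L ℂ) := (algebraMap L ℂ).injective
  have hprod : ∏ z ∈ (roots P L).image (algebraMap L ℂ), z ^ n z =
      algebraMap L ℂ (∏ b ∈ roots P L, b ^ n (algebraMap L ℂ b)) := by
    rw [Finset.prod_image fun a _ b _ hab => hinj hab, map_prod]
    exact Finset.prod_congr rfl fun b _ => (map_zpow₀ (algebraMap L ℂ) b _).symm
  rw [hprod, ← map_pow] at hrel
  have h3 : (∏ b ∈ roots P L, b ^ n (algebraMap L ℂ b)) ^ N = algebraMap ℚ L r := by
    apply hinj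
    rw [hrel, ← IsScalarTower.algebraMap_apply ℚ L ℂ]
    rfl
  intro z hz
  obtain ⟨b, hb, rfl⟩ := Finset.mem_image.1 hz
  have h4 := h2 L hsL (fun b => n (algebraMap L ℂ b)) N r hN h3 b hb
  rw [h4, map_div₀, map_intCast]
  norm_cast

end Pool.Agent.Helper84.AA
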