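import Mathlib

/-!
# AA-20: reciprocals of primes in a residue class between `g^5` and `1.003^g` (Mathlib only)

PROOF.  Let `θ = φ(m)⁻¹`, `Λ₁(n) = residueClass (1 : ZMod m) n` (Mathlib:
`ArithmeticFunction.vonMangoldt.LSeries_residueClass_lower_bound`: `∑' Λ₁(n) / n^x ≥ θ/(x-1) - C` for `1 < x ≤ 2`,
`summable_residueClass_non_primes_div`: the non primes contribute a bounded amount, uniformly in `x ≥ 1`).  So with
`f(x) = ∑'_{ℓ prime, ℓ ≡ 1} log ℓ / ℓ^x`: `f(x) ≥ θ/(x-1) - C'`.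
Upper bounds: Chebyshev `∑_{ℓ ≤ n} log ℓ ≤ n log 4` (`primorial_le_4_pow` or `Chebyshev.theta_le_log4_mul_x`).
By partial summation (or dyadic blocks: `∑_{2^i < ℓ ≤ 2^(i+1)} log ℓ / ℓ ≤ 2^(i+1) log 4 / 2^i = 2 log 4`)
(a) `∑_{ℓ ≤ z} log ℓ/ℓ ≤ 3 log z + 3` hence `≤ 4 log z + 4`,
(b) for `x = 1 + 1/L`, `L ≥ 1`: `∑_{ℓ > 2^a} log ℓ/ℓ^x ≤ ∑_{i ≥ a} 2 log 4 * 2^(-i/L) ≤ 2 log 4 * 2^(-a/L) * (1 + 2L)` or similar.
So for `1 ≤ L`: choose `a = ⌈c₁ L⌉` with `c₁ = c₁(m)` so large that (b) is `≤ θ L/4`; then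
`∑_{z < ℓ ≤ 2^a} log ℓ/ℓ ≥ θ L - C' - 4 log z - 4 - θ L/4 ≥ θ L/4` if `log z ≤ c₂ L` and `L ≥ C''`, and dividing by
`log ℓ ≤ a log 2 ≤ C₃ L`: `∑_{z < ℓ ≤ 2^a} 1/ℓ ≥ θ/(4 C₃) =: κ > 0`.
Hence: there is `R = R(m) > 1` with: for all `z ≥ z₀(m)`: the sum of `1/ℓ` over the primes `ℓ ≡ 1 mod m` with
`z < ℓ ≤ z^R` is at least `κ` (take `L = log z / c₂`).  Iterate over the disjoint intervals `(z^(R^i), z^(R^(i+1))]`,
`i < B'`, `B' = ⌈B/κ⌉`, starting at `z = g^5`: the last endpoint `g^(5 R^B')` is `≤ 1.003^g` for large `g`.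
(Real exponents: use floors or take `R` an integer.)
-/

namespace Pool.Agent.Helper84.AA

open ArithmeticFunction ArithmeticFunction.vonMangoldt Complex LSeries DirichletCharacter

namespace PrimeSumAux

lemma two_sided (m : ℕ) [NeZero m] : ∃ C : ℝ, 0 ≤ C ∧ ∀ x ∈ Set.Ioc (1 : ℝ) 2,
    (m.totient : ℝ)⁻¹ / (x - 1) - C ≤ ∑' n, residueClass (1 : ZMod m) n / (n : ℝ) ^ x ∧
    ∑' n, residueClass (1 : ZMod m) n / (n : ℝ) ^ x ≤ (m.totient : ℝ)⁻¹ / (x - 1) + C := by
  have ha : IsUnit (1 : ZMod m) := isUnit_one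
  have H {x : ℝ} (hx : 1 < x) :
      ∑' n, residueClass (1 : ZMod m) n / (n : ℝ) ^ x =
        (LFunctionResidueClassAux (1 : ZMod m) x).re + (m.totient : ℝ)⁻¹ / (x - 1) := by
    refine ofReal_injective ?_
    simp only [ofReal_tsum, ofReal_div, ofReal_cpow (Nat.cast_nonneg _), ofReal_natCast,
      ofReal_add, ofReal_inv, ofReal_sub, ofReal_one]
    simp_rw [← LFunctionResidueClassAux_real ha hx,
      eqOn_LFunctionResidueClassAux ha <| Set.mem_ofPred.mpr (ofReal_re x ▸ hx), sub_add_cancel,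
      LSeries, term]
    refine tsum_congr fun n ↦ ?_
    split_ifs with hn
    · simp only [hn, residueClass_apply_zero, ofReal_zero, zero_div]
    · rfl
  have hc : ContinuousOn (fun x : ℝ ↦ (LFunctionResidueClassAux (1 : ZMod m) x).re)
      (Set.Icc 1 2) :=
    continuous_re.continuousOn.comp (t := Set.univ)
      (continuousOn_LFunctionResidueClassAux (1 : ZMod m))
      (fun ⦃x⦄ a ↦ trivial) |>.comp continuous_ofReal.continuousOn fun x hx ↦ by
        simpa only [Set.mem_ofPred_eq, ofReal_re] using hx.1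
  obtain ⟨C, hC⟩ := isCompact_Icc.exists_bound_of_continuousOn hc
  refine ⟨|C|, abs_nonneg C, fun x hx ↦ ?_⟩
  have h1 := hC x (Set.mem_Icc_of_Ioc hx)
  rw [Real.norm_eq_abs] at h1
  have h2 := abs_le.mp (h1.trans (le_abs_self C))
  rw [H hx.1]
  constructor <;> linarith [h2.1, h2.2]

lemma summ (m : ℕ) {x : ℝ} (hx : 1 < x) :
    Summable fun n : ℕ ↦ residueClass (1 : ZMod m) n / (n : ℝ) ^ x :=
  summable_real_of_abscissaOfAbsConv_lt <|
    (abscissaOfAbsConv_residueClass_le_one (1 : ZMod m)).trans_lt <| mod_cast hx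

/-- Mertens type upper bound. -/
lemma upper (m : ℕ) [NeZero m] {C : ℝ} (hC : ∀ x ∈ Set.Ioc (1 : ℝ) 2,
    ∑' n, residueClass (1 : ZMod m) n / (n : ℝ) ^ x ≤ (m.totient : ℝ)⁻¹ / (x - 1) + C)
    (N : ℕ) (hN : 1 ≤ Real.log N) :
    ∑ n ∈ Finset.Icc 1 N, residueClass (1 : ZMod m) n / (n : ℝ) ≤
      3 * ((m.totient : ℝ)⁻¹ * Real.log N + C) := by
  set L := Real.log N with hL
  have hL0 : 0 < L := by linarith
  have hNpos : (0 : ℝ) < N := by
    rcases Nat.eq_zero_or_pos N with h | h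
    · subst h; simp at hL; linarith
    · exact_mod_cast h
  have hx : 1 + 1 / L ∈ Set.Ioc (1 : ℝ) 2 := by
    constructor
    · have : 0 < 1 / L := by positivity
      linarith
    · have : 1 / L ≤ 1 := by
        rw [div_le_one hL0]; exact hN
      linarith
  have h1 := hC _ hx
  have h2 : (m.totient : ℝ)⁻¹ / (1 + 1 / L - 1) = (m.totient : ℝ)⁻¹ * L := by
    field_simp
    simp
  rw [h2] at h1
  have h3 : ∑ n ∈ Finset.Icc 1 N, residueClass (1 : ZMod m) n / (n : ℝ) ≤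
      ∑ n ∈ Finset.Icc 1 N, 3 * (residueClass (1 : ZMod m) n / (n : ℝ) ^ (1 + 1 / L)) := by
    apply Finset.sum_le_sum
    intro n hn
    rw [Finset.mem_Icc] at hn
    have hn0 : (0 : ℝ) < n := by exact_mod_cast hn.1
    have hnN : (n : ℝ) ≤ N := by exact_mod_cast hn.2
    have hw := residueClass_nonneg (1 : ZMod m) n
    rw [Real.rpow_add hn0, Real.rpow_one]
    have h4 : (n : ℝ) ^ (1 / L) ≤ 3 := by
      calc (n : ℝ) ^ (1 / L) ≤ (N : ℝ) ^ (1 / L) :=
            Real.rpow_le_rpow hn0.le hnN (by positivity)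
        _ = Real.exp 1 := by
            rw [Real.rpow_def_of_pos hNpos, ← hL]
            congr 1
            field_simp
        _ ≤ 3 := Real.exp_one_lt_three.le
    have h5 : 0 < (n : ℝ) ^ (1 / L) := Real.rpow_pos_of_pos hn0 _
    rw [← mul_div_assoc, div_le_div_iff₀ hn0 (by positivity)]
    have h6 : residueClass (1 : ZMod m) n * (n * (n : ℝ) ^ (1 / L)) ≤
        residueClass (1 : ZMod m) n * (n * 3) := by
      gcongr
    linarith
  have h7 : ∑ n ∈ Finset.Icc 1 N, (residueClass (1 : ZMod m) n / (n : ℝ) ^ (1 + 1 / L)) ≤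
      ∑' n, residueClass (1 : ZMod m) n / (n : ℝ) ^ (1 + 1 / L) :=
    (summ m hx.1).sum_le_tsum _ fun n _ ↦ by
      have := residueClass_nonneg (1 : ZMod m) n
      positivity
  rw [← Finset.mul_sum] at h3
  linarith

/-- Mertens type lower bound. -/
lemma lower (m : ℕ) [NeZero m] {C : ℝ} (hC0 : 0 ≤ C) (hC : ∀ x ∈ Set.Ioc (1 : ℝ) 2,
    (m.totient : ℝ)⁻¹ / (x - 1) - C ≤ ∑' n, residueClass (1 : ZMod m) n / (n : ℝ) ^ x ∧
    ∑' n, residueClass (1 : ZMod m) n / (n : ℝ) ^ x ≤ (m.totient : ℝ)⁻¹ / (x - 1) + C)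
    (N : ℕ) (hN : 4 ≤ Real.log N) :
    (m.totient : ℝ)⁻¹ * Real.log N / 8 - 2 * C ≤
    ∑ n ∈ Finset.Icc 1 N, residueClass (1 : ZMod m) n / (n : ℝ) := by
  obtain ⟨L, hL⟩ : ∃ L, Real.log N = 4 * L := ⟨Real.log N / 4, by ring⟩
  have hL1 : 1 ≤ L := by linarith
  have hL0 : 0 < L := by linarith
  have hNpos : (0 : ℝ) < N := by
    rcases Nat.eq_zero_or_pos N with h | h
    · subst h; simp at hL; linarith
    · exact_mod_cast h
  have hx : 1 + 1 / L ∈ Set.Ioc (1 : ℝ) 2 := by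
    constructor
    · have : 0 < 1 / L := by positivity
      linarith
    · have : 1 / L ≤ 1 := by
        rw [div_le_one hL0]; exact hL1
      linarith
  have hx' : 1 + 1 / (2 * L) ∈ Set.Ioc (1 : ℝ) 2 := by
    constructor
    · have : 0 < 1 / (2 * L) := by positivity
      linarith
    · have : 1 / (2 * L) ≤ 1 := by
        rw [div_le_one (by positivity)]; linarith
      linarith
  have h1 := (hC _ hx).1
  have h2 : (m.totient : ℝ)⁻¹ / (1 + 1 / L - 1) = (m.totient : ℝ)⁻¹ * L := by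
    field_simp
    simp
  rw [h2] at h1
  have h1' := (hC _ hx').2
  have h2' : (m.totient : ℝ)⁻¹ / (1 + 1 / (2 * L) - 1) = (m.totient : ℝ)⁻¹ * (2 * L) := by
    field_simp
    simp
  rw [h2'] at h1'
  set c : ℕ → ℝ := fun n ↦ if n ∈ Finset.Icc 1 N then residueClass (1 : ZMod m) n / (n : ℝ) else 0
    with hc
  have hcs : HasSum c (∑ n ∈ Finset.Icc 1 N, residueClass (1 : ZMod m) n / (n : ℝ)) := by
    have : HasSum c (∑ n ∈ Finset.Icc 1 N, c n) := hasSum_sum_of_ne_finset_zero (by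
      intro n hn
      simp only [hc, if_neg hn])
    convert this using 1
    apply Finset.sum_congr rfl
    intro n hn
    simp only [hc, if_pos hn]
  have h3 : ∀ n : ℕ, residueClass (1 : ZMod m) n / (n : ℝ) ^ (1 + 1 / L) ≤
      c n + 1 / 4 * (residueClass (1 : ZMod m) n / (n : ℝ) ^ (1 + 1 / (2 * L))) := by
    intro n
    have hw := residueClass_nonneg (1 : ZMod m) n
    rcases Nat.eq_zero_or_pos n with h0 | h0
    · subst h0
      simp [hc]
    have hn0 : (0 : ℝ) < n := by exact_mod_cast h0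
    have hn1 : (1 : ℝ) ≤ n := by exact_mod_cast h0
    by_cases hnN : n ≤ N
    · have h4 : c n = residueClass (1 : ZMod m) n / (n : ℝ) := by
        simp only [hc, Finset.mem_Icc]
        rw [if_pos ⟨h0, hnN⟩]
      rw [h4]
      have h5 : residueClass (1 : ZMod m) n / (n : ℝ) ^ (1 + 1 / L) ≤
          residueClass (1 : ZMod m) n / (n : ℝ) := by
        apply div_le_div_of_nonneg_left hw hn0
        calc (n : ℝ) = (n : ℝ) ^ (1 : ℝ) := (Real.rpow_one _).symm
          _ ≤ _ := Real.rpow_le_rpow_of_exponent_le hn1 hx.1.le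
      have h6 : 0 ≤ residueClass (1 : ZMod m) n / (n : ℝ) ^ (1 + 1 / (2 * L)) := by positivity
      linarith
    · push Not at hnN
      have h4 : c n = 0 := by
        simp only [hc, Finset.mem_Icc]
        rw [if_neg]
        intro h
        omega
      rw [h4, zero_add]
      have hnN' : (N : ℝ) ≤ n := by exact_mod_cast hnN.le
      have h5 : (1 : ℝ) + 1 / L = (1 + 1 / (2 * L)) + 1 / (2 * L) := by
        field_simp
        ring
      rw [h5, Real.rpow_add hn0]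
      have h7 : 4 ≤ (n : ℝ) ^ (1 / (2 * L)) := by
        calc (4 : ℝ) ≤ Real.exp 2 := by
              have : Real.exp 2 = Real.exp 1 * Real.exp 1 := by
                rw [← Real.exp_add]; norm_num
              rw [this]
              nlinarith [Real.add_one_le_exp (1 : ℝ)]
          _ = (N : ℝ) ^ (1 / (2 * L)) := by
              rw [Real.rpow_def_of_pos hNpos, hL]
              congr 1
              field_simp
              ring
          _ ≤ _ := Real.rpow_le_rpow hNpos.le hnN' (by positivity)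
      have h8 : 0 < (n : ℝ) ^ (1 + 1 / (2 * L)) := Real.rpow_pos_of_pos hn0 _
      have h9 : 0 ≤ residueClass (1 : ZMod m) n / (n : ℝ) ^ (1 + 1 / (2 * L)) := by positivity
      rw [← div_div, div_le_iff₀ (by positivity)]
      nlinarith
  have hs := summ m hx.1
  have hs' := summ m hx'.1
  have h4 : ∑' n, residueClass (1 : ZMod m) n / (n : ℝ) ^ (1 + 1 / L) ≤
      ∑' n, (c n + 1 / 4 * (residueClass (1 : ZMod m) n / (n : ℝ) ^ (1 + 1 / (2 * L)))) :=
    hs.tsum_le_tsum h3 (hcs.summable.add (hs'.mul_left _))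
  rw [(hcs.summable).tsum_add (hs'.mul_left _), hcs.tsum_eq, tsum_mul_left] at h4
  rw [hL]
  have hθ : 0 ≤ (m.totient : ℝ)⁻¹ := by positivity
  nlinarith [mul_nonneg hθ hL0.le]

lemma log_ge_of_ge {c : ℝ} {z : ℕ} (hz : ⌈Real.exp c⌉₊ ≤ z) : c ≤ Real.log z := by
  have h1 : Real.exp c ≤ z := (Nat.le_ceil _).trans (by exact_mod_cast hz)
  have h0 : (0 : ℝ) < z := (Real.exp_pos c).trans_le h1
  rw [Real.le_log_iff_exp_le h0]
  exact h1

/-- one window -/
lemma window (m : ℕ) [NeZero m] : ∃ κ : ℝ, 0 < κ ∧ ∃ Z : ℕ, ∀ z ≥ Z,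
    κ ≤ ∑ l ∈ (Finset.Ioc z (z ^ 32)).filter (fun l => l.Prime ∧ l % m = 1 % m),
      (1 : ℝ) / l := by
  obtain ⟨C, hC0, hC⟩ := two_sided m
  have hsn := summable_residueClass_non_primes_div (1 : ZMod m)
  set D := ∑' n : ℕ, (if n.Prime then 0 else residueClass (1 : ZMod m) n) / (n : ℝ) with hD
  set θ := (m.totient : ℝ)⁻¹ with hθ
  have hθ0 : 0 < θ := by
    rw [hθ]
    have : 0 < m.totient := Nat.totient_pos.mpr (NeZero.pos m)
    positivity
  have hDnn : 0 ≤ D := by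
    apply tsum_nonneg
    intro n
    have := residueClass_nonneg (1 : ZMod m) n
    split_ifs <;> positivity
  refine ⟨θ / 64, by positivity, max ⌈Real.exp 1⌉₊ ⌈Real.exp (2 * (5 * C + D) / θ)⌉₊, ?_⟩
  intro z hz
  have hz1 : 1 ≤ Real.log z := log_ge_of_ge ((le_max_left _ _).trans hz)
  have hz2 : 2 * (5 * C + D) / θ ≤ Real.log z := log_ge_of_ge ((le_max_right _ _).trans hz)
  rw [div_le_iff₀ hθ0] at hz2
  have hz0 : 1 ≤ z := by
    rcases Nat.eq_zero_or_pos z with h | h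
    · subst h; simp at hz1; linarith
    · exact h
  have hlog : Real.log ((z ^ 32 : ℕ) : ℝ) = 32 * Real.log z := by
    push_cast
    rw [Real.log_pow]
    norm_num
  have hU := upper m (fun x hx ↦ (hC x hx).2) z hz1
  have hL := lower m hC0 hC (z ^ 32) (by rw [hlog]; linarith)
  rw [hlog] at hL
  have hle : z ≤ z ^ 32 := Nat.le_self_pow (by norm_num) z
  have hsplit : ∑ n ∈ Finset.Icc 1 (z ^ 32), residueClass (1 : ZMod m) n / (n : ℝ) =
      ∑ n ∈ Finset.Icc 1 z, residueClass (1 : ZMod m) n / (n : ℝ) +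
      ∑ n ∈ Finset.Ioc z (z ^ 32), residueClass (1 : ZMod m) n / (n : ℝ) := by
    rw [← Finset.sum_union]
    · congr 1
      ext n
      simp only [Finset.mem_union, Finset.mem_Icc, Finset.mem_Ioc]
      omega
    · rw [Finset.disjoint_left]
      intro n h1 h2
      rw [Finset.mem_Icc] at h1
      rw [Finset.mem_Ioc] at h2
      omega
  have hpt : ∀ n ∈ Finset.Ioc z (z ^ 32), residueClass (1 : ZMod m) n / (n : ℝ) ≤
      (if n.Prime then 0 else residueClass (1 : ZMod m) n) / (n : ℝ) +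
      (if n.Prime ∧ n % m = 1 % m then (32 * Real.log z) * (1 / (n : ℝ)) else 0) := by
    intro n hn
    rw [Finset.mem_Ioc] at hn
    have hn0 : 0 < n := by omega
    have hnR : (0 : ℝ) < n := by exact_mod_cast hn0
    by_cases hp : n.Prime
    · rw [if_pos hp, zero_div, zero_add]
      by_cases hm : n % m = 1 % m
      · rw [if_pos ⟨hp, hm⟩]
        have h1 : residueClass (1 : ZMod m) n ≤ 32 * Real.log z := by
          calc residueClass (1 : ZMod m) n ≤ vonMangoldt n := residueClass_le _ _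
            _ = Real.log n := vonMangoldt_apply_prime hp
            _ ≤ Real.log ((z ^ 32 : ℕ) : ℝ) := Real.log_le_log hnR (by exact_mod_cast hn.2)
            _ = 32 * Real.log z := hlog
        rw [div_eq_mul_one_div]
        gcongr
      · rw [if_neg (fun h ↦ hm h.2)]
        have h1 : residueClass (1 : ZMod m) n = 0 := by
          rw [residueClass, Set.indicator_of_notMem]
          intro h
          apply hm
          have h' : (n : ZMod m) = ((1 : ℕ) : ZMod m) := by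
            rw [Nat.cast_one]
            exact h
          exact (ZMod.natCast_eq_natCast_iff' _ _ _).mp h'
        rw [h1, zero_div]
    · rw [if_neg hp, if_neg (fun h ↦ hp h.1), add_zero]
  have hsum := Finset.sum_le_sum hpt
  rw [Finset.sum_add_distrib] at hsum
  have hnp : ∑ n ∈ Finset.Ioc z (z ^ 32),
      (if n.Prime then 0 else residueClass (1 : ZMod m) n) / (n : ℝ) ≤ D :=
    hsn.sum_le_tsum _ fun n _ ↦ by
      have := residueClass_nonneg (1 : ZMod m) n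
      split_ifs <;> positivity
  rw [← Finset.sum_filter, ← Finset.mul_sum] at hsum
  set S := ∑ l ∈ (Finset.Ioc z (z ^ 32)).filter (fun l => l.Prime ∧ l % m = 1 % m),
      (1 : ℝ) / l with hS
  have hfin : θ * Real.log z / 2 ≤ 32 * Real.log z * S := by
    nlinarith
  have hlz : 0 < Real.log z := by linarith
  have h64 : θ / 64 * (32 * Real.log z) ≤ S * (32 * Real.log z) := by nlinarith
  exact le_of_mul_le_mul_right h64 (by positivity)

lemma windows (m : ℕ) [NeZero m] : ∃ κ : ℝ, 0 < κ ∧ ∃ Z : ℕ, ∀ k : ℕ, ∀ z ≥ Z,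
    k * κ ≤ ∑ l ∈ (Finset.Ioc z (z ^ (32 ^ k))).filter (fun l => l.Prime ∧ l % m = 1 % m),
      (1 : ℝ) / l := by
  obtain ⟨κ, hκ, Z, hZ⟩ := window m
  refine ⟨κ, hκ, max Z 1, fun k ↦ ?_⟩
  intro z hz
  have hz1 : 1 ≤ z := (le_max_right _ _).trans hz
  have hz2 : Z ≤ z := (le_max_left _ _).trans hz
  induction k with
  | zero =>
    simp
  | succ k ih =>
    have hle1 : z ≤ z ^ (32 ^ k) := Nat.le_self_pow (by positivity) z
    have hle2 : z ^ (32 ^ k) ≤ z ^ (32 ^ (k + 1)) :=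
      Nat.pow_le_pow_right hz1 (Nat.pow_le_pow_right (by norm_num) (Nat.le_succ k))
    have h1 := hZ (z ^ (32 ^ k)) (hz2.trans hle1)
    have h2 : (z ^ (32 ^ k)) ^ 32 = z ^ (32 ^ (k + 1)) := by
      rw [← pow_mul, pow_succ]
    rw [h2] at h1
    have hsplit : (Finset.Ioc z (z ^ (32 ^ (k + 1)))).filter
        (fun l => l.Prime ∧ l % m = 1 % m) =
        (Finset.Ioc z (z ^ (32 ^ k))).filter (fun l => l.Prime ∧ l % m = 1 % m) ∪
        (Finset.Ioc (z ^ (32 ^ k)) (z ^ (32 ^ (k + 1)))).filter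
          (fun l => l.Prime ∧ l % m = 1 % m) := by
      rw [← Finset.filter_union, Finset.Ioc_union_Ioc_eq_Ioc hle1 hle2]
    have hdisj : Disjoint
        ((Finset.Ioc z (z ^ (32 ^ k))).filter (fun l => l.Prime ∧ l % m = 1 % m))
        ((Finset.Ioc (z ^ (32 ^ k)) (z ^ (32 ^ (k + 1)))).filter
          (fun l => l.Prime ∧ l % m = 1 % m)) := by
      rw [Finset.disjoint_left]
      intro n h1 h2
      rw [Finset.mem_filter, Finset.mem_Ioc] at h1 h2
      omega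
    rw [hsplit, Finset.sum_union hdisj]
    push_cast
    linarith

end PrimeSumAux

theorem prime_sum (m : ℕ) (hm : 0 < m) (B : ℝ) : ∃ G : ℕ, ∀ g ≥ G,
    B ≤ ∑ l ∈ (Finset.Ioc (g ^ 5) ⌊(1003 / 1000 : ℝ) ^ g⌋₊).filter
      (fun l => l.Prime ∧ l % m = 1 % m), (1 : ℝ) / l := by
  have : NeZero m := ⟨hm.ne'⟩
  obtain ⟨κ, hκ, Z, hw⟩ := PrimeSumAux.windows m
  have hZ := hw ⌈B / κ⌉₊
  set K := 32 ^ ⌈B / κ⌉₊ with hK
  have hlim := tendsto_pow_const_div_const_pow_of_one_lt (5 * K)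
    (show (1 : ℝ) < 1003 / 1000 by norm_num)
  have hev := hlim.eventually (gt_mem_nhds (show (0 : ℝ) < 1 by norm_num))
  rw [Filter.eventually_atTop] at hev
  obtain ⟨G1, hG1⟩ := hev
  refine ⟨max G1 (max Z 1), ?_⟩
  intro g hg
  have hg1 : G1 ≤ g := (le_max_left _ _).trans hg
  have hg2 : Z ≤ g := (le_max_left _ _).trans ((le_max_right _ _).trans hg)
  have hg3 : 1 ≤ g := (le_max_right _ _).trans ((le_max_right _ _).trans hg)
  have h1 := hG1 g hg1
  rw [div_lt_one (by positivity)] at h1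
  have h2 : (g ^ 5) ^ K ≤ ⌊(1003 / 1000 : ℝ) ^ g⌋₊ := by
    apply Nat.le_floor
    rw [← pow_mul]
    push_cast
    exact h1.le
  have h3 : g ≤ g ^ 5 := Nat.le_self_pow (by norm_num) g
  have h4 := hZ (g ^ 5) (hg2.trans h3)
  have h5 : B ≤ (⌈B / κ⌉₊ : ℝ) * κ := by
    have := Nat.le_ceil (B / κ)
    rwa [div_le_iff₀ hκ] at this
  refine h5.trans (h4.trans ?_)
  apply Finset.sum_le_sum_of_subset_of_nonneg
  · apply Finset.filter_subset_filter
    exact Finset.Ioc_subset_Ioc le_rfl h2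
  · intro i _ _
    positivity

/-- Quantitative version: the sum is at least a constant times `log g`. -/
theorem prime_sum_log (m : ℕ) (hm : 0 < m) : ∃ κ : ℝ, 0 < κ ∧ ∃ G : ℕ, ∀ g ≥ G,
    κ * Real.log g ≤ ∑ l ∈ (Finset.Ioc (g ^ 5) ⌊(1003 / 1000 : ℝ) ^ g⌋₊).filter
      (fun l => l.Prime ∧ l % m = 1 % m), (1 : ℝ) / l := by
  have : NeZero m := ⟨hm.ne'⟩
  obtain ⟨κ, hκ, Z, hw⟩ := PrimeSumAux.windows m
  obtain ⟨c, hc⟩ : ∃ c, c = Real.log (1003 / 1000) := ⟨_, rfl⟩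
  have hc0 : 0 < c := by
    rw [hc]
    exact Real.log_pos (by norm_num)
  refine ⟨κ / 16, by positivity, max (max Z 1) (max ⌈Real.exp 16⌉₊ ⌈(20 / c) ^ 4⌉₊), ?_⟩
  intro g hg
  have hg0 := (le_max_left _ _).trans hg
  have hg00 := (le_max_right _ _).trans hg
  have hgZ : Z ≤ g := (le_max_left _ _).trans hg0
  have hg1 : 1 ≤ g := (le_max_right _ _).trans hg0
  have hgl : 16 ≤ Real.log g := PrimeSumAux.log_ge_of_ge ((le_max_left _ _).trans hg00)
  have hgc : (20 / c) ^ 4 ≤ (g : ℝ) :=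
    (Nat.le_ceil _).trans (by exact_mod_cast (le_max_right _ _).trans hg00)
  have hgR : (0 : ℝ) < g := by exact_mod_cast hg1
  obtain ⟨L, hL⟩ : ∃ L, L = Real.log g := ⟨_, rfl⟩
  rw [← hL] at hgl
  obtain ⟨k, hk⟩ : ∃ k, k = ⌊L / 8⌋₊ := ⟨_, rfl⟩
  have hk1 : (k : ℝ) ≤ L / 8 := by
    rw [hk]
    exact Nat.floor_le (by linarith)
  have hk2 : L / 8 - 1 < k := by
    rw [hk]
    exact Nat.sub_one_lt_floor _
  have h32 : (32 : ℝ) ≤ Real.exp 4 := by
    have h1 : Real.exp 4 = (Real.exp 1) ^ 4 := by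
      rw [← Real.exp_nat_mul]
      norm_num
    have h2 := Real.exp_one_gt_d9
    rw [h1]
    calc (32 : ℝ) ≤ 2.5 ^ 4 := by norm_num
      _ ≤ (Real.exp 1) ^ 4 := by gcongr; linarith
  have hpow : ((32 : ℝ) ^ k) ≤ (g : ℝ) ^ (1 / 2 : ℝ) := by
    calc ((32 : ℝ) ^ k) ≤ (Real.exp 4) ^ k := by gcongr
      _ = Real.exp (k * 4) := (Real.exp_nat_mul _ _).symm
      _ ≤ Real.exp (L * (1 / 2)) := by
          apply Real.exp_le_exp.mpr
          linarith
      _ = (g : ℝ) ^ (1 / 2 : ℝ) := by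
          rw [Real.rpow_def_of_pos hgR, hL]
  have hlog4 : L ≤ 4 * (g : ℝ) ^ (1 / 4 : ℝ) := by
    have h1 := Real.log_le_rpow_div hgR.le (show (0 : ℝ) < 1 / 4 by norm_num)
    rw [hL]
    linarith
  have hq : 20 / c ≤ (g : ℝ) ^ (1 / 4 : ℝ) := by
    have h1 : ((20 / c) ^ 4) ^ (1 / 4 : ℝ) ≤ (g : ℝ) ^ (1 / 4 : ℝ) :=
      Real.rpow_le_rpow (by positivity) hgc (by norm_num)
    have h2 : ((20 / c) ^ 4) ^ (1 / 4 : ℝ) = 20 / c := by
      rw [← Real.rpow_natCast, ← Real.rpow_mul (by positivity)]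
      norm_num
    rwa [h2] at h1
  have hprod : (g : ℝ) = (g : ℝ) ^ (1 / 2 : ℝ) * (g : ℝ) ^ (1 / 4 : ℝ) * (g : ℝ) ^ (1 / 4 : ℝ) := by
    rw [← Real.rpow_add hgR, ← Real.rpow_add hgR]
    norm_num
  have hmain : 5 * (32 : ℝ) ^ k * L ≤ g * c := by
    have hq' : 20 ≤ (g : ℝ) ^ (1 / 4 : ℝ) * c := by rwa [div_le_iff₀ hc0] at hq
    calc 5 * (32 : ℝ) ^ k * L ≤ 5 * (g : ℝ) ^ (1 / 2 : ℝ) * (4 * (g : ℝ) ^ (1 / 4 : ℝ)) := by
          gcongr
      _ = (g : ℝ) ^ (1 / 2 : ℝ) * (g : ℝ) ^ (1 / 4 : ℝ) * 20 := by ring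
      _ ≤ (g : ℝ) ^ (1 / 2 : ℝ) * (g : ℝ) ^ (1 / 4 : ℝ) * ((g : ℝ) ^ (1 / 4 : ℝ) * c) := by
          gcongr
      _ = g * c := by
          conv_rhs => rw [hprod]
          rw [mul_assoc, mul_assoc, mul_assoc]
  have hle : (g ^ 5) ^ (32 ^ k) ≤ ⌊(1003 / 1000 : ℝ) ^ g⌋₊ := by
    apply Nat.le_floor
    rw [← pow_mul]
    push_cast
    have h1 : (g : ℝ) ^ (5 * 32 ^ k) = Real.exp (5 * (32 : ℝ) ^ k * L) := by
      conv_lhs => rw [← Real.exp_log hgR]
      rw [← Real.exp_nat_mul, hL]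
      push_cast
      rfl
    have h2 : (1003 / 1000 : ℝ) ^ g = Real.exp (g * c) := by
      conv_lhs => rw [← Real.exp_log (show (0 : ℝ) < 1003 / 1000 by norm_num)]
      rw [← Real.exp_nat_mul, hc]
    rw [h1, h2]
    exact Real.exp_le_exp.mpr hmain
  have h3 : g ≤ g ^ 5 := Nat.le_self_pow (by norm_num) g
  have h4 := hw k (g ^ 5) (hgZ.trans h3)
  rw [← hL]
  have h5 : κ / 16 * L ≤ k * κ := by nlinarith
  refine h5.trans (h4.trans ?_)
  apply Finset.sum_le_sum_of_subset_of_nonneg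
  · apply Finset.filter_subset_filter
    exact Finset.Ioc_subset_Ioc le_rfl hle
  · intro i _ _
    positivity

end Pool.Agent.Helper84.AA
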