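import Pool.Agent.Helper84.AA.Defs

/-!
# AA-05: a sum of values of `(1 - x^2)^k` in arithmetic progression

`∑_{m ∈ S} (1 - (m δ - b)^2)^k ≤ I_k / δ + 1`.

PROOF.  Let `φ(x) = (1 - x^2)^k` on `[-1, 1]`, `0 ≤ φ ≤ 1`, increasing on `[-1, 0]` and decreasing on
`[0, 1]`.  We may enlarge `S` to the set of all integers `m` with `|m δ - b| ≤ 1` (the terms are `≥ 0`),
an interval `{m₀, ..., m₁}` of integers (or empty; then the sum is `0`).  `x_m = m δ - b`.
For `m` with `x_{m-1} ≥ 0`, `x_m ≤ 1`: `δ φ(x_m) ≤ ∫_{x_{m-1}}^{x_m} φ`.  For `m` with `x_{m+1} ≤ 0`,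
`x_m ≥ -1`: `δ φ(x_m) ≤ ∫_{x_m}^{x_{m+1}} φ`.  At most two `m` remain: the smallest `m` with `x_m ≥ 0` and
the largest one with `x_m < 0`; if both are there, `x_- < 0 ≤ x_+ = x_- + δ`, and
`δ min(φ(x_-), φ(x_+)) ≤ ∫_{x_-}^{x_+} φ` (`φ ≥ min` on `[x_-, x_+]`), `max ≤ 1`.  If only
one is there: it is `≤ 1`.  The intervals are disjoint and contained in `[-1, 1]`.
A convenient way to organise it: prove by induction (or with `AntitoneOn.sum_le_integral` of Mathlib)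
that for `x ≥ 0` and `x + (N) δ ≤ 1`: `∑_{i=1}^{N} φ(x + i δ) ≤ (1/δ) ∫_x^{x+Nδ} φ`, use the symmetric
statement, and treat the two middle terms as above.
-/

namespace Pool.Agent.Helper84.AA

open MeasureTheory

private theorem card_le_aux {δ b t : ℝ} (hδ : 0 < δ) (ht : 0 ≤ t) (S : Finset ℤ)
    (hS : ∀ m ∈ S, |(m : ℝ) * δ - b| ≤ t) : (S.card : ℝ) ≤ 2 * t / δ + 1 := by
  rcases S.eq_empty_or_nonempty with h | h
  · rw [h, Finset.card_empty, Nat.cast_zero]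
    positivity
  · have h1 : S ⊆ Finset.Icc (S.min' h) (S.max' h) := fun m hm =>
      Finset.mem_Icc.2 ⟨S.min'_le m hm, S.le_max' m hm⟩
    have h2 := Finset.card_le_card h1
    rw [Int.card_Icc] at h2
    have h3 := (abs_le.1 (hS _ (S.min'_mem h))).1
    have h4 := (abs_le.1 (hS _ (S.max'_mem h))).2
    have h5 : S.min' h ≤ S.max' h := S.min'_le_max' h
    have h6 : (S.card : ℤ) ≤ S.max' h + 1 - S.min' h := by omega
    have h7 : (S.card : ℝ) ≤ S.max' h + 1 - S.min' h := by exact_mod_cast h6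
    have h8 : ((S.max' h : ℝ) - S.min' h) ≤ 2 * t / δ := by
      rw [le_div_iff₀ hδ]
      linarith
    linarith

private theorem anti_aux (k : ℕ) {u v : ℝ} (hu : 0 ≤ u) (huv : u ≤ v) (hv : v ≤ 1) :
    (1 - v ^ 2) ^ k ≤ (1 - u ^ 2) ^ k := by
  apply pow_le_pow_left₀
  · nlinarith
  · nlinarith

private theorem rearr_aux (k : ℕ) {δ b : ℝ} (hδ : 0 < δ) (N : ℕ) : ∀ S : Finset ℤ, S.card = N →
    (∀ m ∈ S, |(m : ℝ) * δ - b| ≤ 1) →
    ∑ m ∈ S, (1 - ((m : ℝ) * δ - b) ^ 2) ^ k ≤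
      ∑ i ∈ Finset.range N, (1 - ((i : ℝ) * (δ / 2)) ^ 2) ^ k := by
  induction N with
  | zero =>
    intro S hS _
    rw [Finset.card_eq_zero.1 hS]
    simp
  | succ N ih =>
    intro S hc hS
    have hne : S.Nonempty := by
      rw [← Finset.card_pos]
      omega
    obtain ⟨m₀, hm₀, hmax⟩ := Finset.exists_max_image S (fun m : ℤ => |(m : ℝ) * δ - b|) hne
    have h1 := card_le_aux hδ (abs_nonneg ((m₀ : ℝ) * δ - b)) S hmax
    rw [hc] at h1
    push_cast at h1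
    have h2 : (N : ℝ) * (δ / 2) ≤ |(m₀ : ℝ) * δ - b| := by
      have h3 : (N : ℝ) ≤ 2 * |(m₀ : ℝ) * δ - b| / δ := by linarith
      rw [le_div_iff₀ hδ] at h3
      linarith
    have h4 := anti_aux k (by positivity) h2 (hS m₀ hm₀)
    rw [sq_abs] at h4
    rw [← Finset.add_sum_erase S _ hm₀, Finset.sum_range_succ, add_comm]
    refine add_le_add (ih (S.erase m₀) ?_ ?_) h4
    · rw [Finset.card_erase_of_mem hm₀, hc]
      rfl
    · intro m hm
      exact hS m (Finset.mem_of_mem_erase hm)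

private theorem phi_int (k : ℕ) (a b : ℝ) :
    IntervalIntegrable (fun x : ℝ => (1 - x ^ 2) ^ k) volume a b :=
  (by fun_prop : Continuous fun x : ℝ => (1 - x ^ 2) ^ k).intervalIntegrable a b

private theorem riem_aux (k : ℕ) {δ : ℝ} (hδ : 0 < δ) (N : ℕ) : (N : ℝ) * δ ≤ 1 →
    ∑ i ∈ Finset.range N, (1 - (((i + 1 : ℕ) : ℝ) * δ) ^ 2) ^ k * δ ≤
      ∫ x in (0 : ℝ)..(N : ℝ) * δ, (1 - x ^ 2) ^ k := by
  induction N with
  | zero => intro _; simp
  | succ N ih =>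
    intro h
    have hlt : (N : ℝ) * δ ≤ ((N + 1 : ℕ) : ℝ) * δ := by
      push_cast
      nlinarith
    have h0 : 0 ≤ (N : ℝ) * δ := by positivity
    rw [Finset.sum_range_succ, ← intervalIntegral.integral_add_adjacent_intervals
      (phi_int k 0 ((N : ℝ) * δ)) (phi_int k _ _)]
    refine add_le_add (ih (hlt.trans h)) ?_
    have h1 : ∫ x in (N : ℝ) * δ..((N + 1 : ℕ) : ℝ) * δ,
        (1 - (((N + 1 : ℕ) : ℝ) * δ) ^ 2) ^ k ≤
        ∫ x in (N : ℝ) * δ..((N + 1 : ℕ) : ℝ) * δ, (1 - x ^ 2) ^ k := by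
      apply intervalIntegral.integral_mono_on hlt (by simp) (phi_int k _ _)
      intro x hx
      exact anti_aux k (h0.trans hx.1) hx.2 h
    rw [intervalIntegral.integral_const] at h1
    refine le_trans (le_of_eq ?_) h1
    rw [smul_eq_mul]
    push_cast
    ring

theorem sum_le_Ik (k : ℕ) (δ b : ℝ) (hδ : 0 < δ) (S : Finset ℤ)
    (hS : ∀ m ∈ S, |(m : ℝ) * δ - b| ≤ 1) :
    ∑ m ∈ S, (1 - ((m : ℝ) * δ - b) ^ 2) ^ k ≤ Ik k / δ + 1 := by
  have hI : Ik k = 2 * ∫ x in (0 : ℝ)..1, (1 - x ^ 2) ^ k := by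
    unfold Ik
    rw [← intervalIntegral.integral_add_adjacent_intervals (phi_int k (-1) 0) (phi_int k 0 1)]
    have h1 : ∫ x in (-1 : ℝ)..0, (1 - x ^ 2) ^ k = ∫ x in (0 : ℝ)..1, (1 - x ^ 2) ^ k := by
      have h2 := intervalIntegral.integral_comp_neg (a := (0 : ℝ)) (b := 1)
        (fun x : ℝ => (1 - x ^ 2) ^ k)
      simp only [neg_sq, neg_zero] at h2
      exact h2.symm
    rw [h1]
    ring
  have hnn : ∀ a : ℝ, 0 ≤ a → a ≤ 1 → ∫ x in (0 : ℝ)..a, (1 - x ^ 2) ^ k ≤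
      ∫ x in (0 : ℝ)..1, (1 - x ^ 2) ^ k := by
    intro a ha ha1
    rw [← intervalIntegral.integral_add_adjacent_intervals (phi_int k 0 a) (phi_int k a 1)]
    have h1 : 0 ≤ ∫ x in a..1, (1 - x ^ 2) ^ k := by
      apply intervalIntegral.integral_nonneg ha1
      intro x hx
      apply pow_nonneg
      nlinarith [hx.1, hx.2]
    linarith
  have h00 : 0 ≤ ∫ x in (0 : ℝ)..1, (1 - x ^ 2) ^ k := by
    have := hnn 0 le_rfl zero_le_one
    rwa [intervalIntegral.integral_same] at this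
  have h1 := rearr_aux k hδ S.card S rfl hS
  refine h1.trans ?_
  rcases Nat.eq_zero_or_pos S.card with h0 | hpos
  · rw [h0, Finset.range_zero, Finset.sum_empty, hI]
    positivity
  · obtain ⟨M, hM⟩ : ∃ M, S.card = M + 1 := ⟨S.card - 1, by omega⟩
    have hc := card_le_aux hδ zero_le_one S hS
    rw [hM] at hc
    push_cast at hc
    have hM1 : (M : ℝ) * (δ / 2) ≤ 1 := by
      have h3 : (M : ℝ) ≤ 2 * 1 / δ := by linarith
      rw [le_div_iff₀ hδ] at h3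
      linarith
    have h2 := (riem_aux k (half_pos hδ) M hM1).trans (hnn _ (by positivity) hM1)
    rw [← Finset.sum_mul] at h2
    rw [hM, Finset.sum_range_succ']
    have h4 : (1 - (((0 : ℕ) : ℝ) * (δ / 2)) ^ 2) ^ k = 1 := by
      rw [Nat.cast_zero, zero_mul, zero_pow two_ne_zero, sub_zero, one_pow]
    rw [h4, hI]
    have h5 : ∑ i ∈ Finset.range M, (1 - (((i + 1 : ℕ) : ℝ) * (δ / 2)) ^ 2) ^ k ≤
        2 * (∫ x in (0 : ℝ)..1, (1 - x ^ 2) ^ k) / δ := by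
      rw [le_div_iff₀ hδ]
      linarith
    linarith

end Pool.Agent.Helper84.AA
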