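import Pool.Agent.Helper84.AA.TrMom
import Pool.Agent.Helper84.AA.Lev
import Pool.Agent.Helper84.AA.Unimod
import Pool.Agent.Helper84.AA.Ik

/-!
# AA-07: the recursion for the weighted number of prefixes

`eP q g n u` is the prediction error `levE (pts q h) n` for any trace polynomial `h` with the prefix
`u` of length `n`; it depends only on `u` (`eP_eq`).

PROOFS.  `coeff_eq`: if `divX^[g-n] h = divX^[g-n] h'` then `h.coeff (g-j) = h'.coeff (g-j)` for `j ≤ n`
(`iter_coeff`).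
`eP_eq`: `ext` is a trace polynomial with the same prefix (`Function.invFunOn_mem`, `invFunOn_eq`), so the
moments of order `≤ n` agree (`mom_congr`; if `n = 0` or for `k = 0` use the cardinalities;
for `n = g` apply `mom_congr` with `n - 1` to get all orders `≤ n`: the last one from the second
statement), and `lev_congr` applies.
`fiber`: let `v ∈ preSet q g n`, `n + 1 ≤ g`, fix `h₀ = ext v`, `e = levE (pts q h₀) n = eP v`, `T₀ = levT (pts q h₀) n`,
`c = (n+1) / (2 √q^(n+1)) > 0`.  Any `u ∈ preSet q g (n+1)` with `divX u = v` comes from a trace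
polynomial `h` with prefix `v`, `m = u.coeff 0 = h.coeff (g-(n+1))`, and by `levT_sub`, `mom_congr`
`levT (pts q h) n = T₀ - c (m - m₀)` with `m₀ = h₀.coeff (g-(n+1))`; `|levT| ≤ e`; and by `levE_succ`
`eP u = e (1 - (levT/e)^2)`.
If `e > 0`: with `δ = c / e`, `b = (T₀ + c m₀)/e`: `levT / e = b - m δ`, so `|m δ - b| ≤ 1`,
`(eP u)^k = e^k (1 - (m δ - b)^2)^k`; `u ↦ m` is injective on the fiber (`u = X v + C m`), so by
`sum_le_Ik` the sum over the fiber is at most `e^k (Ik k * e / c + 1)`.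
If `e = 0`: `levT = 0` for all of them, so all `m` are equal: the fiber has at most one element, with
`eP u = 0`; `0^k ≤ e^k + ...` (both sides are `1` for `k = 0`).
`rec_step`: sum `fiber` over `v ∈ preSet q g n` (`Finset.sum_fiberwise_of_maps_to`, `divX_pre`).
`fiber_card`: `fiber` with `k = 0`, `e ≤ g` (`levE` is decreasing: `levE_succ`, `levE_zero`, `pts_card`).
`SS_zero_le`: `preSet q g 0 ⊆ {1}` (monic of degree `0`), `eP ≤ g`.
-/

open Polynomial

namespace Pool.Agent.Helper84.AA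

/-- A trace polynomial with the given prefix. -/
noncomputable def ext (q g n : ℕ) (u : ℤ[X]) : ℤ[X] :=
  Function.invFunOn (fun h : ℤ[X] => divX^[g - n] h) (traceSet q g) u

/-- The prediction error of a prefix. -/
noncomputable def eP (q g n : ℕ) (u : ℤ[X]) : ℝ := levE (pts q (ext q g n u)) n

/-- The weighted number of prefixes. -/
noncomputable def SS (q g n k : ℕ) : ℝ := ∑ u ∈ (preSet_finite q g n).toFinset, eP q g n u ^ k

private theorem ext_spec {q g n : ℕ} {u : ℤ[X]} (hu : u ∈ preSet q g n) :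
    IsTrace q g (ext q g n u) ∧ divX^[g - n] (ext q g n u) = u := by
  have h1 : ∃ h ∈ traceSet q g, (fun h : ℤ[X] => divX^[g - n] h) h = u := hu
  exact ⟨Function.invFunOn_mem h1, Function.invFunOn_eq h1⟩

private theorem coeff_eq {g n : ℕ} (hn : n ≤ g) {h h' : ℤ[X]}
    (he : divX^[g - n] h = divX^[g - n] h') : ∀ j ≤ n, h.coeff (g - j) = h'.coeff (g - j) := by
  intro j hj
  have h1 := congrArg (fun p : ℤ[X] => p.coeff (n - j)) he
  simp only [iter_coeff] at h1
  rwa [show n - j + (g - n) = g - j by omega] at h1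

private theorem mom_zero' (s : Multiset ℂ) : mom s 0 = s.card := by
  unfold mom
  simp

private theorem mom_eq {q g n : ℕ} (hq : 1 ≤ q) (hn : n ≤ g) {h h' : ℤ[X]} (hh : IsTrace q g h)
    (hh' : IsTrace q g h') (hc : ∀ j ≤ n, h.coeff (g - j) = h'.coeff (g - j)) :
    ∀ k ≤ n, mom (pts q h) k = mom (pts q h') k := by
  rcases n with _ | n
  · intro k hk
    rw [Nat.le_zero.1 hk, mom_zero', mom_zero', pts_card hh, pts_card hh']
  · have h1 := mom_congr (n := n) hq hn hh hh' (fun j hj => hc j (by omega))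
    intro k hk
    rcases Nat.lt_or_ge n k with h2 | h2
    · have h3 : k = n + 1 := by omega
      have h4 := h1.2
      rw [hc (n + 1) le_rfl, sub_self, mul_zero] at h4
      rw [h3]
      linarith
    · exact h1.1 k h2

theorem eP_eq {q g n : ℕ} (hq : 1 ≤ q) (hn : n ≤ g) {h : ℤ[X]} (hh : IsTrace q g h) :
    eP q g n (divX^[g - n] h) = levE (pts q h) n := by
  have hu : divX^[g - n] h ∈ preSet q g n := ⟨h, hh, rfl⟩
  obtain ⟨h1, h2⟩ := ext_spec hu
  exact (lev_congr (pts_norm hq h1) (pts_norm hq hh) (mom_eq hq hn h1 hh (coeff_eq hn h2))).2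

theorem eP_nonneg {q g n : ℕ} (u : ℤ[X]) : 0 ≤ eP q g n u := levE_nonneg _ _

private theorem levE_le {s : Multiset ℂ} (hs : ∀ z ∈ s, ‖z‖ = 1) (n : ℕ) :
    levE s n ≤ s.card := by
  induction n with
  | zero => rw [levE_zero]
  | succ n ih =>
    rw [levE_succ hs]
    refine le_trans ?_ ih
    have h1 := levE_nonneg s n
    have h2 := sq_nonneg (levT s n / levE s n)
    nlinarith

theorem eP_le {q g n : ℕ} (hq : 1 ≤ q) (hn : n ≤ g) {u : ℤ[X]} (hu : u ∈ preSet q g n) :
    eP q g n u ≤ g := by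
  have _ := hn
  obtain ⟨h1, _⟩ := ext_spec hu
  have h3 := levE_le (pts_norm hq h1) n
  rw [pts_card h1] at h3
  exact h3

theorem fiber {q g n : ℕ} (hq : 1 ≤ q) (hn : n + 1 ≤ g) {v : ℤ[X]} (hv : v ∈ preSet q g n)
    (k : ℕ) (F : Finset ℤ[X]) (hF : ∀ u ∈ F, u ∈ preSet q g (n + 1) ∧ divX u = v) :
    ∑ u ∈ F, eP q g (n + 1) u ^ k ≤
      2 * √q ^ (n + 1) / ((n : ℝ) + 1) * Ik k * eP q g n v ^ (k + 1) + eP q g n v ^ k := by
  classical
  obtain ⟨t0, hv0⟩ := ext_spec hv
  set h₀ := ext q g n v with hh₀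
  have hsq : 0 < √(q : ℝ) := Real.sqrt_pos.2 (by exact_mod_cast hq)
  set c : ℝ := ((n : ℝ) + 1) / (2 * √q ^ (n + 1)) with hc
  have hc0 : 0 < c := by rw [hc]; positivity
  have hcinv : 2 * √(q : ℝ) ^ (n + 1) / ((n : ℝ) + 1) = 1 / c := by
    rw [hc, one_div_div]
  set e : ℝ := eP q g n v with he
  have he0 : 0 ≤ e := eP_nonneg v
  set m₀ : ℝ := (h₀.coeff (g - (n + 1)) : ℝ) with hm₀
  set T₀ : ℝ := levT (pts q h₀) n with hT₀
  have key : ∀ u ∈ F, ∃ T : ℝ, T = T₀ - c * ((u.coeff 0 : ℝ) - m₀) ∧ |T| ≤ e ∧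
      eP q g (n + 1) u = e * (1 - (T / e) ^ 2) := by
    intro u hu
    obtain ⟨hu1, hu2⟩ := hF u hu
    obtain ⟨t1, hv1⟩ := ext_spec hu1
    set h := ext q g (n + 1) u with hh
    have hpre : divX^[g - n] h = divX^[g - n] h₀ := by
      rw [hv0, show g - n = (g - (n + 1)) + 1 by omega, Function.iterate_succ_apply', hv1, hu2]
    have hco := coeff_eq (by omega : n ≤ g) hpre
    have hm := mom_eq hq (by omega) t1 t0 hco
    have hm2 := (mom_congr hq hn t1 t0 hco).2
    have hE := (lev_congr (pts_norm hq t1) (pts_norm hq t0) hm).2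
    have hEe : levE (pts q h) n = e := hE
    have hT := levT_sub (pts_norm hq t1) (pts_norm hq t0) hm
    have hcoef : h.coeff (g - (n + 1)) = u.coeff 0 := by
      have h1 := iter_coeff h (g - (n + 1)) 0
      rw [hv1, zero_add] at h1
      exact h1.symm
    refine ⟨levT (pts q h) n, ?_, ?_, ?_⟩
    · rw [hm2, hcoef] at hT
      rw [hT₀]
      have : levT (pts q h) n = levT (pts q h₀) n +
        -(((n : ℝ) + 1) / (2 * √q ^ (n + 1))) * ((u.coeff 0 : ℝ) - (h₀.coeff (g - (n + 1)) : ℝ)) := by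
        linarith
      rw [this, hm₀, hc]
      ring
    · have h1 := levT_le (pts_norm hq t1) n
      rw [hEe] at h1
      exact h1
    · have h1 := levE_succ (pts_norm hq t1) n
      rw [hEe] at h1
      exact h1
  have hinj : Set.InjOn (fun u : ℤ[X] => u.coeff 0) F := by
    intro u hu u' hu' h1
    have h2 := divX_mul_X_add u
    have h3 := divX_mul_X_add u'
    rw [(hF u hu).2] at h2
    rw [(hF u' hu').2] at h3
    rw [← h2, ← h3]
    simp only at h1
    rw [h1]
  rcases he0.eq_or_lt with h0 | hpos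
  · -- `e = 0`
    have hall : ∀ u ∈ F, eP q g (n + 1) u = 0 ∧ (u.coeff 0 : ℝ) = T₀ / c + m₀ := by
      intro u hu
      obtain ⟨T, hT1, hT2, hT3⟩ := key u hu
      rw [← h0] at hT2 hT3
      have hT0 : T = 0 := abs_eq_zero.1 (le_antisymm hT2 (abs_nonneg _))
      refine ⟨by rw [hT3, zero_mul], ?_⟩
      rw [hT0] at hT1
      field_simp
      linarith
    have hcard : F.card ≤ 1 := by
      rw [Finset.card_le_one]
      intro u hu u' hu'
      apply hinj hu hu'
      have h1 := (hall u hu).2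
      have h2 := (hall u' hu').2
      have h3 : (u.coeff 0 : ℝ) = (u'.coeff 0 : ℝ) := by rw [h1, h2]
      exact_mod_cast h3
    have h1 : ∑ u ∈ F, eP q g (n + 1) u ^ k = (F.card : ℝ) * (0 : ℝ) ^ k := by
      rw [Finset.sum_congr rfl fun u hu => by rw [(hall u hu).1]]
      rw [Finset.sum_const, nsmul_eq_mul]
    rw [h1, ← h0]
    have h2 : (F.card : ℝ) ≤ 1 := by exact_mod_cast hcard
    have h3 : (0 : ℝ) ≤ (0 : ℝ) ^ k := by positivity
    rw [zero_pow (Nat.succ_ne_zero k), mul_zero, zero_add]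
    nlinarith
  · -- `e > 0`
    have hδ : 0 < c / e := div_pos hc0 hpos
    have hval : ∀ u ∈ F, eP q g (n + 1) u ^ k =
        e ^ k * (1 - ((u.coeff 0 : ℝ) * (c / e) - (T₀ + c * m₀) / e) ^ 2) ^ k := by
      intro u hu
      obtain ⟨T, hT1, hT2, hT3⟩ := key u hu
      rw [hT3, mul_pow, hT1]
      congr 2
      field_simp
      ring
    rw [Finset.sum_congr rfl hval, ← Finset.mul_sum]
    have himg : ∑ u ∈ F, (1 - ((u.coeff 0 : ℝ) * (c / e) - (T₀ + c * m₀) / e) ^ 2) ^ k =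
        ∑ m ∈ F.image (fun u : ℤ[X] => u.coeff 0),
          (1 - ((m : ℝ) * (c / e) - (T₀ + c * m₀) / e) ^ 2) ^ k := by
      rw [Finset.sum_image hinj]
    rw [himg]
    have h1 := sum_le_Ik k (c / e) ((T₀ + c * m₀) / e) hδ (F.image fun u : ℤ[X] => u.coeff 0) (by
      intro m hm
      obtain ⟨u, hu, rfl⟩ := Finset.mem_image.1 hm
      obtain ⟨T, hT1, hT2, hT3⟩ := key u hu
      have h2 : (u.coeff 0 : ℝ) * (c / e) - (T₀ + c * m₀) / e = -(T / e) := by
        rw [hT1]
        field_simp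
        ring
      rw [h2, abs_neg, abs_div, abs_of_pos hpos, div_le_one hpos]
      exact hT2)
    have h2 := mul_le_mul_of_nonneg_left h1 (pow_nonneg he0 k)
    refine h2.trans (le_of_eq ?_)
    rw [hcinv, pow_succ]
    field_simp

theorem rec_step {q g n : ℕ} (hq : 1 ≤ q) (hn : n + 1 ≤ g) (k : ℕ) :
    SS q g (n + 1) k ≤
      2 * √q ^ (n + 1) / ((n : ℝ) + 1) * Ik k * SS q g n (k + 1) + SS q g n k := by
  classical
  unfold SS
  rw [← Finset.sum_fiberwise_of_maps_to (g := fun u : ℤ[X] => divX u)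
    (t := (preSet_finite q g n).toFinset) (fun u hu => by
      rw [Set.Finite.mem_toFinset] at hu ⊢
      exact divX_pre hn hu)]
  rw [Finset.mul_sum, ← Finset.sum_add_distrib]
  refine Finset.sum_le_sum fun v hv => ?_
  rw [Set.Finite.mem_toFinset] at hv
  refine fiber hq hn hv k _ fun u hu => ?_
  rw [Finset.mem_filter, Set.Finite.mem_toFinset] at hu
  exact hu

theorem SS_zero_le {q g : ℕ} (hq : 1 ≤ q) (k : ℕ) : SS q g 0 k ≤ (g : ℝ) ^ k := by
  classical
  unfold SS
  have h1 : (preSet_finite q g 0).toFinset.card ≤ 1 := by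
    rw [Finset.card_le_one]
    intro u hu u' hu'
    rw [Set.Finite.mem_toFinset] at hu hu'
    have h2 : ∀ w : ℤ[X], w ∈ preSet q g 0 → w = 1 := by
      intro w hw
      obtain ⟨h3, h4⟩ := pre_monic (Nat.zero_le g) hw
      exact h3.natDegree_eq_zero.1 h4
    rw [h2 u hu, h2 u' hu']
  have h2 : ∑ u ∈ (preSet_finite q g 0).toFinset, eP q g 0 u ^ k ≤
      ∑ u ∈ (preSet_finite q g 0).toFinset, (g : ℝ) ^ k := by
    refine Finset.sum_le_sum fun u hu => ?_
    rw [Set.Finite.mem_toFinset] at hu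
    exact pow_le_pow_left₀ (eP_nonneg u) (eP_le hq (Nat.zero_le g) hu) k
  refine h2.trans ?_
  rw [Finset.sum_const, nsmul_eq_mul]
  have h3 : (((preSet_finite q g 0).toFinset.card : ℕ) : ℝ) ≤ 1 := by exact_mod_cast h1
  have h4 : (0 : ℝ) ≤ (g : ℝ) ^ k := by positivity
  nlinarith

theorem fiber_card {q g n : ℕ} (hq : 1 ≤ q) (hn : n + 1 ≤ g) {v : ℤ[X]} (hv : v ∈ preSet q g n)
    (F : Finset ℤ[X]) (hF : ∀ u ∈ F, u ∈ preSet q g (n + 1) ∧ divX u = v) :
    (F.card : ℝ) ≤ 4 * g / ((n : ℝ) + 1) * √q ^ (n + 1) + 1 := by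
  have h1 := fiber hq hn hv 0 F hF
  simp only [pow_zero, Finset.sum_const, nsmul_eq_mul, mul_one, zero_add, pow_one] at h1
  rw [Ik_zero] at h1
  have h2 := eP_le hq (by omega : n ≤ g) hv
  have h3 : 0 ≤ 2 * √(q : ℝ) ^ (n + 1) / ((n : ℝ) + 1) * 2 := by positivity
  have h4 := mul_le_mul_of_nonneg_left h2 h3
  have h5 : 2 * √(q : ℝ) ^ (n + 1) / ((n : ℝ) + 1) * 2 * (g : ℝ) =
      4 * g / ((n : ℝ) + 1) * √q ^ (n + 1) := by ring
  linarith

end Pool.Agent.Helper84.AA
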