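import Pool.Agent.Helper84.AA.Defs

/-!
# AA-15: rounding in the group `1 + x ℝ[x] / x^(g+1)`

PROOFS.  `exists_round`: construct `γ_k, u_k` by strong recursion on `k`: let
`c = b_k - ∑_{i+j+1=k} u_i γ_j` (only `i, j < k` occur), `γ_k = round c`, `u_k = c - γ_k`, `|u_k| ≤ 1/2`
(`abs_sub_round`).
`vol_le_card`: `Y ⊆ ⋃_{γ ∈ Γ} T_γ '' [-1/2, 1/2]^g`, `T_γ u = mulc u γ = γ + L u`, `L` the linear map with matrix
`L_{k i} = [i = k] + [i < k] γ_{k-1-i}` (lower triangular, ones on the diagonal, determinant `1`: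
`Matrix.det_of_lowerTriangular`).  So each image has volume `1` (`Measure.addHaar_image_linearMap`,
translation invariance, `Real.volume_Icc_pi`), countable (finite) subadditivity.
`scale_volume`: the map `y ↦ (c_i y_i)` multiplies volumes by `∏ c_i` (diagonal matrix,
`Real.volume_preimage_pi..`/`Measure.addHaar_image_linearMap`, `det_diagonal`).
-/

open MeasureTheory

namespace Pool.Agent.Helper84.AA

/-- The double sum in `mulc` only depends on the entries of index less than `k`. -/
private lemma dsum_congr {g : ℕ} (u v u' v' : Fin g → ℝ) (k : Fin g)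
    (h : ∀ i : Fin g, (i : ℕ) < k → u i = u' i ∧ v i = v' i) :
    (∑ i : Fin g, ∑ j : Fin g, if (i : ℕ) + j + 1 = k then u i * v j else 0) =
      ∑ i : Fin g, ∑ j : Fin g, if (i : ℕ) + j + 1 = k then u' i * v' j else 0 := by
  refine Finset.sum_congr rfl fun i _ => Finset.sum_congr rfl fun j _ => ?_
  split_ifs with hij
  · rw [(h i (by omega)).1, (h j (by omega)).2]
  · rfl

theorem exists_round {g : ℕ} (b : Fin g → ℝ) :
    ∃ (γ : Fin g → ℤ) (u : Fin g → ℝ), (∀ i, |u i| ≤ 1 / 2) ∧
      ∀ k, b k = mulc u (fun i => (γ i : ℝ)) k := by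
  have key : ∀ n : ℕ, n ≤ g → ∃ (γ : Fin g → ℤ) (u : Fin g → ℝ), (∀ i, |u i| ≤ 1 / 2) ∧
      ∀ k : Fin g, (k : ℕ) < n → b k = mulc u (fun i => (γ i : ℝ)) k := by
    intro n
    induction n with
    | zero =>
      intro _
      exact ⟨fun _ => 0, fun _ => 0, fun i => by norm_num, fun k hk => absurd hk (by omega)⟩
    | succ n ih =>
      intro hn
      obtain ⟨γ, u, hu, hk⟩ := ih (by omega)
      set m : Fin g := ⟨n, by omega⟩ with hm
      set S : ℝ := ∑ i : Fin g, ∑ j : Fin g,
        if (i : ℕ) + j + 1 = m then u i * (γ j : ℝ) else 0 with hS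
      refine ⟨Function.update γ m (round (b m - S)),
        Function.update u m (b m - S - round (b m - S)), ?_, ?_⟩
      · intro i
        by_cases hi : i = m
        · subst hi
          rw [Function.update_self]
          exact abs_sub_round _
        · rw [Function.update_of_ne hi]
          exact hu i
      · intro k hkn
        have hd := dsum_congr
          (Function.update u m (b m - S - round (b m - S)))
          (fun i => ((Function.update γ m (round (b m - S)) i : ℤ) : ℝ)) u
          (fun i => (γ i : ℝ)) k (fun i hi => by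
            have hne : i ≠ m := by
              intro h
              have : (i : ℕ) = n := by rw [h]
              omega
            simp only [Function.update_of_ne hne]
            exact ⟨trivial, trivial⟩)
        unfold mulc
        rw [hd]
        by_cases hkm : k = m
        · subst hkm
          simp only [Function.update_self]
          rw [← hS]
          ring
        · have hk' : (k : ℕ) < n := by
            have : (k : ℕ) ≠ n := fun h => hkm (Fin.ext (by simpa [hm] using h))
            omega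
          simp only [Function.update_of_ne hkm]
          exact hk k hk'
  obtain ⟨γ, u, hu, hk⟩ := key g le_rfl
  exact ⟨γ, u, hu, fun k => hk k k.2⟩

/-- The matrix of the linear part. -/
private def rmat {g : ℕ} (γ : Fin g → ℤ) : Matrix (Fin g) (Fin g) ℝ := fun k i =>
  (if i = k then 1 else 0) + ∑ j : Fin g, if (i : ℕ) + j + 1 = k then (γ j : ℝ) else 0

private lemma rmat_det {g : ℕ} (γ : Fin g → ℤ) : (rmat γ).det = 1 := by
  have h : (rmat γ).BlockTriangular OrderDual.toDual := by
    intro k i hki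
    have hlt : k < i := hki
    unfold rmat
    rw [if_neg (by intro h; rw [h] at hlt; exact lt_irrefl _ hlt), zero_add]
    refine Finset.sum_eq_zero fun j _ => ?_
    rw [if_neg]
    have : (k : ℕ) < i := hlt
    omega
  rw [Matrix.det_of_isLowerTriangular _ h]
  refine Finset.prod_eq_one fun k _ => ?_
  unfold rmat
  rw [if_pos rfl]
  have : (∑ j : Fin g, if (k : ℕ) + j + 1 = k then (γ j : ℝ) else 0) = 0 :=
    Finset.sum_eq_zero fun j _ => by rw [if_neg (by omega)]
  rw [this, add_zero]

private lemma mulc_eq {g : ℕ} (γ : Fin g → ℤ) (u : Fin g → ℝ) :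
    (fun k => mulc u (fun i => (γ i : ℝ)) k) =
      (fun i => (γ i : ℝ)) + Matrix.toLin' (rmat γ) u := by
  funext k
  rw [Pi.add_apply, Matrix.toLin'_apply, Matrix.mulVec, dotProduct]
  unfold mulc rmat
  have h1 : ∀ i : Fin g, ((if i = k then (1 : ℝ) else 0) +
      ∑ j : Fin g, if (i : ℕ) + j + 1 = k then (γ j : ℝ) else 0) * u i =
      (if i = k then u i else 0) +
        ∑ j : Fin g, if (i : ℕ) + j + 1 = k then u i * (γ j : ℝ) else 0 := by
    intro i
    rw [add_mul, Finset.sum_mul]
    congr 1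
    · split_ifs <;> ring
    · refine Finset.sum_congr rfl fun j _ => ?_
      split_ifs <;> ring
  rw [Finset.sum_congr rfl fun i _ => h1 i, Finset.sum_add_distrib,
    Finset.sum_ite_eq' Finset.univ k u, if_pos (Finset.mem_univ k)]
  ring

private lemma vol_image {g : ℕ} (γ : Fin g → ℤ) :
    volume ((fun (u : Fin g → ℝ) k => mulc u (fun i => (γ i : ℝ)) k) ''
      Set.Icc (fun _ => (-1 / 2 : ℝ)) (fun _ => 1 / 2)) = 1 := by
  have h1 : (fun (u : Fin g → ℝ) k => mulc u (fun i => (γ i : ℝ)) k) =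
      (fun x => (fun i => (γ i : ℝ)) + x) ∘ (Matrix.toLin' (rmat γ)) := by
    funext u
    exact mulc_eq γ u
  rw [h1, Set.image_comp, Set.image_add_left, measure_preimage_add,
    Measure.addHaar_image_linearMap, LinearMap.det_toLin', rmat_det, abs_one,
    ENNReal.ofReal_one, one_mul, Real.volume_Icc_pi]
  refine Finset.prod_eq_one fun i _ => ?_
  norm_num

theorem vol_le_card {g : ℕ} (Y : Set (Fin g → ℝ)) (Γ : Finset (Fin g → ℤ))
    (h : ∀ b ∈ Y, ∃ γ ∈ Γ, ∃ u : Fin g → ℝ, (∀ i, |u i| ≤ 1 / 2) ∧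
      ∀ k, b k = mulc u (fun i => (γ i : ℝ)) k) :
    volume Y ≤ (Γ.card : ENNReal) := by
  have hsub : Y ⊆ ⋃ γ ∈ Γ, (fun (u : Fin g → ℝ) k => mulc u (fun i => (γ i : ℝ)) k) ''
      Set.Icc (fun _ => (-1 / 2 : ℝ)) (fun _ => 1 / 2) := by
    intro b hb
    obtain ⟨γ, hγ, u, hu, hk⟩ := h b hb
    refine Set.mem_biUnion hγ ⟨u, ⟨fun i => ?_, fun i => ?_⟩, ?_⟩
    · have := (abs_le.1 (hu i)).1
      show (-1 / 2 : ℝ) ≤ u i
      linarith
    · exact (abs_le.1 (hu i)).2
    · funext k
      exact (hk k).symm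
  calc volume Y ≤ volume (⋃ γ ∈ Γ, (fun (u : Fin g → ℝ) k =>
        mulc u (fun i => (γ i : ℝ)) k) ''
      Set.Icc (fun _ => (-1 / 2 : ℝ)) (fun _ => 1 / 2)) := measure_mono hsub
    _ ≤ ∑ γ ∈ Γ, volume ((fun (u : Fin g → ℝ) k => mulc u (fun i => (γ i : ℝ)) k) ''
      Set.Icc (fun _ => (-1 / 2 : ℝ)) (fun _ => 1 / 2)) := measure_biUnion_finset_le _ _
    _ = ∑ γ ∈ Γ, 1 := Finset.sum_congr rfl fun γ _ => vol_image γ
    _ = (Γ.card : ENNReal) := by simp

theorem scale_volume {g : ℕ} (c : Fin g → ℝ) (hc : ∀ i, 0 < c i) (Y : Set (Fin g → ℝ)) :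
    volume ((fun (y : Fin g → ℝ) i => c i * y i) '' Y) =
      ENNReal.ofReal (∏ i, c i) * volume Y := by
  have h1 : (fun (y : Fin g → ℝ) i => c i * y i) = Matrix.toLin' (Matrix.diagonal c) := by
    funext y i
    rw [Matrix.toLin'_apply, Matrix.mulVec_diagonal]
  rw [h1, Measure.addHaar_image_linearMap, LinearMap.det_toLin', Matrix.det_diagonal,
    abs_of_nonneg (Finset.prod_nonneg fun i _ => (hc i).le)]

end Pool.Agent.Helper84.AA
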