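import Pool.Agent.Helper84.AA.Defs
import Pool.Agent.Helper84.AA.Det

/-!
# AA-11: the measures `mu n`

PROOFS.  `win_pos`, `win_le`: `0 < win j ≤ 1/2`.  `nu_univ`: `∫⁻` of the density over the window
(`MeasureTheory.ofReal_integral_eq_lintegral_ofReal`, continuous integrand).
`mu_univ`: the map is measurable (`step` is continuous in both variables), `Measure.prod_prod`, induction.
`mu_le`: induction.  `n = 0`: both are the Dirac measure at the only point (`Dn 0 = 1`).  Step: `S` measurable,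
`mu (n+1) S = ∫⁻ κ, mu n {α | step κ α ∈ S} ∂(nu n)` (`Measure.prod_apply_symm`), and `mu n ≤ Dn n • volume`.  For
fixed `κ`, `|κ| ≤ win n < 1`, `step κ α = snoc (L α) κ`, `L = 1 + κ R` (matrix of `Det.lean`, `Matrix.mulVec`/`toLin'`),
`volume (L ⁻¹' S_κ) = ofReal |det L|⁻¹ * volume S_κ`, `S_κ = {β | snoc β κ ∈ S}`
(`Real.map_matrix_volume_pi_eq_smul_volume_pi` or `Measure.addHaar_preimage_linearMap`), and by
`det_rev_lower` `√((1-κ^2)^n) * |det L|⁻¹ ≤ √((1+|κ|)/(1-|κ|)) ≤ √((1+win n)/(1-win n))`.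
Finally `∫⁻ κ, volume S_κ = volume S` (`volume_preserving_piFinSuccAbove (fun _ => ℝ) (Fin.last n)`,
`Fin.insertNth_last`/`snoc`), restricted to the window it is `≤`.
`mu_zero_free`: let `G_n = {α | ∀ z, ‖z‖ ≤ 1 → Apoly α z ≠ 0}`.  It is open (compactness of the disc; or: its
complement is closed: projection of a closed set along a compact space, `isClosedMap_snd_of_compactSpace`), hence
measurable.  If `α ∈ G_n` and `|κ| < 1` then `step κ α ∈ G_(n+1)`: `Apoly (step κ α) z = A(z) + κ B(z)`,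
`B(z) = z^(n+1) + ∑ α_i z^(n-i)` (`= z^(n+1) A(1/z)`), `|B| = |A|` on the circle, `B / A` is analytic near the closed
disc, so `|B| ≤ |A|` on the disc by the maximum principle (`Complex.norm_le_of_forall_mem_frontier_norm_le`), so
`|A + κ B| ≥ (1 - |κ|) |A| > 0`.  Induction.
-/

open MeasureTheory

namespace Pool.Agent.Helper84.AA

theorem win_pos (j : ℕ) : 0 < win j := by
  unfold win
  exact lt_min (by norm_num) (by positivity)

theorem win_le (j : ℕ) : win j ≤ 1 / 2 := min_le_left _ _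

theorem Wj_pos (j : ℕ) : 0 < Wj j := by
  unfold Wj
  have h1 := win_pos j
  refine intervalIntegral.intervalIntegral_pos_of_pos_on ?_ ?_ (by linarith)
  · apply Continuous.intervalIntegrable
    fun_prop
  · intro x hx
    have h2 : x ^ 2 < 1 := by
      have h3 := win_le j
      rw [sq_lt_one_iff_abs_lt_one, abs_lt]
      exact ⟨by linarith [hx.1], by linarith [hx.2]⟩
    have h4 : 0 < (1 - x ^ 2) ^ j := pow_pos (by linarith) j
    exact Real.sqrt_pos.2 h4

theorem nu_univ (j : ℕ) : nu j Set.univ = ENNReal.ofReal (Wj j) := by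
  have h1 := win_pos j
  have hc : Continuous fun κ : ℝ => √((1 - κ ^ 2) ^ j) := by fun_prop
  unfold nu Wj
  rw [withDensity_apply _ MeasurableSet.univ, Measure.restrict_univ,
    ← ofReal_integral_eq_lintegral_ofReal (hc.integrableOn_Icc)
      (Filter.Eventually.of_forall fun _ => Real.sqrt_nonneg _),
    integral_Icc_eq_integral_Ioc, intervalIntegral.integral_of_le (by linarith)]

instance nu_finite (j : ℕ) : IsFiniteMeasure (nu j) :=
  ⟨by rw [nu_univ]; exact ENNReal.ofReal_lt_top⟩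

theorem step_continuous {n : ℕ} :
    Continuous fun p : (Fin n → ℝ) × ℝ => step p.2 p.1 := by
  refine continuous_pi fun i => ?_
  induction i using Fin.lastCases with
  | last =>
    simp only [step, Fin.snoc_last]
    exact continuous_snd
  | cast i =>
    simp only [step, Fin.snoc_castSucc]
    fun_prop

theorem mu_univ (n : ℕ) : mu n Set.univ = ENNReal.ofReal (∏ j ∈ Finset.range n, Wj j) := by
  induction n with
  | zero => simp [mu]
  | succ n ih =>
    have hfin : IsFiniteMeasure (mu n) := ⟨by rw [ih]; exact ENNReal.ofReal_lt_top⟩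
    rw [mu, Measure.map_apply step_continuous.measurable MeasurableSet.univ, Set.preimage_univ,
      ← Set.univ_prod_univ, Measure.prod_prod, ih, nu_univ, Finset.prod_range_succ,
      ENNReal.ofReal_mul (Finset.prod_nonneg fun j _ => (Wj_pos j).le)]

instance mu_finite (n : ℕ) : IsFiniteMeasure (mu n) :=
  ⟨by rw [mu_univ]; exact ENNReal.ofReal_lt_top⟩

private theorem stp_meas (n : ℕ) {S : Set (Fin (n + 1) → ℝ)} (hS : MeasurableSet S) :
    Measurable fun κ : ℝ =>
      (volume : Measure (Fin n → ℝ)) {β | Fin.snoc (α := fun _ => ℝ) β κ ∈ S} := by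
  have hc : Continuous fun p : ℝ × (Fin n → ℝ) => (Fin.snoc (α := fun _ => ℝ) p.2 p.1 :
      Fin (n + 1) → ℝ) := by
    refine continuous_pi fun i => ?_
    induction i using Fin.lastCases with
    | last =>
      simp only [Fin.snoc_last]
      exact continuous_fst
    | cast i =>
      simp only [Fin.snoc_castSucc]
      fun_prop
  exact measurable_measure_prodMk_left (hc.measurable hS)

private theorem stp_volume (n : ℕ) {S : Set (Fin (n + 1) → ℝ)} (hS : MeasurableSet S) :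
    ∫⁻ κ : ℝ, (volume : Measure (Fin n → ℝ)) {β | Fin.snoc (α := fun _ => ℝ) β κ ∈ S} =
      volume S := by
  have h1 := (volume_preserving_piFinSuccAbove (fun _ : Fin (n + 1) => ℝ) (Fin.last n)).symm
  have h2 := h1.measure_preimage hS.nullMeasurableSet
  rw [← h2, Measure.volume_eq_prod, Measure.prod_apply (h1.measurable hS)]
  refine lintegral_congr fun κ => ?_
  congr 1
  ext β
  have h3 : (MeasurableEquiv.piFinSuccAbove (fun _ : Fin (n + 1) => ℝ) (Fin.last n)).symm (κ, β) =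
      Fin.snoc (α := fun _ => ℝ) β κ := Fin.insertNth_last' κ β
  change Fin.snoc (α := fun _ => ℝ) β κ ∈ S ↔
    (MeasurableEquiv.piFinSuccAbove (fun _ : Fin (n + 1) => ℝ) (Fin.last n)).symm (κ, β) ∈ S
  rw [h3]

private theorem stp_bound (n : ℕ) {κ : ℝ} (hκ : κ ∈ Set.Icc (-win n) (win n))
    (S : Set (Fin (n + 1) → ℝ)) :
    ENNReal.ofReal (√((1 - κ ^ 2) ^ n)) * (ENNReal.ofReal (Dn n) *
      (volume : Measure (Fin n → ℝ)) ((fun α : Fin n → ℝ => (α, κ)) ⁻¹'
        ((fun p : (Fin n → ℝ) × ℝ => step p.2 p.1) ⁻¹' S))) ≤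
    ENNReal.ofReal (Dn (n + 1)) *
      (volume : Measure (Fin n → ℝ)) {β | Fin.snoc (α := fun _ => ℝ) β κ ∈ S} := by
  have hw := win_le n
  have hw0 := win_pos n
  have hκ1 : |κ| ≤ win n := abs_le.2 hκ
  have hκ2 : |κ| < 1 := by linarith
  obtain ⟨hd, hb⟩ := det_rev_lower n hκ2
  set M : Matrix (Fin n) (Fin n) ℝ := 1 + κ • revM n with hM
  have hL : ∀ α : Fin n → ℝ, Matrix.toLin' M α = fun i => α i + κ * α i.rev := by
    intro α
    rw [Matrix.toLin'_apply, hM, Matrix.add_mulVec, Matrix.one_mulVec, Matrix.smul_mulVec]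
    funext i
    simp [Matrix.mulVec, dotProduct, revM]
  have hdet : LinearMap.det (Matrix.toLin' M) = M.det := LinearMap.det_toLin' M
  have hpre : ((fun α : Fin n → ℝ => (α, κ)) ⁻¹'
        ((fun p : (Fin n → ℝ) × ℝ => step p.2 p.1) ⁻¹' S)) =
      (Matrix.toLin' M) ⁻¹' {β | Fin.snoc (α := fun _ => ℝ) β κ ∈ S} := by
    ext α
    simp only [Set.mem_preimage, Set.mem_ofPred_eq, hL]
    rfl
  rw [hpre, Measure.addHaar_preimage_linearMap _ (by rw [hdet]; exact hd.ne'), hdet,
    abs_of_pos (inv_pos.2 hd)]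
  rw [← mul_assoc, ← mul_assoc]
  refine mul_le_mul' ?_ le_rfl
  have hD0 : 0 ≤ Dn n := Finset.prod_nonneg fun _ _ => Real.sqrt_nonneg _
  rw [← ENNReal.ofReal_mul (Real.sqrt_nonneg _), ← ENNReal.ofReal_mul (by positivity)]
  refine ENNReal.ofReal_le_ofReal ?_
  have h1 : Dn (n + 1) = Dn n * √((1 + win n) / (1 - win n)) := by
    unfold Dn
    rw [Finset.prod_range_succ]
  rw [h1]
  have h2 : √((1 - κ ^ 2) ^ n) * M.det⁻¹ ≤ √((1 + win n) / (1 - win n)) := by
    have h3 : √((1 - κ ^ 2) ^ n) * M.det⁻¹ = √((1 - κ ^ 2) ^ n / M.det ^ 2) := by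
      rw [Real.sqrt_div' _ (sq_nonneg _), Real.sqrt_sq hd.le, div_eq_mul_inv]
    rw [h3]
    refine Real.sqrt_le_sqrt ?_
    rw [div_le_div_iff₀ (by positivity) (by linarith)]
    have h4 : 0 ≤ (1 - κ ^ 2) ^ n := by
      refine pow_nonneg ?_ n
      have h5 : κ ^ 2 ≤ 1 := by
        rw [sq_le_one_iff_abs_le_one]
        exact hκ2.le
      linarith
    have h6 : 0 < M.det ^ 2 := by positivity
    have h7 : 0 ≤ |κ| := abs_nonneg κ
    calc (1 - κ ^ 2) ^ n * (1 - win n) ≤ (1 - κ ^ 2) ^ n * (1 - |κ|) :=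
          mul_le_mul_of_nonneg_left (by linarith) h4
      _ ≤ M.det ^ 2 * (1 + |κ|) := hb
      _ ≤ M.det ^ 2 * (1 + win n) := mul_le_mul_of_nonneg_left (by linarith) h6.le
      _ = (1 + win n) * M.det ^ 2 := by ring
  calc √((1 - κ ^ 2) ^ n) * Dn n * M.det⁻¹ = Dn n * (√((1 - κ ^ 2) ^ n) * M.det⁻¹) := by ring
    _ ≤ Dn n * √((1 + win n) / (1 - win n)) := mul_le_mul_of_nonneg_left h2 hD0

private theorem stp_measG (n : ℕ) :
    MeasurableSet {α : Fin n → ℝ | ∀ z : ℂ, ‖z‖ ≤ 1 → Apoly α z ≠ 0} := by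
  have hK : IsClosed {p : (Metric.closedBall (0 : ℂ) 1) × (Fin n → ℝ) |
      Apoly p.2 (p.1 : ℂ) = 0} := by
    refine isClosed_eq ?_ continuous_const
    unfold Apoly
    fun_prop
  have h1 := isClosedMap_snd_of_compactSpace _ hK
  have h2 : {α : Fin n → ℝ | ∀ z : ℂ, ‖z‖ ≤ 1 → Apoly α z ≠ 0} =
      (Prod.snd '' {p : (Metric.closedBall (0 : ℂ) 1) × (Fin n → ℝ) |
      Apoly p.2 (p.1 : ℂ) = 0})ᶜ := by
    ext α
    simp only [Set.mem_ofPred_eq, Set.mem_compl_iff, Set.mem_image, Prod.exists, not_exists,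
      not_and]
    constructor
    · rintro h ⟨z, hz⟩ β hb rfl
      exact h z (by simpa using hz) hb
    · intro h z hz hzero
      exact h ⟨z, by simpa using hz⟩ α hzero rfl
  rw [h2]
  exact h1.isOpen_compl.measurableSet

theorem mu_le (n : ℕ) : mu n ≤ ENNReal.ofReal (Dn n) • (volume : Measure (Fin n → ℝ)) := by
  induction n with
  | zero =>
    have h1 : (volume : Measure (Fin 0 → ℝ)) = Measure.dirac 0 := by
      rw [volume_pi]
      exact Measure.pi_of_empty _ _
    rw [h1]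
    simp [mu, Dn]
  | succ n ih =>
    rw [Measure.le_iff]
    intro S hS
    have hT : MeasurableSet ((fun p : (Fin n → ℝ) × ℝ => step p.2 p.1) ⁻¹' S) :=
      step_continuous.measurable hS
    rw [mu, Measure.map_apply step_continuous.measurable hS, Measure.prod_apply_symm hT]
    have hm : Measurable fun κ : ℝ =>
        (volume : Measure (Fin n → ℝ)) ((fun α : Fin n → ℝ => (α, κ)) ⁻¹'
          ((fun p : (Fin n → ℝ) × ℝ => step p.2 p.1) ⁻¹' S)) :=
      measurable_measure_prodMk_right hT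
    have hd : Measurable fun κ : ℝ => ENNReal.ofReal (√((1 - κ ^ 2) ^ n)) := by fun_prop
    calc ∫⁻ κ, (mu n) ((fun α : Fin n → ℝ => (α, κ)) ⁻¹'
          ((fun p : (Fin n → ℝ) × ℝ => step p.2 p.1) ⁻¹' S)) ∂(nu n)
        ≤ ∫⁻ κ, ENNReal.ofReal (Dn n) * (volume : Measure (Fin n → ℝ))
            ((fun α : Fin n → ℝ => (α, κ)) ⁻¹'
            ((fun p : (Fin n → ℝ) × ℝ => step p.2 p.1) ⁻¹' S)) ∂(nu n) :=
          lintegral_mono fun κ => ih _
      _ = ∫⁻ κ in Set.Icc (-win n) (win n), ENNReal.ofReal (√((1 - κ ^ 2) ^ n)) *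
            (ENNReal.ofReal (Dn n) * (volume : Measure (Fin n → ℝ))
            ((fun α : Fin n → ℝ => (α, κ)) ⁻¹'
            ((fun p : (Fin n → ℝ) × ℝ => step p.2 p.1) ⁻¹' S))) := by
          unfold nu
          rw [lintegral_withDensity_eq_lintegral_mul _ hd (hm.const_mul _)]
          rfl
      _ ≤ ∫⁻ κ in Set.Icc (-win n) (win n), ENNReal.ofReal (Dn (n + 1)) *
            (volume : Measure (Fin n → ℝ)) {β | Fin.snoc (α := fun _ => ℝ) β κ ∈ S} := by
          refine setLIntegral_mono' measurableSet_Icc fun κ hκ => ?_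
          exact stp_bound n hκ S
      _ ≤ ∫⁻ κ, ENNReal.ofReal (Dn (n + 1)) *
            (volume : Measure (Fin n → ℝ)) {β | Fin.snoc (α := fun _ => ℝ) β κ ∈ S} :=
          setLIntegral_le_lintegral _ _
      _ = ENNReal.ofReal (Dn (n + 1)) * volume S := by
          rw [lintegral_const_mul _ (stp_meas n hS), stp_volume n hS]

/-- The value of the polynomial of `step κ α` on the disc. -/
theorem Apoly_step {n : ℕ} (κ : ℝ) (α : Fin n → ℝ) (z : ℂ) :
    Apoly (step κ α) z =
      Apoly α z + κ * (z ^ (n + 1) + ∑ i : Fin n, (α i : ℂ) * z ^ (n - (i : ℕ))) := by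
  have h1 : ∑ i : Fin n, (α i.rev : ℂ) * z ^ ((i : ℕ) + 1) =
      ∑ i : Fin n, (α i : ℂ) * z ^ (n - (i : ℕ)) := by
    rw [← Equiv.sum_comp Fin.revPerm]
    refine Finset.sum_congr rfl fun i _ => ?_
    rw [Fin.revPerm_apply, Fin.rev_rev]
    congr 2
    rw [Fin.val_rev]
    have := i.isLt
    omega
  unfold Apoly step
  rw [Fin.sum_univ_castSucc]
  simp only [Fin.snoc_castSucc, Fin.snoc_last, Fin.val_castSucc, Fin.val_last]
  push_cast
  simp only [add_mul, Finset.sum_add_distrib, mul_assoc, ← Finset.mul_sum]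
  rw [h1]
  ring

/-- On the circle. -/
theorem Apoly_step_circle {n : ℕ} (κ : ℝ) (α : Fin n → ℝ) (z : ℂ) (hz : ‖z‖ = 1) :
    Apoly (step κ α) z =
      Apoly α z + κ * (z ^ (n + 1) * (starRingEnd ℂ) (Apoly α z)) := by
  rw [Apoly_step]
  congr 2
  unfold Apoly
  rw [map_add, map_one, map_sum, mul_add, mul_one, Finset.mul_sum]
  congr 1
  refine Finset.sum_congr rfl fun i _ => ?_
  rw [map_mul, map_pow, Complex.conj_ofReal]
  have h1 : z * (starRingEnd ℂ) z = 1 := by
    rw [Complex.mul_conj, Complex.normSq_eq_norm_sq, hz]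
    norm_num
  have h2 : z ^ (n + 1) = z ^ (n - (i : ℕ)) * z ^ ((i : ℕ) + 1) := by
    rw [← pow_add]
    congr 1
    have := i.isLt
    omega
  rw [h2]
  calc (α i : ℂ) * z ^ (n - (i : ℕ))
      = (α i : ℂ) * z ^ (n - (i : ℕ)) * (z * (starRingEnd ℂ) z) ^ ((i : ℕ) + 1) := by
        rw [h1, one_pow, mul_one]
    _ = _ := by
        rw [mul_pow]
        ring

theorem step_zero_free {n : ℕ} {κ : ℝ} (hκ : |κ| < 1) {α : Fin n → ℝ}
    (hα : ∀ z : ℂ, ‖z‖ ≤ 1 → Apoly α z ≠ 0) :
    ∀ z : ℂ, ‖z‖ ≤ 1 → Apoly (step κ α) z ≠ 0 := by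
  intro z hz hzero
  have hA : Differentiable ℂ (Apoly α) := by
    unfold Apoly
    fun_prop
  set Bf : ℂ → ℂ := fun z => z ^ (n + 1) + ∑ i : Fin n, (α i : ℂ) * z ^ (n - (i : ℕ)) with hBf
  have hB : Differentiable ℂ Bf := by
    rw [hBf]
    fun_prop
  have hcl : closure (Metric.ball (0 : ℂ) 1) = Metric.closedBall 0 1 :=
    closure_ball 0 one_ne_zero
  have hd : DiffContOnCl ℂ (fun z => Bf z / Apoly α z) (Metric.ball 0 1) := by
    apply DifferentiableOn.diffContOnCl
    rw [hcl]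
    refine hB.differentiableOn.div hA.differentiableOn fun w hw => hα w ?_
    simpa using hw
  have hfr : ∀ w ∈ frontier (Metric.ball (0 : ℂ) 1), ‖Bf w / Apoly α w‖ ≤ 1 := by
    intro w hw
    rw [frontier_ball (0 : ℂ) one_ne_zero, mem_sphere_zero_iff_norm] at hw
    have h1 := Apoly_step 1 α w
    have h2 := Apoly_step_circle 1 α w hw
    rw [h1] at h2
    have h3 : Bf w = w ^ (n + 1) * (starRingEnd ℂ) (Apoly α w) := by
      have h4 := add_left_cancel h2
      simpa [hBf] using h4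
    rw [h3, norm_div, norm_mul, norm_pow, hw, one_pow, one_mul, RCLike.norm_conj]
    exact div_self_le_one _
  have hle : ‖Bf z / Apoly α z‖ ≤ 1 := by
    refine Complex.norm_le_of_forall_mem_frontier_norm_le Metric.isBounded_ball hd hfr ?_
    rw [hcl]
    simpa using hz
  have hA0 := hα z hz
  rw [norm_div, div_le_one (norm_pos_iff.2 hA0)] at hle
  rw [Apoly_step] at hzero
  have h5 : Apoly α z = -((κ : ℂ) * Bf z) := eq_neg_of_add_eq_zero_left hzero
  have h6 : ‖Apoly α z‖ = |κ| * ‖Bf z‖ := by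
    rw [h5, norm_neg, norm_mul, Complex.norm_real, Real.norm_eq_abs]
  have h7 : 0 < ‖Apoly α z‖ := norm_pos_iff.2 hA0
  have h8 : |κ| * ‖Bf z‖ ≤ |κ| * ‖Apoly α z‖ := mul_le_mul_of_nonneg_left hle (abs_nonneg _)
  nlinarith

theorem mu_zero_free (n : ℕ) : ∀ᵐ α ∂(mu n), ∀ z : ℂ, ‖z‖ ≤ 1 → Apoly α z ≠ 0 := by
  induction n with
  | zero =>
    rw [mu]
    refine (ae_dirac_iff (stp_measG 0)).2 ?_
    intro z _
    simp [Apoly]
  | succ n ih =>
    rw [mu, ae_map_iff step_continuous.measurable.aemeasurable (stp_measG (n + 1))]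
    have h1 : ∀ᵐ p ∂(mu n).prod (nu n), ∀ z : ℂ, ‖z‖ ≤ 1 → Apoly p.1 z ≠ 0 :=
      Measure.quasiMeasurePreserving_fst.ae ih
    have h2 : ∀ᵐ κ ∂(nu n), κ ∈ Set.Icc (-win n) (win n) := by
      unfold nu
      exact (withDensity_absolutelyContinuous _ _).ae_le (ae_restrict_mem measurableSet_Icc)
    have h3 : ∀ᵐ p ∂(mu n).prod (nu n), p.2 ∈ Set.Icc (-win n) (win n) :=
      Measure.quasiMeasurePreserving_snd.ae h2
    filter_upwards [h1, h3] with p hp1 hp2
    have h4 : |p.2| < 1 := by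
      have h5 := win_le n
      rw [abs_lt]
      exact ⟨by linarith [hp2.1], by linarith [hp2.2]⟩
    exact step_zero_free h4 hp1

end Pool.Agent.Helper84.AA
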