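import Pool.Agent.Helper84.AA.Defs

/-!
# AA-09: zero free polynomials give trace polynomials

PROOF.  `σ = √q`, `A(z) = ∑_{i ≤ g} γ_i σ^(-i) z^i ≠ 0` for `|z| ≤ 1`, `γ_0 = 1`.  Let `x₀` be a complex root of
`hOf q g γ`; choose `T ≠ 0` with `T + q/T = x₀` (`T^2 - x₀ T + q = 0`, `q ≠ 0`), `T = σ z`.  The Dickson
polynomials satisfy `D_n(T + q/T) = T^n + (q/T)^n` (`dickson 1 q`: induction on the recursion
`D_(n+2) = X D_(n+1) - q D_n`), so
`0 = hOf(x₀) = ∑_{i<g} γ_i (T^(g-i) + (q/T)^(g-i)) + 2 γ_g`, i.e. with `T = σ z`, `q/T = σ / z`, after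
division by `σ^g`: `0 = z^g A(1/z) + z^(-g) A(z)`, where `A(1/z) = ∑ γ_i σ^(-i) z^(-i)`.
Claim `|z| = 1`.  If `|z| < 1`: `B(z) = ∑ γ_i σ^(-i) z^(g-i)` (reversed polynomial, `= z^g A(1/z)`),
`z^g B(z) + A(z) = 0`.  `f = B / A` is analytic near the closed disc and `|f| = 1` on the circle (real
coefficients: `|B(z)| = |A(conj z)| = |A(z)|` for `|z| = 1`), so `|f| ≤ 1` on the disc
(`Complex.norm_le_of_forall_mem_frontier_norm_le` or `Complex.exists_mem_frontier_isMaxOn_norm`), so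
`|A(z)| = |z|^g |B(z)| ≤ |z|^g |A(z)| < |A(z)|` (`g ≥ 1`, `A(z) ≠ 0`): contradiction.
If `|z| > 1` the same for `1/z` (the equation is symmetric in `z ↔ 1/z`).
So `|z| = 1`, `x₀ = σ (z + 1/z) = 2 σ Re z` is real with `x₀^2 ≤ 4 q`.
`hOf` is monic of degree `g`: `D_k` is monic of degree `k` for `k ≥ 1` (`dickson` recursion).
Injectivity: `hOf γ = hOf γ'`: the coefficients: downward triangularity: if `γ_i = γ'_i` for `i < m ≤ g` then the
difference has the coefficient `γ_m - γ'_m` at `X^(g-m)` (twice that for `m = g`).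
-/

open Polynomial

namespace Pool.Agent.Helper84.AA

private theorem zero_dk_deg (a : ℤ) : ∀ n : ℕ,
    (dickson 1 a n).natDegree ≤ n ∧ (dickson 1 a (n + 1)).natDegree ≤ n + 1
  | 0 => by
    constructor
    · rw [dickson_zero]
      have : ((3 : ℤ[X]) - ((1 : ℕ) : ℤ[X])) = C 2 := by
        simp only [Nat.cast_one, map_ofNat]
        norm_num
      rw [this, natDegree_C]
    · rw [zero_add, dickson_one]
      exact natDegree_X_le
  | n + 1 => by
    obtain ⟨h1, h2⟩ := zero_dk_deg a n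
    refine ⟨h2, ?_⟩
    rw [dickson_add_two]
    refine (natDegree_sub_le _ _).trans (max_le ?_ ?_)
    · refine natDegree_mul_le.trans ?_
      have := natDegree_X_le (R := ℤ)
      omega
    · refine (natDegree_C_mul_le _ _).trans ?_
      omega

private theorem zero_dk_lead (a : ℤ) : ∀ n : ℕ, (dickson 1 a (n + 1)).coeff (n + 1) = 1
  | 0 => by
    rw [zero_add, dickson_one, coeff_X_one]
  | n + 1 => by
    rw [dickson_add_two, coeff_sub, coeff_X_mul, zero_dk_lead a n, coeff_C_mul,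
      coeff_eq_zero_of_natDegree_lt (lt_of_le_of_lt (zero_dk_deg a n).1 (by omega))]
    ring

private theorem zero_dk_eval (q : ℕ) (T : ℂ) (hT : T ≠ 0) : ∀ n : ℕ,
    aeval (T + q / T) (dickson 1 (q : ℤ) n) = T ^ n + (q / T) ^ n ∧
    aeval (T + q / T) (dickson 1 (q : ℤ) (n + 1)) = T ^ (n + 1) + (q / T) ^ (n + 1)
  | 0 => by
    constructor
    · rw [dickson_zero]
      simp only [Nat.cast_one, map_sub, map_ofNat, map_one, pow_zero]
      norm_num
    · rw [zero_add, dickson_one]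
      simp
  | n + 1 => by
    obtain ⟨h1, h2⟩ := zero_dk_eval q T hT n
    refine ⟨h2, ?_⟩
    rw [dickson_add_two, map_sub, map_mul, map_mul, aeval_X, aeval_C, h1, h2]
    have hq : (algebraMap ℤ ℂ) (q : ℤ) = T * (q / T) := by
      rw [mul_div_cancel₀ _ hT]
      simp
    rw [hq]
    ring

private theorem zero_hOf_deg {q g : ℕ} (hg : 1 ≤ g) (γ : ℕ → ℤ) : (hOf q g γ).natDegree ≤ g := by
  rw [hOf]
  refine (natDegree_add_le _ _).trans (max_le ((natDegree_add_le _ _).trans (max_le ?_ ?_)) ?_)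
  · exact (zero_dk_deg (q : ℤ) g).1
  · refine natDegree_sum_le_of_forall_le _ _ fun i hi => ?_
    refine (natDegree_C_mul_le _ _).trans ((zero_dk_deg (q : ℤ) (g - i)).1.trans ?_)
    omega
  · rw [natDegree_C]
    omega

private theorem zero_hOf_coeff {q g : ℕ} (hg : 1 ≤ g) (γ : ℕ → ℤ) : (hOf q g γ).coeff g = 1 := by
  rw [hOf, coeff_add, coeff_add, finset_sum_coeff]
  have h1 : (dickson 1 (q : ℤ) g).coeff g = 1 := by
    obtain ⟨m, rfl⟩ : ∃ m, g = m + 1 := ⟨g - 1, by omega⟩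
    exact zero_dk_lead _ m
  have h2 : ∑ i ∈ Finset.Ico 1 g, (C (γ i) * dickson 1 (q : ℤ) (g - i)).coeff g = 0 := by
    refine Finset.sum_eq_zero fun i hi => ?_
    rw [Finset.mem_Ico] at hi
    rw [coeff_C_mul, coeff_eq_zero_of_natDegree_lt
      (lt_of_le_of_lt (zero_dk_deg (q : ℤ) (g - i)).1 (by omega)), mul_zero]
  have h3 : (C (2 * γ g) : ℤ[X]).coeff g = 0 := coeff_C_ne_zero (by omega)
  rw [h1, h2, h3]
  ring

theorem hOf_monic {q g : ℕ} (hg : 1 ≤ g) (γ : ℕ → ℤ) :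
    (hOf q g γ).Monic ∧ (hOf q g γ).natDegree = g := by
  have h1 := zero_hOf_deg (q := q) hg γ
  have h2 := zero_hOf_coeff (q := q) hg γ
  refine ⟨monic_of_natDegree_le_of_coeff_eq_one g h1 h2, le_antisymm h1 ?_⟩
  exact le_natDegree_of_ne_zero (by rw [h2]; exact one_ne_zero)

theorem hOf_inj {q g : ℕ} (hg : 1 ≤ g) {γ γ' : ℕ → ℤ} (h : hOf q g γ = hOf q g γ') :
    ∀ i, 1 ≤ i → i ≤ g → γ i = γ' i := by
  have hs : ∑ i ∈ Finset.Ico 1 g, C (γ i - γ' i) * dickson 1 (q : ℤ) (g - i) +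
      C (2 * (γ g - γ' g)) = 0 := by
    have h' := sub_eq_zero.mpr h
    rw [hOf, hOf] at h'
    rw [← h']
    have : ∑ i ∈ Finset.Ico 1 g, C (γ i - γ' i) * dickson 1 (q : ℤ) (g - i) =
        ∑ i ∈ Finset.Ico 1 g, C (γ i) * dickson 1 (q : ℤ) (g - i) -
        ∑ i ∈ Finset.Ico 1 g, C (γ' i) * dickson 1 (q : ℤ) (g - i) := by
      rw [← Finset.sum_sub_distrib]
      refine Finset.sum_congr rfl fun i _ => ?_
      rw [C_sub, sub_mul]
    rw [this, mul_sub, C_sub]
    ring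
  intro i
  induction i using Nat.strong_induction_on with
  | _ i ih =>
    intro h1 hig
    have hc := congrArg (fun p : ℤ[X] => p.coeff (g - i)) hs
    simp only [coeff_add, finset_sum_coeff, coeff_zero] at hc
    rcases Nat.lt_or_ge i g with hlt | hge
    · rw [coeff_C_ne_zero (by omega), add_zero,
        Finset.sum_eq_single i] at hc
      · rw [coeff_C_mul] at hc
        have h3 : (dickson 1 (q : ℤ) (g - i)).coeff (g - i) = 1 := by
          obtain ⟨m, hm⟩ : ∃ m, g - i = m + 1 := ⟨g - i - 1, by omega⟩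
          rw [hm]
          exact zero_dk_lead _ m
        rw [h3, mul_one] at hc
        linarith
      · intro j hj hji
        rw [Finset.mem_Ico] at hj
        rcases Nat.lt_or_gt_of_ne hji with hl | hl
        · rw [ih j hl hj.1 (by omega), sub_self, C_0, zero_mul, coeff_zero]
        · rw [coeff_C_mul, coeff_eq_zero_of_natDegree_lt
            (lt_of_le_of_lt (zero_dk_deg (q : ℤ) (g - j)).1 (by omega)), mul_zero]
      · intro hi
        exact absurd (Finset.mem_Ico.mpr ⟨h1, hlt⟩) hi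
    · have hgi : i = g := le_antisymm hig hge
      subst hgi
      rw [Finset.sum_eq_zero, Nat.sub_self, coeff_C_zero, zero_add] at hc
      · linarith
      · intro j hj
        rw [Finset.mem_Ico] at hj
        rw [ih j hj.2 hj.1 hj.2.le, sub_self, C_0, zero_mul, coeff_zero]

/-- The maximum principle. -/
private theorem zero_key {g : ℕ} (hg : 1 ≤ g) (c : ℕ → ℝ)
    (hz : ∀ z : ℂ, ‖z‖ ≤ 1 → ∑ i ∈ Finset.range (g + 1), (c i : ℂ) * z ^ i ≠ 0)
    (w : ℂ) (hw : ‖w‖ < 1) :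
    w ^ g * ∑ i ∈ Finset.range (g + 1), (c i : ℂ) * w ^ (g - i) +
      ∑ i ∈ Finset.range (g + 1), (c i : ℂ) * w ^ i ≠ 0 := by
  set A : ℂ → ℂ := fun z => ∑ i ∈ Finset.range (g + 1), (c i : ℂ) * z ^ i with hA
  set B : ℂ → ℂ := fun z => ∑ i ∈ Finset.range (g + 1), (c i : ℂ) * z ^ (g - i) with hB
  have hdA : Differentiable ℂ A := by
    rw [hA]
    fun_prop
  have hdB : Differentiable ℂ B := by
    rw [hB]
    fun_prop
  have hAB : ∀ z : ℂ, ‖z‖ = 1 → ‖B z‖ = ‖A z‖ := by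
    intro z h1
    have hz0 : z ≠ 0 := by
      intro h0
      rw [h0, norm_zero] at h1
      exact zero_ne_one h1
    have h2 : (starRingEnd ℂ) z = z⁻¹ := by
      rw [Complex.inv_def, Complex.normSq_eq_norm_sq, h1]
      simp
    have h3 : B z = z ^ g * (starRingEnd ℂ) (A z) := by
      rw [hA, hB]
      simp only [map_sum, map_mul, map_pow, Complex.conj_ofReal, h2]
      rw [Finset.mul_sum]
      refine Finset.sum_congr rfl fun i hi => ?_
      rw [Finset.mem_range] at hi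
      rw [show z ^ g = z ^ (g - i) * z ^ i by rw [← pow_add]; congr 1; omega, inv_pow]
      field_simp
    rw [h3, norm_mul, norm_pow, h1, one_pow, one_mul, RCLike.norm_conj]
  have hball : Bornology.IsBounded (Metric.ball (0 : ℂ) 1) := Metric.isBounded_ball
  have hf : DiffContOnCl ℂ (fun z => B z / A z) (Metric.ball (0 : ℂ) 1) := by
    refine ⟨?_, ?_⟩
    · intro z hzz
      refine (DifferentiableAt.div hdB.differentiableAt hdA.differentiableAt
        (hz z ?_)).differentiableWithinAt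
      rw [Metric.mem_ball, dist_zero_right] at hzz
      exact hzz.le
    · rw [closure_ball (0 : ℂ) one_ne_zero]
      intro z hzz
      refine (ContinuousAt.div hdB.continuous.continuousAt hdA.continuous.continuousAt
        (hz z ?_)).continuousWithinAt
      rwa [Metric.mem_closedBall, dist_zero_right] at hzz
  have hfr : ∀ z ∈ frontier (Metric.ball (0 : ℂ) 1), ‖B z / A z‖ ≤ 1 := by
    intro z hzz
    rw [frontier_ball (0 : ℂ) one_ne_zero, Metric.mem_sphere, dist_zero_right] at hzz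
    rw [norm_div, hAB z hzz]
    exact div_self_le_one _
  have hle : ‖B w / A w‖ ≤ 1 := by
    refine Complex.norm_le_of_forall_mem_frontier_norm_le hball hf hfr (subset_closure ?_)
    rwa [Metric.mem_ball, dist_zero_right]
  have hAw : A w ≠ 0 := hz w hw.le
  have hBA : ‖B w‖ ≤ ‖A w‖ := by
    rw [norm_div, div_le_one (norm_pos_iff.mpr hAw)] at hle
    exact hle
  intro h0
  have h4 : A w = - (w ^ g * B w) := by
    linear_combination h0
  have h5 : ‖A w‖ = ‖w‖ ^ g * ‖B w‖ := by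
    conv_lhs => rw [h4]
    rw [norm_neg, norm_mul, norm_pow]
  have h6 : ‖w‖ ^ g < 1 := pow_lt_one₀ (norm_nonneg _) hw (by omega)
  have h7 : 0 < ‖A w‖ := norm_pos_iff.mpr hAw
  have h8 : ‖w‖ ^ g * ‖B w‖ ≤ ‖w‖ ^ g * ‖A w‖ :=
    mul_le_mul_of_nonneg_left hBA (pow_nonneg (norm_nonneg _) _)
  nlinarith

theorem trace_of_zero_free {q g : ℕ} (hq : 1 ≤ q) (hg : 1 ≤ g) (γ : ℕ → ℤ) (h0 : γ 0 = 1)
    (hz : ∀ z : ℂ, ‖z‖ ≤ 1 →
      ∑ i ∈ Finset.range (g + 1), (γ i : ℂ) * (((√q)⁻¹ : ℝ) : ℂ) ^ i * z ^ i ≠ 0) :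
    IsTrace q g (hOf q g γ) := by
  refine ⟨(hOf_monic hg γ).1, (hOf_monic hg γ).2, fun x hx => ?_⟩
  have hq0 : (0 : ℝ) < q := by exact_mod_cast (by omega : 0 < q)
  have hqC : (q : ℂ) ≠ 0 := by exact_mod_cast (by omega : q ≠ 0)
  have hσ : 0 < √(q : ℝ) := Real.sqrt_pos.mpr hq0
  set σ : ℂ := ((√(q : ℝ) : ℝ) : ℂ) with hσd
  have hσ0 : σ ≠ 0 := by
    rw [hσd]
    exact_mod_cast hσ.ne'
  have hσ2 : σ ^ 2 = q := by
    rw [hσd]
    have := Real.sq_sqrt hq0.le
    exact_mod_cast this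
  obtain ⟨s, hs⟩ := IsAlgClosed.exists_pow_nat_eq (x ^ 2 - 4 * (q : ℂ)) (n := 2) (by norm_num)
  set T : ℂ := (x + s) / 2 with hT
  have hTq : T ^ 2 - x * T + q = 0 := by
    rw [hT]
    linear_combination hs / 4
  have hT0 : T ≠ 0 := by
    intro h
    rw [h] at hTq
    apply hqC
    linear_combination hTq
  have hxT : x = T + q / T := by
    field_simp
    linear_combination -hTq
  set z : ℂ := T / σ with hzd
  have hz0 : z ≠ 0 := div_ne_zero hT0 hσ0
  have hTz : T = σ * z := by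
    rw [hzd]
    field_simp
  have hqT : (q : ℂ) / T = σ * z⁻¹ := by
    rw [hTz, ← hσ2]
    field_simp
  -- the equation
  have hE : ∑ i ∈ Finset.range (g + 1), (γ i : ℂ) * (T ^ (g - i) + (q / T) ^ (g - i)) = 0 := by
    rw [hxT, hOf] at hx
    rw [map_add, map_add, (zero_dk_eval q T hT0 g).1, map_sum, aeval_C] at hx
    rw [Finset.sum_range_succ, Nat.sub_self, pow_zero, pow_zero, Finset.range_eq_Ico,
      Finset.sum_eq_sum_Ico_succ_bot (by omega), h0, Nat.sub_zero]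
    rw [← hx]
    have hh : ∑ i ∈ Finset.Ico 1 g, aeval (T + q / T) (C (γ i) * dickson 1 (q : ℤ) (g - i)) =
        ∑ i ∈ Finset.Ico 1 g, (γ i : ℂ) * (T ^ (g - i) + (q / T) ^ (g - i)) := by
      refine Finset.sum_congr rfl fun i _ => ?_
      rw [map_mul, (zero_dk_eval q T hT0 (g - i)).1, aeval_C]
      simp
    rw [hh]
    simp only [zero_add, Int.cast_one, one_mul, eq_intCast, Int.cast_mul, Int.cast_ofNat]
    ring
  set c : ℕ → ℝ := fun i => (γ i : ℝ) * (√(q : ℝ))⁻¹ ^ i with hc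
  have hcz : ∀ w : ℂ, ‖w‖ ≤ 1 → ∑ i ∈ Finset.range (g + 1), (c i : ℂ) * w ^ i ≠ 0 := by
    intro w hw
    have := hz w hw
    intro h
    apply this
    rw [← h]
    refine Finset.sum_congr rfl fun i _ => ?_
    rw [hc]
    push_cast
    ring
  have hcc : ∀ i, (c i : ℂ) = (γ i : ℂ) * σ⁻¹ ^ i := by
    intro i
    rw [hc, hσd]
    push_cast
    ring
  have hE2 : ∑ i ∈ Finset.range (g + 1), (c i : ℂ) * (z ^ (g - i) + z⁻¹ ^ (g - i)) = 0 := by
    have h1 : σ ^ g * ∑ i ∈ Finset.range (g + 1), (c i : ℂ) * (z ^ (g - i) + z⁻¹ ^ (g - i)) =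
        ∑ i ∈ Finset.range (g + 1), (γ i : ℂ) * (T ^ (g - i) + (q / T) ^ (g - i)) := by
      rw [Finset.mul_sum]
      refine Finset.sum_congr rfl fun i hi => ?_
      rw [Finset.mem_range] at hi
      rw [hqT, hTz, hcc, mul_pow, mul_pow,
        show σ ^ g = σ ^ (g - i) * σ ^ i by rw [← pow_add]; congr 1; omega, inv_pow]
      field_simp
    rw [hE] at h1
    exact (mul_eq_zero.mp h1).resolve_left (pow_ne_zero _ hσ0)
  have hrev : ∀ w : ℂ, w ≠ 0 → w ^ g * ∑ i ∈ Finset.range (g + 1), (c i : ℂ) * w⁻¹ ^ (g - i) =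
      ∑ i ∈ Finset.range (g + 1), (c i : ℂ) * w ^ i := by
    intro w hw
    rw [Finset.mul_sum]
    refine Finset.sum_congr rfl fun i hi => ?_
    rw [Finset.mem_range] at hi
    rw [show w ^ g = w ^ i * w ^ (g - i) by rw [← pow_add]; congr 1; omega, inv_pow]
    field_simp
  have hkey : ∀ w : ℂ, w ≠ 0 →
      ∑ i ∈ Finset.range (g + 1), (c i : ℂ) * (w ^ (g - i) + w⁻¹ ^ (g - i)) = 0 → ¬ ‖w‖ < 1 := by
    intro w hw hww hlt
    apply zero_key hg c hcz w hlt
    rw [← hrev w hw, ← mul_add, ← Finset.sum_add_distrib]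
    have : ∑ i ∈ Finset.range (g + 1), ((c i : ℂ) * w ^ (g - i) + (c i : ℂ) * w⁻¹ ^ (g - i)) =
        ∑ i ∈ Finset.range (g + 1), (c i : ℂ) * (w ^ (g - i) + w⁻¹ ^ (g - i)) := by
      refine Finset.sum_congr rfl fun i _ => ?_
      ring
    rw [this, hww, mul_zero]
  have hz1 : ¬ ‖z‖ < 1 := hkey z hz0 hE2
  have hz2 : ¬ ‖z⁻¹‖ < 1 := by
    apply hkey z⁻¹ (inv_ne_zero hz0)
    rw [← hE2]
    refine Finset.sum_congr rfl fun i _ => ?_
    rw [inv_inv]
    ring
  have hz3 : ‖z‖ = 1 := by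
    rw [norm_inv] at hz2
    have hzp : 0 < ‖z‖ := norm_pos_iff.mpr hz0
    refine le_antisymm ?_ (not_lt.mp hz1)
    by_contra hcon
    exact hz2 (inv_lt_one_of_one_lt₀ (not_le.mp hcon))
  have hconj : z⁻¹ = (starRingEnd ℂ) z := by
    rw [Complex.inv_def, Complex.normSq_eq_norm_sq, hz3]
    simp
  refine ⟨2 * √(q : ℝ) * z.re, ?_, ?_⟩
  · rw [hxT, hqT, hTz, hconj, ← mul_add, Complex.add_conj, hσd]
    push_cast
    ring
  · have h1 : z.re ^ 2 ≤ 1 := by
      have := Complex.abs_re_le_norm z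
      rw [hz3] at this
      have h2 := abs_nonneg z.re
      rw [← sq_abs]
      nlinarith
    have h3 := Real.sq_sqrt hq0.le
    have : (2 * √(q : ℝ) * z.re) ^ 2 = 4 * q * z.re ^ 2 := by
      rw [mul_pow, mul_pow, h3]
      ring
    rw [this]
    nlinarith

end Pool.Agent.Helper84.AA
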