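import Pool.Agent.Helper84.AA.Fin
import Pool.Agent.Helper84.AA.Zero
import Pool.Agent.Helper84.AA.Round
import Pool.Agent.Helper84.AA.Margin

/-!
# AA-17: the number of trace polynomials is at least a volume

PROOF.  For `γ : Fin g → ℤ` let `γ' : ℕ → ℤ`, `γ' 0 = 1`, `γ' (i+1) = γ i` for `i < g`, `0` beyond, and
`F γ = hOf q g γ'`.  `F` is injective (`hOf_inj`), so `Γ = {γ | F γ ∈ traceSet q g}` is finite with at most
`(traceSet q g).ncard` elements (`traceSet_finite`).  Let `Y' = {(σ^(i+1) y_i) | y ∈ Y}`, `σ = √q`.  For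
`b = (σ^(i+1) y_i) ∈ Y'` let `γ, u` be as in `exists_round`; by `margin` the polynomial
`1 + ∑ γ_i σ^(-(i+1)) z^(i+1)` is zero free on the closed disc, so `F γ` is a trace polynomial
(`trace_of_zero_free`; the sum over `range (g+1)` is `Apoly`: `Finset.sum_range_succ'`, `Fin.sum_univ_eq_sum_range`),
i.e. `γ ∈ Γ`.  `vol_le_card` and `scale_volume` with `∏ σ^(i+1) = σ^(g(g+1)/2)` give the claim.
-/

open MeasureTheory

namespace Pool.Agent.Helper84.AA

/-- The extension of a vector of integers by `1` at `0`. -/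
private def ext1 {g : ℕ} (γ : Fin g → ℤ) : ℕ → ℤ
  | 0 => 1
  | i + 1 => if h : i < g then γ ⟨i, h⟩ else 0

private lemma ext1_succ {g : ℕ} (γ : Fin g → ℤ) (i : Fin g) : ext1 γ ((i : ℕ) + 1) = γ i := by
  simp [ext1]

private lemma hOf_ext_inj {q g : ℕ} (hg : 1 ≤ g) :
    Function.Injective fun γ : Fin g → ℤ => hOf q g (ext1 γ) := by
  intro γ γ' h
  funext i
  have := hOf_inj hg h ((i : ℕ) + 1) (by omega) (by omega)
  simpa [ext1_succ] using this

private lemma sum_ext1 {g : ℕ} (γ : Fin g → ℤ) (σ : ℝ) (z : ℂ) :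
    ∑ i ∈ Finset.range (g + 1), (ext1 γ i : ℂ) * ((σ⁻¹ : ℝ) : ℂ) ^ i * z ^ i =
      Apoly (fun i => (γ i : ℝ) * σ⁻¹ ^ ((i : ℕ) + 1)) z := by
  rw [Finset.sum_range_succ', Apoly, add_comm]
  congr 1
  · simp [ext1]
  · rw [← Fin.sum_univ_eq_sum_range
      (fun i => (ext1 γ (i + 1) : ℂ) * ((σ⁻¹ : ℝ) : ℂ) ^ (i + 1) * z ^ (i + 1)) g]
    refine Finset.sum_congr rfl fun i _ => ?_
    rw [ext1_succ]
    push_cast
    ring

private lemma prod_scale (g : ℕ) (σ : ℝ) :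
    ∏ i : Fin g, σ ^ ((i : ℕ) + 1) = σ ^ (g * (g + 1) / 2) := by
  rw [Fin.prod_univ_eq_prod_range (fun i => σ ^ (i + 1)) g, Finset.prod_pow_eq_pow_sum]
  congr 1
  have h := Finset.sum_range_id_mul_two (g + 1)
  rw [Finset.sum_range_succ'] at h
  simp only [add_zero, Nat.add_sub_cancel] at h
  rw [mul_comm g (g + 1), ← h, Nat.mul_div_cancel _ (by norm_num)]

theorem trace_count {q g : ℕ} (hq : 16 ≤ q) (hg : 1 ≤ g) (m : ℝ) (hm : 0 < m)
    (Y : Set (Fin g → ℝ))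
    (hY : ∀ y ∈ Y, (∀ z : ℂ, ‖z‖ ≤ 1 → m ≤ ‖Apoly y z‖) ∧
      (3 / 8 : ℝ) ^ g + ∑ i : Fin g, |y i| * (3 / 8 : ℝ) ^ (g - 1 - (i : ℕ)) ≤ 3 * m) :
    ENNReal.ofReal (√q ^ (g * (g + 1) / 2)) * volume Y ≤ ((traceSet q g).ncard : ENNReal) := by
  classical
  have hσ : 0 < √(q : ℝ) := Real.sqrt_pos.mpr (by
    have : 0 < q := by omega
    exact_mod_cast this)
  have hfin : {γ : Fin g → ℤ | hOf q g (ext1 γ) ∈ traceSet q g}.Finite :=
    (traceSet_finite q g).preimage ((hOf_ext_inj hg).injOn)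
  rw [← prod_scale, ← scale_volume (fun i : Fin g => √(q : ℝ) ^ ((i : ℕ) + 1))
    (fun i => pow_pos hσ _) Y]
  refine (vol_le_card _ hfin.toFinset ?_).trans ?_
  · rintro _ ⟨y, hy, rfl⟩
    obtain ⟨γ, u, hu, hb⟩ := exists_round (fun i : Fin g => √(q : ℝ) ^ ((i : ℕ) + 1) * y i)
    refine ⟨γ, ?_, u, hu, hb⟩
    rw [Set.Finite.mem_toFinset]
    have hmar := margin hq y u (fun i => (γ i : ℝ)) m hm hu hb (hY y hy).1 (hY y hy).2
    refine trace_of_zero_free (by omega) hg (ext1 γ) rfl ?_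
    intro z hz
    rw [sum_ext1]
    exact hmar z hz
  · rw [← Set.ncard_eq_toFinset_card _ hfin]
    have : {γ : Fin g → ℤ | hOf q g (ext1 γ) ∈ traceSet q g}.ncard ≤ (traceSet q g).ncard :=
      Set.ncard_le_ncard_of_injOn (fun γ => hOf q g (ext1 γ)) (fun γ hγ => hγ)
        ((hOf_ext_inj hg).injOn) (traceSet_finite q g)
    exact_mod_cast this

end Pool.Agent.Helper84.AA
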