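import Pool.Agent.Helper84.AA.Fin
import Pool.Agent.Helper84.AA.Newton

/-!
# AA-04: the moments of the points of a trace polynomial

PROOFS.  Let `x` be a real root, `c = x / (2 √q)`, `|c| ≤ 1` (`x^2 ≤ 4 q`, `q ≥ 1`), `z = c + i √(1-c^2)`:
`|z| = 1` and `z = exp (i arccos c)`, `Re z^k = cos (k arccos c) = (Chebyshev.T ℝ k).eval c`
(`Polynomial.Chebyshev.T_real_cos`, `Real.cos_arccos`).
`mom_congr`: `(Chebyshev.T ℝ k).comp (C (2 √q)⁻¹ * X)` is a real polynomial `P_k` of degree at most `k`,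
whose coefficient of `X^k` is `1 / (2 √q^k)` for `k ≥ 1` (leading coefficient of `T_k` is `2^(k-1)`:
Mathlib `Chebyshev.leadingCoeff_T`/`natDegree_T` if available, otherwise the induction
`T_(k+2) = 2 X T_(k+1) - T_k`).  So `mom (pts q h) k = ∑_x P_k(x) = ∑_{j ≤ k} P_k.coeff j * p_j`, `p_j` the
power sums of the roots, and `newton_diff` (for the real polynomials `h.map ℝ`, which split by
`trace_real`) gives the two statements.
-/

open Polynomial

namespace Pool.Agent.Helper84.AA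

private theorem pt_eq {c : ℝ} (hc : c ^ 2 ≤ 1) :
    (c : ℂ) + Complex.I * ((√(1 - c ^ 2) : ℝ) : ℂ) =
      Complex.exp ((Real.arccos c : ℝ) * Complex.I) := by
  have h1 : -1 ≤ c := by nlinarith [sq_nonneg (c + 1), sq_nonneg (c - 1)]
  have h2 : c ≤ 1 := by nlinarith [sq_nonneg (c + 1), sq_nonneg (c - 1)]
  rw [Complex.exp_mul_I, ← Complex.ofReal_cos, ← Complex.ofReal_sin, Real.cos_arccos h1 h2,
    Real.sin_arccos]
  ring

private theorem ratio_sq {q : ℕ} (hq : 1 ≤ q) {x : ℝ} (hx : x ^ 2 ≤ 4 * q) :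
    (x / (2 * √q)) ^ 2 ≤ 1 := by
  have hq' : (0 : ℝ) < q := by exact_mod_cast hq
  rw [div_pow, mul_pow, Real.sq_sqrt hq'.le]
  rw [div_le_one (by positivity)]
  linarith

theorem pts_norm {q g : ℕ} (hq : 1 ≤ q) {h : ℤ[X]} (hh : IsTrace q g h) :
    ∀ z ∈ pts q h, ‖z‖ = 1 := by
  intro z hz
  obtain ⟨x, hx, rfl⟩ := Multiset.mem_map.1 hz
  rw [pt_eq (ratio_sq hq ((trace_real hh).2.2.2.2 x hx))]
  exact Complex.norm_exp_ofReal_mul_I _

theorem pts_card {q g : ℕ} {h : ℤ[X]} (hh : IsTrace q g h) : (pts q h).card = g := by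
  rw [pts, Multiset.card_map]
  exact (trace_real hh).2.2.2.1

theorem mom_pts {q g : ℕ} (hq : 1 ≤ q) {h : ℤ[X]} (hh : IsTrace q g h) (k : ℕ) :
    mom (pts q h) k = ((h.map (Int.castRingHom ℝ)).roots.map
      fun x => (Chebyshev.T ℝ (k : ℤ)).eval (x / (2 * √q))).sum := by
  rw [mom, pts, Multiset.map_map]
  congr 1
  refine Multiset.map_congr rfl fun x hx => ?_
  have hc := ratio_sq hq ((trace_real hh).2.2.2.2 x hx)
  set c : ℝ := x / (2 * √q) with hcdef
  have h1 : -1 ≤ c := by nlinarith [sq_nonneg (c + 1), sq_nonneg (c - 1)]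
  have h2 : c ≤ 1 := by nlinarith [sq_nonneg (c + 1), sq_nonneg (c - 1)]
  have h3 : (Chebyshev.T ℝ (k : ℤ)).eval c = Real.cos ((k : ℝ) * Real.arccos c) := by
    have h4 := Chebyshev.T_real_cos (Real.arccos c) (k : ℤ)
    rw [Real.cos_arccos h1 h2] at h4
    rw [h4]
    push_cast
    rfl
  rw [h3, Function.comp_apply, pt_eq hc, ← Complex.exp_nat_mul]
  have h5 : (k : ℂ) * ((Real.arccos c : ℝ) * Complex.I) =
      (((k : ℝ) * Real.arccos c : ℝ) : ℂ) * Complex.I := by
    push_cast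
    ring
  rw [h5, Complex.exp_ofReal_mul_I_re]

private theorem sum_eval (s : Multiset ℝ) (P : ℝ[X]) {m : ℕ} (hm : P.natDegree < m) :
    (s.map fun x => P.eval x).sum =
      ∑ j ∈ Finset.range m, P.coeff j * (s.map (· ^ j)).sum := by
  induction s using Multiset.induction_on with
  | empty => simp
  | cons a s ih =>
    simp only [Multiset.map_cons, Multiset.sum_cons, ih, mul_add, Finset.sum_add_distrib]
    rw [eval_eq_sum_range' hm]

private theorem mom_sum {q g : ℕ} (hq : 1 ≤ q) {h : ℤ[X]} (hh : IsTrace q g h) (k : ℕ) :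
    mom (pts q h) k = ∑ j ∈ Finset.range (k + 1),
      ((Chebyshev.T ℝ (k : ℤ)).comp (C (2 * √q)⁻¹ * X)).coeff j *
        ((h.map (Int.castRingHom ℝ)).roots.map (· ^ j)).sum := by
  rw [mom_pts hq hh, ← sum_eval]
  · congr 1
    refine Multiset.map_congr rfl fun x _ => ?_
    rw [eval_comp, eval_mul, eval_C, eval_X, div_eq_inv_mul]
  · refine Nat.lt_succ_of_le ((natDegree_comp_le).trans ?_)
    rw [Chebyshev.natDegree_T, Int.natAbs_natCast]
    calc k * (C (2 * √(q : ℝ))⁻¹ * X : ℝ[X]).natDegree ≤ k * 1 :=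
          Nat.mul_le_mul_left _ ((natDegree_C_mul_le _ _).trans natDegree_X_le)
      _ = k := mul_one k

theorem mom_congr {q g n : ℕ} (hq : 1 ≤ q) (hn : n + 1 ≤ g) {h h' : ℤ[X]} (hh : IsTrace q g h)
    (hh' : IsTrace q g h') (hc : ∀ j ≤ n, h.coeff (g - j) = h'.coeff (g - j)) :
    (∀ k ≤ n, mom (pts q h) k = mom (pts q h') k) ∧
      mom (pts q h) (n + 1) - mom (pts q h') (n + 1) =
        -(((n : ℝ) + 1) / (2 * √q ^ (n + 1))) *
          ((h.coeff (g - (n + 1)) : ℝ) - h'.coeff (g - (n + 1))) := by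
  have r := trace_real hh
  have r' := trace_real hh'
  have hN := newton_diff hn r.2.1 r'.2.1 r.2.2.1 r'.2.2.1 r.1 r'.1 (fun j hj => by
    rw [coeff_map, coeff_map, hc j hj])
  refine ⟨fun k hk => ?_, ?_⟩
  · rw [mom_sum hq hh, mom_sum hq hh']
    refine Finset.sum_congr rfl fun j hj => ?_
    rw [hN.1 j (by have := Finset.mem_range.1 hj; omega)]
  · rw [mom_sum hq hh, mom_sum hq hh', Finset.sum_range_succ, Finset.sum_range_succ _ (n + 1)]
    have h1 : ∑ j ∈ Finset.range (n + 1),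
        ((Chebyshev.T ℝ ((n + 1 : ℕ) : ℤ)).comp (C (2 * √q)⁻¹ * X)).coeff j *
          ((h.map (Int.castRingHom ℝ)).roots.map (· ^ j)).sum =
        ∑ j ∈ Finset.range (n + 1),
        ((Chebyshev.T ℝ ((n + 1 : ℕ) : ℤ)).comp (C (2 * √q)⁻¹ * X)).coeff j *
          ((h'.map (Int.castRingHom ℝ)).roots.map (· ^ j)).sum := by
      refine Finset.sum_congr rfl fun j hj => ?_
      rw [hN.1 j (by have := Finset.mem_range.1 hj; omega)]
    have hq' : (0 : ℝ) < q := by exact_mod_cast hq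
    have hs : 0 < √(q : ℝ) := Real.sqrt_pos.2 hq'
    have h2 : ((Chebyshev.T ℝ ((n + 1 : ℕ) : ℤ)).comp (C (2 * √q)⁻¹ * X)).coeff (n + 1) =
        1 / (2 * √q ^ (n + 1)) := by
      rw [comp_C_mul_X_coeff]
      have h3 := Chebyshev.leadingCoeff_T ℝ ((n + 1 : ℕ) : ℤ)
      rw [leadingCoeff, Chebyshev.natDegree_T, Int.natAbs_natCast, Nat.add_sub_cancel] at h3
      rw [h3, inv_pow, mul_pow, pow_succ (2 : ℝ) n]
      field_simp
    have h4 := hN.2
    rw [coeff_map, coeff_map] at h4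
    simp only [eq_intCast] at h4
    rw [h1, h2]
    have h5 : ∀ a b c d : ℝ, a + c * b - (a + c * d) = c * (b - d) := by
      intro a b c d
      ring
    rw [h5, h4]
    ring

end Pool.Agent.Helper84.AA
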