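import Pool.Agent.Helper84.AA.Rec

/-!
# AA-08: the upper bound for the number of prefixes

PROOFS.  Let `σ = √q ≥ 2`, `Π(k, n) = ∏_{j < n} Ik (k + j)`, `M(n, k) = g^(n+k) ∏_{i=1}^n (2 σ^i / i) Π(k, n)`,
`c_n = ∏_{i=1}^n (1 + ε_i)`, `ε_i = i / (16/5 * σ^i)`.
Claim: `SS q g n k ≤ c_n M(n, k)` whenever `n + k ≤ g`.  Induction on `n`: `n = 0` is `SS_zero_le`.
Step: `rec_step` and the claim for `(n, k+1)` and `(n, k)` (both allowed if `n + 1 + k ≤ g`):
`2σ^(n+1)/(n+1) Ik k M(n, k+1) = M(n+1, k)` (as `Ik k * Π(k+1, n) = Π(k, n+1)`), and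
`M(n, k) = M(n+1, k) * (n+1) / (2 g σ^(n+1) Ik (k+n))`, where `k + n + 1 ≤ g`, so
`g * Ik (k+n) ≥ g * Ik (g-1) ≥ g * (8/5)/√g ≥ 8/5` (`Ik_anti`, `Ik_lower`), so
`M(n, k) ≤ ε_(n+1) M(n+1, k)`.
`c_n ≤ exp(∑ ε_i) ≤ 2`: `∑_{i≥1} i / 2^i = 2` (finite sums: `∑_{i=1}^n i/2^i = 2 - (n+2)/2^n`), so the sum of the
`ε_i` is at most `2 / (16/5) = 5/8` and `exp(5/8) < 2` (`Real.exp_one_lt_d9`: `exp(5/8)^8 = e^5 < 2^8`).
`k = 0`: `SS q g n 0 = card`; `∏_{i=1}^n (2σ^i/i) = 2^n σ^(n(n+1)/2) / n!`.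
`Jset_card`: the map `t ↦ X u + C t` sends `Jset` injectively into the fiber of `u` in
`preSet q g g = traceSet q g` (`pre_self`); `fiber_card` with `n + 1 = g`.
-/

open Polynomial

namespace Pool.Agent.Helper84.AA

private noncomputable def upA (σ : ℝ) (n : ℕ) : ℝ :=
  ∏ i ∈ Finset.range n, 2 * σ ^ (i + 1) / ((i : ℝ) + 1)

private noncomputable def upP (k n : ℕ) : ℝ := ∏ j ∈ Finset.range n, Ik (k + j)

private noncomputable def upM (σ : ℝ) (g n k : ℕ) : ℝ := (g : ℝ) ^ (n + k) * upA σ n * upP k n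

private noncomputable def upE (σ : ℝ) (i : ℕ) : ℝ := ((i : ℝ) + 1) / (16 / 5 * σ ^ (i + 1))

private noncomputable def upC (σ : ℝ) (n : ℕ) : ℝ := ∏ i ∈ Finset.range n, (1 + upE σ i)

private theorem upA_nonneg {σ : ℝ} (hσ : 0 ≤ σ) (n : ℕ) : 0 ≤ upA σ n :=
  Finset.prod_nonneg fun _ _ => by positivity

private theorem upP_nonneg (k n : ℕ) : 0 ≤ upP k n :=
  Finset.prod_nonneg fun i _ => (Ik_pos _).le

private theorem upM_nonneg {σ : ℝ} (hσ : 0 ≤ σ) (g n k : ℕ) : 0 ≤ upM σ g n k :=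
  mul_nonneg (mul_nonneg (by positivity) (upA_nonneg hσ n)) (upP_nonneg k n)

private theorem upE_nonneg {σ : ℝ} (hσ : 0 ≤ σ) (n : ℕ) : 0 ≤ upE σ n := by
  unfold upE
  positivity

private theorem upC_nonneg {σ : ℝ} (hσ : 0 ≤ σ) (n : ℕ) : 0 ≤ upC σ n :=
  Finset.prod_nonneg fun i _ => by
    have := upE_nonneg hσ i
    linarith

private theorem upM_first (σ : ℝ) (g n k : ℕ) :
    2 * σ ^ (n + 1) / ((n : ℝ) + 1) * Ik k * upM σ g n (k + 1) = upM σ g (n + 1) k := by
  have h1 : upP k (n + 1) = upP (k + 1) n * Ik k := by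
    unfold upP
    rw [Finset.prod_range_succ']
    congr 1
    refine Finset.prod_congr rfl fun j _ => ?_
    congr 1
    ring
  have h2 : upA σ (n + 1) = upA σ n * (2 * σ ^ (n + 1) / ((n : ℝ) + 1)) := by
    unfold upA
    rw [Finset.prod_range_succ]
  unfold upM
  rw [h1, h2, show n + 1 + k = n + (k + 1) by ring]
  ring

private theorem upM_second {σ : ℝ} (hσ : 0 < σ) {g n k : ℕ} (h : n + 1 + k ≤ g) :
    upM σ g n k ≤ upE σ n * upM σ g (n + 1) k := by
  have h1 : upP k (n + 1) = upP k n * Ik (k + n) := by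
    unfold upP
    rw [Finset.prod_range_succ]
  have h2 : upA σ (n + 1) = upA σ n * (2 * σ ^ (n + 1) / ((n : ℝ) + 1)) := by
    unfold upA
    rw [Finset.prod_range_succ]
  have hg1 : 1 ≤ g := by omega
  have hgr : (1 : ℝ) ≤ g := by exact_mod_cast hg1
  have h3 : 8 / 5 ≤ (g : ℝ) * Ik (k + n) := by
    have h4 : Ik (g - 1) ≤ Ik (k + n) := Ik_anti (by omega)
    have h5 := Ik_lower (g - 1)
    have h6 : ((g - 1 : ℕ) : ℝ) + 1 = g := by
      rw [Nat.cast_sub hg1]
      push_cast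
      ring
    rw [h6] at h5
    have h7 : 1 ≤ √(g : ℝ) := by
      rw [Real.one_le_sqrt]
      exact hgr
    have h8 : (g : ℝ) * (8 / 5 / √(g : ℝ)) = 8 / 5 * √(g : ℝ) := by
      have h9 : √(g : ℝ) * √(g : ℝ) = g := Real.mul_self_sqrt (by positivity)
      have h10 : √(g : ℝ) ≠ 0 := by positivity
      field_simp
      nlinarith [h9]
    calc (8 / 5 : ℝ) ≤ 8 / 5 * √(g : ℝ) := by linarith
      _ = (g : ℝ) * (8 / 5 / √(g : ℝ)) := h8.symm
      _ ≤ (g : ℝ) * Ik (k + n) :=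
          mul_le_mul_of_nonneg_left (h5.trans h4) (by positivity)
  have hM := upM_nonneg hσ.le g n k
  have h11 : upE σ n * upM σ g (n + 1) k =
      upM σ g n k * ((g : ℝ) * Ik (k + n) * (5 / 8)) := by
    unfold upM upE
    rw [h1, h2, show n + 1 + k = n + k + 1 by ring, pow_succ]
    have h12 : σ ^ (n + 1) ≠ 0 := by positivity
    have h13 : (n : ℝ) + 1 ≠ 0 := by positivity
    field_simp
    ring
  rw [h11]
  nlinarith [mul_le_mul_of_nonneg_left h3 hM]

private theorem up_claim {q g : ℕ} (hq : 4 ≤ q) (n : ℕ) :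
    ∀ k, n + k ≤ g → SS q g n k ≤ upC (√q) n * upM (√q) g n k := by
  have hσ : 0 < √(q : ℝ) := by
    have : (0 : ℝ) < q := by exact_mod_cast (by omega : 0 < q)
    positivity
  induction n with
  | zero =>
    intro k hk
    refine (SS_zero_le (by omega) k).trans ?_
    simp [upC, upM, upA, upP]
  | succ n ih =>
    intro k hk
    have h1 := rec_step (q := q) (g := g) (n := n) (by omega) (by omega) k
    refine h1.trans ?_
    have h2 := ih (k + 1) (by omega)
    have h3 := ih k (by omega)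
    have h4 : 0 ≤ 2 * √(q : ℝ) ^ (n + 1) / ((n : ℝ) + 1) * Ik k :=
      mul_nonneg (by positivity) (Ik_pos k).le
    have h5 := upM_first (√q) g n k
    have h6 := upM_second hσ (g := g) (n := n) (k := k) (by omega)
    have h7 := upC_nonneg hσ.le n
    have h8 : upC (√q) (n + 1) = upC (√q) n * (1 + upE (√q) n) := by
      unfold upC
      rw [Finset.prod_range_succ]
    calc 2 * √(q : ℝ) ^ (n + 1) / ((n : ℝ) + 1) * Ik k * SS q g n (k + 1) + SS q g n k
        ≤ 2 * √(q : ℝ) ^ (n + 1) / ((n : ℝ) + 1) * Ik k *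
            (upC (√q) n * upM (√q) g n (k + 1)) + upC (√q) n * upM (√q) g n k :=
          add_le_add (mul_le_mul_of_nonneg_left h2 h4) h3
      _ = upC (√q) n * (upM (√q) g (n + 1) k + upM (√q) g n k) := by
          rw [← h5]
          ring
      _ ≤ upC (√q) n * (upM (√q) g (n + 1) k + upE (√q) n * upM (√q) g (n + 1) k) :=
          mul_le_mul_of_nonneg_left (by linarith) h7
      _ = upC (√q) (n + 1) * upM (√q) g (n + 1) k := by
          rw [h8]
          ring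

private theorem up_sum (n : ℕ) :
    ∑ i ∈ Finset.range n, ((i : ℝ) + 1) / 2 ^ (i + 1) = 2 - ((n : ℝ) + 2) / 2 ^ n := by
  induction n with
  | zero => norm_num
  | succ n ih =>
    rw [Finset.sum_range_succ, ih]
    push_cast
    rw [pow_succ]
    field_simp
    ring

private theorem upC_le {σ : ℝ} (hσ : 2 ≤ σ) (n : ℕ) : upC σ n ≤ 2 := by
  have h1 : upC σ n ≤ ∏ i ∈ Finset.range n, Real.exp (5 / 16 * (((i : ℝ) + 1) / 2 ^ (i + 1))) := by
    refine Finset.prod_le_prod (fun i _ => ?_) fun i _ => ?_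
    · have := upE_nonneg (by linarith : (0 : ℝ) ≤ σ) i
      linarith
    · have h2 : upE σ i ≤ 5 / 16 * (((i : ℝ) + 1) / 2 ^ (i + 1)) := by
        unfold upE
        have h3 : (2 : ℝ) ^ (i + 1) ≤ σ ^ (i + 1) := pow_le_pow_left₀ (by norm_num) hσ _
        have h4 : (5 / 16 * (((i : ℝ) + 1) / 2 ^ (i + 1))) = ((i : ℝ) + 1) / (16 / 5 * 2 ^ (i + 1)) := by
          field_simp
        rw [h4]
        exact div_le_div_of_nonneg_left (by positivity) (by positivity) (by linarith)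
      have h5 := Real.add_one_le_exp (5 / 16 * (((i : ℝ) + 1) / 2 ^ (i + 1)))
      linarith
  refine h1.trans ?_
  rw [← Real.exp_sum, ← Finset.mul_sum, up_sum]
  have h6 : 5 / 16 * (2 - ((n : ℝ) + 2) / 2 ^ n) ≤ Real.log 2 := by
    have h7 := Real.log_two_gt_d9
    have h8 : 0 ≤ ((n : ℝ) + 2) / 2 ^ n := by positivity
    norm_num at h7 ⊢
    linarith
  calc Real.exp (5 / 16 * (2 - ((n : ℝ) + 2) / 2 ^ n)) ≤ Real.exp (Real.log 2) :=
        Real.exp_le_exp.2 h6
    _ = 2 := Real.exp_log (by norm_num)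

private theorem upA_eq (σ : ℝ) (n : ℕ) :
    upA σ n = 2 ^ n / n.factorial * σ ^ (n * (n + 1) / 2) := by
  induction n with
  | zero => simp [upA]
  | succ n ih =>
    have h2 : upA σ (n + 1) = upA σ n * (2 * σ ^ (n + 1) / ((n : ℝ) + 1)) := by
      unfold upA
      rw [Finset.prod_range_succ]
    have h3 : (n + 1) * (n + 1 + 1) / 2 = n * (n + 1) / 2 + (n + 1) := by
      have h4 : (n + 1) * (n + 1 + 1) = n * (n + 1) + 2 * (n + 1) := by ring
      rw [h4, Nat.add_mul_div_left _ _ (by norm_num)]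
    rw [h2, ih, h3, Nat.factorial_succ, pow_add σ]
    push_cast
    have h5 : (n.factorial : ℝ) ≠ 0 := by positivity
    have h6 : (n : ℝ) + 1 ≠ 0 := by positivity
    field_simp
    ring

theorem upper {q g n : ℕ} (hq : 4 ≤ q) (hg : 1 ≤ g) (hn : n ≤ g) :
    ((preSet q g n).ncard : ℝ) ≤ 2 * (2 * g) ^ n / n.factorial * √q ^ (n * (n + 1) / 2) *
      ∏ j ∈ Finset.range n, Ik j := by
  have hσ : 2 ≤ √(q : ℝ) := by
    rw [Real.le_sqrt' (by norm_num)]
    have : (4 : ℝ) ≤ q := by exact_mod_cast hq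
    linarith
  have h1 := up_claim (g := g) hq n 0 (by omega)
  have h2 : SS q g n 0 = ((preSet q g n).ncard : ℝ) := by
    unfold SS
    rw [Set.ncard_eq_toFinset_card _ (preSet_finite q g n)]
    simp
  rw [h2] at h1
  refine h1.trans ?_
  have h3 := upM_nonneg (by linarith : (0 : ℝ) ≤ √(q : ℝ)) g n 0
  refine (mul_le_mul_of_nonneg_right (upC_le hσ n) h3).trans_eq ?_
  have h4 : upP 0 n = ∏ j ∈ Finset.range n, Ik j := by
    unfold upP
    simp
  unfold upM
  rw [upA_eq, h4, mul_pow, add_zero]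
  ring

theorem upper_trace {q g : ℕ} (hq : 4 ≤ q) (hg : 1 ≤ g) :
    ((traceSet q g).ncard : ℝ) ≤ 2 * (2 * g) ^ g / g.factorial * √q ^ (g * (g + 1) / 2) *
      ∏ j ∈ Finset.range g, Ik j := by
  rw [← pre_self]
  exact upper hq hg le_rfl

theorem Jset_card {q g : ℕ} (hq : 1 ≤ q) (hg : 1 ≤ g) {u : ℤ[X]} (hu : u ∈ preSet q g (g - 1)) :
    ((Jset q g u).ncard : ℝ) ≤ 4 * √q ^ g + 1 := by
  obtain ⟨n, rfl⟩ : ∃ n, g = n + 1 := ⟨g - 1, by omega⟩
  rw [Nat.add_sub_cancel] at hu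
  classical
  set F : Finset ℤ[X] := (Jset_finite q (n + 1) u).toFinset.image (fun t => X * u + C t) with hF
  have hinj : Function.Injective (fun t : ℤ => X * u + C t) := by
    intro s t hst
    have := add_left_cancel hst
    exact C_injective this
  have hcard : F.card = (Jset q (n + 1) u).ncard := by
    rw [hF, Finset.card_image_of_injective _ hinj,
      Set.ncard_eq_toFinset_card _ (Jset_finite q (n + 1) u)]
  have hmem : ∀ w ∈ F, w ∈ preSet q (n + 1) (n + 1) ∧ divX w = u := by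
    intro w hw
    rw [hF, Finset.mem_image] at hw
    obtain ⟨t, ht, rfl⟩ := hw
    rw [Set.Finite.mem_toFinset] at ht
    refine ⟨?_, ?_⟩
    · rw [pre_self]
      exact ht
    · ext i
      rw [coeff_divX, coeff_add, coeff_X_mul, coeff_C, if_neg (by omega), add_zero]
  have h1 := fiber_card (g := n + 1) (n := n) hq le_rfl hu F hmem
  rw [← hcard]
  refine h1.trans_eq ?_
  push_cast
  have h6 : (n : ℝ) + 1 ≠ 0 := by positivity
  field_simp

end Pool.Agent.Helper84.AA
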